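import Mathlib

/-!
# Gordan's alternative for abelian groups, and homomorphisms to the rationals
-/

set_option autoImplicit false
set_option linter.unusedSectionVars false
set_option linter.unnecessarySimpa false
set_option linter.unusedVariables false

namespace Pool.Agent.Hhelper12.MG

theorem exists_hom_one {G : Type*} [AddCommGroup G] (x : G) (hx : ∀ n : ℤ, n • x = 0 → n = 0) :
    ∃ F : G →+ ℚ, F x = 1 := by
  let f : ℤ →ₗ[ℤ] G := LinearMap.toSpanSingleton ℤ G x
  have hf : Function.Injective f := by
    rw [← LinearMap.ker_eq_bot, LinearMap.ker_eq_bot']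
    intro n hn
    exact hx n (by simpa [f] using hn)
  let g : ℤ →ₗ[ℤ] ℚ := (Int.castAddHom ℚ).toIntLinearMap
  obtain ⟨h, hh⟩ := (Module.Baer.of_divisible ℚ).extension_property f hf g
  refine ⟨h.toAddMonoidHom, ?_⟩
  have h1 : h (f 1) = g 1 := by rw [← hh]; rfl
  simpa [f, g] using h1

theorem closure_pos {G : Type*} [AddCommGroup G] (F : G →+ ℚ) (S : Set G)
    (h : ∀ x ∈ S, 0 < F x) {s : G} (hs : s ∈ AddSubsemigroup.closure S) : 0 < F s := by
  refine AddSubsemigroup.closure_induction (p := fun s _ => 0 < F s) ?_ ?_ hs
  · intro x hx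
    exact h x hx
  · intro x y _ _ hx hy
    rw [map_add]
    exact add_pos hx hy

theorem nsmul_mem_closure {G : Type*} [AddCommGroup G] {S : Set G} {s : G}
    (hs : s ∈ AddSubsemigroup.closure S) {n : ℕ} (hn : n ≠ 0) :
    n • s ∈ AddSubsemigroup.closure S := by
  induction n with
  | zero => exact absurd rfl hn
  | succ n ih =>
    by_cases h0 : n = 0
    · subst h0; simpa using hs
    · rw [succ_nsmul]
      exact add_mem (ih h0) hs

theorem closure_map {G H : Type*} [AddCommGroup G] [AddCommGroup H] (φ : G →+ H) (S : Set G)
    {t : H} (ht : t ∈ AddSubsemigroup.closure (φ '' S)) :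
    ∃ s ∈ AddSubsemigroup.closure S, φ s = t := by
  refine AddSubsemigroup.closure_induction
    (p := fun t _ => ∃ s ∈ AddSubsemigroup.closure S, φ s = t) ?_ ?_ ht
  · rintro _ ⟨s, hs, rfl⟩
    exact ⟨s, AddSubsemigroup.subset_closure hs, rfl⟩
  · rintro _ _ _ _ ⟨s, hs, rfl⟩ ⟨t, ht, rfl⟩
    exact ⟨s + t, add_mem hs ht, map_add φ s t⟩

theorem gordan_aux (n : ℕ) : ∀ {G : Type*} [AddCommGroup G] (l : List G), l.length = n →
    (0 : G) ∉ AddSubsemigroup.closure {x | x ∈ l} → ∃ F : G →+ ℚ, ∀ x ∈ l, 0 < F x := by
  induction n with
  | zero =>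
    intro G _ l hl _
    rw [List.length_eq_zero_iff] at hl
    subst hl
    exact ⟨0, by simp⟩
  | succ n ih =>
    intro G _ l hl h0
    match l, hl with
    | x :: l, hl =>
      have hln : l.length = n := by simpa using hl
      have hsub : ({y | y ∈ l} : Set G) ⊆ {y | y ∈ x :: l} := fun y hy => List.mem_cons_of_mem x hy
      have h0' : (0 : G) ∉ AddSubsemigroup.closure {y | y ∈ l} :=
        fun h => h0 (AddSubsemigroup.closure_mono hsub h)
      have hxm : x ∈ AddSubsemigroup.closure {y | y ∈ x :: l} :=
        AddSubsemigroup.subset_closure (by simp)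
      obtain ⟨F, hF⟩ := ih l hln h0'
      have hF' : ∀ s ∈ AddSubsemigroup.closure {y | y ∈ l}, 0 < F s :=
        fun s hs => closure_pos F _ hF hs
      by_cases hq : (0 : G ⧸ AddSubgroup.zmultiples x) ∈ AddSubsemigroup.closure
          {y | y ∈ l.map (QuotientAddGroup.mk' (AddSubgroup.zmultiples x))}
      · have himg : ({y | y ∈ l.map (QuotientAddGroup.mk' (AddSubgroup.zmultiples x))} :
            Set (G ⧸ AddSubgroup.zmultiples x)) =
            (QuotientAddGroup.mk' (AddSubgroup.zmultiples x)) '' {y | y ∈ l} := by
          ext y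
          simp
        rw [himg] at hq
        obtain ⟨s, hs, hs0⟩ := closure_map _ _ hq
        have hsx : s ∈ AddSubgroup.zmultiples x := by
          rw [← QuotientAddGroup.eq_zero_iff]
          exact hs0
        obtain ⟨k, hk⟩ := AddSubgroup.mem_zmultiples_iff.mp hsx
        have hkpos : 0 < k := by
          by_contra hk0
          push Not at hk0
          rcases eq_or_lt_of_le hk0 with h1 | h1
          · rw [h1, zero_smul] at hk
            rw [← hk] at hs
            exact h0' hs
          · apply h0
            have h2 : (0 : G) = s + (-k).toNat • x := by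
              rw [← natCast_zsmul, ← hk, ← add_smul]
              have : k + ((-k).toNat : ℤ) = 0 := by omega
              rw [this, zero_smul]
            rw [h2]
            exact add_mem (AddSubsemigroup.closure_mono hsub hs)
              (nsmul_mem_closure hxm (by omega))
        refine ⟨F, ?_⟩
        intro y hy
        rcases List.mem_cons.mp hy with rfl | hy
        · have h3 := hF' s hs
          rw [← hk, map_zsmul, zsmul_eq_mul] at h3
          have hk' : (0 : ℚ) < k := by exact_mod_cast hkpos
          exact (mul_pos_iff_of_pos_left hk').mp h3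
        · exact hF y hy
      · obtain ⟨F', hF'⟩ := ih (l.map (QuotientAddGroup.mk' (AddSubgroup.zmultiples x)))
          (by simpa using hln) hq
        obtain ⟨F'', hF''⟩ := exists_hom_one x (by
          intro k hk
          by_contra hk0
          apply h0
          have h1 : k.natAbs • x = 0 := by
            rcases Int.natAbs_eq k with h | h
            · rw [← natCast_zsmul, ← h, hk]
            · rw [← natCast_zsmul]
              have : (k.natAbs : ℤ) = -k := by omega
              rw [this, neg_smul, hk, neg_zero]
          rw [← h1]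
          exact nsmul_mem_closure hxm (Int.natAbs_ne_zero.mpr hk0))
        -- choose a large multiple of `F'`
        have hbig : ∃ N : ℕ, ∀ y ∈ l, 0 < F'' y + N * F' (QuotientAddGroup.mk' _ y) := by
          have : ∀ l' : List G, (∀ y ∈ l', y ∈ l) →
              ∃ N : ℕ, ∀ M : ℕ, N ≤ M → ∀ y ∈ l', 0 < F'' y + M * F' (QuotientAddGroup.mk' _ y) := by
            intro l'
            induction l' with
            | nil => intro _; exact ⟨0, by simp⟩
            | cons z l' ih' =>
              intro hsub'
              obtain ⟨N, hN⟩ := ih' (fun y hy => hsub' y (by simp [hy]))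
              have hz : 0 < F' (QuotientAddGroup.mk' _ z) :=
                hF' _ (List.mem_map.mpr ⟨z, hsub' z (by simp), rfl⟩)
              obtain ⟨N', hN'⟩ := exists_nat_gt (-(F'' z) / F' (QuotientAddGroup.mk' _ z))
              refine ⟨max N N', ?_⟩
              intro M hM y hy
              rcases List.mem_cons.mp hy with rfl | hy
              · have h1 : (N' : ℚ) ≤ M := by exact_mod_cast (le_max_right N N').trans hM
                have h2 := lt_of_lt_of_le hN' h1
                rw [div_lt_iff₀ hz] at h2
                linarith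
              · exact hN M ((le_max_left N N').trans hM) y hy
          obtain ⟨N, hN⟩ := this l (fun y hy => hy)
          exact ⟨N, hN N le_rfl⟩
        obtain ⟨N, hN⟩ := hbig
        refine ⟨F'' + N • (F'.comp (QuotientAddGroup.mk' _)), ?_⟩
        intro y hy
        rcases List.mem_cons.mp hy with rfl | hy
        · have h1 : (QuotientAddGroup.mk' (AddSubgroup.zmultiples y)) y = 0 := by
            rw [QuotientAddGroup.mk'_apply, QuotientAddGroup.eq_zero_iff]
            exact AddSubgroup.mem_zmultiples y
          simp only [AddMonoidHom.add_apply, AddMonoidHom.coe_smul, Pi.smul_apply,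
            AddMonoidHom.comp_apply, h1, map_zero, smul_zero, add_zero, hF'']
          exact one_pos
        · have := hN y hy
          simpa only [AddMonoidHom.add_apply, AddMonoidHom.coe_smul, Pi.smul_apply,
            AddMonoidHom.comp_apply, nsmul_eq_mul] using this

/-- Gordan's alternative -/
theorem gordan {G : Type*} [AddCommGroup G] (l : List G)
    (h : (0 : G) ∉ AddSubsemigroup.closure {x | x ∈ l}) : ∃ F : G →+ ℚ, ∀ x ∈ l, 0 < F x :=
  gordan_aux l.length l rfl h

/-- common denominators -/
theorem exists_common_den (l : List ℚ) : ∃ D : ℕ, D ≠ 0 ∧ ∀ x ∈ l, ∃ n : ℤ, (D : ℚ) * x = n := by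
  induction l with
  | nil => exact ⟨1, one_ne_zero, by simp⟩
  | cons x l ih =>
    obtain ⟨D, hD, h⟩ := ih
    refine ⟨D * x.den, mul_ne_zero hD x.den_nz, ?_⟩
    intro y hy
    rcases List.mem_cons.mp hy with rfl | hy
    · refine ⟨D * y.num, ?_⟩
      push_cast
      rw [mul_assoc, mul_comm (y.den : ℚ) y, Rat.mul_den_eq_num]
    · obtain ⟨n, hn⟩ := h y hy
      refine ⟨n * x.den, ?_⟩
      push_cast
      rw [← hn]
      ring

end Pool.Agent.Hhelper12.MG
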