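import Pool.Agent.Hhelper12.MG.Sim
import Pool.Agent.Hhelper12.MG.Gordan

/-!
# Existence of displacement systems
-/

set_option autoImplicit false
set_option linter.unusedSectionVars false
set_option linter.unnecessarySimpa false
set_option linter.unusedVariables false
set_option linter.style.haveILetI false

namespace Pool.Agent.Hhelper12.MG

open scoped commutatorElement

section Comm

variable {A : Type*} [Group A]

theorem comm_closure {X : Set A} {N : Subgroup A}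
    (hN : Subgroup.closure X ≤ Subgroup.normalizer (N : Set A))
    (h : ∀ x ∈ X, ∀ y ∈ X, ⁅x, y⁆ ∈ N) {x y : A} (hx : x ∈ Subgroup.closure X)
    (hy : y ∈ Subgroup.closure X) : ⁅x, y⁆ ∈ N := by
  have step1 : ∀ y ∈ X, ∀ x ∈ Subgroup.closure X, ⁅x, y⁆ ∈ N := by
    intro y hy x hx
    refine Subgroup.closure_induction (p := fun x _ => ⁅x, y⁆ ∈ N) ?_ ?_ ?_ ?_ hx
    · intro x hx
      exact h x hx y hy
    · rw [commutatorElement_one_left]
      exact N.one_mem
    · intro x x' hx hx' h1 h2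
      have h3 : ⁅x * x', y⁆ = x * ⁅x', y⁆ * x⁻¹ * ⁅x, y⁆ := by
        simp only [commutatorElement_def]; group
      rw [h3]
      exact N.mul_mem ((Subgroup.mem_normalizer_iff.mp (hN hx) _).mp h2) h1
    · intro x hx h1
      have h3 : ⁅x⁻¹, y⁆ = x⁻¹ * ⁅x, y⁆⁻¹ * x⁻¹⁻¹ := by
        simp only [commutatorElement_def]; group
      rw [h3]
      exact (Subgroup.mem_normalizer_iff.mp (hN (inv_mem hx)) _).mp (N.inv_mem h1)
  refine Subgroup.closure_induction (p := fun y _ => ⁅x, y⁆ ∈ N) ?_ ?_ ?_ ?_ hy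
  · intro y hy
    exact step1 y hy x hx
  · rw [commutatorElement_one_right]
    exact N.one_mem
  · intro y y' hy hy' h1 h2
    have h3 : ⁅x, y * y'⁆ = ⁅x, y⁆ * (y * ⁅x, y'⁆ * y⁻¹) := by
      simp only [commutatorElement_def]; group
    rw [h3]
    exact N.mul_mem h1 ((Subgroup.mem_normalizer_iff.mp (hN hy) _).mp h2)
  · intro y hy h1
    have h3 : ⁅x, y⁻¹⁆ = y⁻¹ * ⁅x, y⁆⁻¹ * y⁻¹⁻¹ := by
      simp only [commutatorElement_def]; group
    rw [h3]
    exact (Subgroup.mem_normalizer_iff.mp (hN (inv_mem hy)) _).mp (N.inv_mem h1)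

end Comm

section ASide

variable {A : Type*} [Group A] [Lattice A] [MulLeftMono A] [MulRightMono A]

theorem le_normalizer_of_comm {R R' : Subgroup A} (hle : R' ≤ R)
    (hcomm : ∀ x ∈ R, ∀ y ∈ R, ⁅x, y⁆ ∈ R') : R ≤ Subgroup.normalizer (R' : Set A) := by
  intro x hx
  rw [Subgroup.mem_normalizer_iff]
  have key : ∀ x ∈ R, ∀ h ∈ R', x * h * x⁻¹ ∈ R' := by
    intro x hx h hh
    have : x * h * x⁻¹ = ⁅x, h⁆ * h := by rw [commutatorElement_def]; group
    rw [this]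
    exact R'.mul_mem (hcomm x hx h (hle hh)) hh
  intro h
  constructor
  · exact key x hx h
  · intro hh
    have := key x⁻¹ (R.inv_mem hx) _ hh
    rwa [show x⁻¹ * (x * h * x⁻¹) * x⁻¹⁻¹ = h by group] at this

/-- homomorphisms to the rationals, positive on finitely many positive elements -/
theorem exists_hom_quot {R R' : Subgroup A} (hR' : IsPrimeC R') (hle : R' ≤ R)
    (hcomm : ∀ x ∈ R, ∀ y ∈ R, ⁅x, y⁆ ∈ R') (l : List A) (hl : ∀ x ∈ l, x ∈ R ∧ clt R' 1 x) :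
    ∃ ψ : A → ℚ, (∀ x ∈ R, ∀ y ∈ R, ψ (x * y) = ψ x + ψ y) ∧ (∀ x ∈ R', ψ x = 0) ∧
      ∀ x ∈ l, 0 < ψ x := by
  classical
  have hnorm := le_normalizer_of_comm hle hcomm
  haveI hN : (R'.subgroupOf R).Normal := by
    refine ⟨?_⟩
    intro x hx g
    rw [Subgroup.mem_subgroupOf] at hx ⊢
    exact (Subgroup.mem_normalizer_iff.mp (hnorm g.2) _).mp hx
  letI : CommGroup (R ⧸ R'.subgroupOf R) :=
    { (inferInstance : Group (R ⧸ R'.subgroupOf R)) with
      mul_comm := by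
        intro a b
        induction a using QuotientGroup.induction_on with
        | H x =>
          induction b using QuotientGroup.induction_on with
          | H y =>
            rw [← QuotientGroup.mk_mul, ← QuotientGroup.mk_mul, QuotientGroup.eq]
            rw [Subgroup.mem_subgroupOf]
            have := hcomm (y : A)⁻¹ (R.inv_mem y.2) (x : A)⁻¹ (R.inv_mem x.2)
            rw [commutatorElement_def] at this
            simpa [mul_assoc] using this }
  let φ : A → (R ⧸ R'.subgroupOf R) := fun x => if h : x ∈ R then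
    (QuotientGroup.mk (⟨x, h⟩ : R)) else 1
  have hφm : ∀ x ∈ R, ∀ y ∈ R, φ (x * y) = φ x * φ y := by
    intro x hx y hy
    simp only [φ, dif_pos hx, dif_pos hy, dif_pos (R.mul_mem hx hy)]
    rw [← QuotientGroup.mk_mul]
    rfl
  have hφ1 : ∀ x ∈ R, (φ x = 1 ↔ x ∈ R') := by
    intro x hx
    simp only [φ, dif_pos hx]
    rw [QuotientGroup.eq_one_iff, Subgroup.mem_subgroupOf]
  obtain ⟨F, hF⟩ := gordan (l.map (fun x => Additive.ofMul (φ x))) (by
    intro h0
    have key : ∀ s ∈ AddSubsemigroup.closure {x | x ∈ l.map (fun x => Additive.ofMul (φ x))},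
        ∃ u ∈ R, clt R' 1 u ∧ s = Additive.ofMul (φ u) := by
      intro s hs
      refine AddSubsemigroup.closure_induction
        (p := fun s _ => ∃ u ∈ R, clt R' 1 u ∧ s = Additive.ofMul (φ u)) ?_ ?_ hs
      · intro x hx
        obtain ⟨u, hu, rfl⟩ := List.mem_map.mp hx
        exact ⟨u, (hl u hu).1, (hl u hu).2, rfl⟩
      · rintro _ _ _ _ ⟨u, hu, hu1, rfl⟩ ⟨v, hv, hv1, rfl⟩
        refine ⟨u * v, R.mul_mem hu hv, ?_, ?_⟩
        · have h1 := (clt_mul_right v).mpr hu1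
          rw [one_mul] at h1
          exact hv1.trans hR' h1
        · rw [hφm u hu v hv, ofMul_mul]
    obtain ⟨u, hu, hu1, h0'⟩ := key 0 h0
    have h2 : φ u = 1 := by
      have := congrArg Additive.toMul h0'
      simpa using this.symm
    have h3 := (hφ1 u hu).mp h2
    exact hu1.not_ceq hR'.conv (ceq_one.mpr h3).symm)
  refine ⟨fun x => F (Additive.ofMul (φ x)), ?_, ?_, ?_⟩
  · intro x hx y hy
    simp only
    rw [hφm x hx y hy, ofMul_mul, map_add]
  · intro x hx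
    simp only
    rw [(hφ1 x (hle hx)).mpr hx, ofMul_one, map_zero]
  · intro x hx
    exact hF _ (List.mem_map.mpr ⟨x, hx, rfl⟩)

/-- the data of one displacement step -/
theorem disp_data {R R' : Subgroup A} (hR' : IsPrimeC R') (hle : R' ≤ R)
    (hcomm : ∀ x ∈ R, ∀ y ∈ R, ⁅x, y⁆ ∈ R') (T : Finset A) (g0 : A)
    (hT : ∀ g ∈ T, g * g0⁻¹ ∈ R) :
    ∃ (ψ : A → ℚ) (c : A → ℤ) (s : ℚ) (τ : ℤ → A) (T' : Finset A) (N : ℕ),
      (∀ x ∈ R, ∀ y ∈ R, ψ (x * y) = ψ x + ψ y) ∧ (∀ x ∈ R', ψ x = 0) ∧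
      (∀ g ∈ T, (c g : ℚ) = ψ (g * g0⁻¹) + s) ∧
      (∀ g ∈ T, 0 ≤ c g ∧ c g < N) ∧
      (∀ g ∈ T, ∀ h ∈ T, c g < c h → clt R' g h) ∧
      (T' : Set A) = {k | ∃ g ∈ T, k = g * (τ (c g))⁻¹} ∧
      (∀ k ∈ T', k ∈ R') ∧
      T'.card ≤ T.card ∧ ((¬ ∀ g ∈ T, ∀ h ∈ T, ceq R' g h) → T'.card < T.card) := by
  classical
  let l : List A := (((T ×ˢ T).filter (fun q => clt R' q.1 q.2)).image
    (fun q => q.2 * q.1⁻¹)).toList
  have hmem : ∀ g ∈ T, ∀ h ∈ T, clt R' g h → h * g⁻¹ ∈ l := by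
    intro g hg h hh hlt
    simp only [l, Finset.mem_toList, Finset.mem_image, Finset.mem_filter, Finset.mem_product,
      Prod.exists]
    exact ⟨g, h, ⟨⟨hg, hh⟩, hlt⟩, rfl⟩
  have hgh : ∀ g ∈ T, ∀ h ∈ T, h * g⁻¹ ∈ R := by
    intro g hg h hh
    have := R.mul_mem (hT h hh) (R.inv_mem (hT g hg))
    rwa [show h * g0⁻¹ * (g * g0⁻¹)⁻¹ = h * g⁻¹ by group] at this
  obtain ⟨ψ0, hψm, hψ0, hψpos⟩ := exists_hom_quot hR' hle hcomm l (by
    intro x hx
    simp only [l, Finset.mem_toList, Finset.mem_image, Finset.mem_filter, Finset.mem_product,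
      Prod.exists] at hx
    obtain ⟨g, h, ⟨⟨hg, hh⟩, hlt⟩, rfl⟩ := hx
    refine ⟨hgh g hg h hh, ?_⟩
    have := (clt_mul_right g⁻¹).mpr hlt
    rwa [mul_inv_cancel] at this)
  obtain ⟨D, hD, hDint⟩ := exists_common_den (T.toList.map (fun g => ψ0 (g * g0⁻¹)))
  have hDpos : (0 : ℚ) < D := by
    have : 0 < D := Nat.pos_of_ne_zero hD
    exact_mod_cast this
  let ψ : A → ℚ := fun x => D * ψ0 x
  have hint : ∀ g ∈ T, ∃ n : ℤ, ψ (g * g0⁻¹) = n := by
    intro g hg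
    exact hDint _ (List.mem_map.mpr ⟨g, Finset.mem_toList.mpr hg, rfl⟩)
  let M : ℤ := ∑ g ∈ T, |⌊ψ (g * g0⁻¹)⌋|
  have hM : ∀ g ∈ T, |⌊ψ (g * g0⁻¹)⌋| ≤ M := by
    intro g hg
    exact Finset.single_le_sum (f := fun g => |⌊ψ (g * g0⁻¹)⌋|) (fun _ _ => abs_nonneg _) hg
  have hM0 : 0 ≤ M := Finset.sum_nonneg (fun _ _ => abs_nonneg _)
  let c : A → ℤ := fun g => ⌊ψ (g * g0⁻¹)⌋ + M
  have hc : ∀ g ∈ T, (c g : ℚ) = ψ (g * g0⁻¹) + M := by
    intro g hg
    obtain ⟨n, hn⟩ := hint g hg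
    simp only [c]
    push_cast
    rw [hn, Int.floor_intCast]
  have hψm' : ∀ x ∈ R, ∀ y ∈ R, ψ (x * y) = ψ x + ψ y := by
    intro x hx y hy
    simp only [ψ]
    rw [hψm x hx y hy]
    ring
  have hψ0' : ∀ x ∈ R', ψ x = 0 := by
    intro x hx
    simp only [ψ]
    rw [hψ0 x hx, mul_zero]
  have hdiff : ∀ g ∈ T, ∀ h ∈ T, ((c h : ℚ) - c g) = ψ (h * g⁻¹) := by
    intro g hg h hh
    rw [hc g hg, hc h hh]
    have h1 := hψm' (h * g⁻¹) (hgh g hg h hh) (g * g0⁻¹) (hT g hg)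
    rw [show h * g⁻¹ * (g * g0⁻¹) = h * g0⁻¹ by group] at h1
    rw [h1]
    ring
  have hlt : ∀ g ∈ T, ∀ h ∈ T, clt R' g h → c g < c h := by
    intro g hg h hh hgh'
    have h1 : 0 < ψ (h * g⁻¹) := mul_pos hDpos (hψpos _ (hmem g hg h hh hgh'))
    rw [← hdiff g hg h hh] at h1
    have : (c g : ℚ) < c h := by linarith
    exact_mod_cast this
  have heq : ∀ g ∈ T, ∀ h ∈ T, ceq R' g h → c g = c h := by
    intro g hg h hh he
    have h1 : ψ (g * h⁻¹) = 0 := hψ0' _ he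
    rw [← hdiff h hh g hg] at h1
    have : (c g : ℚ) = c h := by linarith
    exact_mod_cast this
  have hlt' : ∀ g ∈ T, ∀ h ∈ T, c g < c h → clt R' g h := by
    intro g hg h hh hgh' hcon
    by_cases he : ceq R' h g
    · have := heq h hh g hg he
      omega
    · have := hlt h hh g hg (clt_of_cle_not_ceq hR'.conv hcon he)
      omega
  have heq' : ∀ g ∈ T, ∀ h ∈ T, c g = c h → ceq R' g h := by
    intro g hg h hh hgh'
    by_contra he
    rcases cle_total hR' g h with h1 | h1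
    · have := hlt g hg h hh (clt_of_cle_not_ceq hR'.conv h1 he)
      omega
    · have := hlt h hh g hg (clt_of_cle_not_ceq hR'.conv h1 (fun h' => he h'.symm))
      omega
  let τ : ℤ → A := fun k => if h : ∃ g ∈ T, c g = k then h.choose else 1
  have hτ : ∀ g ∈ T, τ (c g) ∈ T ∧ c (τ (c g)) = c g := by
    intro g hg
    have h : ∃ g' ∈ T, c g' = c g := ⟨g, hg, rfl⟩
    simp only [τ, dif_pos h]
    exact h.choose_spec
  refine ⟨ψ, c, M, τ, T.image (fun g => g * (τ (c g))⁻¹), (2 * M + 1).toNat, hψm', hψ0', hc, ?_,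
    hlt', ?_, ?_, Finset.card_image_le, ?_⟩
  · intro g hg
    have h1 := hM g hg
    have h2 := abs_le.mp h1
    simp only [c]
    constructor
    · omega
    · omega
  · ext k
    simp only [Finset.coe_image, Set.mem_image, Finset.mem_coe, Set.mem_ofPred_eq]
    constructor
    · rintro ⟨g, hg, rfl⟩
      exact ⟨g, hg, rfl⟩
    · rintro ⟨g, hg, rfl⟩
      exact ⟨g, hg, rfl⟩
  · intro k hk
    obtain ⟨g, hg, rfl⟩ := Finset.mem_image.mp hk
    exact heq' g hg _ (hτ g hg).1 (hτ g hg).2.symm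
  · intro hne
    refine lt_of_le_of_ne Finset.card_image_le ?_
    intro hcard
    rw [Finset.card_image_iff] at hcard
    apply hne
    intro g hg h hh
    apply heq' g hg h hh
    have hg' := hτ g hg
    have hh' := hτ h hh
    have e : τ (c g) = τ (c h) := by
      apply hcard hg'.1 hh'.1
      simp only
      rw [hg'.2, hh'.2, mul_inv_cancel, mul_inv_cancel]
    rw [← hg'.2, ← hh'.2, e]

theorem disp_diff {R : Subgroup A} {ψ : A → ℚ} {c : A → ℤ} {s : ℚ} {T : Finset A} {g0 : A}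
    (hT : ∀ g ∈ T, g * g0⁻¹ ∈ R) (hψ : ∀ x ∈ R, ∀ y ∈ R, ψ (x * y) = ψ x + ψ y)
    (hc : ∀ g ∈ T, (c g : ℚ) = ψ (g * g0⁻¹) + s) {g x : A} (hg : g ∈ T) (hgx : g * x ∈ T) :
    g0 * x * g0⁻¹ ∈ R ∧ ((c (g * x) - c g : ℤ) : ℚ) = ψ (g0 * x * g0⁻¹) := by
  have h1 : g0 * x * g0⁻¹ ∈ R := by
    have := R.mul_mem (R.inv_mem (hT g hg)) (hT _ hgx)
    rwa [show (g * g0⁻¹)⁻¹ * (g * x * g0⁻¹) = g0 * x * g0⁻¹ by group] at this
  refine ⟨h1, ?_⟩
  push_cast
  rw [hc g hg, hc _ hgx]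
  have h2 := hψ (g * g0⁻¹) (hT g hg) _ h1
  rw [show g * g0⁻¹ * (g0 * x * g0⁻¹) = g * x * g0⁻¹ by group] at h2
  rw [h2]
  ring

theorem DS_step {Q R R' : Subgroup A} (hQ : IsPrimeC Q) (hR' : IsConv R') (hQR : Q ≤ R')
    (hle : R' ≤ R) (hcomm : ∀ x ∈ R, ∀ y ∈ R, ⁅x, y⁆ ∈ R') (T : Finset A) (g0 : A)
    (hT : ∀ g ∈ T, g * g0⁻¹ ∈ R) (m : ℕ)
    (hrec : ∀ T' : Finset A, (∀ k ∈ T', k ∈ R') →
      ((¬ ∀ g ∈ T, ∀ h ∈ T, ceq R' g h) → T'.card < T.card) →
      ∃ r0 : ℕ, ∀ r, r0 ≤ r → DS r Q m (T' : Set A)) :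
    ∃ r0 : ℕ, ∀ r, r0 ≤ r → DS r Q (m + 1) (T : Set A) := by
  obtain ⟨ψ, c, s, τ, T', N, hψ, hψ0, hc, hcN, hlt, hT'eq, hT', -, hT'lt⟩ :=
    disp_data (hQ.of_le hR' hQR) hle hcomm T g0 hT
  obtain ⟨r0, hr0⟩ := hrec T' hT' hT'lt
  refine ⟨max r0 N, ?_⟩
  intro r hr
  refine ⟨c, τ, ?_, ?_, ?_, ?_⟩
  · intro g hg
    have := hcN g hg
    have h1 : (N : ℤ) ≤ r := by exact_mod_cast (le_max_right r0 N).trans hr
    exact ⟨this.1, by omega⟩
  · intro g hg h hh hgh
    exact clt_mono hQR (hlt g hg h hh hgh)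
  · intro g hg h hh x hgx hhx
    have h1 := (disp_diff hT hψ hc hg hgx).2
    have h2 := (disp_diff hT hψ hc hh hhx).2
    rw [← h1] at h2
    exact_mod_cast h2.symm
  · have h1 := hr0 r ((le_max_left r0 N).trans hr)
    rw [hT'eq] at h1
    exact h1

/-- sets in one class have displacement systems of any depth -/
theorem DS_trivial {Q : Subgroup A} {r : ℕ} (hr : 1 ≤ r) (m : ℕ) :
    ∀ T : Set A, (∀ g ∈ T, ∀ h ∈ T, ceq Q g h) → DS r Q m T := by
  induction m with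
  | zero => exact fun T h => h
  | succ m ih =>
    intro T h
    refine ⟨fun _ => 0, fun _ => 1, ?_, ?_, ?_, ?_⟩
    · intro g _
      refine ⟨le_rfl, ?_⟩
      show (0 : ℤ) < r
      exact_mod_cast hr
    · intro g _ h _ hlt
      exact absurd hlt (lt_irrefl _)
    · intro g _ h _ x _ _
      rfl
    · apply ih
      rintro _ ⟨g, hg, rfl⟩ _ ⟨k, hk, rfl⟩
      exact (ceq_mul_right _).mpr (h g hg k hk)

/-! ### Groups with trivial iterated commutator sets -/

theorem conj_trunc {C R' : Subgroup A} (hC : IsConv C) (hR' : IsPrimeC R')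
    (hcomm : ∀ x ∈ C, ∀ y ∈ C, ⁅x, y⁆ ∈ R') {x q : A} (hx : x ∈ C) (hx1 : 1 ≤ x) (hq : q ∈ R')
    (hq1 : 1 ≤ q) : x * q * x⁻¹ ∈ R' ∧ x⁻¹ * q * x ∈ R' := by
  have h1 : q ⊓ x ∈ C := hC.mem_of_le (le_inf hq1 hx1) inf_le_right hx
  have h2 : q ⊓ x ∈ R' := hR'.conv.mem_of_le (le_inf hq1 hx1) inf_le_left hq
  constructor
  · have h3 : x * (q ⊓ x) * x⁻¹ ∈ R' := by
      have h4 : x * (q ⊓ x) * x⁻¹ = ⁅x, q ⊓ x⁆ * (q ⊓ x) := by
        rw [commutatorElement_def]; group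
      rw [h4]
      exact R'.mul_mem (hcomm _ hx _ h1) h2
    rw [mul_inf, inf_mul, mul_inv_cancel_right] at h3
    rcases hR'.inf_mem h3 with h4 | h4
    · exact h4
    · exact R'.mul_mem (R'.mul_mem h4 hq) (R'.inv_mem h4)
  · have h3 : x⁻¹ * (q ⊓ x) * x ∈ R' := by
      have h4 : x⁻¹ * (q ⊓ x) * x = ⁅x⁻¹, q ⊓ x⁆ * (q ⊓ x) := by
        rw [commutatorElement_def]; group
      rw [h4]
      exact R'.mul_mem (hcomm _ (C.inv_mem hx) _ h1) h2
    rw [mul_inf, inf_mul, inv_mul_cancel, one_mul] at h3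
    rcases hR'.inf_mem h3 with h4 | h4
    · exact h4
    · exact R'.mul_mem (R'.mul_mem (R'.inv_mem h4) hq) h4

theorem conv_le_normalizer {C R' : Subgroup A} (hC : IsConv C) (hR' : IsPrimeC R')
    (hcomm : ∀ x ∈ C, ∀ y ∈ C, ⁅x, y⁆ ∈ R') : C ≤ Subgroup.normalizer (R' : Set A) := by
  have key : ∀ x ∈ C, 1 ≤ x → x ∈ Subgroup.normalizer (R' : Set A) := by
    intro x hx hx1
    rw [Subgroup.mem_normalizer_iff]
    intro q
    constructor
    · intro hq
      have h1 := (conj_trunc hC hR' hcomm hx hx1 (hR'.conv.pos_mem hq) le_sup_right).1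
      have h2 := (conj_trunc hC hR' hcomm hx hx1 (hR'.conv.neg_mem hq) le_sup_right).1
      have h3 : x * q * x⁻¹ = (x * (q ⊔ 1) * x⁻¹) * (x * (q⁻¹ ⊔ 1) * x⁻¹)⁻¹ := by
        have : (x * (q ⊔ 1) * x⁻¹) * (x * (q⁻¹ ⊔ 1) * x⁻¹)⁻¹
            = x * ((q ⊔ 1) * (q⁻¹ ⊔ 1)⁻¹) * x⁻¹ := by group
        rw [this, pos_div_neg]
      rw [h3]
      exact R'.mul_mem h1 (R'.inv_mem h2)
    · intro hq
      set y := x * q * x⁻¹ with hy
      have h1 := (conj_trunc hC hR' hcomm hx hx1 (hR'.conv.pos_mem hq) le_sup_right).2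
      have h2 := (conj_trunc hC hR' hcomm hx hx1 (hR'.conv.neg_mem hq) le_sup_right).2
      have h3 : q = (x⁻¹ * (y ⊔ 1) * x) * (x⁻¹ * (y⁻¹ ⊔ 1) * x)⁻¹ := by
        have : (x⁻¹ * (y ⊔ 1) * x) * (x⁻¹ * (y⁻¹ ⊔ 1) * x)⁻¹
            = x⁻¹ * ((y ⊔ 1) * (y⁻¹ ⊔ 1)⁻¹) * x := by group
        rw [this, pos_div_neg, hy]
        group
      rw [h3]
      exact R'.mul_mem h1 (R'.inv_mem h2)
  intro x hx
  rw [← pos_div_neg x]
  exact mul_mem (key _ (hC.pos_mem hx) le_sup_right)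
    (inv_mem (key _ (hC.neg_mem hx) le_sup_right))

theorem sup_eq_closure {Q C : Subgroup A} : Q ⊔ C = Subgroup.closure ((Q : Set A) ∪ C) := by
  rw [Subgroup.closure_union, Subgroup.closure_eq, Subgroup.closure_eq]

/-- the abelian steps -/
theorem comm_step {Q C C' : Subgroup A} (hQ : IsPrimeC Q) (hC : IsConv C) (hC' : IsConv C')
    (hcomm : ∀ x ∈ C, ∀ y ∈ C, ⁅x, y⁆ ∈ C') :
    ∀ x ∈ Q ⊔ C, ∀ y ∈ Q ⊔ C, ⁅x, y⁆ ∈ Q ⊔ C' := by
  have hR' : IsPrimeC (Q ⊔ C') := hQ.of_le (hQ.conv.sup hC') le_sup_left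
  have hcomm' : ∀ x ∈ C, ∀ y ∈ C, ⁅x, y⁆ ∈ Q ⊔ C' :=
    fun x hx y hy => Subgroup.mem_sup_right (hcomm x hx y hy)
  have hCN := conv_le_normalizer hC hR' hcomm'
  have hQN : Q ≤ Subgroup.normalizer ((Q ⊔ C' : Subgroup A) : Set A) :=
    le_sup_left.trans Subgroup.le_normalizer
  intro x hx y hy
  rw [sup_eq_closure (Q := Q) (C := C)] at hx hy
  refine comm_closure ?_ ?_ hx hy
  · rw [← sup_eq_closure]
    exact sup_le hQN hCN
  · have hconj : ∀ q ∈ Q, ∀ c ∈ C, c * q * c⁻¹ ∈ Q ⊔ C' := fun q hq c hc =>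
      (Subgroup.mem_normalizer_iff.mp (hCN hc) q).mp (Subgroup.mem_sup_left hq)
    rintro x (hx | hx) y (hy | hy)
    · apply Subgroup.mem_sup_left
      rw [commutatorElement_def]
      exact Q.mul_mem (Q.mul_mem (Q.mul_mem hx hy) (Q.inv_mem hx)) (Q.inv_mem hy)
    · have h1 : ⁅x, y⁆ = x * (y * x⁻¹ * y⁻¹) := by rw [commutatorElement_def]; group
      rw [h1]
      exact mul_mem (Subgroup.mem_sup_left hx) (hconj _ (Q.inv_mem hx) _ hy)
    · have h1 : ⁅x, y⁆ = (x * y * x⁻¹) * y⁻¹ := by rw [commutatorElement_def]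
      rw [h1]
      exact mul_mem (hconj _ hy _ hx) (Subgroup.mem_sup_left (Q.inv_mem hy))
    · exact hcomm' x hx y hy

theorem Theta_conj_inv {S : Set A} (hS : ∀ g : A, ∀ s ∈ S, g * s * g⁻¹ ∈ S) :
    ∀ g : A, ∀ s ∈ Theta S, g * s * g⁻¹ ∈ Theta S :=
  fun g _ hs => ThN_conj_inv hS 1 g hs

theorem convGen_comm {S : Set A} (hS : ∀ g : A, ∀ s ∈ S, g * s * g⁻¹ ∈ S) :
    ∀ x ∈ convGen S, ∀ y ∈ convGen S, ⁅x, y⁆ ∈ convGen (Theta S) := by
  intro x hx y hy
  unfold convGen at hx hy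
  haveI := convGen_normal (Theta_conj_inv hS)
  refine comm_closure ?_ ?_ hx hy
  · rw [Subgroup.normalizer_eq_top]
    exact le_top
  · rintro x ⟨s, hs, hxs⟩ y ⟨s', hs', hys⟩
    exact subset_convGen _ ⟨s, hs, s', hs', x, y, hxs, hys, rfl⟩

/-- displacement systems from trivial iterated commutator sets -/
theorem DS_of_ThN {Q : Subgroup A} (hQ : IsPrimeC Q) (m : ℕ) :
    ∀ S : Set A, (∀ g : A, ∀ s ∈ S, g * s * g⁻¹ ∈ S) → (∀ t ∈ ThN m S, t = 1) →
    ∀ T : Finset A, (∀ g ∈ T, g ∈ Q ⊔ convGen S) →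
    ∃ r0 : ℕ, ∀ r, r0 ≤ r → DS r Q m (T : Set A) := by
  induction m with
  | zero =>
    intro S hS hS1 T hT
    refine ⟨0, fun r _ => ?_⟩
    have hbot : convGen S = ⊥ := by
      rw [eq_bot_iff]
      apply convGen_le isConv_bot
      intro s hs
      exact Subgroup.mem_bot.mpr (hS1 s hs)
    rw [hbot, sup_bot_eq] at hT
    intro g hg h hh
    exact Q.mul_mem (hT g hg) (Q.inv_mem (hT h hh))
  | succ m ih =>
    intro S hS hS1 T hT
    have hTh : convGen (Theta S) ≤ convGen S := by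
      apply convGen_le (isConv_convGen S)
      intro t ht
      exact ThN_subset_conv (isConv_convGen S) (fun s hs => subset_convGen S hs) 1 ht
    apply DS_step (R := Q ⊔ convGen S) (R' := Q ⊔ convGen (Theta S)) hQ
      (hQ.conv.sup (isConv_convGen _)) le_sup_left (sup_le_sup_left hTh Q)
      (comm_step hQ (isConv_convGen _) (isConv_convGen _) (convGen_comm hS)) T 1
      (by simpa using hT)
    intro T' hT' _
    apply ih (Theta S) (Theta_conj_inv hS) _ T' hT'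
    intro t ht
    rw [← ThN_succ'] at ht
    exact hS1 t ht

/-! ### The normal-valued case: Hoelder's theorem -/

/-- an archimedean statement for the preorder -/
theorem NV.arch' (hNV : NV A) {P : Subgroup A} {f : A} (hP : IsVal P f) {b : A}
    (hb : b ∈ cover P f) (hb1 : clt P 1 b) {g : A} (hg : g ∈ cover P f) :
    ∃ m : ℕ, clt P g (b ^ m) := by
  have hc := isConv_cover P f
  have hN := hNV.cover_le_normalizer hP
  have h1 : ceq P (b ⊔ 1) b := ceq_sup_of_cle' hP.conv (hb1.le hP.prime)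
  have hpow : ∀ m : ℕ, ceq P ((b ⊔ 1) ^ m) (b ^ m) := by
    intro m
    induction m with
    | zero => simp only [pow_zero]; exact ceq_refl _ _
    | succ m ih =>
      rw [pow_succ', pow_succ']
      refine ((ceq_mul_left (hN (hc.pos_mem hb))).mpr ih).trans ?_
      exact (ceq_mul_right (b ^ m)).mpr h1
  obtain ⟨m, hm⟩ := hNV.arch hP (b := b ⊔ 1) (hc.pos_mem hb) (clt_one_iff.mp hb1) le_sup_right hg
  refine ⟨m + 1, ?_⟩
  have h2 : cle P g (b ^ m) := hm.trans hP.conv ((hpow m).le hP.conv)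
  have h3 := (clt_mul_right (b ^ m)).mpr hb1
  rw [one_mul, ← pow_succ'] at h3
  exact h2.trans_clt hP.conv h3

theorem NV.sandwich (hNV : NV A) {P : Subgroup A} {f : A} (hP : IsVal P f) {b : A}
    (hb : b ∈ cover P f) (hb1 : clt P 1 b) {g : A} (hg : g ∈ cover P f) (hg1 : 1 ≤ g) :
    ∃ m : ℕ, cle P (b ^ m) g ∧ clt P g (b ^ (m + 1)) := by
  classical
  have hex := hNV.arch' hP hb hb1 hg
  have h0 : Nat.find hex ≠ 0 := by
    intro h
    have h1 := Nat.find_spec hex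
    rw [h, pow_zero] at h1
    exact h1 (cle_of_le hP.conv hg1)
  obtain ⟨k, hk⟩ := Nat.exists_eq_succ_of_ne_zero h0
  refine ⟨k, ?_, ?_⟩
  · have := Nat.find_min hex (m := k) (by omega)
    exact not_clt.mp this
  · have := Nat.find_spec hex
    rwa [hk] at this

theorem NV.hoelder (hNV : NV A) {P : Subgroup A} {f : A} (hP : IsVal P f) :
    ∀ x ∈ cover P f, ∀ y ∈ cover P f, ⁅x, y⁆ ∈ P := by
  have hc := isConv_cover P f
  have hN := hNV.cover_le_normalizer hP
  have hP' := hP.prime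
  have main : ∀ x ∈ cover P f, 1 ≤ x → ∀ y ∈ cover P f, 1 ≤ y → ceq P (x * y) (y * x) := by
    by_cases hleast : ∃ b ∈ cover P f, clt P 1 b ∧ ∀ g ∈ cover P f, clt P 1 g → cle P b g
    · obtain ⟨b, hb, hb1, hbl⟩ := hleast
      have hpow : ∀ x ∈ cover P f, 1 ≤ x → ∃ m : ℕ, ceq P x (b ^ m) := by
        intro x hx hx1
        obtain ⟨m, hm1, hm2⟩ := hNV.sandwich hP hb hb1 hx hx1
        refine ⟨m, ?_⟩
        by_contra hne
        have h1 : clt P (b ^ m) x := clt_of_cle_not_ceq hP.conv hm1 (fun h => hne h.symm)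
        have h2 := (clt_mul_right (b ^ m)⁻¹).mpr h1
        rw [mul_inv_cancel] at h2
        have h3 := hbl _ (mul_mem hx (inv_mem (pow_mem hb m))) h2
        have h4 := (cle_mul_right (b ^ m)).mpr h3
        rw [inv_mul_cancel_right, ← pow_succ'] at h4
        exact hm2 h4
      intro x hx hx1 y hy hy1
      obtain ⟨m, hm⟩ := hpow x hx hx1
      obtain ⟨n, hn⟩ := hpow y hy hy1
      have h1 : ceq P (x * y) (b ^ m * b ^ n) :=
        ((ceq_mul_right y).mpr hm).trans ((ceq_mul_left (hN (pow_mem hb m))).mpr hn)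
      have h2 : ceq P (y * x) (b ^ n * b ^ m) :=
        ((ceq_mul_right x).mpr hn).trans ((ceq_mul_left (hN (pow_mem hb n))).mpr hm)
      rw [← pow_add, add_comm, pow_add] at h1
      exact h1.trans h2.symm
    · push Not at hleast
      -- small square roots
      have hsq : ∀ c ∈ cover P f, clt P 1 c → ∃ b ∈ cover P f, clt P 1 b ∧ cle P (b ^ 2) c := by
        intro c hcc hc1
        obtain ⟨g, hg, hg1, hgc⟩ := hleast c hcc hc1
        by_cases hg2 : cle P (g ^ 2) c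
        · exact ⟨g, hg, hg1, hg2⟩
        · refine ⟨c * g⁻¹, mul_mem hcc (inv_mem hg), ?_, ?_⟩
          · have := (clt_mul_right g⁻¹).mpr hgc
            rwa [mul_inv_cancel] at this
          · have h1 : cle P c (g ^ 2) := (not_cle.mp hg2).le hP'
            have h2 : cle P (c * g⁻¹) g := by
              have := (cle_mul_right g⁻¹).mpr h1
              rwa [show g ^ 2 * g⁻¹ = g by group] at this
            have h3 := (cle_mul_left (hN (inv_mem hg))).mpr h2
            rw [inv_mul_cancel] at h3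
            have h4 := (cle_mul_left (hN hcc)).mpr h3
            rw [mul_one] at h4
            rwa [show c * (g⁻¹ * (c * g⁻¹)) = (c * g⁻¹) ^ 2 by rw [pow_two]; group] at h4
      have hle : ∀ x ∈ cover P f, 1 ≤ x → ∀ y ∈ cover P f, 1 ≤ y → cle P (x * y) (y * x) := by
        intro x hx hx1 y hy hy1
        by_contra hcon
        have h1 : clt P (y * x) (x * y) := hcon
        have h2 := (clt_mul_right (y * x)⁻¹).mpr h1
        rw [mul_inv_cancel] at h2
        have hcmem : x * y * (y * x)⁻¹ ∈ cover P f :=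
          mul_mem (mul_mem hx hy) (inv_mem (mul_mem hy hx))
        obtain ⟨b, hb, hb1, hb2⟩ := hsq _ hcmem h2
        obtain ⟨m, hm1, hm2⟩ := hNV.sandwich hP hb hb1 hx hx1
        obtain ⟨n, hn1, hn2⟩ := hNV.sandwich hP hb hb1 hy hy1
        have h3 : clt P (x * y) (b ^ (m + 1) * b ^ (n + 1)) :=
          ((clt_mul_right y).mpr hm2).trans hP'
            ((clt_mul_left (hN (pow_mem hb (m + 1)))).mpr hn2)
        have h4 : cle P (b ^ n * b ^ m) (y * x) :=
          ((cle_mul_left (hN (pow_mem hb n))).mpr hm1).trans hP.conv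
            ((cle_mul_right x).mpr hn1)
        have h5 := (cle_mul_right (y * x)).mpr hb2
        rw [inv_mul_cancel_right] at h5
        have h6 : cle P (b ^ 2 * (b ^ n * b ^ m)) (b ^ 2 * (y * x)) :=
          (cle_mul_left (hN (pow_mem hb 2))).mpr h4
        have h7 := h6.trans hP.conv h5
        have h8 : b ^ (m + 1) * b ^ (n + 1) = b ^ 2 * (b ^ n * b ^ m) := by
          rw [← pow_add, ← pow_add, ← pow_add]
          congr 1
          ring
        rw [h8] at h3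
        exact h3 h7
      intro x hx hx1 y hy hy1
      exact cle.antisymm hP.conv (hle x hx hx1 y hy hy1) (hle y hy hy1 x hx hx1)
  have hcl : cover P f = Subgroup.closure {x | x ∈ cover P f ∧ 1 ≤ x} := by
    apply le_antisymm
    · intro x hx
      rw [← pos_div_neg x]
      exact mul_mem (Subgroup.subset_closure ⟨hc.pos_mem hx, le_sup_right⟩)
        (inv_mem (Subgroup.subset_closure ⟨hc.neg_mem hx, le_sup_right⟩))
    · rw [Subgroup.closure_le]
      rintro x ⟨hx, _⟩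
      exact hx
  intro x hx y hy
  rw [hcl] at hx hy
  refine comm_closure ?_ ?_ hx hy
  · rw [← hcl]
    exact hN
  · rintro x ⟨hx, hx1⟩ y ⟨hy, hy1⟩
    have := main x hx hx1 y hy hy1
    unfold ceq at this
    rwa [mul_inv_rev, ← mul_assoc, ← commutatorElement_def] at this

/-- displacement systems in normal-valued groups -/
theorem DS_of_NV (hNV : NV A) {Q : Subgroup A} (hQ : IsPrimeC Q) (n : ℕ) :
    ∀ T : Finset A, T.card ≤ n → ∃ r0 : ℕ, ∀ r, r0 ≤ r → DS r Q n (T : Set A) := by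
  classical
  induction n with
  | zero =>
    intro T hT
    have : T = ∅ := Finset.card_eq_zero.mp (Nat.le_zero.mp hT)
    subst this
    exact ⟨0, fun r _ g hg => absurd hg (by simp)⟩
  | succ n ih =>
    intro T hT
    by_cases h1 : ∀ g ∈ T, ∀ h ∈ T, ceq Q g h
    · exact ⟨1, fun r hr => DS_trivial hr (n + 1) _ h1⟩
    · push Not at h1
      obtain ⟨g1, hg1, h1', hh1, hne⟩ := h1
      let l : List A := ((T ×ˢ T).image (fun q => q.1 * q.2⁻¹)).toList
      have hmem : ∀ x, x ∈ l ↔ ∃ g ∈ T, ∃ h ∈ T, g * h⁻¹ = x := by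
        intro x
        simp only [l, Finset.mem_toList, Finset.mem_image, Finset.mem_product, Prod.exists]
        constructor
        · rintro ⟨g, h, ⟨hg, hh⟩, rfl⟩
          exact ⟨g, hg, h, hh, rfl⟩
        · rintro ⟨g, hg, h, hh, rfl⟩
          exact ⟨g, h, ⟨hg, hh⟩, rfl⟩
      obtain ⟨s0, hs0, hs0Q, hdom⟩ := exists_dominating hQ l
        ⟨g1 * h1'⁻¹, (hmem _).mpr ⟨g1, hg1, h1', hh1, rfl⟩, hne⟩
      obtain ⟨P, hQP, hP⟩ := exists_isVal hQ.conv hs0Q
      have hcov : ∀ s ∈ l, s ∈ cover P s0 := fun s hs =>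
        (convGen_mono (Set.union_subset_union_left _ hQP) :
          convGen ((Q : Set A) ∪ {s0}) ≤ cover P s0) (hdom s hs)
      apply DS_step (R := cover P s0) (R' := P) hQ hP.conv hQP (le_cover P s0)
        (hNV.hoelder hP) T g1
      · intro g hg
        exact hcov _ ((hmem _).mpr ⟨g, hg, g1, hg1, rfl⟩)
      · intro T' _ hT'
        apply ih T'
        have h2 : T'.card < T.card := by
          apply hT'
          intro hall
          obtain ⟨g, hg, h, hh, rfl⟩ := (hmem s0).mp hs0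
          exact hP.not_mem (hall g hg h hh)
        omega

end ASide

/-! ### The odd case -/

section Odd

open MGroup

/-- the conjugates of the elements `y * star y` -/
def Sodd (A : Type) [MGroup A] : Set A := {s | ∃ g y : A, s = g * (y * star y) * g⁻¹}

variable {A : Type} [MGroup A]

theorem Sodd_conj : ∀ g : A, ∀ s ∈ Sodd A, g * s * g⁻¹ ∈ Sodd A := by
  rintro g _ ⟨h, y, rfl⟩
  exact ⟨g * h, y, by group⟩

theorem mul_star_mem (x : A) : x * star x ∈ convGen (Sodd A) :=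
  subset_convGen _ ⟨1, x, by group⟩

theorem comm_mem_odd (x y : A) : ⁅x, y⁆ ∈ convGen (Sodd A) := by
  haveI := convGen_normal (Sodd_conj (A := A))
  have h1 := mul_star_mem x
  have h2 := mul_star_mem y
  have h3 := mul_star_mem (x * y)
  have h4 : ⁅x, y⁆ = (x * y * star (x * y)) * ((star y)⁻¹ * (x * star x)⁻¹ * (star y)⁻¹⁻¹) *
      (y * star y)⁻¹ := by
    rw [MGroup.star_mul, commutatorElement_def]
    group
  rw [h4]
  exact mul_mem (mul_mem h3 (Subgroup.Normal.conj_mem this _ (inv_mem h1) _)) (inv_mem h2)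

theorem DSI_of_odd {Q : Subgroup A} (hQ : IsPrimeC Q) (m : ℕ)
    (hS : ∀ t ∈ ThN m (Sodd A), t = 1) (T : Finset A) :
    ∃ r0 : ℕ, ∀ r, r0 ≤ r → DSI r Q m (T : Set A) := by
  have hR' : IsPrimeC (Q ⊔ convGen (Sodd A)) :=
    hQ.of_le (hQ.conv.sup (isConv_convGen _)) le_sup_left
  have hT : ∀ g ∈ T, g * (1 : A)⁻¹ ∈ (⊤ : Subgroup A) := fun g _ => Subgroup.mem_top _
  obtain ⟨ψ, c, s, τ, T', N, hψ, hψ0, hc, hcN, hlt, hT'eq, hT', -, -⟩ :=
    disp_data (R := ⊤) hR' le_top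
      (fun x _ y _ => Subgroup.mem_sup_right (comm_mem_odd x y)) T 1 hT
  obtain ⟨r0, hr0⟩ := DS_of_ThN hQ m (Sodd A) Sodd_conj hS T' hT'
  refine ⟨max r0 N, ?_⟩
  intro r hr
  refine ⟨c, τ, ?_, ?_, ?_, ?_, ?_⟩
  · intro g hg
    have := hcN g hg
    have h1 : (N : ℤ) ≤ r := by exact_mod_cast (le_max_right r0 N).trans hr
    exact ⟨this.1, by omega⟩
  · intro g hg h hh hgh
    exact clt_mono le_sup_left (hlt g hg h hh hgh)
  · intro g hg h hh x hgx hhx
    have h1 := (disp_diff hT hψ hc hg hgx).2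
    have h2 := (disp_diff hT hψ hc hh hhx).2
    rw [← h1] at h2
    exact_mod_cast h2.symm
  · intro g hg h hh x hgx hhx
    have h1 := (disp_diff hT hψ hc hg hgx).2
    have h2 := (disp_diff hT hψ hc hh hhx).2
    have h3 : ψ (x * star x) = 0 := hψ0 _ (Subgroup.mem_sup_right (mul_star_mem x))
    rw [hψ _ (Subgroup.mem_top _) _ (Subgroup.mem_top _)] at h3
    rw [one_mul, inv_one, mul_one] at h1 h2
    have h4 : ((c (g * x) - c g : ℤ) : ℚ) = ((-(c (h * star x) - c h) : ℤ) : ℚ) := by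
      rw [h1, Int.cast_neg, h2]
      linarith
    exact_mod_cast h4
  · have h1 := hr0 r ((le_max_left r0 N).trans hr)
    rw [hT'eq] at h1
    exact h1

end Odd

end Pool.Agent.Hhelper12.MG
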