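import Pool.Agent.Hhelper12.MG.ASide

/-!
# Rich systems in m-groups
-/

set_option autoImplicit false
set_option linter.unusedSectionVars false
set_option linter.unnecessarySimpa false
set_option linter.unusedVariables false
set_option linter.style.haveILetI false

namespace Pool.Agent.Hhelper12.MG

open scoped commutatorElement
open MGroup

section Star

variable {B : Type} [MGroup B]

theorem star_anti {x y : B} (h : x ≤ y) : star y ≤ star x := by
  rw [← inf_eq_right, ← MGroup.star_sup, sup_eq_right.mpr h]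

theorem star_inj {x y : B} (h : star x = star y) : x = y := by
  rw [← MGroup.star_star x, h, MGroup.star_star]

theorem star_le_one {x : B} (h : 1 ≤ x) : star x ≤ 1 := by
  have := star_anti h
  rwa [star_one'] at this

theorem mabs_star (x : B) : |star x|ₘ = (star |x|ₘ)⁻¹ := by
  unfold mabs
  rw [MGroup.star_sup, inv_inf, star_inv', inv_inv, sup_comm]

theorem mabs_star_of_one_le {x : B} (h : 1 ≤ x) : |star x|ₘ = (star x)⁻¹ := by
  rw [mabs_star, mabs_of_one_le h]

theorem mabs_star_le {x y : B} (h : |x|ₘ ≤ |y|ₘ) : |star x|ₘ ≤ |star y|ₘ := by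
  rw [mabs_star, mabs_star, inv_le_inv_iff]
  exact star_anti h

theorem Orth.star {x y : B} (h : Orth x y) : Orth (star x) (star y) := by
  unfold Orth at *
  rw [mabs_star, mabs_star, ← inv_sup, ← MGroup.star_inf, h, star_one', inv_one]

/-- the image of a subgroup under `star` -/
def stP (P : Subgroup B) : Subgroup B := P.comap (starHom B)

theorem mem_stP {P : Subgroup B} {x : B} : x ∈ stP P ↔ star x ∈ P := Iff.rfl

theorem stP_stP (P : Subgroup B) : stP (stP P) = P := by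
  ext x
  rw [mem_stP, mem_stP, MGroup.star_star]

theorem stP_mono {P Q : Subgroup B} (h : P ≤ Q) : stP P ≤ stP Q := fun _ hx => h hx

theorem stP_cj (P : Subgroup B) (g : B) : stP (cj P g) = cj (stP P) (star g) := by
  ext x
  rw [mem_stP, mem_cj, mem_cj, mem_stP, MGroup.star_mul, MGroup.star_mul, star_inv',
    MGroup.star_star]

theorem IsConv.stP {P : Subgroup B} (hP : IsConv P) : IsConv (stP P) := by
  intro x hx y hy
  rw [mem_stP] at *
  exact hP _ hx _ (mabs_star_le hy)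

theorem cle_star {P : Subgroup B} {a b : B} (h : cle P a b) : cle (stP P) (star b) (star a) := by
  unfold cle at *
  rw [mem_stP, MGroup.star_sup, star_one', MGroup.star_mul, star_inv', MGroup.star_star,
    MGroup.star_star]
  have := P.inv_mem h
  rw [inv_sup, inv_one, mul_inv_rev, inv_inv] at this
  exact this

theorem not_stP_le {P : Subgroup B} (h : stP P ≠ P) : ¬ stP P ≤ P := by
  intro hle
  apply h
  apply le_antisymm hle
  have := stP_mono hle
  rwa [stP_stP] at this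

theorem orth_star_convGen {h g : B} (ho : Orth h (g * star h * g⁻¹)) {l l' : B}
    (hl : l ∈ convGen {h}) (hl' : l' ∈ convGen {h}) : Orth l (g * star l' * g⁻¹) := by
  have h1 : Orth l (g * star h * g⁻¹) :=
    orth_convGen (by rintro s hs; rw [Set.mem_singleton_iff.mp hs]; exact ho) hl
  have h2 : Orth h (star (g⁻¹ * l * g)) := by
    have := orth_conj g⁻¹ h1
    rw [inv_inv, show g⁻¹ * (g * star h * g⁻¹) * g = star h by group] at this
    have := this.star
    rw [MGroup.star_star] at this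
    exact this.symm
  have h3 : Orth l' (star (g⁻¹ * l * g)) :=
    orth_convGen (by rintro s hs; rw [Set.mem_singleton_iff.mp hs]; exact h2) hl'
  have h4 := h3.star
  rw [MGroup.star_star] at h4
  have := orth_conj g h4
  rw [show g * (g⁻¹ * l * g) * g⁻¹ = l by group] at this
  exact this.symm

theorem rs_fixed_star {Q L : Subgroup B} (hQ : IsPrimeC Q) {z : B} (hz : z ∈ L) (hzQ : z ∉ Q)
    {g : B} (ho : ∀ l ∈ L, ∀ l' ∈ L, Orth l (g * star l' * g⁻¹)) {l l' : B} (hl : l ∈ L)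
    (hl' : l' ∈ L) : ceq Q (l * g * star l') (l * g) := by
  have h1 : g * star l' * g⁻¹ ∈ Q := (ho z hz l' hl').mem_of_not_mem hQ hzQ
  have h2 := (ho l hl l' hl').commute
  unfold ceq
  have h3 : l * g * star l' * (l * g)⁻¹ = g * star l' * g⁻¹ := by
    rw [show l * g * star l' * (l * g)⁻¹ = (l * (g * star l' * g⁻¹)) * l⁻¹ by group, h2,
      mul_inv_cancel_right]
  rw [h3]
  exact h1

/-- if all conjugates of a value are invariant under `star` then the value contains `y * star y`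
whenever its cover does -/
theorem mul_star_mem_of_invariant {q : ℕ} (hL : Lq B q) (hq : Odd q) {P : Subgroup B}
    (hP : IsPrimeC P) (hinv : ∀ u : B, stP (cj P u) = cj P u) {y : B}
    (hy : y * star y ∈ Subgroup.normalizer (P : Set B)) : y * star y ∈ P := by
  have hq0 : q ≠ 0 := by rintro rfl; simp at hq
  have h1 : stP P = P := by
    have := hinv 1
    rwa [cj_one] at this
  have h2 : ∀ v : B, cj P (star v) = cj P v := by
    intro v
    have := hinv v
    rwa [stP_cj, h1] at this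
  have hNstar : ∀ v : B, v ∈ Subgroup.normalizer (P : Set B) →
      star v ∈ Subgroup.normalizer (P : Set B) := by
    intro v hv
    rw [mem_normalizer_iff_cj] at *
    rw [h2, hv]
  have h3 : star y * y⁻¹ ∈ Subgroup.normalizer (P : Set B) := by
    rw [mem_normalizer_iff_cj, ← cj_cj, h2, cj_cj, mul_inv_cancel, cj_one]
  have h4 : star y * y ∈ Subgroup.normalizer (P : Set B) := by
    have := hNstar _ hy
    rwa [MGroup.star_mul, MGroup.star_star] at this
  have h5 : y ^ 2 ∈ Subgroup.normalizer (P : Set B) := by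
    have := mul_mem (inv_mem h3) h4
    rwa [show (star y * y⁻¹)⁻¹ * (star y * y) = y ^ 2 by rw [pow_two]; group] at this
  have h6 : y ^ q ∈ Subgroup.normalizer (P : Set B) := hL.pow_mem_normalizer hq0 hP.conv y
  have h7 : y ∈ Subgroup.normalizer (P : Set B) := by
    obtain ⟨k, rfl⟩ := hq
    have := mul_mem (inv_mem (pow_mem h5 k)) h6
    rwa [← pow_mul, pow_succ, inv_mul_cancel_left] at this
  have h8 := hNstar _ h7
  have h9 : ceq P (y * star y) (star (y * star y)) := by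
    rw [MGroup.star_mul, MGroup.star_star]
    exact hL.comm_mod hq0 hP h7 h8
  rw [← ceq_one]
  rcases cle_total hP (y * star y) 1 with h10 | h10
  · have h11 := cle_star h10
    rw [h1, star_one'] at h11
    exact cle.antisymm hP.conv h10 (h11.trans hP.conv (h9.symm.le hP.conv))
  · have h11 := cle_star h10
    rw [h1, star_one'] at h11
    exact cle.antisymm hP.conv ((h9.le hP.conv).trans hP.conv h11) h10

/-- transport of the data to a conjugate -/
theorem conj_data {P Q : Subgroup B} {s0 t : B} {m : ℕ} (hP : IsVal P s0) (hQP : Q ≤ P)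
    (hQ : IsPrimeC Q) (ht : t ∈ ThN m (cover P s0 : Set B)) (htQ : t ∉ Q) (u : B) :
    IsVal (cj P u) (u⁻¹ * s0 * u) ∧ cj Q u ≤ cj P u ∧ IsPrimeC (cj Q u) ∧
      (u⁻¹ * t * u) ∈ ThN m (cover (cj P u) (u⁻¹ * s0 * u) : Set B) ∧ u⁻¹ * t * u ∉ cj Q u := by
  refine ⟨hP.cj u, cj_mono hQP u, hQ.cj u, ?_, ?_⟩
  · rw [cover_cj]
    exact ThN_cj u ht
  · rwa [conj_mem_cj_iff]

theorem shrunk_not_mem {G : Type*} [Group G] [Lattice G] [MulLeftMono G] [MulRightMono G]
    (hNV : NV G) {P : Subgroup G} {f h w : G}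
    (hP : IsVal P f) (hhc : h ∈ cover P f) (hhP : h ∉ P) (h1 : 1 ≤ h) (hw : w ∈ P) :
    h * w⁻¹ ⊔ 1 ∉ P := by
  intro hcon
  apply hhP
  apply mem_of_cle_one hP.conv h1
  have h2 : ceq P h (h * w⁻¹) := by
    have hnorm := hNV.cover_le_normalizer hP hhc
    have := (ceq_mul_left hnorm).mpr (ceq_one.mpr (P.inv_mem hw)).symm
    rwa [mul_one] at this
  exact (h2.le hP.conv).trans hP.conv (cle_one_iff.mpr hcon)

theorem shrunk_le {G : Type*} [Group G] [Lattice G] [MulLeftMono G] [MulRightMono G]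
    {h w : G} (h1 : 1 ≤ h) (hw1 : 1 ≤ w) : h * w⁻¹ ⊔ 1 ≤ h := by
  refine sup_le ?_ h1
  rw [mul_inv_le_iff_le_mul]
  exact le_mul_of_one_le_right' hw1

/-- the even case -/
theorem exists_RS_star {p e : ℕ} (hp : p.Prime) (hp2 : Odd p) (hNV : NV B)
    (hL : Lq B (p ^ e)) {r : ℕ} (hr : r ≤ p) {m : ℕ} (h : ∃ t ∈ ThN m (Sodd B), t ≠ 1) :
    ∃ Q' : Subgroup B, IsPrimeC Q' ∧ ∃ L : Subgroup B,
      (∀ l ∈ L, ∀ l' ∈ L, ceq Q' (l * star l') l) ∧ RS r (m + 1) L Q' := by
  obtain ⟨t, ht, ht1⟩ := h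
  obtain ⟨Q, hQ, htQ⟩ := exists_prime_not_mem ht1
  obtain ⟨s0, hs0, P, hQP, hP, htP⟩ := leaf hQ ht htQ
  obtain ⟨g, y, rfl⟩ := hs0
  have htm : t ∈ ThN m (cover P (g * (y * star y) * g⁻¹) : Set B) :=
    ThN_mono Set.inter_subset_right m htP
  -- some conjugate is not invariant
  obtain ⟨u, hu⟩ : ∃ u : B, stP (cj P u) ≠ cj P u := by
    by_contra hcon
    push Not at hcon
    have hP1 := (hP.cj g)
    have h1 : y * star y ∉ cj P g := by
      rw [mem_cj]
      exact hP.not_mem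
    have h2 : y * star y ∈ Subgroup.normalizer (cj P g : Set B) := by
      apply hNV.cover_le_normalizer hP1
      have := mem_cover (cj P g) (g⁻¹ * (g * (y * star y) * g⁻¹) * g)
      rwa [show g⁻¹ * (g * (y * star y) * g⁻¹) * g = y * star y by group] at this ⊢
    apply h1
    apply mul_star_mem_of_invariant hL (hp2.pow) hP1.prime _ h2
    intro v
    rw [cj_cj]
    exact hcon (g * v)
  obtain ⟨hP1, hQP1, hQ1, ht1', htQ1⟩ := conj_data hP hQP hQ htm htQ u
  set P1 := cj P u with hP1def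
  set s1 := u⁻¹ * (g * (y * star y) * g⁻¹) * u with hs1
  have hFc : |s1|ₘ ∈ cover P1 s1 := (isConv_cover _ _).mabs_mem (mem_cover _ _)
  have hFP : |s1|ₘ ∉ P1 := fun h => hP1.not_mem (hP1.conv.mabs_mem_iff.mp h)
  obtain ⟨h, h1, hhF, hhP, hh⟩ := separation hP1.prime hFP (one_le_mabs s1) [stP P1] (by
    intro D hD
    rw [List.mem_singleton] at hD
    subst hD
    exact ⟨hP1.conv.stP, not_stP_le hu⟩)
  have hst : star h ∈ P1 := mem_stP.mp (hh _ (by simp))
  have hhc : h ∈ cover P1 s1 := (isConv_cover _ _).mem_of_le h1 hhF hFc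
  have hk1 : 1 ≤ (star h)⁻¹ := by
    rw [one_le_inv']
    exact star_le_one h1
  have hk2 : 1 ≤ ((star h)⁻¹) ^ 2 := one_le_pow_of_one_le' hk1 2
  set h' := h * (((star h)⁻¹) ^ 2)⁻¹ ⊔ 1 with hh'
  have hh'1 : 1 ≤ h' := le_sup_right
  have hh'h : h' ≤ h := shrunk_le h1 hk2
  have hh'P : h' ∉ P1 := shrunk_not_mem hNV hP1 hhc hhP h1 (P1.pow_mem (P1.inv_mem hst) 2)
  have hh'c : h' ∈ cover P1 s1 := (isConv_cover _ _).mem_of_le hh'1 hh'h hhc
  have ho : Orth h' (star h') := by
    unfold Orth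
    rw [mabs_of_one_le hh'1, mabs_star_of_one_le hh'1]
    have h2 : (star h')⁻¹ = (h ^ 2)⁻¹ * (star h)⁻¹ ⊔ 1 := by
      rw [hh', MGroup.star_sup, star_one', inv_inf, inv_one, MGroup.star_mul, star_inv',
        star_pow', star_inv', MGroup.star_star, mul_inv_rev, inv_inv, inv_pow]
    rw [h2]
    exact hNV.ident h1 hk1
  have ho' : Orth h' (1 * star h' * 1⁻¹) := by simpa using ho
  obtain ⟨t', ht', ht'Q⟩ := hNV.transfer' hP1 hQ1 hQP1 hh'c hh'P hh'1 ht1' htQ1
  obtain ⟨Q', hQ', ⟨z, hz, hzQ⟩, hRS⟩ := exists_RS hp hNV hL hr m (convGen {h'})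
    (isConv_convGen _) ⟨t', ht', fun h => ht'Q (h ▸ Subgroup.one_mem _)⟩
  refine ⟨Q', hQ', convGen {h'}, ?_, hRS⟩
  intro l hl l' hl'
  have := rs_fixed_star hQ' hz hzQ (g := 1)
    (fun l hl l' hl' => orth_star_convGen ho' hl hl') hl hl'
  simpa using this

/-- powers below -/
theorem pow_le_of_orth {h k : B} (hh : 1 ≤ h) (hk : 1 ≤ k) (ho : Orth h (k * h * k⁻¹)) (N : ℕ) :
    h ^ N ≤ k := by
  by_contra hcon
  have hne : h ^ N * k⁻¹ ⊔ 1 ≠ 1 := by
    intro h1
    apply hcon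
    rw [← mul_inv_le_one_iff_le, ← h1]
    exact le_sup_left
  obtain ⟨Q, hQ, hnm⟩ := exists_prime_not_mem hne
  have h1 : clt Q k (h ^ N) := by
    have := (clt_mul_right k).mpr (one_lt_of_not_mem hnm)
    rwa [one_mul, inv_mul_cancel_right] at this
  have hhQ : h ∉ Q := by
    intro hq
    apply h1
    exact ((ceq_one.mpr (Q.pow_mem hq N)).le hQ.conv).trans hQ.conv (cle_of_le hQ.conv hk)
  have h2 : k * h * k⁻¹ ∈ Q := ho.mem_of_not_mem hQ hhQ
  have h3 : k * h ^ N * k⁻¹ ∈ Q := by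
    have : k * h ^ N * k⁻¹ = (k * h * k⁻¹) ^ N := by
      rw [← MulAut.conj_apply, ← MulAut.conj_apply, map_pow]
    rw [this]
    exact Q.pow_mem h2 N
  have h4 : ceq Q k (k * (h ^ N)⁻¹) := by
    have : ceq Q (k * h ^ N) k := h3
    have := (ceq_mul_right (h ^ N)⁻¹).mpr this
    rwa [mul_inv_cancel_right] at this
  have h5 := (clt_mul_right (h ^ N)⁻¹).mpr h1
  rw [mul_inv_cancel] at h5
  exact h5 ((cle_of_le hQ.conv hk).trans hQ.conv (h4.le hQ.conv))

/-- in the absence of the even type, dominated elements normalise all conjugates of the value -/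
theorem normalizes {p e : ℕ} (hp : p.Prime) (hp2 : Odd p) (hNV : NV B)
    (hL : Lq B (p ^ e)) {m : ℕ} (hno : ∀ t ∈ ThN (m + 1) (Sodd B), t = 1)
    {P Q : Subgroup B} {f t : B} (hP : IsVal P f) (hQ : IsPrimeC Q) (hQP : Q ≤ P)
    (ht : t ∈ ThN m (cover P f : Set B)) (htQ : t ∉ Q) {s : B} (hs : s ∈ Sodd B) :
    s ∈ Subgroup.normalizer (P : Set B) := by
  have key : ∀ k : B, 1 ≤ k → k ≤ |s|ₘ → k ∈ Subgroup.normalizer (P : Set B) := by
    intro k hk1 hks
    by_contra hkN
    have hFc : |f|ₘ ∈ cover P f := (isConv_cover _ _).mabs_mem (mem_cover _ _)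
    have hFP : |f|ₘ ∉ P := fun h => hP.not_mem (hP.conv.mabs_mem_iff.mp h)
    have hp3 : 2 ≤ p := hp.two_le
    obtain ⟨h', h1', hF', hP', ho⟩ := exists_shrunk hp hNV hL hp3 hP hFc hFP (one_le_mabs _) hkN
    have ho1 : Orth h' (k * h' * k⁻¹) := by
      have := ho 1 one_ne_zero (by norm_num)
      simpa using this
    have hh'c : h' ∈ cover P f := (isConv_cover _ _).mem_of_le h1' hF' hFc
    obtain ⟨t', ht', ht'Q⟩ := hNV.transfer' hP hQ hQP hh'c hP' h1' ht htQ
    have hdom : ∀ N : ℕ, ⁅k, h' ^ N⁆ ∈ Theta (Sodd B) ∧ h' ^ N ≤ |⁅k, h' ^ N⁆|ₘ := by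
      intro N
      have hle := pow_le_of_orth h1' hk1 ho1 N
      have hN1 : 1 ≤ h' ^ N := one_le_pow_of_one_le' h1' N
      refine ⟨⟨s, hs, s, hs, k, h' ^ N, ?_, ?_, rfl⟩, ?_⟩
      · rw [mabs_of_one_le hk1]; exact hks
      · rw [mabs_of_one_le hN1]; exact hle.trans hks
      · have ho2 : Orth (h' ^ N) (k * h' ^ N * k⁻¹) :=
          orth_conj_convGen ho1 ((convGen {h'}).pow_mem (subset_convGen _ rfl) N)
            ((convGen {h'}).pow_mem (subset_convGen _ rfl) N)
        have hN2 : 1 ≤ k * h' ^ N * k⁻¹ := one_le_conj hN1 k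
        unfold Orth at ho2
        rw [mabs_of_one_le hN1, mabs_of_one_le hN2, inf_comm] at ho2
        rw [commutatorElement_def, le_mul_inv_sup hN2 hN1 ho2]
        exact le_mul_of_one_le_left' hN2
    by_cases hm : m = 0
    · subst hm
      have h1 := (hdom 1).1
      have h2 := hno _ h1
      have h3 := (hdom 1).2
      rw [h2, mabs_one, pow_one] at h3
      exact hP' (le_antisymm h3 h1' ▸ P.one_mem)
    · have hsub : ThN m (convGen {h'} : Set B) ⊆ ThN m (Theta (Sodd B)) := by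
        apply ThN_dom _ hm
        intro l hl
        obtain ⟨N, hN⟩ := mem_convGen_singleton h1' hl
        exact ⟨_, (hdom N).1, hN.trans (hdom N).2⟩
      have h4 := hsub ht'
      rw [← ThN_succ'] at h4
      exact ht'Q ((hno _ h4) ▸ Q.one_mem)
  rw [← pos_div_neg s]
  refine mul_mem (key _ le_sup_right (sup_one_le_mabs s)) (inv_mem (key _ le_sup_right ?_))
  rw [← mabs_inv]
  exact sup_one_le_mabs s⁻¹

/-- choice of a good conjugate -/
theorem recentre {p e : ℕ} (hp : p.Prime) (hL : Lq B (p ^ e)) {r : ℕ}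
    (hr : 8 * r ≤ p) {P : Subgroup B} (hP : IsConv P) {a : B} (ha : star a = a⁻¹)
    (haN : a ∉ Subgroup.normalizer (P : Set B)) :
    ∃ i : ℤ, ∀ j : ℤ, |j| < 2 * r → stP (cj P (a ^ i)) ≠ cj (cj P (a ^ i)) (a ^ j) := by
  by_cases h : ∃ j : ℤ, |j| < 2 * r ∧ stP P = cj P (a ^ j)
  · obtain ⟨j, hj, hjP⟩ := h
    refine ⟨-2 * r, ?_⟩
    intro j' hj' heq
    rw [stP_cj, star_zpow', ha, inv_zpow, ← zpow_neg, hjP, cj_cj, cj_cj, ← zpow_add,
      ← zpow_add] at heq
    have h1 := congrArg (fun X => cj X (a ^ (-(-2 * (r : ℤ) + j')))) heq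
    rw [cj_cj, cj_cj, ← zpow_add, ← zpow_add, add_neg_cancel, zpow_zero, cj_one] at h1
    rw [abs_lt] at hj hj'
    have hr' : (8 * r : ℤ) ≤ p := by exact_mod_cast hr
    refine hL.zpow_not_mem hp hP haN (n := j + -(-2 * (r : ℤ)) + -(-2 * (r : ℤ) + j')) ?_ ?_
      (mem_normalizer_iff_cj.mpr h1)
    · omega
    · rw [abs_lt]; constructor <;> omega
  · refine ⟨0, ?_⟩
    intro j hj heq
    rw [zpow_zero, cj_one] at heq
    exact h ⟨j, hj, heq⟩

/-- the odd case -/
theorem exists_RSI {p e : ℕ} (hp : p.Prime) (hp2 : Odd p) (hNV : NV B)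
    (hL : Lq B (p ^ e)) {r : ℕ} (hr1 : 1 ≤ r) (hr : 8 * r ≤ p) {m : ℕ}
    (h : ∃ t ∈ ThN m (Set.univ : Set B), t ≠ 1) (hno : ∀ t ∈ ThN m (Sodd B), t = 1) :
    ∃ Q' : Subgroup B, IsPrimeC Q' ∧ RSI r m Q' := by
  have hq0 : p ^ e ≠ 0 := pow_ne_zero e hp.ne_zero
  cases m with
  | zero =>
    obtain ⟨t, -, ht1⟩ := h
    have hb1 : 1 ≤ |t|ₘ := one_le_mabs t
    have hs1 : 1 ≤ (star |t|ₘ)⁻¹ := by
      rw [one_le_inv']
      exact star_le_one hb1
    have hba : |t|ₘ ≤ |t|ₘ * (star |t|ₘ)⁻¹ := le_mul_of_one_le_right' hs1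
    have ha1 : 1 ≤ |t|ₘ * (star |t|ₘ)⁻¹ := hb1.trans hba
    have hne : |t|ₘ * (star |t|ₘ)⁻¹ ≠ 1 := by
      intro h
      rw [h] at hba
      exact ht1 (mabs_eq_one (le_antisymm hba hb1))
    obtain ⟨Q, hQ, htQ⟩ := exists_prime_not_mem hne
    refine ⟨Q, hQ, |t|ₘ * (star |t|ₘ)⁻¹, ?_, ⊥, ?_, ?_, ?_, trivial⟩
    · rw [MGroup.star_mul, star_inv', MGroup.star_star, mul_inv_rev, inv_inv]
    · intro l₁ h1 l₂ h2 n hn _
      rw [Subgroup.mem_bot] at h1 h2
      subst h1 h2
      rw [one_mul]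
      intro hcon
      apply htQ
      have h3 : |t|ₘ * (star |t|ₘ)⁻¹ ≤ (|t|ₘ * (star |t|ₘ)⁻¹) ^ n := by
        obtain ⟨k, rfl⟩ := Int.eq_ofNat_of_zero_le hn.le
        rw [zpow_natCast]
        exact le_self_pow ha1 (by omega)
      have h4 := mem_of_cle_one hQ.conv (one_le_zpow_of ha1 hn.le) hcon
      exact hQ.conv.mem_of_le ha1 h3 h4
    · intro l h1 l' h2 n _ _
      rw [Subgroup.mem_bot] at h1 h2
      subst h1 h2
      rw [mul_one]
      exact ceq_refl _ _
    · intro l h1 l' h2 n _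
      rw [Subgroup.mem_bot] at h1 h2
      subst h1 h2
      rw [star_one', mul_one]
      exact ceq_refl _ _
  | succ m =>
    obtain ⟨t, ht, ht1⟩ := h
    rw [ThN_succ'] at ht
    obtain ⟨Q, hQ, htQ⟩ := exists_prime_not_mem ht1
    obtain ⟨s0, hs0, P, hQP, hP, htP⟩ := leaf hQ ht htQ
    obtain ⟨-, -, -, -, x, y, -, -, rfl⟩ := hs0
    have htm : t ∈ ThN m (cover P ⁅x, y⁆ : Set B) := ThN_mono Set.inter_subset_right m htP
    obtain ⟨a, -, ha1, haN⟩ : ∃ a ∈ (⊤ : Subgroup B), 1 ≤ a ∧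
        a ∉ Subgroup.normalizer (P : Set B) := by
      by_cases hxN : x ∈ Subgroup.normalizer (P : Set B)
      · by_cases hyN : y ∈ Subgroup.normalizer (P : Set B)
        · exact absurd (hL.commutator_mem hq0 hP.prime hxN hyN) hP.not_mem
        · exact exists_pos_not_normalizer isConv_top (Subgroup.mem_top y) hyN
      · exact exists_pos_not_normalizer isConv_top (Subgroup.mem_top x) hxN
    have hnorm : ∀ u : B, ∀ s ∈ Sodd B, s ∈ Subgroup.normalizer (cj P u : Set B) := by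
      intro u s hs
      obtain ⟨hP1, hQP1, hQ1, ht1', htQ1⟩ := conj_data hP hQP hQ htm htQ u
      exact normalizes hp hp2 hNV hL hno hP1 hQ1 hQP1 ht1' htQ1 hs
    -- the symmetrised element
    obtain ⟨b, hb1, hbs, hbN⟩ : ∃ b : B, 1 ≤ b ∧ star b = b⁻¹ ∧
        b ∉ Subgroup.normalizer (P : Set B) := by
      refine ⟨a ⊓ (star a)⁻¹, le_inf ha1 (one_le_inv'.mpr (star_le_one ha1)), ?_, ?_⟩
      · rw [MGroup.star_inf, star_inv', MGroup.star_star, inv_inf, inv_inv, sup_comm]
      · have h1 : cj P (star a)⁻¹ = cj P a := by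
          have h2 : (a * star a)⁻¹ * a = (star a)⁻¹ := by group
          have h3 : (a * star a)⁻¹ ∈ Subgroup.normalizer (P : Set B) := by
            have := hnorm 1 (a * star a) ⟨1, a, by group⟩
            rw [cj_one] at this
            exact inv_mem this
          rw [← h2, ← cj_cj, mem_normalizer_iff_cj.mp h3]
        have h4 : cj P (a ⊓ (star a)⁻¹) = cj P a := by
          rcases cle_total hP.prime a (star a)⁻¹ with h5 | h5
          · exact cj_congr (ceq_inf_of_cle hP.conv h5)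
          · rw [cj_congr (ceq_inf_of_cle' hP.conv h5), h1]
        rw [mem_normalizer_iff_cj, h4, ← mem_normalizer_iff_cj]
        exact haN
    clear ha1 haN
    obtain ⟨i, hi⟩ := recentre hp hL hr hP.conv hbs hbN
    obtain ⟨hP1, hQP1, hQ1, ht1', htQ1⟩ := conj_data hP hQP hQ htm htQ (b ^ i)
    have hbN1 : b ∉ Subgroup.normalizer (cj P (b ^ i) : Set B) := by
      rw [mem_normalizer_iff_cj, cj_cj, ← zpow_add_one, add_comm, zpow_one_add, ← cj_cj, cj_inj,
        ← mem_normalizer_iff_cj]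
      exact hbN
    set P1 := cj P (b ^ i) with hP1def
    set s1 := (b ^ i)⁻¹ * ⁅x, y⁆ * b ^ i with hs1
    have hst1 : ∀ j : ℤ, |j| < 2 * r → ¬ cj (stP P1) (b ^ j) ≤ P1 := by
      intro j hj hle
      have h1 : stP P1 ≤ cj P1 (b ^ (-j)) := by
        have := cj_mono hle (b ^ (-j))
        rwa [cj_cj, ← zpow_add, add_neg_cancel, zpow_zero, cj_one] at this
      apply hi (-j) (by rwa [abs_neg])
      apply le_antisymm h1
      have h2 := stP_mono h1
      rw [stP_stP, stP_cj, star_zpow', hbs, inv_zpow, ← zpow_neg, neg_neg] at h2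
      have h3 := cj_mono h2 (b ^ (-j))
      rwa [cj_cj (stP P1), ← zpow_add, add_neg_cancel, zpow_zero, cj_one] at h3
    have hr2 : 2 * r ≤ p := by omega
    have hFc : |s1|ₘ ∈ cover P1 s1 := (isConv_cover _ _).mabs_mem (mem_cover _ _)
    have hFP : |s1|ₘ ∉ P1 := fun h => hP1.not_mem (hP1.conv.mabs_mem_iff.mp h)
    obtain ⟨h, h1, hhF, hhP, hh⟩ := separation hP1.prime hFP (one_le_mabs s1)
      ((nzList (2 * r)).map (fun n => cj P1 (b ^ n)) ++
        (0 :: nzList (2 * r)).map (fun j => cj (stP P1) (b ^ j))) (by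
        intro D hD
        rcases List.mem_append.mp hD with hD | hD
        · obtain ⟨n, hn, rfl⟩ := List.mem_map.mp hD
          rw [mem_nzList] at hn
          refine ⟨hP1.conv.cj _, hL.cj_not_le hp hP1.conv hbN1 hn.1 (lt_of_lt_of_le hn.2 ?_)⟩
          exact_mod_cast hr2
        · obtain ⟨n, hn, rfl⟩ := List.mem_map.mp hD
          refine ⟨hP1.conv.stP.cj _, hst1 n ?_⟩
          rcases List.mem_cons.mp hn with rfl | hn
          · rw [abs_zero]; omega
          · rw [mem_nzList] at hn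
            have := hn.2
            push_cast at this
            exact this)
    have hA : ∀ n : ℤ, n ≠ 0 → |n| < 2 * r → b ^ n * h * (b ^ n)⁻¹ ∈ P1 := by
      intro n hn hnr
      rw [← mem_cj]
      apply hh
      apply List.mem_append_left
      exact List.mem_map.mpr ⟨n, mem_nzList.mpr ⟨hn, by push_cast; exact hnr⟩, rfl⟩
    have hall : ∀ j : ℤ, |j| < 2 * r → j ∈ (0 :: nzList (2 * r)) := by
      intro j hj
      by_cases h0 : j = 0
      · subst h0; simp
      · exact List.mem_cons_of_mem _ (mem_nzList.mpr ⟨h0, by push_cast; exact hj⟩)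
    have hB : ∀ j : ℤ, |j| < 2 * r → b ^ j * (star h)⁻¹ * (b ^ j)⁻¹ ∈ P1 := by
      intro j hj
      have h2 : h ∈ cj (stP P1) (b ^ (-j)) := by
        apply hh
        apply List.mem_append_right
        exact List.mem_map.mpr ⟨-j, hall (-j) (by rwa [abs_neg]), rfl⟩
      rw [mem_cj, mem_stP, MGroup.star_mul, MGroup.star_mul, star_inv', star_zpow', hbs,
        inv_zpow, zpow_neg, inv_inv] at h2
      have h3 := P1.inv_mem h2
      rwa [show (b ^ j * star h * (b ^ j)⁻¹)⁻¹ = b ^ j * (star h)⁻¹ * (b ^ j)⁻¹ by group] at h3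
    obtain ⟨w, hw, hw1, hwl⟩ := exists_upper hP1.conv
      ((nzList (2 * r)).map (fun n => b ^ n * h * (b ^ n)⁻¹) ++
        (0 :: nzList (2 * r)).map (fun j => b ^ j * (star h)⁻¹ * (b ^ j)⁻¹)) (by
        intro x hx
        rcases List.mem_append.mp hx with hx | hx
        · obtain ⟨n, hn, rfl⟩ := List.mem_map.mp hx
          rw [mem_nzList] at hn
          have := hn.2
          push_cast at this
          exact hA n hn.1 this
        · obtain ⟨n, hn, rfl⟩ := List.mem_map.mp hx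
          apply hB
          rcases List.mem_cons.mp hn with rfl | hn
          · rw [abs_zero]; omega
          · rw [mem_nzList] at hn
            have := hn.2
            push_cast at this
            exact this)
    have hwA : ∀ n : ℤ, n ≠ 0 → |n| < 2 * r → b ^ n * h * (b ^ n)⁻¹ ≤ w := by
      intro n hn hnr
      apply hwl
      apply List.mem_append_left
      exact List.mem_map.mpr ⟨n, mem_nzList.mpr ⟨hn, by push_cast; exact hnr⟩, rfl⟩
    have hwB : ∀ j : ℤ, |j| < 2 * r → b ^ j * (star h)⁻¹ * (b ^ j)⁻¹ ≤ w := by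
      intro j hj
      apply hwl
      apply List.mem_append_right
      exact List.mem_map.mpr ⟨j, hall j hj, rfl⟩
    have hhc : h ∈ cover P1 s1 := (isConv_cover _ _).mem_of_le h1 hhF hFc
    have hw2 : 1 ≤ w ^ 2 := one_le_pow_of_one_le' hw1 2
    have hww : w ≤ w ^ 2 := le_self_pow hw1 (by norm_num)
    set h' := h * (w ^ 2)⁻¹ ⊔ 1 with hh'
    have hh'1 : 1 ≤ h' := le_sup_right
    have hh'h : h' ≤ h := shrunk_le h1 hw2
    have hh'P : h' ∉ P1 := shrunk_not_mem hNV hP1 hhc hhP h1 (P1.pow_mem hw 2)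
    have hh'c : h' ∈ cover P1 s1 := (isConv_cover _ _).mem_of_le hh'1 hh'h hhc
    have ho : ∀ n : ℤ, n ≠ 0 → |n| < 2 * r → Orth h' (b ^ n * h' * (b ^ n)⁻¹) := by
      intro n hn hnr
      set k := b ^ n * h * (b ^ n)⁻¹ with hk
      apply orth_aux (h := h) (k := k) le_sup_right
      · exact one_le_conj le_sup_right _
      · apply sup_le_sup_right
        apply mul_le_mul_right
        rw [inv_le_inv_iff]
        exact (hwA n hn hnr).trans hww
      · rw [← sup_one_conj]
        apply sup_le_sup_right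
        have h3 : b ^ n * (h * (w ^ 2)⁻¹) * (b ^ n)⁻¹ = k * (b ^ n * w ^ 2 * (b ^ n)⁻¹)⁻¹ := by
          rw [hk]; group
        rw [h3]
        apply mul_le_mul_right
        rw [inv_le_inv_iff]
        have h4 := (hwA (-n) (neg_ne_zero.mpr hn) (by rwa [abs_neg])).trans hww
        have h5 : b ^ n * (b ^ (-n) * h * (b ^ (-n))⁻¹) * (b ^ n)⁻¹ = h := by
          rw [zpow_neg]; group
        rw [← h5]
        exact mul_le_mul_left (mul_le_mul_right h4 _) _
    have hos : ∀ j : ℤ, |j| < 2 * r → Orth h' (b ^ j * star h' * (b ^ j)⁻¹) := by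
      intro j hj
      set v := b ^ j * (star h)⁻¹ * (b ^ j)⁻¹ with hv
      have hk1 : 1 ≤ (star h)⁻¹ := one_le_inv'.mpr (star_le_one h1)
      have hv1 : 1 ≤ v := one_le_conj hk1 _
      have hvw : v ≤ w := hwB j hj
      have hvw2 : v ^ 2 ≤ w ^ 2 := by
        rw [pow_two, pow_two]
        exact mul_le_mul' hvw hvw
      have e1 : h' ≤ h * (v ^ 2)⁻¹ ⊔ 1 := by
        apply sup_le_sup_right
        apply mul_le_mul_right
        rwa [inv_le_inv_iff]
      have e2 : |b ^ j * star h' * (b ^ j)⁻¹|ₘ ≤ (h ^ 2)⁻¹ * v ⊔ 1 := by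
        rw [mabs_conj, mabs_star_of_one_le hh'1]
        have h2 : (star h')⁻¹ = (star w) ^ 2 * (star h)⁻¹ ⊔ 1 := by
          rw [hh', MGroup.star_sup, star_one', inv_inf, inv_one, MGroup.star_mul, star_inv',
            star_pow', mul_inv_rev, inv_inv]
        rw [h2, ← sup_one_conj]
        apply sup_le_sup_right
        have h3 : star w ≤ (b ^ j)⁻¹ * h⁻¹ * b ^ j := by
          have := star_anti hvw
          simp only [hv, MGroup.star_mul, star_inv', star_zpow', hbs, MGroup.star_star,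
            inv_zpow, inv_inv] at this
          exact this
        have h4 : (star w) ^ 2 ≤ (b ^ j)⁻¹ * (h ^ 2)⁻¹ * b ^ j := by
          have h5 : (b ^ j)⁻¹ * (h ^ 2)⁻¹ * b ^ j =
              ((b ^ j)⁻¹ * h⁻¹ * b ^ j) * ((b ^ j)⁻¹ * h⁻¹ * b ^ j) := by
            rw [pow_two]; group
          rw [h5, pow_two]
          exact mul_le_mul' h3 h3
        have h6 : (h ^ 2)⁻¹ * v = b ^ j * (((b ^ j)⁻¹ * (h ^ 2)⁻¹ * b ^ j) * (star h)⁻¹) *
            (b ^ j)⁻¹ := by
          rw [hv]; group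
        rw [h6]
        exact mul_le_mul_left (mul_le_mul_right (mul_le_mul_left h4 _) _) _
      unfold Orth
      rw [mabs_of_one_le hh'1]
      apply le_antisymm _ (le_inf hh'1 (one_le_mabs _))
      exact (inf_le_inf e1 e2).trans (hNV.ident h1 hv1).le
    obtain ⟨t', ht', ht'Q⟩ := hNV.transfer' hP1 hQ1 hQP1 hh'c hh'P hh'1 ht1' htQ1
    obtain ⟨Q', hQ', ⟨z, hz, hzQ⟩, hRS⟩ := exists_RS hp hNV hL (by omega : r ≤ p) m
      (convGen {h'}) (isConv_convGen _) ⟨t', ht', fun h => ht'Q (h ▸ Subgroup.one_mem _)⟩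
    have hfix : ∀ l ∈ convGen {h'}, ∀ l' ∈ convGen {h'}, ∀ n : ℤ, n ≠ 0 → |n| < r →
        ceq Q' (l * b ^ n * l') (l * b ^ n) := by
      intro l hl l' hl' n hn hnr
      exact rs_fixed hQ' hz hzQ
        (fun u hu v hv => orth_conj_convGen (ho n hn (by omega)) hu hv) hl hl'
    refine ⟨Q', hQ', b, hbs, convGen {h'}, ?_, hfix, ?_, hRS⟩
    · intro l₁ hl₁ l₂ hl₂ n hn hnr
      apply rs_lt hQ' hz (isConv_convGen _) hzQ hl₁ hl₂
      · apply cle_of_le hQ'.conv
        exact le_mul_of_one_le_right' (one_le_zpow_of hb1 hn.le)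
      · intro l hl
        exact hfix l₂ hl₂ l hl n hn.ne' (by rwa [abs_of_pos hn])
    · intro l hl l' hl' n hn
      exact rs_fixed_star hQ' hz hzQ
        (fun u hu v hv => orth_star_convGen (hos n hn) hu hv) hl hl'

end Star

end Pool.Agent.Hhelper12.MG
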