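import Pool.Agent.Hhelper12.MG.LG

/-!
# Convex subgroups, primes and values
-/

set_option autoImplicit false
set_option linter.unusedSectionVars false
set_option linter.unnecessarySimpa false
set_option linter.unusedVariables false

namespace Pool.Agent.Hhelper12.MG

open scoped commutatorElement

section Conv

variable {G : Type*} [Group G] [Lattice G]

/-- convex (= solid) subgroups -/
def IsConv (C : Subgroup G) : Prop := ∀ x ∈ C, ∀ y, |y|ₘ ≤ |x|ₘ → y ∈ C

/-- prime convex subgroups -/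
structure IsPrimeC (P : Subgroup G) : Prop where
  conv : IsConv P
  prime : ∀ x y : G, x ⊓ y = 1 → x ∈ P ∨ y ∈ P

variable [MulLeftMono G] [MulRightMono G]

theorem mabs_mabs' (x : G) : |(|x|ₘ)|ₘ = |x|ₘ := mabs_of_one_le (one_le_mabs x)

theorem IsConv.mabs_mem {C : Subgroup G} (hC : IsConv C) {x : G} (hx : x ∈ C) : |x|ₘ ∈ C :=
  hC x hx _ (by rw [mabs_mabs'])

theorem IsConv.mabs_mem_iff {C : Subgroup G} (hC : IsConv C) {x : G} : |x|ₘ ∈ C ↔ x ∈ C :=
  ⟨fun h => hC _ h x (by rw [mabs_mabs']), hC.mabs_mem⟩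

theorem IsConv.mem_of_le {C : Subgroup G} (hC : IsConv C) {x y : G} (hy : 1 ≤ y) (hyx : y ≤ x)
    (hx : x ∈ C) : y ∈ C :=
  hC x hx y (by rw [mabs_of_one_le hy, mabs_of_one_le (hy.trans hyx)]; exact hyx)

theorem IsConv.mem_of_mabs_le {C : Subgroup G} (hC : IsConv C) {x y : G} (hyx : |y|ₘ ≤ x)
    (hx : x ∈ C) : y ∈ C :=
  hC x hx y (hyx.trans (le_mabs_self x))

theorem mabs_sup_le_nc (x y : G) : |x ⊔ y|ₘ ≤ |x|ₘ ⊔ |y|ₘ := by
  rw [mabs_le']
  constructor
  · exact sup_le_sup (le_mabs_self x) (le_mabs_self y)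
  · rw [inv_sup]
    exact (inf_le_left.trans (inv_le_mabs x)).trans le_sup_left

theorem mabs_inf_le_nc (x y : G) : |x ⊓ y|ₘ ≤ |x|ₘ ⊔ |y|ₘ := by
  rw [mabs_le']
  constructor
  · exact (inf_le_left.trans (le_mabs_self x)).trans le_sup_left
  · rw [inv_inf]
    exact sup_le_sup (inv_le_mabs x) (inv_le_mabs y)

theorem sup_le_mul_of_one_le {x y : G} (hx : 1 ≤ x) (hy : 1 ≤ y) : x ⊔ y ≤ x * y :=
  sup_le (le_mul_of_one_le_right' hy) (le_mul_of_one_le_left' hx)

theorem IsConv.sup_mem {C : Subgroup G} (hC : IsConv C) {x y : G} (hx : x ∈ C) (hy : y ∈ C) :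
    x ⊔ y ∈ C :=
  hC.mem_of_mabs_le ((mabs_sup_le_nc x y).trans
    (sup_le_mul_of_one_le (one_le_mabs x) (one_le_mabs y)))
    (C.mul_mem (hC.mabs_mem hx) (hC.mabs_mem hy))

theorem IsConv.inf_mem {C : Subgroup G} (hC : IsConv C) {x y : G} (hx : x ∈ C) (hy : y ∈ C) :
    x ⊓ y ∈ C :=
  hC.mem_of_mabs_le ((mabs_inf_le_nc x y).trans
    (sup_le_mul_of_one_le (one_le_mabs x) (one_le_mabs y)))
    (C.mul_mem (hC.mabs_mem hx) (hC.mabs_mem hy))

theorem IsConv.pos_mem {C : Subgroup G} (hC : IsConv C) {x : G} (hx : x ∈ C) : x ⊔ 1 ∈ C :=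
  hC.sup_mem hx C.one_mem

theorem IsConv.neg_mem {C : Subgroup G} (hC : IsConv C) {x : G} (hx : x ∈ C) : x⁻¹ ⊔ 1 ∈ C :=
  hC.sup_mem (C.inv_mem hx) C.one_mem

theorem mem_of_pos_neg {C : Subgroup G} {x : G} (h1 : x ⊔ 1 ∈ C) (h2 : x⁻¹ ⊔ 1 ∈ C) : x ∈ C := by
  rw [← pos_div_neg x]
  exact C.mul_mem h1 (C.inv_mem h2)

theorem isConv_top : IsConv (⊤ : Subgroup G) := fun _ _ _ _ => Subgroup.mem_top _

theorem isConv_bot : IsConv (⊥ : Subgroup G) := by
  intro x hx y hy
  rw [Subgroup.mem_bot] at hx ⊢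
  subst hx
  apply mabs_eq_one
  apply le_antisymm _ (one_le_mabs y)
  simpa using hy

theorem IsConv.inf {C D : Subgroup G} (hC : IsConv C) (hD : IsConv D) : IsConv (C ⊓ D) := by
  intro x hx y hy
  exact ⟨hC x hx.1 y hy, hD x hx.2 y hy⟩

/-- sandwiching -/
theorem IsConv.between {C : Subgroup G} (hC : IsConv C) {x y z : G} (hxy : x ≤ y) (hyz : y ≤ z)
    (hx : x ∈ C) (hz : z ∈ C) : y ∈ C := by
  have h1 : y * x⁻¹ ∈ C := by
    apply hC.mem_of_le (x := z * x⁻¹)
    · rwa [le_mul_inv_iff_mul_le, one_mul]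
    · exact mul_le_mul_left hyz _
    · exact C.mul_mem hz (C.inv_mem hx)
  have := C.mul_mem h1 hx
  rwa [inv_mul_cancel_right] at this

theorem IsPrimeC.inf_mem {P : Subgroup G} (hP : IsPrimeC P) {x y : G} (h : x ⊓ y ∈ P) :
    x ∈ P ∨ y ∈ P := by
  have h1 : x * (x ⊓ y)⁻¹ ⊓ y * (x ⊓ y)⁻¹ = 1 := by
    rw [← inf_mul, mul_inv_cancel]
  rcases hP.prime _ _ h1 with h2 | h2
  · left
    have := P.mul_mem h2 h
    rwa [inv_mul_cancel_right] at this
  · right
    have := P.mul_mem h2 h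
    rwa [inv_mul_cancel_right] at this

theorem IsPrimeC.of_le {P C : Subgroup G} (hP : IsPrimeC P) (hC : IsConv C) (h : P ≤ C) :
    IsPrimeC C :=
  ⟨hC, fun x y hxy => (hP.prime x y hxy).imp (fun h' => h h') (fun h' => h h')⟩

theorem IsPrimeC.top : IsPrimeC (⊤ : Subgroup G) :=
  ⟨isConv_top, fun _ _ _ => Or.inl (Subgroup.mem_top _)⟩

/-- convex subgroups containing a prime form a chain -/
theorem IsPrimeC.chain {P C D : Subgroup G} (hP : IsPrimeC P) (hC : IsConv C) (hD : IsConv D)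
    (h1 : P ≤ C) (h2 : P ≤ D) : C ≤ D ∨ D ≤ C := by
  by_contra hcon
  rw [not_or, SetLike.not_le_iff_exists, SetLike.not_le_iff_exists] at hcon
  obtain ⟨⟨x, hxC, hxD⟩, ⟨y, hyD, hyC⟩⟩ := hcon
  have hx' : |x|ₘ ∉ D := fun h => hxD (hD.mabs_mem_iff.mp h)
  have hy' : |y|ₘ ∉ C := fun h => hyC (hC.mabs_mem_iff.mp h)
  have hz1 : (1 : G) ≤ |x|ₘ ⊓ |y|ₘ := le_inf (one_le_mabs x) (one_le_mabs y)
  have hzC : |x|ₘ ⊓ |y|ₘ ∈ C := hC.mem_of_le hz1 inf_le_left (hC.mabs_mem hxC)
  have hzD : |x|ₘ ⊓ |y|ₘ ∈ D := hD.mem_of_le hz1 inf_le_right (hD.mabs_mem hyD)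
  have h3 : |x|ₘ * (|x|ₘ ⊓ |y|ₘ)⁻¹ ⊓ |y|ₘ * (|x|ₘ ⊓ |y|ₘ)⁻¹ = 1 := by
    rw [← inf_mul, mul_inv_cancel]
  rcases hP.prime _ _ h3 with h4 | h4
  · apply hx'
    have := D.mul_mem (h2 h4) hzD
    rwa [inv_mul_cancel_right] at this
  · apply hy'
    have := C.mul_mem (h1 h4) hzC
    rwa [inv_mul_cancel_right] at this

/-! ### Orthogonality and primes -/

theorem Orth.mem_of_not_mem {P : Subgroup G} (hP : IsPrimeC P) {x y : G} (h : Orth x y)
    (hx : x ∉ P) : y ∈ P := by
  rcases hP.prime _ _ h with h1 | h1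
  · exact absurd (hP.conv.mabs_mem_iff.mp h1) hx
  · exact hP.conv.mabs_mem_iff.mp h1

/-! ### Generated convex subgroups -/

/-- the convex subgroup generated by a set -/
def convGen (S : Set G) : Subgroup G := Subgroup.closure {y | ∃ s ∈ S, |y|ₘ ≤ |s|ₘ}

theorem subset_convGen (S : Set G) {s : G} (hs : s ∈ S) : s ∈ convGen S :=
  Subgroup.subset_closure ⟨s, hs, le_rfl⟩

theorem mem_convGen_of_mabs_le {S : Set G} {s y : G} (hs : s ∈ S) (h : |y|ₘ ≤ |s|ₘ) :
    y ∈ convGen S :=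
  Subgroup.subset_closure ⟨s, hs, h⟩

theorem mem_convGen_list {S : Set G} {z : G} (hz : z ∈ convGen S) :
    ∃ l : List G, (∀ x ∈ l, ∃ s ∈ S, x = |s|ₘ) ∧ |z|ₘ ≤ l.prod := by
  refine Subgroup.closure_induction
    (p := fun z _ => ∃ l : List G, (∀ x ∈ l, ∃ s ∈ S, x = |s|ₘ) ∧ |z|ₘ ≤ l.prod) ?_ ?_ ?_ ?_ hz
  · rintro y ⟨s, hs, hy⟩
    exact ⟨[|s|ₘ], by simpa using ⟨s, hs, rfl⟩, by simpa using hy⟩
  · exact ⟨[], by simp, by simp⟩
  · rintro x y _ _ ⟨l1, h1, h2⟩ ⟨l2, h3, h4⟩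
    refine ⟨l1 ++ l2 ++ l1, ?_, ?_⟩
    · intro x hx
      simp only [List.mem_append] at hx
      rcases hx with (hx | hx) | hx
      · exact h1 x hx
      · exact h3 x hx
      · exact h1 x hx
    · rw [List.prod_append, List.prod_append]
      exact (mabs_mul_le_nc x y).trans (mul_le_mul' (mul_le_mul' h2 h4) h2)
  · rintro x _ ⟨l, h1, h2⟩
    exact ⟨l, h1, by rwa [mabs_inv]⟩

/-- positive elements below a product of elements dominated by `S` -/
theorem pos_mem_closure_of_le_prod {S : Set G} {z : G} (hz : 1 ≤ z) (l : List G)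
    (hl : ∀ x ∈ l, ∃ s ∈ S, x = |s|ₘ) (h : z ≤ l.prod) : z ∈ convGen S := by
  have h1 : ∀ a ∈ l, (1 : G) ≤ a := by
    intro a ha
    obtain ⟨s, _, rfl⟩ := hl a ha
    exact one_le_mabs s
  obtain ⟨l', rfl, hf⟩ := riesz_list l hz h1 h
  clear h hz h1
  induction hf with
  | nil => simpa using (convGen S).one_mem
  | @cons y a l1 l2 hya _ ih =>
    rw [List.prod_cons]
    apply (convGen S).mul_mem
    · obtain ⟨s, hs, rfl⟩ := hl a (by simp)
      exact mem_convGen_of_mabs_le hs (by rw [mabs_of_one_le hya.1]; exact hya.2)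
    · exact ih (fun x hx => hl x (by simp [hx]))

theorem mem_convGen_of_list {S : Set G} {z : G} (l : List G)
    (hl : ∀ x ∈ l, ∃ s ∈ S, x = |s|ₘ) (h : |z|ₘ ≤ l.prod) : z ∈ convGen S := by
  apply mem_of_pos_neg
  · exact pos_mem_closure_of_le_prod le_sup_right l hl ((sup_one_le_mabs z).trans h)
  · refine pos_mem_closure_of_le_prod le_sup_right l hl ?_
    refine le_trans ?_ h
    rw [← mabs_inv]
    exact sup_one_le_mabs z⁻¹

theorem isConv_convGen (S : Set G) : IsConv (convGen S) := by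
  intro x hx y hy
  obtain ⟨l, hl, h⟩ := mem_convGen_list hx
  exact mem_convGen_of_list l hl (hy.trans h)

theorem convGen_le {S : Set G} {C : Subgroup G} (hC : IsConv C) (h : S ⊆ C) : convGen S ≤ C := by
  unfold convGen
  rw [Subgroup.closure_le]
  rintro y ⟨s, hs, hy⟩
  exact hC s (h hs) y hy

theorem convGen_mono {S T : Set G} (h : S ⊆ T) : convGen S ≤ convGen T :=
  convGen_le (isConv_convGen T) (fun _ hs => subset_convGen T (h hs))

theorem convGen_eq_self {C : Subgroup G} (hC : IsConv C) : convGen (C : Set G) = C :=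
  le_antisymm (convGen_le hC le_rfl) (fun _ hx => subset_convGen _ hx)

/-- the join of two convex subgroups is convex -/
theorem IsConv.sup {C D : Subgroup G} (hC : IsConv C) (hD : IsConv D) : IsConv (C ⊔ D) := by
  have : C ⊔ D = convGen ((C : Set G) ∪ D) := by
    apply le_antisymm
    · exact sup_le (fun x hx => subset_convGen _ (Or.inl hx))
        (fun x hx => subset_convGen _ (Or.inr hx))
    · unfold convGen
      rw [Subgroup.closure_le]
      rintro y ⟨s, hs | hs, hy⟩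
      · exact Subgroup.mem_sup_left (hC s hs y hy)
      · exact Subgroup.mem_sup_right (hD s hs y hy)
  rw [this]
  exact isConv_convGen _

theorem convGen_map_conj {S : Set G} (g : G) (hS : ∀ s ∈ S, g * s * g⁻¹ ∈ S) {x : G}
    (hx : x ∈ convGen S) : g * x * g⁻¹ ∈ convGen S := by
  refine Subgroup.closure_induction (p := fun z _ => g * z * g⁻¹ ∈ convGen S) ?_ ?_ ?_ ?_ hx
  · rintro y ⟨s, hs, hy⟩
    apply mem_convGen_of_mabs_le (hS s hs)
    rw [mabs_conj, mabs_conj]
    exact mul_le_mul_left (mul_le_mul_right hy _) _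
  · simp [(convGen S).one_mem]
  · intro x y _ _ hx hy
    have := (convGen S).mul_mem hx hy
    rwa [show g * x * g⁻¹ * (g * y * g⁻¹) = g * (x * y) * g⁻¹ by group] at this
  · intro x _ hx
    have := (convGen S).inv_mem hx
    rwa [show (g * x * g⁻¹)⁻¹ = g * x⁻¹ * g⁻¹ by group] at this

theorem convGen_normal {S : Set G} (hS : ∀ g : G, ∀ s ∈ S, g * s * g⁻¹ ∈ S) :
    (convGen S).Normal := ⟨fun _ hx g => convGen_map_conj g (hS g) hx⟩

/-- orthogonality is inherited by generated convex subgroups -/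
theorem orth_convGen {S : Set G} {z : G} (h : ∀ s ∈ S, Orth s z) {x : G} (hx : x ∈ convGen S) :
    Orth x z := by
  rw [← mem_polar]
  have : convGen S ≤ polar z := by
    unfold convGen
    rw [Subgroup.closure_le]
    rintro y ⟨s, hs, hy⟩
    exact orth_of_le (h s hs) hy le_rfl
  exact this hx

theorem orth_convGen₂ {S T : Set G} (h : ∀ s ∈ S, ∀ t ∈ T, Orth s t) {x y : G}
    (hx : x ∈ convGen S) (hy : y ∈ convGen T) : Orth x y := by
  apply orth_convGen _ hx
  intro s hs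
  exact (orth_convGen (fun t ht => (h s hs t ht).symm) hy).symm

/-- elements of the convex subgroup generated by one positive element are bounded by powers -/
theorem mem_convGen_singleton {h z : G} (hh : 1 ≤ h) (hz : z ∈ convGen {h}) :
    ∃ n : ℕ, |z|ₘ ≤ h ^ n := by
  obtain ⟨l, hl, hle⟩ := mem_convGen_list hz
  refine ⟨l.length, ?_⟩
  have : l = List.replicate l.length h := by
    apply List.eq_replicate_of_mem
    intro x hx
    obtain ⟨s, hs, rfl⟩ := hl x hx
    rw [Set.mem_singleton_iff.mp hs, mabs_of_one_le hh]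
  rw [this, List.prod_replicate] at hle
  exact hle

theorem mem_convGen_of_le_pow {h z : G} {n : ℕ} (hle : |z|ₘ ≤ h ^ n) : z ∈ convGen {h} :=
  (isConv_convGen _).mem_of_mabs_le hle
    ((convGen {h}).pow_mem (subset_convGen _ (Set.mem_singleton h)) n)

/-! ### Intersections of generated subgroups -/

theorem forall₂_right_of_mem {α β : Type*} {R : α → β → Prop} {l : List α} {l' : List β}
    (h : List.Forall₂ R l l') {a : α} (ha : a ∈ l) : ∃ b ∈ l', R a b := by
  induction h with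
  | nil => simp at ha
  | @cons x y l1 l2 hxy _ ih =>
    rcases List.mem_cons.mp ha with rfl | ha
    · exact ⟨y, by simp, hxy⟩
    · obtain ⟨b, hb, hab⟩ := ih ha
      exact ⟨b, by simp [hb], hab⟩

theorem le_list_prod_of_mem {l : List G} (hl : ∀ a ∈ l, 1 ≤ a) {x : G} (hx : x ∈ l) :
    x ≤ l.prod := by
  induction l with
  | nil => simp at hx
  | cons a l ih =>
    rw [List.prod_cons]
    have h1 : 1 ≤ a := hl a (by simp)
    have h2 : ∀ b ∈ l, 1 ≤ b := fun b hb => hl b (by simp [hb])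
    rcases List.mem_cons.mp hx with rfl | hx
    · exact le_mul_of_one_le_right' (one_le_list_prod l h2)
    · exact (ih h2 hx).trans (le_mul_of_one_le_left' h1)

/-- if `x ⊓ y ∈ P` then `P` is the intersection of the convex subgroups generated by `P, x` and
by `P, y` -/
theorem mem_of_mem_convGen_both {P : Subgroup G} (hP : IsConv P) {x y : G} (hx : 1 ≤ x)
    (hy : 1 ≤ y) (hxy : x ⊓ y ∈ P) {f : G} (h1 : f ∈ convGen ((P : Set G) ∪ {x}))
    (h2 : f ∈ convGen ((P : Set G) ∪ {y})) : f ∈ P := by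
  rw [← hP.mabs_mem_iff]
  obtain ⟨l1, hl1, hf1⟩ := mem_convGen_list h1
  obtain ⟨l2, hl2, hf2⟩ := mem_convGen_list h2
  have hp1 : ∀ a ∈ l1, (1 : G) ≤ a := by
    intro a ha
    obtain ⟨s, _, rfl⟩ := hl1 a ha
    exact one_le_mabs s
  have hp2 : ∀ a ∈ l2, (1 : G) ≤ a := by
    intro a ha
    obtain ⟨s, _, rfl⟩ := hl2 a ha
    exact one_le_mabs s
  obtain ⟨l', hl', hf⟩ := riesz_list l1 (one_le_mabs f) hp1 hf1
  have hpos : ∀ a ∈ l', (1 : G) ≤ a := by
    intro a ha
    obtain ⟨b, -, hb⟩ := forall₂_right_of_mem hf ha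
    exact hb.1
  rw [hl']
  apply P.list_prod_mem
  intro z hz
  have hz1 := hpos z hz
  have hz2 : z ≤ l2.prod := by
    refine le_trans ?_ hf2
    rw [hl']
    exact le_list_prod_of_mem hpos hz
  obtain ⟨a, ha, hza⟩ := forall₂_right_of_mem hf hz
  obtain ⟨l'', rfl, hf'⟩ := riesz_list l2 hz1 hp2 hz2
  have hpos' : ∀ a ∈ l'', (1 : G) ≤ a := by
    intro a ha
    obtain ⟨b, -, hb⟩ := forall₂_right_of_mem hf' ha
    exact hb.1
  apply P.list_prod_mem
  intro w hw
  have hw1 := hpos' w hw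
  obtain ⟨b, hb, hwb⟩ := forall₂_right_of_mem hf' hw
  have hwa : w ≤ a := (le_list_prod_of_mem hpos' hw).trans hza.2
  obtain ⟨s, hs, rfl⟩ := hl1 a ha
  obtain ⟨t, ht, rfl⟩ := hl2 b hb
  rcases hs with hs | hs
  · exact hP.mem_of_le hw1 hwa (hP.mabs_mem hs)
  · rcases ht with ht | ht
    · exact hP.mem_of_le hw1 hwb.2 (hP.mabs_mem ht)
    · rw [Set.mem_singleton_iff] at hs ht
      rw [hs, mabs_of_one_le hx] at hwa
      rw [ht, mabs_of_one_le hy] at hwb
      exact hP.mem_of_le hw1 (le_inf hwa hwb.2) hxy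

/-! ### Values -/

/-- `P` is a value of `f`: a convex subgroup maximal with respect to not containing `f` -/
structure IsVal (P : Subgroup G) (f : G) : Prop where
  conv : IsConv P
  not_mem : f ∉ P
  max : ∀ D : Subgroup G, IsConv D → P < D → f ∈ D

/-- the cover of a value of `f` -/
def cover (P : Subgroup G) (f : G) : Subgroup G := convGen ((P : Set G) ∪ {f})

theorem isConv_cover (P : Subgroup G) (f : G) : IsConv (cover P f) := isConv_convGen _

theorem le_cover (P : Subgroup G) (f : G) : P ≤ cover P f :=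
  fun _ hx => subset_convGen _ (Or.inl hx)

theorem mem_cover (P : Subgroup G) (f : G) : f ∈ cover P f :=
  subset_convGen _ (Or.inr rfl)

theorem IsVal.cover_le {P : Subgroup G} {f : G} (hP : IsVal P f) {D : Subgroup G} (hD : IsConv D)
    (h : P < D) : cover P f ≤ D := by
  apply convGen_le hD
  rintro x (hx | hx)
  · exact h.le hx
  · rw [Set.mem_singleton_iff.mp hx]
    exact hP.max D hD h

theorem IsVal.prime {P : Subgroup G} {f : G} (hP : IsVal P f) : IsPrimeC P := by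
  refine ⟨hP.conv, ?_⟩
  intro x y hxy
  by_contra hcon
  rw [not_or] at hcon
  have hx1 : 1 ≤ x := by rw [← hxy]; exact inf_le_left
  have hy1 : 1 ≤ y := by rw [← hxy]; exact inf_le_right
  apply hP.not_mem
  have key : ∀ z : G, z ∉ P → f ∈ convGen ((P : Set G) ∪ {z}) := by
    intro z hz
    apply hP.max _ (isConv_convGen _)
    refine lt_of_le_of_ne (fun w hw => subset_convGen _ (Or.inl hw)) ?_
    intro heq
    apply hz
    rw [heq]
    exact subset_convGen _ (Or.inr rfl)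
  exact mem_of_mem_convGen_both hP.conv hx1 hy1 (by rw [hxy]; exact P.one_mem) (key x hcon.1)
    (key y hcon.2)

/-- existence of values -/
theorem exists_isVal {C : Subgroup G} (hC : IsConv C) {f : G} (hf : f ∉ C) :
    ∃ P : Subgroup G, C ≤ P ∧ IsVal P f := by
  obtain ⟨P, hCP, hmax⟩ := zorn_le_nonempty₀ {D : Subgroup G | IsConv D ∧ f ∉ D} (by
    intro c hc hchain D hD
    refine ⟨sSup c, ⟨?_, ?_⟩, fun z hz => le_sSup hz⟩
    · intro x hx y hy
      rw [Subgroup.mem_sSup_of_directedOn ⟨D, hD⟩ hchain.directedOn] at hx ⊢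
      obtain ⟨s, hs, hxs⟩ := hx
      exact ⟨s, hs, (hc hs).1 x hxs y hy⟩
    · intro hx
      rw [Subgroup.mem_sSup_of_directedOn ⟨D, hD⟩ hchain.directedOn] at hx
      obtain ⟨s, hs, hxs⟩ := hx
      exact (hc hs).2 hxs) C ⟨hC, hf⟩
  refine ⟨P, hCP, hmax.prop.1, hmax.prop.2, ?_⟩
  intro D hD hPD
  by_contra hfD
  exact absurd (hmax.le_of_ge ⟨hD, hfD⟩ hPD.le) (not_le_of_gt hPD)

/-- a nontrivial element is missed by some prime -/
theorem exists_prime_not_mem {f : G} (hf : f ≠ 1) : ∃ P : Subgroup G, IsPrimeC P ∧ f ∉ P := by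
  obtain ⟨P, -, hP⟩ := exists_isVal (isConv_bot (G := G)) (f := f)
    (fun h => hf (Subgroup.mem_bot.mp h))
  exact ⟨P, hP.prime, hP.not_mem⟩

theorem IsVal.not_mem_of {P : Subgroup G} {f : G} (hP : IsVal P f) {b : G} (hb : b ∈ cover P f)
    (hbP : b ∉ P) : IsVal P b ∧ cover P b = cover P f := by
  have h1 : IsVal P b := by
    refine ⟨hP.conv, hbP, ?_⟩
    intro D hD hPD
    exact hP.cover_le hD hPD hb
  refine ⟨h1, le_antisymm ?_ ?_⟩
  · apply convGen_le (isConv_cover _ _)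
    rintro x (hx | hx)
    · exact le_cover _ _ hx
    · rw [Set.mem_singleton_iff.mp hx]
      exact hb
  · apply convGen_le (isConv_cover _ _)
    rintro x (hx | hx)
    · exact le_cover _ _ hx
    · rw [Set.mem_singleton_iff.mp hx]
      apply hP.max _ (isConv_cover _ _)
      refine lt_of_le_of_ne (le_cover _ _) ?_
      intro heq
      apply hbP
      rw [heq]
      exact mem_cover _ _

end Conv

end Pool.Agent.Hhelper12.MG
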