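import Pool.Agent.Hhelper12.MG.Terms

/-!
# Examples: lexicographic wreath products and doubles
-/

set_option autoImplicit false
set_option linter.unusedSectionVars false
set_option linter.unnecessarySimpa false
set_option linter.unusedVariables false
set_option linter.style.haveILetI false

namespace Pool.Agent.Hhelper12.MG

open scoped commutatorElement

/-- the lexicographic wreath product of `B` with the integers acting on `ZMod p` -/
@[ext] structure WG (p : ℕ) (B : Type) where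
  /-- the base part -/
  fn : ZMod p → B
  /-- the top part -/
  tp : ℤ

namespace WG

section

variable {p : ℕ} {B : Type} [Group B]

instance : Mul (WG p B) := ⟨fun x y => ⟨fun i => x.fn i * y.fn (i - (x.tp : ZMod p)), x.tp + y.tp⟩⟩

instance : One (WG p B) := ⟨⟨fun _ => 1, 0⟩⟩

instance : Inv (WG p B) := ⟨fun x => ⟨fun i => (x.fn (i + (x.tp : ZMod p)))⁻¹, -x.tp⟩⟩

theorem mul_fn (x y : WG p B) (i : ZMod p) :
    (x * y).fn i = x.fn i * y.fn (i - (x.tp : ZMod p)) := rfl

theorem mul_tp (x y : WG p B) : (x * y).tp = x.tp + y.tp := rfl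

theorem one_fn (i : ZMod p) : (1 : WG p B).fn i = 1 := rfl

theorem one_tp : (1 : WG p B).tp = 0 := rfl

theorem inv_fn (x : WG p B) (i : ZMod p) : (x⁻¹).fn i = (x.fn (i + (x.tp : ZMod p)))⁻¹ := rfl

theorem inv_tp (x : WG p B) : (x⁻¹).tp = -x.tp := rfl

instance : Group (WG p B) :=
  Group.ofLeftAxioms
    (by
      intro x y z
      ext i
      · simp only [mul_fn, mul_tp, Int.cast_add, mul_assoc, sub_sub]
      · simp only [mul_tp, add_assoc])
    (by
      intro x
      ext i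
      · simp only [mul_fn, one_fn, one_tp, Int.cast_zero, sub_zero, one_mul]
      · simp only [mul_tp, one_tp, zero_add])
    (by
      intro x
      ext i
      · simp only [mul_fn, inv_fn, inv_tp, one_fn, Int.cast_neg, sub_neg_eq_add, inv_mul_cancel]
      · simp only [mul_tp, inv_tp, one_tp, neg_add_cancel])

end

section

variable {p : ℕ} {B : Type} [Group B] [Lattice B]

instance : PartialOrder (WG p B) where
  le x y := x.tp < y.tp ∨ (x.tp = y.tp ∧ ∀ i, x.fn i ≤ y.fn i)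
  le_refl x := Or.inr ⟨rfl, fun _ => le_rfl⟩
  le_trans x y z := by
    rintro (h | ⟨h, h'⟩) (k | ⟨k, k'⟩)
    · exact Or.inl (h.trans k)
    · exact Or.inl (by omega)
    · exact Or.inl (by omega)
    · exact Or.inr ⟨h.trans k, fun i => (h' i).trans (k' i)⟩
  le_antisymm x y := by
    rintro (h | ⟨h, h'⟩) (k | ⟨k, k'⟩)
    · omega
    · omega
    · omega
    · ext i
      · exact le_antisymm (h' i) (k' i)
      · exact h

theorem le_def (x y : WG p B) : x ≤ y ↔ x.tp < y.tp ∨ (x.tp = y.tp ∧ ∀ i, x.fn i ≤ y.fn i) :=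
  Iff.rfl

/-- join of elements -/
def supW (x y : WG p B) : WG p B :=
  if x.tp < y.tp then y else if y.tp < x.tp then x else ⟨fun i => x.fn i ⊔ y.fn i, x.tp⟩

/-- meet of elements -/
def infW (x y : WG p B) : WG p B :=
  if x.tp < y.tp then x else if y.tp < x.tp then y else ⟨fun i => x.fn i ⊓ y.fn i, x.tp⟩

instance : Lattice (WG p B) where
  sup := supW
  inf := infW
  le_sup_left x y := by
    show x ≤ supW x y
    unfold supW
    split_ifs with h1 h2
    · exact Or.inl h1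
    · exact le_rfl
    · exact Or.inr ⟨rfl, fun i => le_sup_left⟩
  le_sup_right x y := by
    show y ≤ supW x y
    unfold supW
    split_ifs with h1 h2
    · exact le_rfl
    · exact Or.inl h2
    · exact Or.inr ⟨by show y.tp = x.tp; omega, fun i => le_sup_right⟩
  sup_le x y z := by
    intro hx hy
    show supW x y ≤ z
    unfold supW
    split_ifs with h1 h2
    · exact hy
    · exact hx
    · rcases hx with h | ⟨h, h'⟩
      · exact Or.inl h
      · rcases hy with k | ⟨k, k'⟩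
        · exact Or.inl (by show x.tp < z.tp; omega)
        · exact Or.inr ⟨h, fun i => sup_le (h' i) (k' i)⟩
  inf_le_left x y := by
    show infW x y ≤ x
    unfold infW
    split_ifs with h1 h2
    · exact le_rfl
    · exact Or.inl h2
    · exact Or.inr ⟨rfl, fun i => inf_le_left⟩
  inf_le_right x y := by
    show infW x y ≤ y
    unfold infW
    split_ifs with h1 h2
    · exact Or.inl h1
    · exact le_rfl
    · exact Or.inr ⟨by show x.tp = y.tp; omega, fun i => inf_le_right⟩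
  le_inf x y z := by
    intro hx hy
    show x ≤ infW y z
    unfold infW
    split_ifs with h1 h2
    · exact hx
    · exact hy
    · rcases hx with h | ⟨h, h'⟩
      · exact Or.inl h
      · rcases hy with k | ⟨k, k'⟩
        · exact Or.inl (by show x.tp < y.tp; omega)
        · exact Or.inr ⟨h, fun i => le_inf (h' i) (k' i)⟩

theorem sup_of_tp_eq {x y : WG p B} (h : x.tp = y.tp) :
    x ⊔ y = ⟨fun i => x.fn i ⊔ y.fn i, x.tp⟩ := by
  show supW x y = _
  unfold supW
  rw [if_neg (by omega), if_neg (by omega)]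

theorem inf_of_tp_eq {x y : WG p B} (h : x.tp = y.tp) :
    x ⊓ y = ⟨fun i => x.fn i ⊓ y.fn i, x.tp⟩ := by
  show infW x y = _
  unfold infW
  rw [if_neg (by omega), if_neg (by omega)]

variable [MulLeftMono B] [MulRightMono B]

instance : MulLeftMono (WG p B) := ⟨by
  intro z x y h
  show z * x ≤ z * y
  rcases h with h | ⟨h, h'⟩
  · exact Or.inl (by show z.tp + x.tp < z.tp + y.tp; omega)
  · refine Or.inr ⟨by show z.tp + x.tp = z.tp + y.tp; omega, fun i => ?_⟩
    rw [mul_fn, mul_fn]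
    exact mul_le_mul_right (h' _) _⟩

instance : MulRightMono (WG p B) := ⟨by
  intro z x y h
  show x * z ≤ y * z
  rcases h with h | ⟨h, h'⟩
  · exact Or.inl (by show x.tp + z.tp < y.tp + z.tp; omega)
  · refine Or.inr ⟨by show x.tp + z.tp = y.tp + z.tp; omega, fun i => ?_⟩
    rw [mul_fn, mul_fn, h]
    exact mul_le_mul_left (h' _) _⟩

theorem nv (hB : NV B) : NV (WG p B) := by
  intro x y hx hy
  have hx0 : 0 ≤ x.tp := by
    rcases hx with h | ⟨h, _⟩
    · exact h.le
    · exact h.le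
  have hy0 : 0 ≤ y.tp := by
    rcases hy with h | ⟨h, _⟩
    · exact h.le
    · exact h.le
  have htp : (y ^ 2 * x ^ 2).tp = 2 * y.tp + 2 * x.tp := by
    rw [pow_two, pow_two, mul_tp, mul_tp, mul_tp]; ring
  by_cases h0 : 0 < x.tp + y.tp
  · left
    rw [htp, mul_tp]
    omega
  · have hx1 : x.tp = 0 := by omega
    have hy1 : y.tp = 0 := by omega
    right
    refine ⟨by rw [htp, mul_tp]; omega, fun i => ?_⟩
    have hxi : 1 ≤ x.fn i := by
      rcases hx with h | ⟨_, h⟩
      · rw [hx1, one_tp] at h; exact absurd h (lt_irrefl 0)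
      · exact h i
    have hyi : 1 ≤ y.fn i := by
      rcases hy with h | ⟨_, h⟩
      · rw [hy1, one_tp] at h; exact absurd h (lt_irrefl 0)
      · exact h i
    have := hB _ _ hxi hyi
    simpa only [pow_two, mul_fn, mul_tp, hx1, hy1, Int.cast_zero, sub_zero, add_zero] using this

theorem pow_tp (x : WG p B) (n : ℕ) : (x ^ n).tp = n * x.tp := by
  induction n with
  | zero => simp [one_tp]
  | succ n ih => rw [pow_succ, mul_tp, ih]; push_cast; ring

theorem mul_fn_of_dvd {x y : WG p B} (h : (x.tp : ZMod p) = 0) (i : ZMod p) :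
    (x * y).fn i = x.fn i * y.fn i := by rw [mul_fn, h, sub_zero]

theorem pow_fn_of_dvd {x : WG p B} (h : (x.tp : ZMod p) = 0) (n : ℕ) (i : ZMod p) :
    (x ^ n).fn i = (x.fn i) ^ n := by
  induction n with
  | zero => simp [one_fn]
  | succ n ih =>
    rw [pow_succ, mul_fn_of_dvd, ih, pow_succ]
    rw [pow_tp]
    push_cast
    rw [h, mul_zero]

theorem lq {q : ℕ} (hB : Lq B q) : Lq (WG p B) (p * q) := by
  intro x y
  rw [pow_mul, pow_mul]
  have hx : (((x ^ p).tp : ℤ) : ZMod p) = 0 := by rw [pow_tp]; push_cast; simp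
  have hy : (((y ^ p).tp : ℤ) : ZMod p) = 0 := by rw [pow_tp]; push_cast; simp
  have hx' : ((((x ^ p) ^ q).tp : ℤ) : ZMod p) = 0 := by rw [pow_tp]; push_cast; simp [hx]
  have hy' : ((((y ^ p) ^ q).tp : ℤ) : ZMod p) = 0 := by rw [pow_tp]; push_cast; simp [hy]
  ext i
  · rw [mul_fn_of_dvd hx', mul_fn_of_dvd hy', pow_fn_of_dvd hx, pow_fn_of_dvd hy]
    exact hB _ _
  · rw [mul_tp, mul_tp, add_comm]

/-- embedding of `B` at the coordinate `0` -/
def dl (p : ℕ) (B : Type) [Group B] : B →* WG p B where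
  toFun b := ⟨fun i => if i = 0 then b else 1, 0⟩
  map_one' := by ext i <;> simp [one_fn, one_tp]
  map_mul' := by
    intro a b
    ext i
    · simp only [mul_fn, Int.cast_zero, sub_zero]
      split_ifs <;> simp
    · simp [mul_tp]

theorem dl_fn (b : B) (i : ZMod p) : (dl p B b).fn i = if i = 0 then b else 1 := rfl

theorem dl_tp (b : B) : (dl p B b).tp = 0 := rfl

theorem dl_mono {a b : B} (h : a ≤ b) : dl p B a ≤ dl p B b := by
  refine Or.inr ⟨rfl, fun i => ?_⟩
  rw [dl_fn, dl_fn]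
  split_ifs
  · exact h
  · exact le_rfl

theorem dl_sup (a b : B) : dl p B (a ⊔ b) = dl p B a ⊔ dl p B b := by
  rw [sup_of_tp_eq (by rw [dl_tp, dl_tp])]
  ext i
  · simp only [dl_fn]
    split_ifs <;> simp
  · rfl

theorem dl_mabs (a : B) : |dl p B a|ₘ = dl p B |a|ₘ := by
  unfold mabs
  rw [dl_sup, map_inv]

/-- the generator of the top group -/
def top (p : ℕ) (B : Type) [Group B] : WG p B := ⟨fun _ => 1, 1⟩

theorem conj_top (b : B) (i : ZMod p) :
    (top p B * dl p B b * (top p B)⁻¹).fn i = if i - 1 = 0 then b else 1 := by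
  simp [mul_fn, inv_fn, dl_fn, top, mul_tp, dl_tp]

theorem conj_top_tp (b : B) : (top p B * dl p B b * (top p B)⁻¹).tp = 0 := by
  simp [mul_tp, inv_tp, dl_tp, top]

theorem dom_comm (hp : 1 < p) {b : B} (hb : 1 ≤ b) :
    dl p B b ≤ |⁅top p B, dl p B b⁆|ₘ := by
  have h1 : (1 : WG p B) ≤ dl p B b := by
    rw [← map_one (dl p B)]
    exact dl_mono hb
  have h2 : (1 : WG p B) ≤ top p B * dl p B b * (top p B)⁻¹ := one_le_conj h1 _
  haveI : Fact (1 < p) := ⟨hp⟩
  have h3 : (top p B * dl p B b * (top p B)⁻¹) ⊓ dl p B b = 1 := by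
    rw [inf_of_tp_eq (by rw [conj_top_tp, dl_tp])]
    ext i
    · simp only [conj_top, dl_fn, one_fn]
      split_ifs with h4 h5 h5
      · exfalso
        rw [h5, zero_sub, neg_eq_zero] at h4
        exact one_ne_zero h4
      · simp [hb]
      · simp [hb]
      · simp
    · simp only [conj_top_tp, one_tp]
  rw [commutatorElement_def, le_mul_inv_sup h2 h1 h3]
  exact le_mul_of_one_le_left' h2

theorem thN_ne {m : ℕ} (hp : 1 < p) (h : ∃ t ∈ ThN m (Set.univ : Set B), t ≠ 1) :
    ∃ t ∈ ThN (m + 1) (Set.univ : Set (WG p B)), t ≠ 1 := by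
  obtain ⟨t, ht, ht1⟩ := h
  have hdl : dl p B t ≠ 1 := by
    intro h
    apply ht1
    have := congrArg (fun x => x.fn 0) h
    simpa [dl_fn, one_fn] using this
  rw [ThN_succ']
  cases m with
  | zero =>
    refine ⟨⁅top p B, dl p B |t|ₘ⁆, ⟨_, trivial, _, trivial, _, _, le_rfl, le_rfl, rfl⟩, ?_⟩
    intro h
    have h1 := dom_comm hp (one_le_mabs t)
    rw [h, mabs_one, ← dl_mabs] at h1
    exact hdl (mabs_eq_one (le_antisymm h1 (one_le_mabs _)))
  | succ m =>
    refine ⟨dl p B t, ?_, hdl⟩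
    have h1 := ThN_map (dl p B) (by
      intro x y hxy
      rw [dl_mabs, dl_mabs]
      exact dl_mono hxy) ht
    refine ThN_dom ?_ (Nat.succ_ne_zero m) h1
    rintro _ ⟨b, _, rfl⟩
    refine ⟨⁅top p B, dl p B |b|ₘ⁆, ⟨_, trivial, _, trivial, _, _, le_rfl, le_rfl, rfl⟩, ?_⟩
    rw [dl_mabs]
    exact dom_comm hp (one_le_mabs b)

theorem mabs_tp0 {x : WG p B} (h : x.tp = 0) :
    |x|ₘ = ⟨fun i => |x.fn i|ₘ, 0⟩ := by
  unfold mabs
  rw [sup_of_tp_eq (by rw [inv_tp, h, neg_zero])]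
  ext i
  · simp only [inv_fn, h, Int.cast_zero, add_zero]
  · exact h

theorem tp_eq_zero_of_le {x y : WG p B} (hy : y.tp = 0) (h : |x|ₘ ≤ |y|ₘ) : x.tp = 0 := by
  have h1 : x ≤ |y|ₘ := (le_mabs_self x).trans h
  have h2 : x⁻¹ ≤ |y|ₘ := (inv_le_mabs x).trans h
  rw [mabs_tp0 hy] at h1 h2
  have h3 : x.tp ≤ 0 := by
    rcases h1 with h | ⟨h, _⟩
    · exact h.le
    · exact h.le
  have h4 : -x.tp ≤ 0 := by
    rcases h2 with h | ⟨h, _⟩
    · exact h.le
    · exact h.le
  omega

theorem thN_eq {M : ℕ} (h : ∀ t ∈ ThN M (Set.univ : Set B), t = 1) :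
    ∀ t ∈ ThN (M + 1) (Set.univ : Set (WG p B)), t = 1 := by
  rw [ThN_succ']
  have h1 : Theta (Set.univ : Set (WG p B)) ⊆ {x | x.tp = 0} := by
    rintro _ ⟨_, _, _, _, a, b, _, _, rfl⟩
    simp only [Set.mem_ofPred_eq, commutatorElement_def, mul_tp, inv_tp]
    ring
  have key : ∀ n : ℕ, ∀ t ∈ ThN n ({x | x.tp = 0} : Set (WG p B)),
      t.tp = 0 ∧ ∀ i, t.fn i ∈ ThN n (Set.univ : Set B) := by
    intro n
    induction n with
    | zero => exact fun t ht => ⟨ht, fun _ => trivial⟩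
    | succ n ih =>
      rintro _ ⟨s, hs, s', hs', a, b, ha, hb, rfl⟩
      obtain ⟨h2, h3⟩ := ih s hs
      obtain ⟨h4, h5⟩ := ih s' hs'
      have ha0 := tp_eq_zero_of_le h2 ha
      have hb0 := tp_eq_zero_of_le h4 hb
      refine ⟨?_, fun i => ?_⟩
      · simp only [commutatorElement_def, mul_tp, inv_tp]
        ring
      · refine ⟨s.fn i, h3 i, s'.fn i, h5 i, a.fn i, b.fn i, ?_, ?_, ?_⟩
        · rw [mabs_tp0 ha0, mabs_tp0 h2] at ha
          rcases ha with h | ⟨_, h⟩
          · exact absurd h (lt_irrefl _)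
          · exact h i
        · rw [mabs_tp0 hb0, mabs_tp0 h4] at hb
          rcases hb with h | ⟨_, h⟩
          · exact absurd h (lt_irrefl _)
          · exact h i
        · simp only [commutatorElement_def, mul_fn, inv_fn, mul_tp, inv_tp, ha0, hb0,
            Int.cast_zero, add_zero, sub_zero, neg_zero]
  intro t ht
  obtain ⟨h2, h3⟩ := key M t (ThN_mono h1 M ht)
  ext i
  · exact h _ (h3 i)
  · exact h2

end

end WG

/-- lattice-ordered groups of a given depth -/
theorem exists_lgroup {p : ℕ} (hp : 1 < p) (n : ℕ) :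
    ∃ (B : Type) (_ : Group B) (_ : Lattice B) (_ : MulLeftMono B) (_ : MulRightMono B),
      NV B ∧ Lq B (p ^ n) ∧ (∃ t ∈ ThN n (Set.univ : Set B), t ≠ 1) ∧
      ∀ t ∈ ThN (n + 1) (Set.univ : Set B), t = 1 := by
  induction n with
  | zero =>
    refine ⟨Multiplicative ℤ, inferInstance, inferInstance, inferInstance, inferInstance,
      ?_, ?_, ?_, ?_⟩
    · intro x y hx hy
      rw [mul_comm (y ^ 2)]
      exact mul_le_mul' (le_self_pow hx (by norm_num)) (le_self_pow hy (by norm_num))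
    · intro x y
      exact mul_comm _ _
    · exact ⟨Multiplicative.ofAdd 1, trivial, by
        intro h
        have := congrArg Multiplicative.toAdd h
        simp at this⟩
    · rintro _ ⟨_, _, _, _, a, b, _, _, rfl⟩
      rw [commutatorElement_def, mul_comm a b, mul_inv_cancel_right, mul_inv_cancel]
  | succ n ih =>
    obtain ⟨B, i1, i2, i3, i4, h1, h2, h3, h4⟩ := ih
    refine ⟨WG p B, inferInstance, inferInstance, inferInstance, inferInstance, WG.nv h1, ?_,
      WG.thN_ne hp h3, WG.thN_eq h4⟩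
    rw [pow_succ']
    exact WG.lq h2

/-! ### Doubles -/

section Double

variable {G : Type} [Group G] [Lattice G] [MulLeftMono G] [MulRightMono G]

/-- the double of a lattice-ordered group -/
@[ext] structure DG (G : Type) where
  /-- first coordinate -/
  fst : G
  /-- second coordinate, with reversed order -/
  snd : G

instance : Mul (DG G) := ⟨fun x y => ⟨x.fst * y.fst, x.snd * y.snd⟩⟩

instance : One (DG G) := ⟨⟨1, 1⟩⟩

instance : Inv (DG G) := ⟨fun x => ⟨x.fst⁻¹, x.snd⁻¹⟩⟩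

instance : Group (DG G) :=
  Group.ofLeftAxioms
    (fun x y z => DG.ext (mul_assoc _ _ _) (mul_assoc _ _ _))
    (fun x => DG.ext (one_mul _) (one_mul _))
    (fun x => DG.ext (inv_mul_cancel _) (inv_mul_cancel _))

instance : Lattice (DG G) where
  le x y := x.fst ≤ y.fst ∧ y.snd ≤ x.snd
  le_refl x := ⟨le_rfl, le_rfl⟩
  le_trans x y z h k := ⟨h.1.trans k.1, k.2.trans h.2⟩
  le_antisymm x y h k := DG.ext (le_antisymm h.1 k.1) (le_antisymm k.2 h.2)
  sup x y := ⟨x.fst ⊔ y.fst, x.snd ⊓ y.snd⟩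
  inf x y := ⟨x.fst ⊓ y.fst, x.snd ⊔ y.snd⟩
  le_sup_left x y := ⟨le_sup_left, inf_le_left⟩
  le_sup_right x y := ⟨le_sup_right, inf_le_right⟩
  sup_le x y z h k := ⟨sup_le h.1 k.1, le_inf h.2 k.2⟩
  inf_le_left x y := ⟨inf_le_left, le_sup_left⟩
  inf_le_right x y := ⟨inf_le_right, le_sup_right⟩
  le_inf x y z h k := ⟨le_inf h.1 k.1, sup_le h.2 k.2⟩

instance : MGroup (DG G) where
  mul_left_mono c a b h := ⟨mul_le_mul_right h.1 _, mul_le_mul_right h.2 _⟩
  mul_right_mono c a b h := ⟨mul_le_mul_left h.1 _, mul_le_mul_left h.2 _⟩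
  star x := ⟨x.snd, x.fst⟩
  star_mul x y := rfl
  star_star x := rfl
  star_sup x y := rfl
  star_inf x y := rfl

theorem DG.le_def (x y : DG G) : x ≤ y ↔ x.fst ≤ y.fst ∧ y.snd ≤ x.snd := Iff.rfl

theorem DG.mabs_fst (x : DG G) : (|x|ₘ).fst = |x.fst|ₘ := rfl

theorem DG.mabs_snd (x : DG G) : (|x|ₘ).snd = (|x.snd|ₘ)⁻¹ := by
  show x.snd ⊓ x.snd⁻¹ = (x.snd ⊔ x.snd⁻¹)⁻¹
  rw [inv_sup, inv_inv, inf_comm]

theorem DG.nv (h : NV G) : NV (DG G) := by
  intro x y hx hy
  constructor
  · have h4 : (y ^ 2 * x ^ 2).fst = y.fst ^ 2 * x.fst ^ 2 := by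
      rw [pow_two, pow_two, pow_two, pow_two]; rfl
    rw [h4]
    exact h _ _ hx.1 hy.1
  · have h1 : 1 ≤ x.snd⁻¹ := one_le_inv'.mpr hx.2
    have h2 : 1 ≤ y.snd⁻¹ := one_le_inv'.mpr hy.2
    have h3 := h _ _ h2 h1
    have h4 : (y ^ 2 * x ^ 2).snd = y.snd ^ 2 * x.snd ^ 2 := by
      rw [pow_two, pow_two, pow_two, pow_two]; rfl
    have h5 : (x * y).snd = x.snd * y.snd := rfl
    rw [h4, h5, ← inv_le_inv_iff, mul_inv_rev, mul_inv_rev, ← inv_pow, ← inv_pow]
    exact h3

theorem DG.pow_fst (x : DG G) (n : ℕ) : (x ^ n).fst = x.fst ^ n := by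
  induction n with
  | zero => rw [pow_zero, pow_zero]; rfl
  | succ n ih => rw [pow_succ, pow_succ, ← ih]; rfl

theorem DG.pow_snd (x : DG G) (n : ℕ) : (x ^ n).snd = x.snd ^ n := by
  induction n with
  | zero => rw [pow_zero, pow_zero]; rfl
  | succ n ih => rw [pow_succ, pow_succ, ← ih]; rfl

theorem DG.lq {q : ℕ} (h : Lq G q) : Lq (DG G) q := by
  intro x y
  apply DG.ext
  · show (x ^ q).fst * (y ^ q).fst = (y ^ q).fst * (x ^ q).fst
    rw [DG.pow_fst, DG.pow_fst]
    exact h _ _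
  · show (x ^ q).snd * (y ^ q).snd = (y ^ q).snd * (x ^ q).snd
    rw [DG.pow_snd, DG.pow_snd]
    exact h _ _

/-- first projection -/
def DG.fstHom (G : Type) [Group G] [Lattice G] [MulLeftMono G] [MulRightMono G] : DG G →* G where
  toFun := DG.fst
  map_one' := rfl
  map_mul' _ _ := rfl

/-- second projection -/
def DG.sndHom (G : Type) [Group G] [Lattice G] [MulLeftMono G] [MulRightMono G] : DG G →* G where
  toFun := DG.snd
  map_one' := rfl
  map_mul' _ _ := rfl

/-- first injection -/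
def DG.inl (G : Type) [Group G] [Lattice G] [MulLeftMono G] [MulRightMono G] : G →* DG G where
  toFun g := ⟨g, 1⟩
  map_one' := rfl
  map_mul' a b := DG.ext rfl (one_mul (1 : G)).symm

theorem DG.thN_eq {M : ℕ} (h : ∀ t ∈ ThN M (Set.univ : Set G), t = 1) :
    ∀ t ∈ ThN M (Set.univ : Set (DG G)), t = 1 := by
  intro t ht
  apply DG.ext
  · apply h
    refine ThN_mono (Set.subset_univ _) M (ThN_map (DG.fstHom G) ?_ ht)
    intro x y hxy
    exact hxy.1
  · apply h
    refine ThN_mono (Set.subset_univ _) M (ThN_map (DG.sndHom G) ?_ ht)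
    intro x y hxy
    have := hxy.2
    rw [DG.mabs_snd, DG.mabs_snd, inv_le_inv_iff] at this
    exact this

theorem DG.thN_ne {m : ℕ} (h : ∃ t ∈ ThN m (Set.univ : Set G), t ≠ 1) :
    ∃ t ∈ ThN m (Sodd (DG G)), t ≠ 1 := by
  obtain ⟨t, ht, ht1⟩ := h
  have hmem : ∀ a : G, (⟨a, a⟩ : DG G) ∈ Sodd (DG G) := by
    intro a
    refine ⟨1, ⟨a, 1⟩, ?_⟩
    rw [one_mul, inv_one, mul_one]
    exact DG.ext (mul_one a).symm (one_mul a).symm
  cases m with
  | zero =>
    refine ⟨⟨t, t⟩, hmem t, ?_⟩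
    intro h
    exact ht1 (congrArg DG.fst h)
  | succ m =>
    refine ⟨DG.inl G t, ?_, fun h => ht1 (congrArg DG.fst h)⟩
    have h1 := ThN_map (DG.inl G) (by
      intro x y hxy
      refine ⟨hxy, ?_⟩
      rw [DG.mabs_snd, DG.mabs_snd]
      exact le_rfl) ht
    refine ThN_dom ?_ (Nat.succ_ne_zero m) h1
    rintro _ ⟨b, _, rfl⟩
    refine ⟨⟨b, b⟩, hmem b, ?_⟩
    refine ⟨le_rfl, ?_⟩
    rw [DG.mabs_snd, DG.mabs_snd, inv_le_inv_iff]
    show |(1 : G)|ₘ ≤ |b|ₘ
    rw [mabs_one]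
    exact one_le_mabs b

end Double

/-- the examples used in the covering theorem -/
theorem exists_example {p : ℕ} (hp : 1 < p) (n : ℕ) :
    ∃ (B : Type) (_ : MGroup B), NV B ∧ Lq B (p ^ n) ∧ (∃ t ∈ ThN n (Sodd B), t ≠ 1) ∧
      ∀ t ∈ ThN (n + 1) (Set.univ : Set B), t = 1 := by
  obtain ⟨G, i1, i2, i3, i4, h1, h2, h3, h4⟩ := exists_lgroup hp n
  exact ⟨DG G, inferInstance, DG.nv h1, DG.lq h2, DG.thN_ne h3, DG.thN_eq h4⟩

end Pool.Agent.Hhelper12.MG
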