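import Pool.Agent.Hhelper12.MG.Terms

/-!
# Universal algebra of m-groups: quotients, products, minimal varieties and covers
-/

set_option autoImplicit false
set_option linter.unusedSectionVars false
set_option linter.unnecessarySimpa false
set_option linter.unusedVariables false
set_option linter.style.haveILetI false

namespace Pool.Agent.Hhelper12.MG

open MGroup

/-! ### Quotients -/

section Quot

variable {G : Type} [MGroup G]

theorem mabs_sup_div_le (x x' y : G) : |(x ⊔ y) * (x' ⊔ y)⁻¹|ₘ ≤ |x * x'⁻¹|ₘ := by
  have key : ∀ x x' : G, (x ⊔ y) * (x' ⊔ y)⁻¹ ≤ |x * x'⁻¹|ₘ := by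
    intro x x'
    rw [mul_inv_le_iff_le_mul, mul_sup]
    refine sup_le_sup ?_ (le_mul_of_one_le_left' (one_le_mabs _))
    rw [← mul_inv_le_iff_le_mul]
    exact le_mabs_self _
  rw [mabs_le']
  refine ⟨key x x', ?_⟩
  have := key x' x
  rw [mul_inv_rev, inv_inv]
  rwa [show x' * x⁻¹ = (x * x'⁻¹)⁻¹ by group, mabs_inv] at this

theorem mabs_inf_div_le (x x' y : G) : |(x ⊓ y) * (x' ⊓ y)⁻¹|ₘ ≤ |x * x'⁻¹|ₘ := by
  have key : ∀ x x' : G, (x ⊓ y) * (x' ⊓ y)⁻¹ ≤ |x * x'⁻¹|ₘ := by
    intro x x'
    rw [mul_inv_le_iff_le_mul, mul_inf]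
    refine inf_le_inf ?_ (le_mul_of_one_le_left' (one_le_mabs _))
    rw [← mul_inv_le_iff_le_mul]
    exact le_mabs_self _
  rw [mabs_le']
  refine ⟨key x x', ?_⟩
  have := key x' x
  rw [mul_inv_rev, inv_inv]
  rwa [show x' * x⁻¹ = (x * x'⁻¹)⁻¹ by group, mabs_inv] at this

variable (N : Subgroup G)

/-- ideals of m-groups -/
structure IsIdeal : Prop where
  normal : N.Normal
  conv : IsConv N
  star_mem : ∀ x ∈ N, star x ∈ N

variable {N}

theorem quot_eq_iff (hN : IsIdeal N) {x y : G} :
    (QuotientGroup.mk x : G ⧸ N) = QuotientGroup.mk y ↔ ceq N x y := by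
  rw [QuotientGroup.eq]
  haveI := hN.normal
  unfold ceq
  rw [hN.normal.mem_comm_iff]
  constructor
  · intro h
    have := N.inv_mem h
    rwa [mul_inv_rev, inv_inv] at this
  · intro h
    have := N.inv_mem h
    rwa [mul_inv_rev, inv_inv] at this

theorem ceq_sup_ideal (hN : IsIdeal N) {x x' y y' : G} (hx : ceq N x x') (hy : ceq N y y') :
    ceq N (x ⊔ y) (x' ⊔ y') := by
  have h1 : ceq N (x ⊔ y) (x' ⊔ y) := hN.conv _ hx _ (mabs_sup_div_le x x' y)
  have h2 : ceq N (x' ⊔ y) (x' ⊔ y') := by
    rw [sup_comm x' y, sup_comm x' y']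
    exact hN.conv _ hy _ (mabs_sup_div_le y y' x')
  exact h1.trans h2

theorem ceq_inf_ideal (hN : IsIdeal N) {x x' y y' : G} (hx : ceq N x x') (hy : ceq N y y') :
    ceq N (x ⊓ y) (x' ⊓ y') := by
  have h1 : ceq N (x ⊓ y) (x' ⊓ y) := hN.conv _ hx _ (mabs_inf_div_le x x' y)
  have h2 : ceq N (x' ⊓ y) (x' ⊓ y') := by
    rw [inf_comm x' y, inf_comm x' y']
    exact hN.conv _ hy _ (mabs_inf_div_le y y' x')
  exact h1.trans h2

/-- joins in the quotient -/
def qsup (hN : IsIdeal N) : G ⧸ N → G ⧸ N → G ⧸ N :=
  Quotient.map₂ (fun x y => x ⊔ y) (by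
    intro x x' hx y y' hy
    have hx' := (quot_eq_iff hN).mp (Quotient.sound hx)
    have hy' := (quot_eq_iff hN).mp (Quotient.sound hy)
    exact Quotient.exact ((quot_eq_iff hN).mpr (ceq_sup_ideal hN hx' hy')))

/-- meets in the quotient -/
def qinf (hN : IsIdeal N) : G ⧸ N → G ⧸ N → G ⧸ N :=
  Quotient.map₂ (fun x y => x ⊓ y) (by
    intro x x' hx y y' hy
    have hx' := (quot_eq_iff hN).mp (Quotient.sound hx)
    have hy' := (quot_eq_iff hN).mp (Quotient.sound hy)
    exact Quotient.exact ((quot_eq_iff hN).mpr (ceq_inf_ideal hN hx' hy')))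

/-- the operation `star` in the quotient -/
def qstar (hN : IsIdeal N) : G ⧸ N → G ⧸ N :=
  Quotient.map (fun x => star x) (by
    intro x x' hx
    have hx' := (quot_eq_iff hN).mp (Quotient.sound hx)
    apply Quotient.exact
    apply (quot_eq_iff hN).mpr
    unfold ceq
    rw [← star_inv', ← MGroup.star_mul]
    exact hN.star_mem _ hx')

/-- the lattice structure of the quotient -/
@[reducible] def qlattice (hN : IsIdeal N) : Lattice (G ⧸ N) :=
  letI : Max (G ⧸ N) := ⟨qsup hN⟩
  letI : Min (G ⧸ N) := ⟨qinf hN⟩
  Lattice.mk'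
    (by
      intro a b
      induction a using Quotient.inductionOn
      induction b using Quotient.inductionOn
      exact congrArg (Quotient.mk _) (sup_comm _ _))
    (by
      intro a b c
      induction a using Quotient.inductionOn
      induction b using Quotient.inductionOn
      induction c using Quotient.inductionOn
      exact congrArg (Quotient.mk _) (sup_assoc _ _ _))
    (by
      intro a b
      induction a using Quotient.inductionOn
      induction b using Quotient.inductionOn
      exact congrArg (Quotient.mk _) (inf_comm _ _))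
    (by
      intro a b c
      induction a using Quotient.inductionOn
      induction b using Quotient.inductionOn
      induction c using Quotient.inductionOn
      exact congrArg (Quotient.mk _) (inf_assoc _ _ _))
    (by
      intro a b
      induction a using Quotient.inductionOn
      induction b using Quotient.inductionOn
      exact congrArg (Quotient.mk _) sup_inf_self)
    (by
      intro a b
      induction a using Quotient.inductionOn
      induction b using Quotient.inductionOn
      exact congrArg (Quotient.mk _) inf_sup_self)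

/-- the group structure of the quotient -/
@[reducible] def qgroup (hN : IsIdeal N) : Group (G ⧸ N) :=
  letI := hN.normal
  QuotientGroup.Quotient.group N

/-- the quotient m-group -/
@[reducible] def qmgroup (hN : IsIdeal N) : MGroup (G ⧸ N) :=
  letI := hN.normal
  letI i1 : Group (G ⧸ N) := qgroup hN
  letI i2 : Lattice (G ⧸ N) := qlattice hN
  { i1, i2 with
    mul_left_mono := by
      intro c a b h
      have h' : a ⊔ b = b := sup_eq_right.mpr h
      refine (sup_eq_right (a := c * a) (b := c * b)).mp ?_
      refine Eq.trans ?_ (congrArg (fun z => c * z) h')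
      induction a using Quotient.inductionOn
      induction b using Quotient.inductionOn
      induction c using Quotient.inductionOn
      exact congrArg (Quotient.mk _) (mul_sup _ _ _).symm
    mul_right_mono := by
      intro c a b h
      have h' : a ⊔ b = b := sup_eq_right.mpr h
      refine (sup_eq_right (a := a * c) (b := b * c)).mp ?_
      refine Eq.trans ?_ (congrArg (fun z => z * c) h')
      induction a using Quotient.inductionOn
      induction b using Quotient.inductionOn
      induction c using Quotient.inductionOn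
      exact congrArg (Quotient.mk _) (sup_mul _ _ _).symm
    star := qstar hN
    star_mul := by
      intro a b
      induction a using Quotient.inductionOn
      induction b using Quotient.inductionOn
      exact congrArg (Quotient.mk _) (MGroup.star_mul _ _)
    star_star := by
      intro a
      induction a using Quotient.inductionOn
      exact congrArg (Quotient.mk _) (MGroup.star_star _)
    star_sup := by
      intro a b
      induction a using Quotient.inductionOn
      induction b using Quotient.inductionOn
      exact congrArg (Quotient.mk _) (MGroup.star_sup _ _)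
    star_inf := by
      intro a b
      induction a using Quotient.inductionOn
      induction b using Quotient.inductionOn
      exact congrArg (Quotient.mk _) (MGroup.star_inf _ _) }

theorem eval_quot (hN : IsIdeal N) (v : ℕ → G) (t : MTerm) :
    @MTerm.eval (G ⧸ N) (qmgroup hN) (fun n => QuotientGroup.mk (v n)) t =
      QuotientGroup.mk (t.eval v) := by
  letI := qmgroup hN
  induction t with
  | var n => rfl
  | one => rfl
  | mul s t hs ht =>
    rw [MTerm.eval, hs, ht]; rfl
  | inv t ht =>
    rw [MTerm.eval, ht]; rfl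
  | sup s t hs ht =>
    rw [MTerm.eval, hs, ht]; rfl
  | inf s t hs ht =>
    rw [MTerm.eval, hs, ht]; rfl
  | star t ht =>
    rw [MTerm.eval, ht]; rfl

/-- validity of a law in the quotient -/
theorem sat_quot (hN : IsIdeal N) (e : MTerm × MTerm) :
    @Sat (G ⧸ N) (qmgroup hN) e ↔ ∀ v : ℕ → G, e.1.eval v * (e.2.eval v)⁻¹ ∈ N := by
  constructor
  · intro h v
    have h1 := h (fun n => QuotientGroup.mk (v n))
    rw [eval_quot hN v, eval_quot hN v, quot_eq_iff hN] at h1
    exact h1
  · intro h w
    have h1 : w = fun n => QuotientGroup.mk (Quotient.out (w n)) := by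
      funext n
      exact (Quotient.out_eq (w n)).symm
    rw [h1, eval_quot hN, eval_quot hN, quot_eq_iff hN]
    exact h _

end Quot

/-! ### Products -/

section Prod

variable {I : Type} (G : I → Type) [∀ i, MGroup (G i)]

instance instMGroupPi : MGroup (∀ i, G i) where
  mul_left_mono c a b h i := MGroup.mul_left_mono (c i) (a i) (b i) (h i)
  mul_right_mono c a b h i := MGroup.mul_right_mono (c i) (a i) (b i) (h i)
  star x i := MGroup.star (x i)
  star_mul x y := funext fun i => MGroup.star_mul (x i) (y i)
  star_star x := funext fun i => MGroup.star_star (x i)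
  star_sup x y := funext fun i => MGroup.star_sup (x i) (y i)
  star_inf x y := funext fun i => MGroup.star_inf (x i) (y i)

theorem eval_pi (v : ℕ → ∀ i, G i) (t : MTerm) (i : I) :
    t.eval v i = t.eval (fun n => v n i) := by
  induction t with
  | var n => rfl
  | one => rfl
  | mul s t hs ht =>
    rw [MTerm.eval, MTerm.eval, ← hs, ← ht]; rfl
  | inv t ht =>
    rw [MTerm.eval, MTerm.eval, ← ht]; rfl
  | sup s t hs ht =>
    rw [MTerm.eval, MTerm.eval, ← hs, ← ht]; rfl
  | inf s t hs ht =>
    rw [MTerm.eval, MTerm.eval, ← hs, ← ht]; rfl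
  | star t ht =>
    rw [MTerm.eval, MTerm.eval, ← ht]; rfl

/-- the ideal of functions eventually equal to `1` -/
def tailIdeal (R : I → I → Prop) (hR : ∀ i j, ∃ k, ∀ l, R k l → R i l ∧ R j l)
    (i0 : I) : Subgroup (∀ i, G i) where
  carrier := {f | ∃ i, ∀ j, R i j → f j = 1}
  one_mem' := ⟨i0, fun _ _ => rfl⟩
  mul_mem' := by
    rintro f g ⟨i, hi⟩ ⟨j, hj⟩
    obtain ⟨k, hk⟩ := hR i j
    refine ⟨k, fun l hl => ?_⟩
    rw [Pi.mul_apply, hi l (hk l hl).1, hj l (hk l hl).2, mul_one]
  inv_mem' := by
    rintro f ⟨i, hi⟩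
    refine ⟨i, fun l hl => ?_⟩
    rw [Pi.inv_apply, hi l hl, inv_one]

theorem tailIdeal_isIdeal (R : I → I → Prop) (hR : ∀ i j, ∃ k, ∀ l, R k l → R i l ∧ R j l)
    (i0 : I) : IsIdeal (tailIdeal G R hR i0) := by
  refine ⟨⟨?_⟩, ?_, ?_⟩
  · rintro f ⟨i, hi⟩ g
    refine ⟨i, fun l hl => ?_⟩
    rw [Pi.mul_apply, Pi.mul_apply, hi l hl, mul_one, Pi.inv_apply, mul_inv_cancel]
  · rintro f ⟨i, hi⟩ g hg
    refine ⟨i, fun l hl => ?_⟩
    apply mabs_eq_one
    apply le_antisymm _ (one_le_mabs _)
    have h1 := hg l
    have h2 : |f|ₘ l = |f l|ₘ := rfl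
    have h3 : |g|ₘ l = |g l|ₘ := rfl
    rw [h2, h3, hi l hl, mabs_one] at h1
    exact h1
  · rintro f ⟨i, hi⟩
    refine ⟨i, fun l hl => ?_⟩
    show star (f l) = 1
    rw [hi l hl, star_one']

end Prod

/-! ### Maximal sets of laws -/

theorem satisfies_iff (G : Type) [MGroup G] (E : Set (MTerm × MTerm)) :
    Satisfies G E ↔ ∀ e ∈ E, Sat G e := Iff.rfl

/-- a maximal set of laws having a model which violates `u` -/
theorem exists_maximal_laws (L0 : Set (MTerm × MTerm)) (u : MTerm × MTerm)
    (h : ∃ (G : Type) (_ : MGroup G), Satisfies G L0 ∧ ¬ Sat G u) :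
    ∃ T : Set (MTerm × MTerm), L0 ⊆ T ∧
      (∃ (G : Type) (_ : MGroup G), Satisfies G T ∧ ¬ Sat G u) ∧
      ∀ T' : Set (MTerm × MTerm), T ⊆ T' → ¬ T' ⊆ T →
        ∀ (G : Type) [MGroup G], Satisfies G T' → Sat G u := by
  obtain ⟨T, hT, hmax⟩ := zorn_subset_nonempty
    {T : Set (MTerm × MTerm) | ∃ (G : Type) (_ : MGroup G), Satisfies G T ∧ ¬ Sat G u} (by
      intro c hc hchain hne
      obtain ⟨T0, hT0⟩ := hne
      have hch : ∀ T : c, ∃ (G : Type) (_ : MGroup G), Satisfies G T.1 ∧ ¬ Sat G u :=
        fun T => hc T.2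
      choose G inst hsat hviol using hch
      have hv : ∀ T : c, ∃ v : ℕ → G T, u.1.eval v ≠ u.2.eval v := by
        intro T
        have := hviol T
        unfold Sat at this
        push Not at this
        exact this
      choose v hv using hv
      let R : c → c → Prop := fun S T => S.1 ⊆ T.1
      have hR : ∀ i j : c, ∃ k, ∀ l, R k l → R i l ∧ R j l := by
        intro i j
        rcases hchain.total i.2 j.2 with h | h
        · exact ⟨j, fun l hl => ⟨h.trans hl, hl⟩⟩
        · exact ⟨i, fun l hl => ⟨hl, h.trans hl⟩⟩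
      have hid := tailIdeal_isIdeal G R hR ⟨T0, hT0⟩
      refine ⟨⋃₀ c, ⟨(∀ i, G i) ⧸ tailIdeal G R hR ⟨T0, hT0⟩, qmgroup hid, ?_, ?_⟩,
        fun s hs => Set.subset_sUnion_of_mem hs⟩
      · rintro e ⟨T, hT, heT⟩
        apply (sat_quot hid e).mpr
        intro w
        refine ⟨⟨T, hT⟩, fun S hS => ?_⟩
        rw [Pi.mul_apply, Pi.inv_apply, eval_pi, eval_pi, hsat S e (hS heT), mul_inv_cancel]
      · intro hcon
        obtain ⟨S, hS⟩ := (sat_quot hid u).mp hcon (fun n T => v T n)
        have h1 := hS S (Set.Subset.refl _)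
        rw [Pi.mul_apply, Pi.inv_apply, eval_pi, eval_pi] at h1
        exact hv S (mul_inv_eq_one.mp h1)) L0 h
  refine ⟨T, hT, hmax.prop, ?_⟩
  intro T' hTT' hT'T G _ hG
  by_contra hcon
  exact hT'T (hmax.le_of_ge ⟨G, inferInstance, hG, hcon⟩ hTT')

/-! ### The covering argument -/

/-- the variety defined by a set of laws -/
def Mod (E : Set (MTerm × MTerm)) : MVariety where
  mem G inst := @Satisfies G inst E
  isVariety := ⟨E, fun _ _ => Iff.rfl⟩

theorem convGen_star {G : Type} [MGroup G] {S : Set G} (hS : ∀ s ∈ S, star s ∈ S) :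
    ∀ x ∈ convGen S, star x ∈ convGen S := by
  intro x hx
  refine Subgroup.closure_induction (p := fun z _ => MGroup.star z ∈ convGen S) ?_ ?_ ?_ ?_ hx
  · rintro y ⟨s, hs, hy⟩
    exact mem_convGen_of_mabs_le (hS s hs) (mabs_star_le hy)
  · rw [star_one']; exact one_mem _
  · intro x y _ _ hx hy
    rw [MGroup.star_mul]
    exact mul_mem hx hy
  · intro x _ hx
    rw [star_inv']
    exact inv_mem hx

/-- the covering argument -/
theorem exists_cover (Y : MVariety) (L0 : Set (MTerm × MTerm)) (u : MTerm × MTerm)
    (hex : ∃ (G : Type) (_ : MGroup G), Satisfies G L0 ∧ ¬ Sat G u)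
    (hu : ∀ (G : Type) (inst : MGroup G), Satisfies G L0 → Sat G u → Y.mem G inst)
    (hY : ∀ (G : Type) (inst : MGroup G), Satisfies G L0 → ¬ Sat G u → ¬ Y.mem G inst) :
    ∃ X : MVariety, Y ⋖ X := by
  obtain ⟨T, hL0T, ⟨G0, inst0, hG0, hG0u⟩, hmax⟩ := exists_maximal_laws L0 u hex
  obtain ⟨EY, hEY⟩ := Y.isVariety
  let ThY : Set (MTerm × MTerm) := {e | ∀ (G : Type) (inst : MGroup G), Y.mem G inst → Sat G e}
  let ThV : Set (MTerm × MTerm) := {e | ∀ (G : Type) (inst : MGroup G), Satisfies G T → Sat G e}
  have hEYTh : EY ⊆ ThY := fun e he G inst hG => (hEY G inst).mp hG e he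
  refine ⟨Mod (ThY ∩ ThV), ?_, ?_⟩
  · -- strict inclusion
    rw [lt_iff_le_not_ge]
    constructor
    · intro G inst hG e he
      exact he.1 G inst hG
    · intro hle
      have h1 : Y.mem G0 inst0 := hle G0 inst0 (fun e he => he.2 G0 inst0 hG0)
      exact hY G0 inst0 (fun e he => hG0 e (hL0T he)) hG0u h1
  · intro Z hYZ hZX
    obtain ⟨EZ, hEZ⟩ := Z.isVariety
    by_cases hcase : ∀ (G : Type) (inst : MGroup G), Satisfies G T → Z.mem G inst
    · -- then `X ≤ Z`
      apply absurd hZX.le
      apply hZX.not_ge.elim
      intro G inst hG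
      rw [hEZ G inst]
      intro e he
      apply hG e
      constructor
      · intro G' inst' hG'
        exact (hEZ G' inst').mp (hYZ.le G' inst' hG') e he
      · intro G' inst' hG'
        exact (hEZ G' inst').mp (hcase G' inst' hG') e he
    · push Not at hcase
      obtain ⟨G1, inst1, hG1, hG1Z⟩ := hcase
      obtain ⟨e1, he1, he1f⟩ : ∃ e ∈ EZ, ¬ @Sat G1 inst1 e := by
        by_contra hcon
        push Not at hcon
        exact hG1Z ((hEZ G1 inst1).mpr (fun e he => hcon e he))
      have hkey : ∀ (G : Type) (inst : MGroup G), Z.mem G inst → Satisfies G T →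
          Y.mem G inst := by
        intro G inst hGZ hGT
        apply hu G inst (fun e he => hGT e (hL0T he))
        apply hmax (insert e1 T) (Set.subset_insert _ _)
        · intro hsub
          exact he1f (hG1 e1 (hsub (Set.mem_insert _ _)))
        · intro e he
          rcases Set.mem_insert_iff.mp he with rfl | he
          · exact (hEZ G inst).mp hGZ _ he1
          · exact hGT e he
      apply hYZ.not_ge
      intro G inst hG
      -- the ideal generated by the values of the laws of `V`
      let W : Set G := {x | ∃ e ∈ ThV, ∃ v : ℕ → G, x = e.1.eval v * (e.2.eval v)⁻¹}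
      have hWconj : ∀ g : G, ∀ s ∈ W, g * s * g⁻¹ ∈ W := by
        rintro g _ ⟨e, he, v, rfl⟩
        refine ⟨(.mul (.mul (.var 0) (.mul (e.1.ren Nat.succ) (.inv (e.2.ren Nat.succ))))
          (.inv (.var 0)), .one), ?_, fun n => match n with
            | 0 => g
            | n + 1 => v n, ?_⟩
        · intro G' inst' hG' w
          simp only [MTerm.eval, MTerm.eval_ren]
          rw [he G' inst' hG' (fun n => w (Nat.succ n)), mul_inv_cancel, mul_one, mul_inv_cancel]
        · simp only [MTerm.eval, MTerm.eval_ren, Nat.succ_eq_add_one, inv_one, mul_one]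
      have hWstar : ∀ s ∈ W, star s ∈ W := by
        rintro _ ⟨e, he, v, rfl⟩
        refine ⟨(.star e.1, .star e.2), ?_, v, ?_⟩
        · intro G' inst' hG' w
          simp only [MTerm.eval]
          rw [he G' inst' hG' w]
        · simp only [MTerm.eval]
          rw [MGroup.star_mul, star_inv']
      have hid : IsIdeal (convGen W) :=
        ⟨convGen_normal hWconj, isConv_convGen W, convGen_star hWstar⟩
      have hq : Y.mem (G ⧸ convGen W) (qmgroup hid) := by
        apply hkey
        · rw [hEZ]
          intro e he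
          apply (sat_quot hid e).mpr
          intro v
          have : e.1.eval v = e.2.eval v := (hEZ G inst).mp hG e he v
          rw [this, mul_inv_cancel]
          exact one_mem _
        · intro e he
          apply (sat_quot hid e).mpr
          intro v
          apply subset_convGen
          exact ⟨e, fun G' inst' hG' => hG' e he, v, rfl⟩
      rw [hEY G inst]
      intro e he v
      have h1 : e.1.eval v * (e.2.eval v)⁻¹ ∈ convGen W :=
        (sat_quot hid e).mp ((hEY _ _).mp hq e he) v
      have horth : ∀ s ∈ W, Orth s (e.1.eval v * (e.2.eval v)⁻¹) := by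
        rintro _ ⟨e2, he2, v2, rfl⟩
        let d1 : MTerm := .mul (e2.1.ren (fun i => 2 * i)) (.inv (e2.2.ren (fun i => 2 * i)))
        let d2 : MTerm := .mul (e.1.ren (fun i => 2 * i + 1)) (.inv (e.2.ren (fun i => 2 * i + 1)))
        have hlaw : ((MTerm.inf d1.abs d2.abs, MTerm.one) : MTerm × MTerm) ∈ ThY ∩ ThV := by
          constructor
          · intro G' inst' hG' w
            have h2 : d2.eval w = 1 := by
              simp only [d2, MTerm.eval, MTerm.eval_ren]
              have := hEYTh he G' inst' hG' (fun n => w (2 * n + 1))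
              rw [this, mul_inv_cancel]
            simp only [MTerm.eval, MTerm.eval_abs]
            rw [h2, mabs_one]
            exact inf_eq_right.mpr (one_le_mabs _)
          · intro G' inst' hG' w
            have h2 : d1.eval w = 1 := by
              simp only [d1, MTerm.eval, MTerm.eval_ren]
              have := he2 G' inst' hG' (fun n => w (2 * n))
              rw [this, mul_inv_cancel]
            simp only [MTerm.eval, MTerm.eval_abs]
            rw [h2, mabs_one]
            exact inf_eq_left.mpr (one_le_mabs _)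
        have h3 := hZX.le G inst hG _ hlaw (fun n => if n % 2 = 0 then v2 (n / 2) else v (n / 2))
        simp only [MTerm.eval, MTerm.eval_abs, d1, d2, MTerm.eval_ren] at h3
        have e1' : (fun n => if 2 * n % 2 = 0 then v2 (2 * n / 2) else v (2 * n / 2)) = v2 := by
          funext n
          rw [if_pos (by omega)]
          congr 1
          omega
        have e2' : (fun n => if (2 * n + 1) % 2 = 0 then v2 ((2 * n + 1) / 2) else
            v ((2 * n + 1) / 2)) = v := by
          funext n
          rw [if_neg (by omega)]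
          congr 1
          omega
        rw [e1', e2'] at h3
        exact h3
      have h2 := orth_convGen horth h1
      unfold Orth at h2
      rw [inf_idem] at h2
      exact mul_inv_eq_one.mp (mabs_eq_one h2)

end Pool.Agent.Hhelper12.MG
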