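import Pool.Agent.Hhelper12.MG.Rich
import Pool.Agent.Hhelper12.MG.Examples
import Pool.Agent.Hhelper12.MG.UA

/-!
# Varieties not containing all normal-valued m-groups have covers
-/

set_option autoImplicit false
set_option linter.unusedSectionVars false
set_option linter.unnecessarySimpa false
set_option linter.unusedVariables false

namespace Pool.Agent.Hhelper12.MG

open MGroup

/-- there is an odd prime at least `r` -/
theorem exists_odd_prime (r : ℕ) : ∃ p : ℕ, p.Prime ∧ Odd p ∧ r ≤ p := by
  obtain ⟨p, hp, hpp⟩ := Nat.exists_infinite_primes (r + 3)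
  exact ⟨p, hpp, hpp.odd_of_ne_two (by omega), by omega⟩

/-- the common argument -/
theorem cover_of_fails (Y : MVariety) {s t : MTerm}
    (hst : ∀ (G : Type) (inst : MGroup G), Y.mem G inst → ∀ v : ℕ → G, s.eval v = t.eval v)
    (m : ℕ) (b : Bool)
    (hrich : ∃ r0 : ℕ, ∀ p : ℕ, p.Prime → Odd p → r0 ≤ p → ∀ e : ℕ, RichFails s t m b p e)
    (hsub : ∀ (G : Type) (inst : MGroup G), NV G → (∀ x ∈ ThN m (baseS G b), x = 1) →
      Y.mem G inst) : ∃ X : MVariety, Y ⋖ X := by
  obtain ⟨r0, hr0⟩ := hrich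
  obtain ⟨p, hp, hp2, hrp⟩ := exists_odd_prime r0
  obtain ⟨B, instB, hNV, hL, ⟨x, hx, hx1⟩, -⟩ := exists_example hp.one_lt m
  apply exists_cover Y {nvLaw, lqLaw (p ^ m)} (uLaw m b)
  · refine ⟨B, instB, ?_, ?_⟩
    · rintro e (rfl | he)
      · exact sat_nvLaw.mpr hNV
      · rw [Set.mem_singleton_iff.mp he]
        exact (sat_lqLaw _).mpr hL
    · intro h
      have h1 := (sat_uLaw m b).mp h
      apply hx1
      apply h1
      cases b with
      | false => exact ThN_mono (Set.subset_univ _) m hx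
      | true => exact hx
  · intro G inst hG hGu
    exact hsub G inst (sat_nvLaw.mp (hG nvLaw (by simp))) ((sat_uLaw m b).mp hGu)
  · intro G inst hG hGu hmem
    have h1 : ∃ x ∈ ThN m (baseS G b), x ≠ 1 := by
      by_contra hcon
      push Not at hcon
      exact hGu ((sat_uLaw m b).mpr hcon)
    obtain ⟨w, hw⟩ := hr0 p hp hp2 hrp m G (sat_nvLaw.mp (hG nvLaw (by simp)))
      ((sat_lqLaw _).mp (hG (lqLaw (p ^ m)) (by simp))) h1
    exact hw (hst G inst hmem w)

/-- the property of containing all groups of the given kind -/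
def ContainsU (Y : MVariety) (m : ℕ) (b : Bool) : Prop :=
  ∀ (G : Type) (inst : MGroup G), NV G → (∀ x ∈ ThN m (baseS G b), x = 1) → Y.mem G inst

/-- a law of `Y` fails in every m-group outside `Y` -/
theorem exists_failing_law (Y : MVariety) {G : Type} (inst : MGroup G) (h : ¬ Y.mem G inst) :
    ∃ s t : MTerm, (∀ (G' : Type) (inst' : MGroup G'), Y.mem G' inst' →
      ∀ v : ℕ → G', s.eval v = t.eval v) ∧ ∃ v : ℕ → G, s.eval v ≠ t.eval v := by
  obtain ⟨E, hE⟩ := Y.isVariety
  rw [hE] at h
  unfold Satisfies at h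
  push Not at h
  obtain ⟨e, he, v, hv⟩ := h
  exact ⟨e.1, e.2, fun G' inst' hG' w => (hE G' inst').mp hG' e he w, v, hv⟩

/-- a variety which does not contain all normal-valued m-groups has a cover -/
theorem cover_of_not_NV (Y : MVariety)
    (h : ¬ ∀ (G : Type) (inst : MGroup G), NV G → Y.mem G inst) : ∃ X : MVariety, Y ⋖ X := by
  classical
  by_cases hall : ∀ m : ℕ, ContainsU Y m false
  · exfalso
    push Not at h
    obtain ⟨G, inst, hNV, hG⟩ := h
    obtain ⟨s, t, hst, v, hv⟩ := exists_failing_law Y inst hG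
    obtain ⟨m, r0, hr0⟩ := fails_NV hNV hv
    obtain ⟨p, hp, hp2, hrp⟩ := exists_odd_prime r0
    obtain ⟨B, instB, hNVB, hLB, hB, hB'⟩ := exists_example hp.one_lt m
    obtain ⟨w, hw⟩ := hr0 p hp hp2 hrp m B hNVB hLB hB
    exact hw (hst B instB (hall (m + 1) B instB hNVB hB') w)
  · push Not at hall
    have hex : ∃ m : ℕ, ¬ ContainsU Y m false := hall
    obtain ⟨hm1, hm2⟩ : ¬ ContainsU Y (Nat.find hex) false ∧
        ∀ k < Nat.find hex, ContainsU Y k false :=
      ⟨Nat.find_spec hex, fun k hk => not_not.mp (Nat.find_min hex hk)⟩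
    set m := Nat.find hex with hm
    have hm0 : m ≠ 0 := by
      intro h0
      rw [h0] at hm1
      apply hm1
      intro G inst _ hG
      obtain ⟨E, hE⟩ := Y.isVariety
      rw [hE]
      intro e _ v
      rw [hG (e.1.eval v) trivial, hG (e.2.eval v) trivial]
    obtain ⟨k, hk⟩ := Nat.exists_eq_succ_of_ne_zero hm0
    have hkU : ContainsU Y k false := hm2 k (by omega)
    by_cases hodd : ContainsU Y k true
    · -- the even step
      rw [hk] at hm1
      unfold ContainsU at hm1
      push Not at hm1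
      obtain ⟨G, inst, hNV, hG1, hG⟩ := hm1
      obtain ⟨s, t, hst, v, hv⟩ := exists_failing_law Y inst hG
      exact cover_of_fails Y hst k true (fails_even hG1 hv) hodd
    · -- the odd step
      unfold ContainsU at hodd
      push Not at hodd
      obtain ⟨G, inst, hNV, hG1, hG⟩ := hodd
      obtain ⟨s, t, hst, v, hv⟩ := exists_failing_law Y inst hG
      exact cover_of_fails Y hst k false (fails_odd hG1 hv) hkU

end Pool.Agent.Hhelper12.MG
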