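import Pool.Agent.Hhelper12.MG.Theta

/-!
# Cuts of the chain of cosets of a value which is not normal in its cover
-/

set_option autoImplicit false
set_option linter.unusedSectionVars false
set_option linter.unnecessarySimpa false
set_option linter.unusedVariables false
set_option linter.style.haveILetI false

namespace Pool.Agent.Hhelper12.MG

section Cuts

variable {G : Type*} [Group G] [Lattice G] [MulLeftMono G] [MulRightMono G]

/-- lower sets of cosets -/
def IsLow (M : Subgroup G) (C : Set G) : Prop := ∀ x ∈ C, ∀ y, cle M y x → y ∈ C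

/-- the stabiliser of a set under right translations -/
def stab (C : Set G) : Subgroup G where
  carrier := {g | ∀ x, x ∈ C ↔ x * g ∈ C}
  one_mem' := by intro x; rw [mul_one]
  mul_mem' := by
    intro g h hg hh x
    rw [← mul_assoc, ← hh (x * g), ← hg x]
  inv_mem' := by
    intro g hg x
    rw [hg (x * g⁻¹), inv_mul_cancel_right]

theorem mem_stab {C : Set G} {g : G} : g ∈ stab C ↔ ∀ x, x ∈ C ↔ x * g ∈ C := Iff.rfl

theorem mem_stab_of_pos {M : Subgroup G} (hM : IsConv M) {C : Set G} (hC : IsLow M C) {g : G}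
    (hg : 1 ≤ g) : g ∈ stab C ↔ ∀ x ∈ C, x * g ∈ C := by
  rw [mem_stab]
  constructor
  · intro h x hx
    exact (h x).mp hx
  · intro h x
    exact ⟨h x, fun hx => hC _ hx x (cle_of_le hM (le_mul_of_one_le_right' hg))⟩

theorem stab_conv {M : Subgroup G} (hM : IsPrimeC M) {C : Set G} (hC : IsLow M C) :
    IsConv (stab C) := by
  have hpos : ∀ g ∈ stab C, g ⊔ 1 ∈ stab C := by
    intro g hg
    rw [mem_stab_of_pos hM.conv hC le_sup_right]
    intro x hx
    rcases ceq_mul_sup_or hM x g 1 with ⟨-, h⟩ | ⟨-, h⟩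
    · rw [mul_one] at h
      exact hC x hx _ (h.le hM.conv)
    · exact hC _ ((hg x).mp hx) _ (h.le hM.conv)
  have hle : ∀ g ∈ stab C, ∀ h, 1 ≤ h → h ≤ g → h ∈ stab C := by
    intro g hg h h1 hgh
    rw [mem_stab_of_pos hM.conv hC h1]
    intro x hx
    exact hC _ ((hg x).mp hx) _ (cle_of_le hM.conv (mul_le_mul_right hgh x))
  have habs : ∀ g ∈ stab C, |g|ₘ ∈ stab C := by
    intro g hg
    have h1 : |g|ₘ = (g ⊔ 1) * (g⁻¹ ⊔ 1) := by
      have := oneLePart_mul_leOnePart g
      rw [oneLePart_def, leOnePart_def] at this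
      exact this.symm
    rw [h1]
    exact mul_mem (hpos g hg) (hpos _ (inv_mem hg))
  intro x hx y hy
  apply mem_of_pos_neg
  · exact hle _ (habs x hx) _ le_sup_right ((sup_one_le_mabs y).trans hy)
  · refine hle _ (habs x hx) _ le_sup_right (le_trans ?_ hy)
    rw [← mabs_inv]
    exact sup_one_le_mabs y⁻¹

theorem stab_prime {M : Subgroup G} (hM : IsPrimeC M) {C : Set G} (hC : IsLow M C) :
    IsPrimeC (stab C) := by
  refine ⟨stab_conv hM hC, ?_⟩
  intro g h hgh
  by_contra hcon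
  rw [not_or] at hcon
  have hg1 : 1 ≤ g := by rw [← hgh]; exact inf_le_left
  have hh1 : 1 ≤ h := by rw [← hgh]; exact inf_le_right
  rw [mem_stab_of_pos hM.conv hC hg1, mem_stab_of_pos hM.conv hC hh1] at hcon
  push Not at hcon
  obtain ⟨⟨x, hx, hxg⟩, ⟨y, hy, hyh⟩⟩ := hcon
  obtain ⟨z, hz, hzg, hzh⟩ : ∃ z ∈ C, z * g ∉ C ∧ z * h ∉ C := by
    rcases cle_total hM x y with h1 | h1
    · exact ⟨y, hy, fun h' => hxg (hC _ h' _ ((cle_mul_right g).mpr h1)), hyh⟩
    · exact ⟨x, hx, hxg, fun h' => hyh (hC _ h' _ ((cle_mul_right h).mpr h1))⟩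
  rcases ceq_mul_inf_or hM z g h with ⟨-, h1⟩ | ⟨-, h1⟩
  · rw [hgh, mul_one] at h1
    exact hzg (hC z hz _ (h1.symm.le hM.conv))
  · rw [hgh, mul_one] at h1
    exact hzh (hC z hz _ (h1.symm.le hM.conv))

variable {M : Subgroup G} {b : G}

theorem cj_cover_of_mem {g : G} (hg : g ∈ cover M b) : cj (cover M b) g = cover M b :=
  cj_of_mem hg

/-- the value property of conjugates inside the cover -/
theorem val_cj_max (hM : IsVal M b) {g : G} (hg : g ∈ cover M b) {D : Subgroup G}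
    (hD : IsConv D) (h : cj M g < D) : cover M b ≤ D := by
  have h1 := (hM.cj g).cover_le hD h
  rwa [cover_cj, cj_cover_of_mem hg] at h1

theorem val_not_cover_le_cj (hM : IsVal M b) {g : G} (hg : g ∈ cover M b) :
    ¬ cover M b ≤ cj M g := by
  intro h
  have h1 := cj_mono h g⁻¹
  rw [cj_cover_of_mem (inv_mem hg), cj_cj, mul_inv_cancel, cj_one] at h1
  exact hM.not_mem (h1 (mem_cover M b))

theorem val_cj_eq_of_le (hM : IsVal M b) {g g' : G} (hg : g ∈ cover M b)
    (hg' : g' ∈ cover M b) (h : cj M g ≤ cj M g') : cj M g = cj M g' := by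
  by_contra hne
  exact val_not_cover_le_cj hM hg' (val_cj_max hM hg (hM.conv.cj g') (lt_of_le_of_ne h hne))

/-- normalising elements from one-sided invariance -/
theorem val_mem_normalizer_of (hM : IsVal M b) {α : G} (hα : α ∈ cover M b)
    (h : ∀ m ∈ M, 1 ≤ m → α * m * α⁻¹ ∈ M) : α ∈ Subgroup.normalizer (M : Set G) := by
  have h1 : M ≤ cj M α := by
    intro m hm
    rw [mem_cj]
    have h2 := h _ (hM.conv.pos_mem hm) le_sup_right
    have h3 := h _ (hM.conv.neg_mem hm) le_sup_right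
    have h4 : α * m * α⁻¹ = (α * (m ⊔ 1) * α⁻¹) * (α * (m⁻¹ ⊔ 1) * α⁻¹)⁻¹ := by
      have : (α * (m ⊔ 1) * α⁻¹) * (α * (m⁻¹ ⊔ 1) * α⁻¹)⁻¹
          = α * ((m ⊔ 1) * (m⁻¹ ⊔ 1)⁻¹) * α⁻¹ := by group
      rw [this, pos_div_neg]
    rw [h4]
    exact mul_mem h2 (inv_mem h3)
  rw [mem_normalizer_iff_cj]
  have h2 := val_cj_eq_of_le hM (g := 1) (one_mem _) hα (by rwa [cj_one])
  rw [← h2, cj_one]

theorem val_cover_le_normalizer_of (hM : IsVal M b)
    (h : ∀ α ∈ cover M b, 1 ≤ α → α ∈ Subgroup.normalizer (M : Set G)) :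
    cover M b ≤ Subgroup.normalizer (M : Set G) := by
  intro α hα
  have hc := isConv_cover M b
  rw [← pos_div_neg α]
  exact mul_mem (h _ (hc.pos_mem hα) le_sup_right)
    (inv_mem (h _ (hc.neg_mem hα) le_sup_right))

/-- powers of a cut -/
def cutPow (M : Subgroup G) (C : Set G) : ℕ → Set G
  | 0 => {x | cle M x 1}
  | n + 1 => {y | ∃ g ∈ cutPow M C n, ∃ c ∈ C, y = c * g}

theorem cutPow_low (hM : IsConv M) {C : Set G} (hC : IsLow M C) (n : ℕ) :
    IsLow M (cutPow M C n) := by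
  cases n with
  | zero =>
    intro x hx y hy
    exact hy.trans hM hx
  | succ n =>
    rintro _ ⟨g, hg, c, hc, rfl⟩ y hy
    refine ⟨g, hg, y * g⁻¹, hC c hc _ ?_, by group⟩
    have := (cle_mul_right g⁻¹).mpr hy
    rwa [mul_inv_cancel_right] at this

theorem cutPow_fixed (hM : IsConv M) {C : Set G} (n : ℕ) :
    ∀ x ∈ cutPow M C n, ∀ m ∈ M, x * m ∈ cutPow M C n := by
  induction n with
  | zero =>
    intro x hx m hm
    have h1 := (cle_mul_right m).mpr (show cle M x 1 from hx)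
    rw [one_mul] at h1
    exact h1.trans hM ((ceq_one.mpr hm).le hM)
  | succ n ih =>
    rintro _ ⟨g, hg, c, hc, rfl⟩ m hm
    exact ⟨g * m, ih g hg m hm, c, hc, by group⟩

theorem cutPow_succ {C : Set G} (h1 : (1 : G) ∈ C) (n : ℕ) :
    cutPow M C n ⊆ cutPow M C (n + 1) := fun g hg => ⟨g, hg, 1, h1, by group⟩

theorem cutPow_mono {C : Set G} (h1 : (1 : G) ∈ C) {n k : ℕ} (h : n ≤ k) :
    cutPow M C n ⊆ cutPow M C k := by
  induction h with
  | refl => exact subset_rfl
  | step _ ih => exact ih.trans (cutPow_succ h1 _)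

theorem cutPow_mul (hM : IsConv M) {C : Set G} (hC : IsLow M C) (n k : ℕ) :
    ∀ x ∈ cutPow M C n, ∀ y ∈ cutPow M C k, x * y ∈ cutPow M C (n + k) := by
  induction n with
  | zero =>
    intro x hx y hy
    have h1 := (cle_mul_right y).mpr (show cle M x 1 from hx)
    rw [one_mul] at h1
    rw [Nat.zero_add]
    exact cutPow_low hM hC k y hy _ h1
  | succ n ih =>
    rintro _ ⟨g, hg, c, hc, rfl⟩ y hy
    rw [Nat.succ_add]
    exact ⟨g * y, ih g hg y hy, c, hc, by group⟩

/-- the convex subgroup generated by the powers of a cut -/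
def cutGen (hM : IsConv M) {C : Set G} (hC : IsLow M C) (h1 : (1 : G) ∈ C) : Subgroup G where
  carrier := {g | ∃ n, g ∈ cutPow M C n ∧ g⁻¹ ∈ cutPow M C n}
  one_mem' := by
    refine ⟨0, ?_, ?_⟩
    · exact cle_refl hM 1
    · rw [inv_one]; exact cle_refl hM 1
  mul_mem' := by
    rintro x y ⟨n, hx, hx'⟩ ⟨k, hy, hy'⟩
    refine ⟨n + k, cutPow_mul hM hC n k x hx y hy, ?_⟩
    rw [mul_inv_rev, add_comm]
    exact cutPow_mul hM hC k n _ hy' _ hx'
  inv_mem' := by
    rintro x ⟨n, hx, hx'⟩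
    exact ⟨n, hx', by rwa [inv_inv]⟩

theorem cutGen_conv (hM : IsPrimeC M) {C : Set G} (hC : IsLow M C) (h1 : (1 : G) ∈ C) :
    IsConv (cutGen hM.conv hC h1) := by
  rintro x ⟨n, hx, hx'⟩ y hy
  have hlow := cutPow_low hM.conv hC n
  have habs : |x|ₘ ∈ cutPow M C n := by
    unfold mabs
    rcases cle_total hM x x⁻¹ with h | h
    · exact hlow _ hx' _ ((ceq_sup_of_cle hM.conv h).le hM.conv)
    · exact hlow _ hx _ ((ceq_sup_of_cle' hM.conv h).le hM.conv)
  refine ⟨n, ?_, ?_⟩
  · exact hlow _ habs _ (cle_of_le hM.conv ((le_mabs_self y).trans hy))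
  · exact hlow _ habs _ (cle_of_le hM.conv ((inv_le_mabs y).trans hy))

/-- Claim A: there is a point above the base point such that no cut fixed by `M` lies strictly
between -/
theorem claimA (hM : IsVal M b) (hN : ¬ cover M b ≤ Subgroup.normalizer (M : Set G)) :
    ∃ β ∈ cover M b, clt M 1 β ∧ ∀ C : Set G, IsLow M C → M ≤ stab C → (1 : G) ∈ C →
      (∃ γ ∈ C, clt M 1 γ) → β ∈ C := by
  classical
  have hMp := hM.prime
  have hMc := hM.conv
  have hH := isConv_cover M b
  by_contra hcon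
  push Not at hcon
  apply hN
  apply val_cover_le_normalizer_of hM
  intro α hα hα1
  by_cases hαM : α ∈ M
  · exact Subgroup.le_normalizer hαM
  have hα2 : clt M 1 α := by
    apply one_lt_of_not_mem
    rwa [sup_of_le_left hα1]
  apply val_mem_normalizer_of hM hα
  intro m hm hm1
  by_contra hne
  have hlt : clt M α (α * m) := by
    apply clt_of_cle_not_ceq hMc (cle_of_le hMc (le_mul_of_one_le_right' hm1))
    intro h
    exact hne h.symm
  set β := α * m * α⁻¹ with hβ
  have hβH : β ∈ cover M b := mul_mem (mul_mem hα (le_cover M b hm)) (inv_mem hα)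
  have hβ1 : clt M 1 β := by
    have := (clt_mul_right α⁻¹).mpr hlt
    rwa [mul_inv_cancel] at this
  obtain ⟨C, hC, hCM, hC1, ⟨γ, hγ, hγ1⟩, hβC⟩ := hcon β hβH hβ1
  have hU := cutGen_conv hMp hC hC1
  have hMU : M ≤ cutGen hMc hC hC1 := by
    intro m hm
    exact ⟨0, (ceq_one.mpr hm).le hMc, (ceq_one.mpr (inv_mem hm)).le hMc⟩
  have hγ' : γ ⊔ 1 ∈ C := hC γ hγ _ ((ceq_sup_of_cle' hMc (hγ1.le hMp)).le hMc)
  have hγU : γ ⊔ 1 ∈ cutGen hMc hC hC1 := by
    refine ⟨1, ⟨1, cle_refl hMc 1, γ ⊔ 1, hγ', by group⟩, ?_⟩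
    apply cutPow_succ hC1 0
    exact cle_of_le hMc (inv_le_one'.mpr le_sup_right)
  have hγM : γ ⊔ 1 ∉ M := clt_one_iff.mp hγ1
  have hlt' : M < cutGen hMc hC hC1 := by
    refine lt_of_le_of_ne hMU ?_
    intro h
    apply hγM
    rw [h]
    exact hγU
  have hHU := hM.cover_le hU hlt'
  obtain ⟨n0, hn0, -⟩ := hHU hα
  have hex : ∃ n, α ∈ cutPow M C n := ⟨n0, hn0⟩
  obtain ⟨hn1, hn2⟩ : α ∈ cutPow M C (Nat.find hex) ∧
      ∀ k < Nat.find hex, α ∉ cutPow M C k :=
    ⟨Nat.find_spec hex, fun k hk => Nat.find_min hex hk⟩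
  have hne0 : Nat.find hex ≠ 0 := by
    intro h0
    rw [h0] at hn1
    exact hα2 hn1
  obtain ⟨k, hk⟩ := Nat.exists_eq_succ_of_ne_zero hne0
  have h3 := hn2 k (by omega)
  rw [hk] at hn1
  obtain ⟨g, hg, c, hc, hcg⟩ := cutPow_fixed hMc (k + 1) α hn1 m hm
  -- `g < α`
  have hgα : cle M g α := by
    rcases cle_total hMp g α with h | h
    · exact h
    · exact absurd (cutPow_low hMc hC k g hg α h) h3
  apply hβC
  -- replace `g` by `g ⊓ α`
  have hμ : (g ⊓ α) * g⁻¹ ∈ M := ceq_inf_of_cle hMc hgα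
  have hc' : c * ((g ⊓ α) * g⁻¹)⁻¹ ∈ C := (hCM (inv_mem hμ) c).mp hc
  apply hC _ hc'
  apply cle_of_le hMc
  have h5 : β = c * ((g ⊓ α) * g⁻¹)⁻¹ * ((g ⊓ α) * α⁻¹) := by
    rw [hβ, hcg]; group
  rw [h5]
  apply mul_le_of_le_one_right'
  rw [mul_inv_le_one_iff_le]
  exact inf_le_right

/-- density of the block -/
theorem block_dense (hM : IsVal M b) (hN : ¬ cover M b ≤ Subgroup.normalizer (M : Set G))
    {x y : G} (hx : x ∈ cover M b) (hy : y ∈ cover M b) (hxy : clt M x y) :
    ∃ z ∈ cover M b, clt M x z ∧ clt M z y := by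
  classical
  have hMp := hM.prime
  have hMc := hM.conv
  have hH := isConv_cover M b
  by_contra hcon
  push Not at hcon
  set s := (y * x⁻¹) ⊔ 1 with hs
  have hs1 : 1 ≤ s := le_sup_right
  have hyx : clt M 1 (y * x⁻¹) := by
    have := (clt_mul_right x⁻¹).mpr hxy
    rwa [mul_inv_cancel] at this
  have hsy : ceq M s (y * x⁻¹) := ceq_sup_of_cle' hMc (hyx.le hMp)
  have hsH : s ∈ cover M b := hH.pos_mem (mul_mem hy (inv_mem hx))
  have hsM : s ∉ M := clt_one_iff.mp hyx
  have hs2 : clt M 1 s := by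
    apply one_lt_of_not_mem
    rwa [sup_of_le_left hs1]
  have hgap : ∀ z ∈ cover M b, clt M 1 z → ¬ clt M z s := by
    intro z hz hz1 hzs
    have h1 := (clt_mul_right x).mpr hz1
    have h2 := (clt_mul_right x).mpr hzs
    rw [one_mul] at h1
    have h3 : clt M (z * x) y := by
      have h4 : ceq M (s * x) y := by
        have := (ceq_mul_right x).mpr hsy
        rwa [inv_mul_cancel_right] at this
      exact h2.trans_cle hMc (h4.le hMc)
    exact hcon (z * x) (mul_mem hz hx) h1 h3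
  have hsN : s ∈ Subgroup.normalizer (M : Set G) := by
    apply val_mem_normalizer_of hM hsH
    intro m hm hm1
    by_contra hne
    have hlt : clt M s (s * m) := by
      apply clt_of_cle_not_ceq hMc (cle_of_le hMc (le_mul_of_one_le_right' hm1))
      intro h
      exact hne h.symm
    have h1 : clt M (s * m⁻¹) s := by
      have := (clt_mul_right m⁻¹).mpr hlt
      rwa [mul_inv_cancel_right] at this
    have h2 : clt M 1 (s * m⁻¹) := by
      have h3 := (clt_mul_right m⁻¹).mpr hs2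
      rw [one_mul] at h3
      exact ((ceq_one.mpr (inv_mem hm)).symm.le hMc).trans_clt hMc h3
    exact hgap _ (mul_mem hsH (inv_mem (le_cover M b hm))) h2 h1
  -- powers of `s` are cofinal
  let U : Subgroup G :=
    { carrier := {g | ∃ n : ℕ, cle M g (s ^ n) ∧ cle M g⁻¹ (s ^ n)}
      one_mem' := ⟨0, by rw [pow_zero]; exact cle_refl hMc 1, by
        rw [pow_zero, inv_one]; exact cle_refl hMc 1⟩
      mul_mem' := by
        rintro g h ⟨n, hg, hg'⟩ ⟨k, hh, hh'⟩
        have key : ∀ g h : G, ∀ n k : ℕ, cle M g (s ^ n) → cle M h (s ^ k) →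
            cle M (g * h) (s ^ (n + k)) := by
          intro g h n k hg hh
          rw [pow_add]
          exact ((cle_mul_right h).mpr hg).trans hMc
            ((cle_mul_left (Subgroup.pow_mem _ hsN n)).mpr hh)
        refine ⟨n + k, key g h n k hg hh, ?_⟩
        rw [mul_inv_rev, add_comm]
        exact key _ _ k n hh' hg'
      inv_mem' := by
        rintro g ⟨n, hg, hg'⟩
        exact ⟨n, hg', by rwa [inv_inv]⟩ }
  have hUc : IsConv U := by
    rintro g ⟨n, hg, hg'⟩ y hy
    have habs : cle M |g|ₘ (s ^ n) := by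
      unfold mabs
      rcases cle_total hMp g g⁻¹ with h | h
      · exact ((ceq_sup_of_cle hMc h).le hMc).trans hMc hg'
      · exact ((ceq_sup_of_cle' hMc h).le hMc).trans hMc hg
    refine ⟨n, ?_, ?_⟩
    · exact (cle_of_le hMc ((le_mabs_self y).trans hy)).trans hMc habs
    · exact (cle_of_le hMc ((inv_le_mabs y).trans hy)).trans hMc habs
  have hlt : M < U := by
    refine lt_of_le_of_ne ?_ ?_
    · intro m hm
      exact ⟨0, by rw [pow_zero]; exact (ceq_one.mpr hm).le hMc, by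
        rw [pow_zero]; exact (ceq_one.mpr (inv_mem hm)).le hMc⟩
    · intro h
      apply hsM
      rw [h]
      exact ⟨1, by rw [pow_one]; exact cle_refl hMc s, by
        rw [pow_one]; exact cle_of_le hMc ((inv_le_one'.mpr hs1).trans hs1)⟩
  have hHU := hM.cover_le hUc hlt
  apply hN
  apply val_cover_le_normalizer_of hM
  intro α hα hα1
  obtain ⟨n0, hn0, -⟩ := hHU hα
  have hex : ∃ n : ℕ, cle M α (s ^ n) := ⟨n0, hn0⟩
  obtain ⟨hn1, hn2⟩ : cle M α (s ^ (Nat.find hex)) ∧
      ∀ k < Nat.find hex, ¬ cle M α (s ^ k) :=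
    ⟨Nat.find_spec hex, fun k hk => Nat.find_min hex hk⟩
  rcases Nat.eq_zero_or_pos (Nat.find hex) with h0 | h0
  · rw [h0, pow_zero] at hn1
    exact Subgroup.le_normalizer (mem_of_cle_one hMc hα1 hn1)
  · obtain ⟨k, hk⟩ := Nat.exists_eq_succ_of_ne_zero h0.ne'
    have h3 : clt M (s ^ k) α := not_cle.mp (hn2 k (by omega))
    rw [hk] at hn1
    have h4 : clt M 1 (α * (s ^ k)⁻¹) := by
      have := (clt_mul_right (s ^ k)⁻¹).mpr h3
      rwa [mul_inv_cancel] at this
    have h5 : cle M (α * (s ^ k)⁻¹) s := by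
      have := (cle_mul_right (s ^ k)⁻¹).mpr hn1
      rwa [Nat.succ_eq_add_one, pow_succ', mul_inv_cancel_right] at this
    have h6 : ceq M (α * (s ^ k)⁻¹) s := by
      by_contra hne
      exact hgap _ (mul_mem hα (inv_mem (pow_mem hsH k))) h4 (clt_of_cle_not_ceq hMc h5 hne)
    have h7 : ceq M α (s * s ^ k) := by
      have := (ceq_mul_right (s ^ k)).mpr h6
      rwa [inv_mul_cancel_right] at this
    rw [mem_normalizer_iff_cj, cj_congr h7, ← mem_normalizer_iff_cj]
    exact mul_mem hsN (pow_mem hsN k)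

/-- the standing assumptions: a point `β` as in Claim A -/
structure Good (M : Subgroup G) (b β : G) : Prop where
  val : IsVal M b
  not_normal : ¬ cover M b ≤ Subgroup.normalizer (M : Set G)
  mem : β ∈ cover M b
  lt : clt M 1 β
  claim : ∀ C : Set G, IsLow M C → M ≤ stab C → (1 : G) ∈ C → (∃ γ ∈ C, clt M 1 γ) → β ∈ C

/-- uniqueness of cuts with a given stabiliser near the base point -/
theorem Good.uniq {β : G} (hG : Good M b β) {D D' : Set G} (hD : IsLow M D) (hD' : IsLow M D')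
    (hst : stab D ≤ stab D') (h1 : (1 : G) ∈ D) (hβ : β ∉ D') {y y' : G} (hy : y ∈ D')
    (hy' : y' ∈ D') (hyD : y ∉ D) (hyy : clt M y y') : False := by
  have hMp := hG.val.prime
  have hMc := hG.val.conv
  let E : Set G := {z | ∃ k, k ∉ D ∧ z * k ∈ D'}
  have hE : IsLow M E := by
    rintro z ⟨k, hk, hzk⟩ z' hz'
    exact ⟨k, hk, hD' _ hzk _ ((cle_mul_right k).mpr hz')⟩
  have hEM : M ≤ stab E := by
    have key : ∀ m ∈ M, ∀ z ∈ E, z * m ∈ E := by
      rintro m hm z ⟨k, hk, hzk⟩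
      refine ⟨m⁻¹ * k, ?_, by rwa [show z * m * (m⁻¹ * k) = z * k by group]⟩
      intro h
      exact hk (hD _ h k ((ceq_mul_left_mem (inv_mem hm)).symm.le hMc))
    intro m hm z
    constructor
    · exact key m hm z
    · intro h
      have := key m⁻¹ (inv_mem hm) _ h
      rwa [mul_inv_cancel_right] at this
  have hE1 : (1 : G) ∈ E := ⟨y, hyD, by rwa [one_mul]⟩
  have hEγ : y' * y⁻¹ ∈ E := ⟨y, hyD, by rwa [inv_mul_cancel_right]⟩
  have hγ : clt M 1 (y' * y⁻¹) := by
    have := (clt_mul_right y⁻¹).mpr hyy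
    rwa [mul_inv_cancel] at this
  obtain ⟨k, hk, hβk⟩ := hG.claim E hE hEM hE1 ⟨_, hEγ, hγ⟩
  apply hβ
  -- the element `k⁻¹ ⊔ 1` stabilises `D`
  have hu : k⁻¹ ⊔ 1 ∈ stab D := by
    rw [mem_stab_of_pos hMc hD le_sup_right]
    intro x hx
    have hxk : clt M x k := by
      intro h
      exact hk (hD x hx k h)
    have h2 : cle M (x * k⁻¹) 1 := by
      have := ((clt_mul_right k⁻¹).mpr hxk).le hMp
      rwa [mul_inv_cancel] at this
    rcases ceq_mul_sup_or hMp x k⁻¹ 1 with ⟨-, h3⟩ | ⟨-, h3⟩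
    · rw [mul_one] at h3
      exact hD x hx _ (h3.le hMc)
    · exact hD 1 h1 _ ((h3.le hMc).trans hMc h2)
  have h2 := ((hst hu) (β * k)).mp hβk
  apply hD' _ h2
  apply cle_of_le hMc
  rw [mul_sup, mul_inv_cancel_right]
  exact le_sup_left

theorem stab_proper {C : Set G} (hC : IsLow M C) {α δ : G} (hα : α ∈ cover M b)
    (hδ : δ ∈ cover M b) (hαC : α ∈ C) (hδC : δ ∉ C) : ¬ cover M b ≤ stab C := by
  intro h
  have := (h (mul_mem (inv_mem hα) hδ) α).mp hαC
  rw [mul_inv_cancel_left] at this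
  exact hδC this

theorem stab_le_cover (hM : IsVal M b) {C : Set G} (hC : IsLow M C) {α δ : G}
    (hα : α ∈ cover M b) (hδ : δ ∈ cover M b) (hαC : α ∈ C) (hδC : δ ∉ C) :
    stab C ≤ cover M b := by
  have hMp := hM.prime
  have hMc := hM.conv
  have hH := isConv_cover M b
  have key : ∀ x ∈ stab C, 1 ≤ x → x ∈ cover M b := by
    intro x hx hx1
    have h1 : α * x ∈ C := (hx α).mp hαC
    have h2 : cle M (α * x) δ := by
      rcases cle_total hMp (α * x) δ with h | h
      · exact h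
      · exact absurd (hC _ h1 δ h) hδC
    rw [cle_iff hMc] at h2
    obtain ⟨m, hm, h3⟩ := h2
    have h4 : α ≤ α * x := le_mul_of_one_le_right' hx1
    have h5 : α * x ∈ cover M b :=
      hH.between h4 h3 hα (mul_mem (le_cover M b hm) hδ)
    have := mul_mem (inv_mem hα) h5
    rwa [inv_mul_cancel_left] at this
  intro x hx
  have hc := stab_conv hMp hC
  rw [← pos_div_neg x]
  exact mul_mem (key _ (hc.pos_mem hx) le_sup_right)
    (inv_mem (key _ (hc.neg_mem hx) le_sup_right))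

theorem val_stab_eq (hM : IsVal M b) {C : Set G} (hC : IsLow M C) {α δ f : G}
    (hα : α ∈ cover M b) (hδ : δ ∈ cover M b) (hαC : α ∈ C) (hδC : δ ∉ C)
    (hf : f ∈ cover M b) (h : cj M f ≤ stab C) : stab C = cj M f := by
  by_contra hne
  exact stab_proper hC hα hδ hαC hδC
    (val_cj_max hM hf (stab_conv hM.prime hC) (lt_of_le_of_ne h (Ne.symm hne)))

theorem stab_le_point (hM : IsConv M) (f : G) : stab {x | cle M x f} ≤ cj M f := by
  intro u hu
  rw [mem_cj]
  have h1 : cle M (f * u) f := (hu f).mp (cle_refl hM f)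
  have h2 : cle M (f * u⁻¹) f := ((inv_mem hu : u⁻¹ ∈ stab _) f).mp (cle_refl hM f)
  have h3 : cle M f (f * u) := by
    have := (cle_mul_right u).mpr h2
    rwa [inv_mul_cancel_right] at this
  exact cle.antisymm hM h1 h3

theorem point_le_stab (hM : IsConv M) (f : G) : cj M f ≤ stab {x | clt M x f} := by
  intro u hu x
  rw [mem_cj] at hu
  have h1 : ceq M (f * u) f := hu
  constructor
  · intro h
    have := (clt_mul_right u).mpr h
    exact this.trans_cle hM (h1.le hM)
  · intro h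
    have h2 : clt M (x * u) (f * u) := clt.trans_cle hM h (h1.symm.le hM)
    exact (clt_mul_right u).mp h2

/-- G1 -/
theorem Good.g1 {β : G} (hG : Good M b β) {f α δ : G} (hf : f ∈ cover M b)
    (hα : α ∈ cover M b) (hδ : δ ∈ cover M b) (hf1 : cle M 1 f) (hfβ : cle M f β)
    (hα1 : cle M 1 α) (hδβ : cle M δ β) {C : Set G} (hC : IsLow M C) (hαC : α ∈ C)
    (hδC : δ ∉ C) (hst : cj M f ≤ stab C) : cle M α f ∧ cle M f δ := by
  have hMp := hG.val.prime
  have hMc := hG.val.conv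
  have hβC : β ∉ C := fun h => hδC (hC β h δ hδβ)
  constructor
  · by_contra hcon
    have hlt : clt M f α := hcon
    obtain ⟨y, hy, hy1, hy2⟩ := block_dense hG.val hG.not_normal hf hα hlt
    refine hG.uniq (D := {x | cle M x f}) (D' := C) ?_ hC
      ((stab_le_point hMc f).trans hst) hf1 hβC (hC α hαC y (hy2.le hMp)) hαC hy1 hy2
    intro x hx z hz
    exact hz.trans hMc hx
  · by_contra hcon
    have hlt : clt M δ f := hcon
    obtain ⟨y, hy, hy1, hy2⟩ := block_dense hG.val hG.not_normal hδ hf hlt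
    have hst' : stab C ≤ cj M f := (val_stab_eq hG.val hC hα hδ hαC hδC hf hst).le
    refine hG.uniq (D := C) (D' := {x | clt M x f}) hC ?_
      (hst'.trans (point_le_stab hMc f)) (hC α hαC 1 hα1) ?_ hlt hy2 hδC hy1
    · intro x hx z hz
      exact cle.trans_clt hMc hz hx
    · intro h
      exact h hfβ

/-- a group which is not normal-valued has a value which is not normal in its cover -/
theorem exists_not_normal (h : ¬ NV G) :
    ∃ (M : Subgroup G) (b : G), IsVal M b ∧ ¬ cover M b ≤ Subgroup.normalizer (M : Set G) := by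
  unfold NV at h
  push Not at h
  obtain ⟨x, y, hx, hy, hxy⟩ := h
  have hne : x * y * (y ^ 2 * x ^ 2)⁻¹ ⊔ 1 ≠ 1 := by
    intro h1
    apply hxy
    rw [← mul_inv_le_one_iff_le, ← h1]
    exact le_sup_left
  obtain ⟨Q, hQ, hnm⟩ := exists_prime_not_mem hne
  have h1 : clt Q (y ^ 2 * x ^ 2) (x * y) := by
    have := (clt_mul_right (y ^ 2 * x ^ 2)).mpr (one_lt_of_not_mem hnm)
    rwa [one_mul, inv_mul_cancel_right] at this
  have h2 : x ⊔ y ∉ Q := by
    intro hq
    have hxQ : x ∈ Q := hQ.conv.mem_of_le hx le_sup_left hq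
    have hyQ : y ∈ Q := hQ.conv.mem_of_le hy le_sup_right hq
    apply h1
    apply cle_of_ceq hQ.conv
    exact mul_mem (mul_mem hxQ hyQ) (inv_mem (mul_mem (pow_mem hyQ 2) (pow_mem hxQ 2)))
  obtain ⟨M, hQM, hM⟩ := exists_isVal hQ.conv h2
  refine ⟨M, x ⊔ y, hM, ?_⟩
  intro hN
  have hMc := hM.conv
  have hH := isConv_cover M (x ⊔ y)
  have hxH : x ∈ cover M (x ⊔ y) := hH.mem_of_le hx le_sup_left (mem_cover _ _)
  have hyH : y ∈ cover M (x ⊔ y) := hH.mem_of_le hy le_sup_right (mem_cover _ _)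
  have hxN := hN hxH
  have hyN := hN hyH
  have h3 : cle M (y ^ 2 * x ^ 2) (x * y) := cle_mono hQM (h1.le hQ)
  have hsq : ∀ z : G, cle M (z ^ 2) z → 1 ≤ z → z ∈ M := by
    intro z hz hz1
    have := (cle_mul_right z⁻¹).mpr hz
    rw [mul_inv_cancel, show z ^ 2 * z⁻¹ = z by group] at this
    exact mem_of_cle_one hMc hz1 this
  rcases cle_total hM.prime x y with h4 | h4
  · have hyM : y ∉ M := by
      intro hyM
      apply hM.not_mem
      have := ceq_sup_of_cle hMc h4
      rw [← ceq_one]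
      exact this.trans (ceq_one.mpr hyM)
    have h5 : cle M (x * y) (y ^ 2) := by
      rw [pow_two]
      exact (cle_mul_right y).mpr h4
    have h6 : cle M (x ^ 2) 1 := by
      have h7 : cle M (y ^ 2 * x ^ 2) (y ^ 2 * 1) := by
        rw [mul_one]
        exact h3.trans hMc h5
      exact (cle_mul_left (pow_mem hyN 2)).mp h7
    have hxM : x ∈ M := hMc.root_closed two_ne_zero
      (mem_of_cle_one hMc (one_le_pow_of_one_le' hx 2) h6)
    apply hyM
    apply hsq y _ hy
    have h8 : cle M (y ^ 2) (y ^ 2 * x ^ 2) :=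
      cle_of_le hMc (le_mul_of_one_le_right' (one_le_pow_of_one_le' hx 2))
    exact (h8.trans hMc h3).trans hMc ((ceq_mul_left_mem hxM).le hMc)
  · have hxM : x ∉ M := by
      intro hxM
      apply hM.not_mem
      have := ceq_sup_of_cle' hMc h4
      rw [← ceq_one]
      exact this.trans (ceq_one.mpr hxM)
    have h5 : cle M (x * y) (x ^ 2) := by
      rw [pow_two]
      exact (cle_mul_left hxN).mpr h4
    have h6 : cle M (y ^ 2) 1 := by
      have h7 : cle M (y ^ 2 * x ^ 2) (1 * x ^ 2) := by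
        rw [one_mul]
        exact h3.trans hMc h5
      exact (cle_mul_right (x ^ 2)).mp h7
    have hyM : y ∈ M := hMc.root_closed two_ne_zero
      (mem_of_cle_one hMc (one_le_pow_of_one_le' hy 2) h6)
    apply hxM
    apply hsq x _ hx
    have h8 : cle M (x ^ 2) (y ^ 2 * x ^ 2) :=
      cle_of_le hMc (le_mul_of_one_le_left' (one_le_pow_of_one_le' hy 2))
    have h9 : ceq M (x * y) x := by
      have := (ceq_mul_left hxN).mpr (ceq_one.mpr hyM)
      rwa [mul_one] at this
    exact (h8.trans hMc h3).trans hMc (h9.le hMc)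

theorem exists_good (h : ¬ NV G) : ∃ (M : Subgroup G) (b β : G), Good M b β := by
  obtain ⟨M, b, hM, hN⟩ := exists_not_normal h
  obtain ⟨β, h1, h2, h3⟩ := claimA hM hN
  exact ⟨M, b, β, hM, hN, h1, h2, h3⟩

end Cuts

end Pool.Agent.Hhelper12.MG
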