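import Mathlib

/-!
# Varieties of m-groups: definitions
-/

set_option autoImplicit false

namespace Pool.Agent.Hhelper12.MG

/-- An *m-group*: a lattice-ordered group together with a unary operation `star` which is a group
automorphism with `star (star x) = x` and a lattice anti-isomorphism. -/
class MGroup (G : Type) extends Group G, Lattice G where
  /-- the order is invariant under left translations -/
  mul_left_mono : ∀ c a b : G, a ≤ b → c * a ≤ c * b
  /-- the order is invariant under right translations -/
  mul_right_mono : ∀ c a b : G, a ≤ b → a * c ≤ b * c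
  /-- the operation `x ↦ x_*` -/
  star : G → G
  star_mul : ∀ x y : G, star (x * y) = star x * star y
  star_star : ∀ x : G, star (star x) = x
  star_sup : ∀ x y : G, star (x ⊔ y) = star x ⊓ star y
  star_inf : ∀ x y : G, star (x ⊓ y) = star x ⊔ star y

/-- Terms in the signature of m-groups, with variables indexed by the natural numbers. -/
inductive MTerm : Type
  /-- a variable -/
  | var : ℕ → MTerm
  /-- the unit element -/
  | one : MTerm
  /-- product -/
  | mul : MTerm → MTerm → MTerm
  /-- inverse -/
  | inv : MTerm → MTerm
  /-- join -/
  | sup : MTerm → MTerm → MTerm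
  /-- meet -/
  | inf : MTerm → MTerm → MTerm
  /-- the operation `x ↦ x_*` -/
  | star : MTerm → MTerm

/-- The value of a term in an m-group under an assignment of the variables. -/
def MTerm.eval {G : Type} [MGroup G] (v : ℕ → G) : MTerm → G
  | .var n => v n
  | .one => 1
  | .mul s t => s.eval v * t.eval v
  | .inv t => (t.eval v)⁻¹
  | .sup s t => s.eval v ⊔ t.eval v
  | .inf s t => s.eval v ⊓ t.eval v
  | .star t => MGroup.star (t.eval v)

/-- `G` satisfies all the identities `s = t`, `(s, t) ∈ E`. -/
def Satisfies (G : Type) [MGroup G] (E : Set (MTerm × MTerm)) : Prop :=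
  ∀ e ∈ E, ∀ v : ℕ → G, e.1.eval v = e.2.eval v

/-- A *variety of m-groups*: a class of m-groups defined by a set of identities. -/
@[ext] structure MVariety where
  /-- the members of the variety -/
  mem : ∀ (G : Type), MGroup G → Prop
  /-- the class is the class of all models of some set of identities -/
  isVariety : ∃ E : Set (MTerm × MTerm), ∀ (G : Type) (inst : MGroup G),
    mem G inst ↔ Satisfies G E

/-- Varieties of m-groups are ordered by inclusion. -/
instance : PartialOrder MVariety where
  le X Y := ∀ (G : Type) (inst : MGroup G), X.mem G inst → Y.mem G inst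
  le_refl _ _ _ h := h
  le_trans _ _ _ h1 h2 G inst h := h2 G inst (h1 G inst h)
  le_antisymm X Y h1 h2 := by
    ext G inst
    exact ⟨h1 G inst, h2 G inst⟩

/-- The variety of all m-groups. -/
def allMGroups : MVariety where
  mem _ _ := True
  isVariety := ⟨∅, fun _ _ => ⟨fun _ e he => absurd he (Set.notMem_empty e), fun _ => trivial⟩⟩

end Pool.Agent.Hhelper12.MG
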