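import Pool.Agent.Hhelper12.MG.BSide

/-!
# Terms and laws
-/

set_option autoImplicit false
set_option linter.unusedSectionVars false
set_option linter.unnecessarySimpa false
set_option linter.unusedVariables false

namespace Pool.Agent.Hhelper12.MG

open scoped commutatorElement
open MGroup

/-- value of a term with the operation `star` pushed to the variables; the flag records whether
the value is to be starred -/
def MTerm.val {G : Type} [MGroup G] (v : ℕ → G) : Bool → MTerm → G
  | false, .var n => v n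
  | true, .var n => MGroup.star (v n)
  | _, .one => 1
  | f, .mul s t => s.val v f * t.val v f
  | f, .inv t => (t.val v f)⁻¹
  | false, .sup s t => s.val v false ⊔ t.val v false
  | true, .sup s t => s.val v true ⊓ t.val v true
  | false, .inf s t => s.val v false ⊓ t.val v false
  | true, .inf s t => s.val v true ⊔ t.val v true
  | f, .star t => t.val v (!f)

theorem MTerm.val_eq {G : Type} [MGroup G] (v : ℕ → G) (t : MTerm) :
    t.val v false = t.eval v ∧ t.val v true = MGroup.star (t.eval v) := by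
  induction t with
  | var n => exact ⟨rfl, rfl⟩
  | one => exact ⟨rfl, star_one'.symm⟩
  | mul s t hs ht =>
    simp only [MTerm.val, MTerm.eval, hs.1, hs.2, ht.1, ht.2, MGroup.star_mul, and_self]
  | inv t ht =>
    simp only [MTerm.val, MTerm.eval, ht.1, ht.2, star_inv', and_self]
  | sup s t hs ht =>
    simp only [MTerm.val, MTerm.eval, hs.1, hs.2, ht.1, ht.2, MGroup.star_sup, and_self]
  | inf s t hs ht =>
    simp only [MTerm.val, MTerm.eval, hs.1, hs.2, ht.1, ht.2, MGroup.star_inf, and_self]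
  | star t ht =>
    simp only [MTerm.val, MTerm.eval, Bool.not_false, Bool.not_true, ht.1, ht.2,
      MGroup.star_star, and_self]

/-- the finite set of elements visited in the evaluation of a term -/
def MTerm.trace {G : Type} [MGroup G] (v : ℕ → G) : Bool → MTerm → G → List G
  | f, .var n, g => [g, g * (MTerm.var n).val v f]
  | _, .one, g => [g, g * 1]
  | f, .mul s t, g => [g, g * (MTerm.mul s t).val v f] ++ s.trace v f g ++
      t.trace v f (g * s.val v f)
  | f, .inv t, g => [g, g * (MTerm.inv t).val v f] ++ t.trace v f (g * (t.val v f)⁻¹)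
  | f, .sup s t, g => [g, g * (MTerm.sup s t).val v f] ++ s.trace v f g ++ t.trace v f g
  | f, .inf s t, g => [g, g * (MTerm.inf s t).val v f] ++ s.trace v f g ++ t.trace v f g
  | f, .star t, g => [g, g * (MTerm.star t).val v f] ++ t.trace v (!f) g

theorem MTerm.mem_trace {G : Type} [MGroup G] (v : ℕ → G) (f : Bool) (t : MTerm) (g : G) :
    g ∈ t.trace v f g ∧ g * t.val v f ∈ t.trace v f g := by
  cases t <;> cases f <;> simp [MTerm.trace, MTerm.val]

section TermSim

variable {A B : Type} [MGroup A] [MGroup B] {Q : Subgroup A} {Q' : Subgroup B} {T : Set A}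
  {Φ : A → B} {v : ℕ → A} {w : ℕ → B}

theorem sim_ceq (hQ : IsPrimeC Q) (hQ' : IsPrimeC Q')
    (hord : ∀ g ∈ T, ∀ h ∈ T, (cle Q g h ↔ cle Q' (Φ g) (Φ h))) {x y : A} (hx : x ∈ T)
    (hy : y ∈ T) (h : ceq Q x y) : ceq Q' (Φ x) (Φ y) :=
  cle.antisymm hQ'.conv ((hord x hx y hy).mp (h.le hQ.conv))
    ((hord y hy x hx).mp (h.symm.le hQ.conv))

theorem sim_sup (hQ : IsPrimeC Q) (hQ' : IsPrimeC Q')
    (hord : ∀ g ∈ T, ∀ h ∈ T, (cle Q g h ↔ cle Q' (Φ g) (Φ h))) {g x y : A} {x' y' : B}
    (hgx : g * x ∈ T) (hgy : g * y ∈ T) (hgxy : g * (x ⊔ y) ∈ T)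
    (hx : ceq Q' (Φ g * x') (Φ (g * x))) (hy : ceq Q' (Φ g * y') (Φ (g * y))) :
    ceq Q' (Φ g * (x' ⊔ y')) (Φ (g * (x ⊔ y))) := by
  rw [mul_sup]
  refine (ceq_sup_congr hQ' hx hy).trans ?_
  rcases ceq_mul_sup_or hQ g x y with ⟨h1, h2⟩ | ⟨h1, h2⟩
  · exact (ceq_sup_of_cle hQ'.conv ((hord _ hgx _ hgy).mp h1)).trans
      (sim_ceq hQ hQ' hord hgy hgxy h2.symm)
  · exact (ceq_sup_of_cle' hQ'.conv ((hord _ hgy _ hgx).mp h1)).trans
      (sim_ceq hQ hQ' hord hgx hgxy h2.symm)

theorem sim_inf (hQ : IsPrimeC Q) (hQ' : IsPrimeC Q')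
    (hord : ∀ g ∈ T, ∀ h ∈ T, (cle Q g h ↔ cle Q' (Φ g) (Φ h))) {g x y : A} {x' y' : B}
    (hgx : g * x ∈ T) (hgy : g * y ∈ T) (hgxy : g * (x ⊓ y) ∈ T)
    (hx : ceq Q' (Φ g * x') (Φ (g * x))) (hy : ceq Q' (Φ g * y') (Φ (g * y))) :
    ceq Q' (Φ g * (x' ⊓ y')) (Φ (g * (x ⊓ y))) := by
  rw [mul_inf]
  refine (ceq_inf_congr hQ' hx hy).trans ?_
  rcases ceq_mul_inf_or hQ g x y with ⟨h1, h2⟩ | ⟨h1, h2⟩
  · exact (ceq_inf_of_cle hQ'.conv ((hord _ hgx _ hgy).mp h1)).trans
      (sim_ceq hQ hQ' hord hgx hgxy h2.symm)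
  · exact (ceq_inf_of_cle' hQ'.conv ((hord _ hgy _ hgx).mp h1)).trans
      (sim_ceq hQ hQ' hord hgy hgxy h2.symm)

/-- terms are simulated on their traces -/
theorem term_sim (hQ : IsPrimeC Q) (hQ' : IsPrimeC Q')
    (hord : ∀ g ∈ T, ∀ h ∈ T, (cle Q g h ↔ cle Q' (Φ g) (Φ h)))
    (hw : ∀ n : ℕ, ∀ g ∈ T, (g * v n ∈ T → ceq Q' (Φ g * w n) (Φ (g * v n))) ∧
      (g * star (v n) ∈ T → ceq Q' (Φ g * star (w n)) (Φ (g * star (v n)))))
    (t : MTerm) : ∀ (f : Bool) (g : A), (∀ x ∈ t.trace v f g, x ∈ T) →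
      ceq Q' (Φ g * t.val w f) (Φ (g * t.val v f)) := by
  induction t with
  | var n =>
    intro f g h
    have hm := MTerm.mem_trace v f (.var n) g
    cases f with
    | false => exact (hw n g (h _ hm.1)).1 (h _ hm.2)
    | true => exact (hw n g (h _ hm.1)).2 (h _ hm.2)
  | one =>
    intro f g h
    cases f <;> simp only [MTerm.val, mul_one] <;> exact ceq_refl _ _
  | mul s t hs ht =>
    intro f g h
    have h1 := hs f g (fun x hx => h x (by cases f <;> simp [MTerm.trace, hx]))
    have h2 := ht f (g * s.val v f) (fun x hx => h x (by cases f <;> simp [MTerm.trace, hx]))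
    have h3 := ((ceq_mul_right (t.val w f)).mpr h1).trans h2
    cases f <;> simpa only [MTerm.val, mul_assoc] using h3
  | inv t ht =>
    intro f g h
    have h1 := ht f (g * (t.val v f)⁻¹) (fun x hx => h x (by cases f <;> simp [MTerm.trace, hx]))
    rw [inv_mul_cancel_right] at h1
    have h2 := (ceq_mul_right (t.val w f)⁻¹).mpr h1
    rw [mul_inv_cancel_right] at h2
    cases f <;> simpa only [MTerm.val] using h2.symm
  | sup s t hs ht =>
    intro f g h
    have h1 := hs f g (fun x hx => h x (by cases f <;> simp [MTerm.trace, hx]))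
    have h2 := ht f g (fun x hx => h x (by cases f <;> simp [MTerm.trace, hx]))
    have hm1 := h _ (by
      have := (MTerm.mem_trace v f s g).2
      cases f <;> simp [MTerm.trace, this] : g * s.val v f ∈ (MTerm.sup s t).trace v f g)
    have hm2 := h _ (by
      have := (MTerm.mem_trace v f t g).2
      cases f <;> simp [MTerm.trace, this] : g * t.val v f ∈ (MTerm.sup s t).trace v f g)
    have hm3 := h _ (MTerm.mem_trace v f (.sup s t) g).2
    cases f with
    | false => exact sim_sup hQ hQ' hord hm1 hm2 hm3 h1 h2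
    | true => exact sim_inf hQ hQ' hord hm1 hm2 hm3 h1 h2
  | inf s t hs ht =>
    intro f g h
    have h1 := hs f g (fun x hx => h x (by cases f <;> simp [MTerm.trace, hx]))
    have h2 := ht f g (fun x hx => h x (by cases f <;> simp [MTerm.trace, hx]))
    have hm1 := h _ (by
      have := (MTerm.mem_trace v f s g).2
      cases f <;> simp [MTerm.trace, this] : g * s.val v f ∈ (MTerm.inf s t).trace v f g)
    have hm2 := h _ (by
      have := (MTerm.mem_trace v f t g).2
      cases f <;> simp [MTerm.trace, this] : g * t.val v f ∈ (MTerm.inf s t).trace v f g)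
    have hm3 := h _ (MTerm.mem_trace v f (.inf s t) g).2
    cases f with
    | false => exact sim_inf hQ hQ' hord hm1 hm2 hm3 h1 h2
    | true => exact sim_sup hQ hQ' hord hm1 hm2 hm3 h1 h2
  | star t ht =>
    intro f g h
    have h1 := ht (!f) g (fun x hx => h x (by cases f <;> simp_all [MTerm.trace]))
    cases f <;> simpa only [MTerm.val] using h1

end TermSim

/-- a law failing in `A` fails in every group simulating the right finite piece of `A` -/
theorem fails_of_msim {A : Type} [MGroup A] (s t : MTerm) (v : ℕ → A)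
    (h : s.eval v ≠ t.eval v) : ∃ Q : Subgroup A, IsPrimeC Q ∧ ∃ T : Finset A,
      ∀ (B : Type) [MGroup B] (Q' : Subgroup B), IsPrimeC Q' → MSim Q (T : Set A) Q' →
        ∃ w : ℕ → B, s.eval w ≠ t.eval w := by
  classical
  have hne : s.eval v * (t.eval v)⁻¹ ≠ 1 := fun h' => h (mul_inv_eq_one.mp h')
  obtain ⟨Q, hQ, hnm⟩ := exists_prime_not_mem hne
  refine ⟨Q, hQ, (s.trace v false 1 ++ t.trace v false 1).toFinset, ?_⟩
  intro B _ Q' hQ' hsim
  obtain ⟨Φ, hord, hact⟩ := hsim
  choose b hb using hact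
  refine ⟨fun n => b (v n), ?_⟩
  intro heq
  have hT : ∀ x : A, x ∈ ((s.trace v false 1 ++ t.trace v false 1).toFinset : Set A) ↔
      x ∈ s.trace v false 1 ∨ x ∈ t.trace v false 1 := by
    intro x
    simp
  have h1 := term_sim hQ hQ' hord (w := fun n => b (v n)) (fun n g hg => hb (v n) g hg) s false 1
    (fun x hx => (hT x).mpr (Or.inl hx))
  have h2 := term_sim hQ hQ' hord (w := fun n => b (v n)) (fun n g hg => hb (v n) g hg) t false 1
    (fun x hx => (hT x).mpr (Or.inr hx))
  rw [(s.val_eq _).1, (s.val_eq _).1, one_mul] at h1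
  rw [(t.val_eq _).1, (t.val_eq _).1, one_mul] at h2
  rw [heq] at h1
  have h3 : ceq Q' (Φ (s.eval v)) (Φ (t.eval v)) := h1.symm.trans h2
  have hs : s.eval v ∈ ((s.trace v false 1 ++ t.trace v false 1).toFinset : Set A) := by
    rw [hT]
    left
    have := (MTerm.mem_trace v false s 1).2
    rwa [one_mul, (s.val_eq v).1] at this
  have ht : t.eval v ∈ ((s.trace v false 1 ++ t.trace v false 1).toFinset : Set A) := by
    rw [hT]
    right
    have := (MTerm.mem_trace v false t 1).2
    rwa [one_mul, (t.val_eq v).1] at this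
  apply hnm
  exact cle.antisymm hQ.conv ((hord _ hs _ ht).mpr (h3.le hQ'.conv))
    ((hord _ ht _ hs).mpr (h3.symm.le hQ'.conv))

/-! ### Particular laws -/

/-- renaming of variables -/
def MTerm.ren (σ : ℕ → ℕ) : MTerm → MTerm
  | .var n => .var (σ n)
  | .one => .one
  | .mul s t => .mul (s.ren σ) (t.ren σ)
  | .inv t => .inv (t.ren σ)
  | .sup s t => .sup (s.ren σ) (t.ren σ)
  | .inf s t => .inf (s.ren σ) (t.ren σ)
  | .star t => .star (t.ren σ)

theorem MTerm.eval_ren {G : Type} [MGroup G] (v : ℕ → G) (σ : ℕ → ℕ) (t : MTerm) :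
    (t.ren σ).eval v = t.eval (fun n => v (σ n)) := by
  induction t with
  | var n => rfl
  | one => rfl
  | mul s t hs ht => simp only [MTerm.ren, MTerm.eval, hs, ht]
  | inv t ht => simp only [MTerm.ren, MTerm.eval, ht]
  | sup s t hs ht => simp only [MTerm.ren, MTerm.eval, hs, ht]
  | inf s t hs ht => simp only [MTerm.ren, MTerm.eval, hs, ht]
  | star t ht => simp only [MTerm.ren, MTerm.eval, ht]

/-- the term `|t|` -/
def MTerm.abs (t : MTerm) : MTerm := .sup t (.inv t)

theorem MTerm.eval_abs {G : Type} [MGroup G] (v : ℕ → G) (t : MTerm) :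
    t.abs.eval v = |t.eval v|ₘ := rfl

/-- truncation term -/
def MTerm.trunc (a z : MTerm) : MTerm := .sup (.inf a z.abs) (.inv z.abs)

theorem MTerm.eval_trunc {G : Type} [MGroup G] (v : ℕ → G) (a z : MTerm) :
    (a.trunc z).eval v = tr (a.eval v) (z.eval v) := rfl

/-- commutator term -/
def MTerm.comm (a b : MTerm) : MTerm := .mul (.mul (.mul a b) (.inv a)) (.inv b)

theorem MTerm.eval_comm {G : Type} [MGroup G] (v : ℕ → G) (a b : MTerm) :
    (a.comm b).eval v = ⁅a.eval v, b.eval v⁆ := rfl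

/-- generic iterated commutator terms -/
def thT (s : MTerm) : ℕ → MTerm
  | 0 => s
  | m + 1 => ((MTerm.var 0).trunc ((thT s m).ren (fun i => 2 * i + 2))).comm
      ((MTerm.var 1).trunc ((thT s m).ren (fun i => 2 * i + 3)))

theorem thT_values {G : Type} [MGroup G] (s : MTerm) (S : Set G)
    (hS : ∀ x, x ∈ S ↔ ∃ v : ℕ → G, s.eval v = x) (m : ℕ) :
    ∀ x, x ∈ ThN m S ↔ ∃ v : ℕ → G, (thT s m).eval v = x := by
  induction m with
  | zero => exact hS
  | succ m ih =>
    intro x
    constructor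
    · rintro ⟨y, hy, y', hy', a, b, ha, hb, rfl⟩
      obtain ⟨v, rfl⟩ := (ih y).mp hy
      obtain ⟨v', rfl⟩ := (ih y').mp hy'
      let w : ℕ → G := fun n => if n = 0 then a else if n = 1 then b else
        if n % 2 = 0 then v ((n - 2) / 2) else v' ((n - 3) / 2)
      refine ⟨w, ?_⟩
      have e1 : (fun i => w (2 * i + 2)) = v := by
        funext i
        have h0 : (2 * i + 2) % 2 = 0 := by omega
        have h1 : (2 * i + 2 - 2) / 2 = i := by omega
        simp only [w]
        rw [if_neg (by omega), if_neg (by omega), if_pos h0, h1]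
      have e2 : (fun i => w (2 * i + 3)) = v' := by
        funext i
        have h0 : ¬ (2 * i + 3) % 2 = 0 := by omega
        have h1 : (2 * i + 3 - 3) / 2 = i := by omega
        simp only [w]
        rw [if_neg (by omega), if_neg (by omega), if_neg h0, h1]
      rw [thT, MTerm.eval_comm, MTerm.eval_trunc, MTerm.eval_trunc, MTerm.eval_ren,
        MTerm.eval_ren, e1, e2]
      have h3 : (MTerm.var 0).eval w = a := by simp [MTerm.eval, w]
      have h4 : (MTerm.var 1).eval w = b := by simp [MTerm.eval, w]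
      rw [h3, h4, tr_of_le ha, tr_of_le hb]
    · rintro ⟨w, rfl⟩
      rw [thT, MTerm.eval_comm, MTerm.eval_trunc, MTerm.eval_trunc, MTerm.eval_ren,
        MTerm.eval_ren]
      exact ⟨_, (ih _).mpr ⟨_, rfl⟩, _, (ih _).mpr ⟨_, rfl⟩, _, _, mabs_tr_le _ _,
        mabs_tr_le _ _, rfl⟩

/-- base terms: even and odd type -/
def baseT : Bool → MTerm
  | false => .var 0
  | true => .mul (.mul (.var 0) (.mul (.var 1) (.star (.var 1)))) (.inv (.var 0))

/-- base sets: even and odd type -/
def baseS (G : Type) [MGroup G] : Bool → Set G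
  | false => Set.univ
  | true => Sodd G

theorem baseS_conj {G : Type} [MGroup G] (b : Bool) :
    ∀ g : G, ∀ s ∈ baseS G b, g * s * g⁻¹ ∈ baseS G b := by
  cases b with
  | false => intro g s _; trivial
  | true => exact Sodd_conj

theorem baseT_values {G : Type} [MGroup G] (b : Bool) (x : G) :
    x ∈ baseS G b ↔ ∃ v : ℕ → G, (baseT b).eval v = x := by
  cases b with
  | false => exact ⟨fun _ => ⟨fun _ => x, rfl⟩, fun _ => trivial⟩
  | true =>
    constructor
    · rintro ⟨g, y, rfl⟩
      exact ⟨fun n => if n = 0 then g else y, by simp [baseT, MTerm.eval]⟩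
    · rintro ⟨v, rfl⟩
      exact ⟨v 0, v 1, rfl⟩

/-- the law `ThN m (baseS b) = 1` -/
def uLaw (m : ℕ) (b : Bool) : MTerm × MTerm := (thT (baseT b) m, .one)

/-- `G` satisfies `e` -/
def Sat (G : Type) [MGroup G] (e : MTerm × MTerm) : Prop := ∀ v : ℕ → G, e.1.eval v = e.2.eval v

theorem sat_uLaw {G : Type} [MGroup G] (m : ℕ) (b : Bool) :
    Sat G (uLaw m b) ↔ ∀ t ∈ ThN m (baseS G b), t = 1 := by
  constructor
  · intro h t ht
    obtain ⟨v, rfl⟩ := (thT_values (baseT b) _ (baseT_values b) m t).mp ht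
    exact h v
  · intro h v
    exact h _ ((thT_values (baseT b) _ (baseT_values b) m _).mpr ⟨v, rfl⟩)

/-- the normal-valued law -/
def nvLaw : MTerm × MTerm :=
  (.sup (.mul (MTerm.var 0).abs (MTerm.var 1).abs)
    (.mul (.mul (MTerm.var 1).abs (MTerm.var 1).abs)
      (.mul (MTerm.var 0).abs (MTerm.var 0).abs)),
    .mul (.mul (MTerm.var 1).abs (MTerm.var 1).abs)
      (.mul (MTerm.var 0).abs (MTerm.var 0).abs))

theorem sat_nvLaw {G : Type} [MGroup G] : Sat G nvLaw ↔ NV G := by
  constructor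
  · intro h x y hx hy
    have := h (fun n => if n = 0 then x else y)
    simp only [nvLaw, MTerm.eval, MTerm.eval_abs, if_true, one_ne_zero, if_false] at this
    rw [mabs_of_one_le hx, mabs_of_one_le hy, sup_eq_right, ← pow_two, ← pow_two] at this
    exact this
  · intro h v
    simp only [nvLaw, MTerm.eval, MTerm.eval_abs]
    rw [sup_eq_right, ← pow_two, ← pow_two]
    exact h _ _ (one_le_mabs _) (one_le_mabs _)

/-- power term -/
def MTerm.pow (t : MTerm) : ℕ → MTerm
  | 0 => .one
  | n + 1 => .mul (t.pow n) t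

theorem MTerm.eval_pow {G : Type} [MGroup G] (v : ℕ → G) (t : MTerm) (n : ℕ) :
    (t.pow n).eval v = (t.eval v) ^ n := by
  induction n with
  | zero => simp [MTerm.pow, MTerm.eval]
  | succ n ih => rw [MTerm.pow, MTerm.eval, ih, pow_succ]

/-- the law that `q`-th powers commute -/
def lqLaw (q : ℕ) : MTerm × MTerm :=
  (.mul ((MTerm.var 0).pow q) ((MTerm.var 1).pow q),
    .mul ((MTerm.var 1).pow q) ((MTerm.var 0).pow q))

theorem sat_lqLaw {G : Type} [MGroup G] (q : ℕ) : Sat G (lqLaw q) ↔ Lq G q := by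
  constructor
  · intro h x y
    have := h (fun n => if n = 0 then x else y)
    simpa only [lqLaw, MTerm.eval, MTerm.eval_pow, if_true, one_ne_zero, if_false] using this
  · intro h v
    simp only [lqLaw, MTerm.eval, MTerm.eval_pow]
    exact h _ _

end Pool.Agent.Hhelper12.MG
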