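import Pool.Agent.Hhelper12.MG.Cuts
import Pool.Agent.Hhelper12.MG.Terms

/-!
# An m-group which is not normal-valued violates every law that fails in some m-group
-/

set_option autoImplicit false
set_option linter.unusedSectionVars false
set_option linter.unnecessarySimpa false
set_option linter.unusedVariables false
set_option linter.style.haveILetI false

namespace Pool.Agent.Hhelper12.MG

open MGroup

section Holland

variable {B : Type} [MGroup B] {M : Subgroup B} {b β : B}

theorem clt_max_or (hM : IsPrimeC M) {x y z : B} (hx : clt M x z) (hy : clt M y z) :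
    clt M (x ⊔ y) z := by
  rcases cle_total hM x y with h | h
  · exact cle.trans_clt hM.conv ((ceq_sup_of_cle hM.conv h).le hM.conv) hy
  · exact cle.trans_clt hM.conv ((ceq_sup_of_cle' hM.conv h).le hM.conv) hx

/-- the translates of a cut attached to the points -/
def sig (g1 : B) (C1 : Set B) (g : B) : Set B := {x | x * star (g⁻¹ * g1) ∈ C1}

theorem sig_low (hM : IsConv M) {g1 : B} {C1 : Set B} (hC : IsLow M C1) (g : B) :
    IsLow M (sig g1 C1 g) := fun x hx y hy => hC _ hx _ ((cle_mul_right _).mpr hy)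

theorem sig_self {g1 : B} {C1 : Set B} : sig g1 C1 g1 = C1 := by
  ext x
  show x * star (g1⁻¹ * g1) ∈ C1 ↔ _
  rw [inv_mul_cancel, star_one', mul_one]

/-- the data of a bad pair -/
structure Bad (M : Subgroup B) (b β a0 b0 g1 : B) (C1 : Set B) : Prop where
  good : Good M b β
  a0_mem : a0 ∈ cover M b
  b0_mem : b0 ∈ cover M b
  g1_mem : g1 ∈ cover M b
  lt1 : clt M 1 a0
  lt2 : clt M b0 β
  a0g : cle M a0 g1
  gb0 : cle M g1 b0
  low : IsLow M C1
  inC : a0 ∈ C1
  outC : b0 ∉ C1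
  st : stP (cj M g1) ≤ stab C1

theorem stP_cover_eq (hG : Good M b β) {g : B} (hg : g ∈ cover M b) {C : Set B}
    (hC : IsLow M C) {α δ : B} (hα : α ∈ cover M b) (hδ : δ ∈ cover M b) (hαC : α ∈ C)
    (hδC : δ ∉ C) (hst : stP (cj M g) ≤ stab C) : stP (cover M b) = cover M b := by
  have hH := isConv_cover M b
  have h1 : stab C ≤ cover M b := stab_le_cover hG.val hC hα hδ hαC hδC
  have h2 : stP (cj M g) ≤ cover M b := hst.trans h1
  have h3 : stP (cj M g) ≤ stP (cover M b) := by
    apply stP_mono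
    have := cj_mono (le_cover M b) g
    rwa [cj_of_mem hg] at this
  have hprime : IsPrimeC (stP (cj M g)) := by
    refine ⟨(hG.val.conv.cj g).stP, ?_⟩
    intro x y hxy
    have h4 : (star x)⁻¹ ⊓ (star y)⁻¹ = 1 := by
      rw [← inv_sup, ← MGroup.star_inf, hxy, star_one', inv_one]
    rcases (hG.val.prime.cj g).prime _ _ h4 with h5 | h5
    · exact Or.inl (mem_stP.mpr (by simpa using inv_mem h5))
    · exact Or.inr (mem_stP.mpr (by simpa using inv_mem h5))
  rcases hprime.chain hH hH.stP h2 h3 with h4 | h4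
  · apply le_antisymm _ h4
    have := stP_mono h4
    rwa [stP_stP] at this
  · apply le_antisymm h4
    have := stP_mono h4
    rwa [stP_stP] at this

/-- the stabiliser of a bad cut -/
theorem stab_eq_stP (hG : Good M b β) {g : B} (hg : g ∈ cover M b) {C : Set B}
    (hC : IsLow M C) {α δ : B} (hα : α ∈ cover M b) (hδ : δ ∈ cover M b) (hαC : α ∈ C)
    (hδC : δ ∉ C) (hst : stP (cj M g) ≤ stab C) : stab C = stP (cj M g) := by
  by_contra hne
  have hH := stP_cover_eq hG hg hC hα hδ hαC hδC hst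
  apply stab_proper hC hα hδ hαC hδC
  have h1 : cj M g < stP (stab C) := by
    refine lt_of_le_of_ne ?_ ?_
    · have := stP_mono hst
      rwa [stP_stP] at this
    · intro h
      apply hne
      rw [h, stP_stP]
  have h2 := val_cj_max hG.val hg (stab_conv hG.val.prime hC).stP h1
  have h3 := stP_mono h2
  rwa [stP_stP, hH] at h3

section BadLemmas

variable {a0 b0 g1 : B} {C1 : Set B}

theorem Bad.cover_star (hB : Bad M b β a0 b0 g1 C1) : stP (cover M b) = cover M b :=
  stP_cover_eq hB.good hB.g1_mem hB.low hB.a0_mem hB.b0_mem hB.inC hB.outC hB.st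

theorem Bad.stab_eq (hB : Bad M b β a0 b0 g1 C1) : stab C1 = stP (cj M g1) :=
  stab_eq_stP hB.good hB.g1_mem hB.low hB.a0_mem hB.b0_mem hB.inC hB.outC hB.st

theorem Bad.star_mem (hB : Bad M b β a0 b0 g1 C1) {x : B} (hx : x ∈ cover M b) :
    star x ∈ cover M b := by
  have := hB.cover_star
  rw [← mem_stP, this]
  exact hx

theorem Bad.one_lt_b0 (hB : Bad M b β a0 b0 g1 C1) : clt M a0 b0 := by
  intro h
  exact hB.outC (hB.low _ hB.inC _ h)

/-- `sig` reverses the order -/
theorem Bad.sig_anti (hB : Bad M b β a0 b0 g1 C1) {g g' : B} (h : cle M g g') :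
    sig g1 C1 g' ⊆ sig g1 C1 g := by
  have hMc := hB.good.val.conv
  rw [cle_iff hMc] at h
  obtain ⟨μ, hμ, hle⟩ := h
  intro x hx
  have h1 : g'⁻¹ * μ⁻¹ * g1 ≤ g⁻¹ * g1 := by
    apply mul_le_mul_left
    rw [← mul_inv_rev, inv_le_inv_iff]
    exact hle
  have h2 := star_anti h1
  have h3 : g'⁻¹ * μ⁻¹ * g1 = (g'⁻¹ * g1) * (g1⁻¹ * μ⁻¹ * g1) := by group
  rw [h3, MGroup.star_mul (g'⁻¹ * g1) (g1⁻¹ * μ⁻¹ * g1)] at h2
  have h4 : star (g1⁻¹ * μ⁻¹ * g1) ∈ stab C1 := by
    apply hB.st
    rw [mem_stP, MGroup.star_star, mem_cj]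
    have : g1 * (g1⁻¹ * μ⁻¹ * g1) * g1⁻¹ = μ⁻¹ := by group
    rw [this]
    exact inv_mem hμ
  have h5 : x * star (g'⁻¹ * g1) * star (g1⁻¹ * μ⁻¹ * g1) ∈ C1 := (h4 _).mp hx
  apply hB.low _ h5
  apply cle_of_le hMc
  rw [mul_assoc]
  exact mul_le_mul_right h2 x

theorem Bad.stab_sig (hB : Bad M b β a0 b0 g1 C1) (g : B) :
    stab (sig g1 C1 g) = stP (cj M g) := by
  have key : ∀ u : B, u ∈ stab (sig g1 C1 g) ↔
      (star (g⁻¹ * g1))⁻¹ * u * star (g⁻¹ * g1) ∈ stab C1 := by
    intro u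
    constructor
    · intro h x
      have := h (x * (star (g⁻¹ * g1))⁻¹)
      simp only [sig, Set.mem_ofPred_eq, inv_mul_cancel_right] at this
      rw [this]
      have e : x * (star (g⁻¹ * g1))⁻¹ * u * star (g⁻¹ * g1) =
        x * ((star (g⁻¹ * g1))⁻¹ * u * star (g⁻¹ * g1)) := by group
      rw [e]
    · intro h x
      have := h (x * star (g⁻¹ * g1))
      simp only [sig, Set.mem_ofPred_eq]
      rw [this]
      have e : x * star (g⁻¹ * g1) * ((star (g⁻¹ * g1))⁻¹ * u * star (g⁻¹ * g1)) =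
        x * u * star (g⁻¹ * g1) := by group
      rw [e]
  ext u
  rw [key, hB.stab_eq, mem_stP, mem_stP, MGroup.star_mul, MGroup.star_mul, star_inv',
    MGroup.star_star, mem_cj, mem_cj]
  have e : g1 * ((g⁻¹ * g1)⁻¹ * star u * (g⁻¹ * g1)) * g1⁻¹ = g * star u * g⁻¹ := by group
  rw [e]

/-- a positive element of a point stabiliser outside the stabiliser of the bad cut -/
theorem exists_pos_not_stab {C : Set B} (hG : Good M b β) (hC : IsLow M C) {f : B}
    (h : ¬ cj M f ≤ stab C) : ∃ m ∈ cj M f, 1 ≤ m ∧ m ∉ stab C := by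
  obtain ⟨x, hx, hxs⟩ := SetLike.not_le_iff_exists.mp h
  exact exists_pos_not_normalizer (hG.val.conv.cj f) hx hxs

theorem Bad.cont1 (hB : Bad M b β a0 b0 g1 C1) :
    ∃ c ∈ cover M b, clt M g1 c ∧ (1 : B) ∈ sig g1 C1 c := by
  have hMc := hB.good.val.conv
  have hMp := hB.good.val.prime
  have h1 : ¬ cj M 1 ≤ stab C1 := by
    intro h
    have := (hB.good.g1 (one_mem _) hB.a0_mem hB.b0_mem (cle_refl hMc 1)
      (hB.good.lt.le hMp) (hB.lt1.le hMp) (hB.lt2.le hMp) hB.low hB.inC hB.outC h).1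
    exact hB.lt1 this
  obtain ⟨m, hm, hm1, hms⟩ := exists_pos_not_stab hB.good hB.low h1
  rw [cj_one] at hm
  refine ⟨g1 * (star m)⁻¹, mul_mem hB.g1_mem (inv_mem (hB.star_mem (le_cover M b hm))), ?_, ?_⟩
  · apply clt_of_cle_not_ceq hMc
    · exact cle_of_le hMc (le_mul_of_one_le_right' (one_le_inv'.mpr (star_le_one hm1)))
    · intro h
      apply hms
      rw [hB.stab_eq, mem_stP, mem_cj]
      unfold ceq at h
      rwa [show g1 * (g1 * (star m)⁻¹)⁻¹ = g1 * star m * g1⁻¹ by group] at h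
  · show 1 * star ((g1 * (star m)⁻¹)⁻¹ * g1) ∈ C1
    rw [show (g1 * (star m)⁻¹)⁻¹ * g1 = star m by group, MGroup.star_star, one_mul]
    apply hB.low _ hB.inC
    exact ((ceq_one.mpr hm).le hMc).trans hMc (hB.lt1.le hMp)

theorem Bad.cont2 (hB : Bad M b β a0 b0 g1 C1) :
    ∃ c ∈ cover M b, clt M c g1 ∧ β ∉ sig g1 C1 c := by
  have hMc := hB.good.val.conv
  have hMp := hB.good.val.prime
  have h1 : ¬ cj M β ≤ stab C1 := by
    intro h
    have := (hB.good.g1 hB.good.mem hB.a0_mem hB.b0_mem (hB.good.lt.le hMp)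
      (cle_refl hMc β) (hB.lt1.le hMp) (hB.lt2.le hMp) hB.low hB.inC hB.outC h).2
    exact hB.lt2 this
  obtain ⟨m, hm, hm1, hms⟩ := exists_pos_not_stab hB.good hB.low h1
  have hmH : m ∈ cover M b := by
    have := cj_mono (le_cover M b) β hm
    rwa [cj_of_mem hB.good.mem] at this
  refine ⟨g1 * star m, mul_mem hB.g1_mem (hB.star_mem hmH), ?_, ?_⟩
  · apply clt_of_cle_not_ceq hMc
    · exact cle_of_le hMc (mul_le_of_le_one_right' (star_le_one hm1))
    · intro h
      apply hms
      rw [hB.stab_eq, mem_stP, mem_cj]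
      unfold ceq at h
      exact h
  · show ¬ β * star ((g1 * star m)⁻¹ * g1) ∈ C1
    rw [show (g1 * star m)⁻¹ * g1 = (star m)⁻¹ by group, star_inv', MGroup.star_star]
    intro h
    apply hB.outC
    apply hB.low _ h
    have h2 : ceq M (β * m⁻¹) β := by
      have := (cj M β).inv_mem hm
      rw [mem_cj] at this
      exact this
    exact (hB.lt2.le hMp).trans hMc (h2.symm.le hMc)

end BadLemmas

/-- the interval without bad pairs -/
structure Nice (M : Subgroup B) (b β a' b' : B) : Prop where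
  good : Good M b β
  a_mem : a' ∈ cover M b
  b_mem : b' ∈ cover M b
  one_le : cle M 1 a'
  lt : clt M a' b'
  le : cle M b' β
  g2 : ∀ g ∈ cover M b, cle M a' g → cle M g b' → ∀ C : Set B, IsLow M C → a' ∈ C → b' ∉ C →
    ¬ stP (cj M g) ≤ stab C

theorem exists_nice (hG : Good M b β) : ∃ a' b' : B, Nice M b β a' b' := by
  have hMc := hG.val.conv
  have hMp := hG.val.prime
  have dense := fun {x y : B} (hx : x ∈ cover M b) (hy : y ∈ cover M b) (h : clt M x y) =>
    block_dense hG.val hG.not_normal hx hy h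
  obtain ⟨a0, ha0, h1a, haβ⟩ := dense (one_mem _) hG.mem hG.lt
  obtain ⟨b0, hb0, hab, hbβ⟩ := dense ha0 hG.mem haβ
  by_cases hbad : ∃ g ∈ cover M b, cle M a0 g ∧ cle M g b0 ∧ ∃ C : Set B, IsLow M C ∧ a0 ∈ C ∧
      b0 ∉ C ∧ stP (cj M g) ≤ stab C
  · obtain ⟨g1, hg1, hag, hgb, C1, hC1, haC, hbC, hst⟩ := hbad
    have hB : Bad M b β a0 b0 g1 C1 :=
      ⟨hG, ha0, hb0, hg1, h1a, hbβ, hag, hgb, hC1, haC, hbC, hst⟩
    by_cases hgC : g1 ∈ C1
    · -- move to the left
      obtain ⟨c, hc, hcg, hcσ⟩ := hB.cont2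
      -- `a' = c ⊔ 1`
      have ha'H : c ⊔ 1 ∈ cover M b := (isConv_cover M b).pos_mem hc
      have h1g : clt M 1 g1 := h1a.trans_cle hMc hag
      have ha'g : clt M (c ⊔ 1) g1 := clt_max_or hMp hcg h1g
      have ha'1 : cle M 1 (c ⊔ 1) := cle_of_le hMc le_sup_right
      have hσ : β ∉ sig g1 C1 (c ⊔ 1) := fun h =>
        hcσ (hB.sig_anti (cle_of_le hMc le_sup_left) h)
      obtain ⟨b', hb', hab', hb'g⟩ := dense ha'H hg1 ha'g
      have hb'β : cle M b' β :=
        (hb'g.le hMp).trans hMc (hgb.trans hMc (hbβ.le hMp))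
      refine ⟨c ⊔ 1, b', hG, ha'H, hb', ha'1, hab', hb'β, ?_⟩
      intro g hg hag' hgb' C hC haC' hbC' hst'
      have hgC' : g1 ∈ sig g1 C1 g := by
        have h2 : cle M g g1 := hgb'.trans hMc (hb'g.le hMp)
        apply hB.sig_anti h2
        rw [sig_self]
        exact hgC
      have e1 : stab C ≤ stab (sig g1 C1 g) := by
        rw [hB.stab_sig g]
        exact (stab_eq_stP hG hg hC ha'H hb' haC' hbC' hst').le
      have h1C : (1 : B) ∈ C := hC _ haC' 1 ha'1
      have hβσ : β ∉ sig g1 C1 g := fun h => hσ (hB.sig_anti hag' h)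
      exact hG.uniq hC (sig_low hMc hC1 g) e1 h1C hβσ
        (sig_low hMc hC1 g _ hgC' b' (hb'g.le hMp)) hgC' hbC' hb'g
    · -- move to the right
      obtain ⟨c, hc, hcg, hcσ⟩ := hB.cont1
      have hgβ : clt M g1 β := cle.trans_clt hMc hgb hbβ
      -- choose `b'` between `g1` and `min c β`
      obtain ⟨c', hc', hgc', hcc', hc'β⟩ : ∃ c' ∈ cover M b, clt M g1 c' ∧ cle M c' c ∧
          cle M c' β := by
        rcases cle_total hMp c β with h | h
        · exact ⟨c, hc, hcg, cle_refl hMc c, h⟩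
        · exact ⟨β, hG.mem, hgβ, h, cle_refl hMc β⟩
      have hσ : (1 : B) ∈ sig g1 C1 c' := hB.sig_anti hcc' hcσ
      obtain ⟨a', ha', hga', ha'c'⟩ := dense hg1 hc' hgc'
      have ha'1 : cle M 1 a' :=
        (h1a.le hMp).trans hMc (hag.trans hMc (hga'.le hMp))
      refine ⟨a', c', hG, ha', hc', ha'1, ha'c', hc'β, ?_⟩
      intro g hg hag' hgb' C hC haC' hbC' hst'
      have e1 : stab (sig g1 C1 g) ≤ stab C := by
        rw [hB.stab_sig g]
        exact hst'
      have h1σ : (1 : B) ∈ sig g1 C1 g := hB.sig_anti hgb' hσ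
      have hgσ : g1 ∉ sig g1 C1 g := by
        intro h
        apply hgC
        have h2 : cle M g1 g := (hga'.le hMp).trans hMc hag'
        have h3 := hB.sig_anti h2 h
        rwa [sig_self] at h3
      have hβC : β ∉ C := fun h => hbC' (hC β h _ hc'β)
      exact hG.uniq (sig_low hMc hC1 g) hC e1 h1σ hβC (hC _ haC' g1 (hga'.le hMp)) haC'
        hgσ hga'
  · push Not at hbad
    refine ⟨a0, b0, hG, ha0, hb0, h1a.le hMp, hab, hbβ.le hMp, ?_⟩
    intro g hg h1 h2 C hC h3 h4
    exact hbad g hg h1 h2 C hC h3 h4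

/-- moving one point -/
theorem Nice.move {a' b' : B} (hN : Nice M b β a' b') {F K : List B}
    (hF : ∀ f ∈ F, f ∈ cover M b ∧ cle M 1 f ∧ cle M f β)
    (hK : ∀ g ∈ K, g ∈ cover M b ∧ cle M a' g ∧ cle M g b')
    {α δ : B} (hα : α ∈ cover M b) (hδ : δ ∈ cover M b) (haα : cle M a' α) (hδb : cle M δ b')
    (hlt : clt M α δ) (hsep : ∀ f ∈ F, ¬ (cle M α f ∧ cle M f δ)) :
    ∃ s : B, (∀ f ∈ F, s ∈ cj M f) ∧ (∀ g ∈ K, s ∈ stP (cj M g)) ∧ ceq M (α * s) δ := by
  have hG := hN.good
  have hMc := hG.val.conv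
  have hMp := hG.val.prime
  let L : List (Subgroup B) := F.map (fun f => cj M f) ++ K.map (fun g => stP (cj M g))
  have hLconv : ∀ D ∈ L, IsConv D := by
    intro D hD
    rcases List.mem_append.mp hD with hD | hD
    · obtain ⟨f, -, rfl⟩ := List.mem_map.mp hD
      exact hMc.cj f
    · obtain ⟨f, -, rfl⟩ := List.mem_map.mp hD
      exact (hMc.cj f).stP
  let C : Set B := {x | ∃ s, (∀ D ∈ L, s ∈ D) ∧ cle M x (α * s)}
  have hC : IsLow M C := by
    rintro x ⟨s, hs, hx⟩ y hy
    exact ⟨s, hs, hy.trans hMc hx⟩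
  have hαC : α ∈ C := ⟨1, fun D _ => D.one_mem, by rw [mul_one]; exact cle_refl hMc α⟩
  have hSC : ∀ s, (∀ D ∈ L, s ∈ D) → s ∈ stab C := by
    have key : ∀ s, (∀ D ∈ L, s ∈ D) → ∀ x ∈ C, x * s ∈ C := by
      rintro s hs x ⟨s', hs', hx⟩
      refine ⟨s' * s, fun D hD => D.mul_mem (hs' D hD) (hs D hD), ?_⟩
      rw [← mul_assoc]
      exact (cle_mul_right s).mpr hx
    intro s hs x
    constructor
    · exact key s hs x
    · intro h
      have := key s⁻¹ (fun D hD => D.inv_mem (hs D hD)) _ h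
      rwa [mul_inv_cancel_right] at this
  by_cases hδC : δ ∈ C
  · obtain ⟨s, hs, hδs⟩ := hδC
    have hs' : ∀ D ∈ L, s ⊔ 1 ∈ D := fun D hD => (hLconv D hD).pos_mem (hs D hD)
    have hδs' : cle M δ (α * (s ⊔ 1)) :=
      hδs.trans hMc (cle_of_le hMc (mul_le_mul_right le_sup_left α))
    set k := (α⁻¹ * δ) ⊔ 1 with hk
    have hαk : ceq M (α * k) δ := by
      rw [hk, mul_sup, mul_inv_cancel_left, mul_one]
      exact ceq_sup_of_cle' hMc (hlt.le hMp)
    have h1 : (1 : B) ≤ (s ⊔ 1) ⊓ k := le_inf le_sup_right le_sup_right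
    refine ⟨(s ⊔ 1) ⊓ k, ?_, ?_, ?_⟩
    · intro f hf
      have hD : cj M f ∈ L := List.mem_append_left _ (List.mem_map.mpr ⟨f, hf, rfl⟩)
      exact (hLconv _ hD).mem_of_le h1 inf_le_left (hs' _ hD)
    · intro g hg
      have hD : stP (cj M g) ∈ L := List.mem_append_right _ (List.mem_map.mpr ⟨g, hg, rfl⟩)
      exact (hLconv _ hD).mem_of_le h1 inf_le_left (hs' _ hD)
    · rw [mul_inf]
      have h2 : cle M (α * k) (α * (s ⊔ 1)) := (hαk.le hMc).trans hMc hδs'
      exact (ceq_inf_of_cle' hMc h2).trans hαk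
  · exfalso
    have hprime := stab_prime hMp hC
    have hproper := stab_proper hC hα hδ hαC hδC
    obtain ⟨F0, -, hF0⟩ := SetLike.not_le_iff_exists.mp hproper
    have hF0' : |F0|ₘ ∉ stab C := fun h => hF0 (hprime.conv.mabs_mem_iff.mp h)
    have haC : a' ∈ C := hC α hαC a' haα
    have hbC : b' ∉ C := fun h => hδC (hC b' h δ hδb)
    obtain ⟨h, -, -, hh, hhD⟩ := separation hprime hF0' (one_le_mabs F0) L (by
      intro D hD
      refine ⟨hLconv D hD, ?_⟩
      intro hle
      rcases List.mem_append.mp hD with hD | hD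
      · obtain ⟨f, hf, rfl⟩ := List.mem_map.mp hD
        obtain ⟨hfH, hf1, hfβ⟩ := hF f hf
        exact hsep f hf (hG.g1 hfH hα hδ hf1 hfβ (hN.one_le.trans hMc haα)
          (hδb.trans hMc hN.le) hC hαC hδC hle)
      · obtain ⟨g, hg, rfl⟩ := List.mem_map.mp hD
        obtain ⟨hgH, hag, hgb⟩ := hK g hg
        exact hN.g2 g hgH hag hgb C hC haC hbC hle)
    exact hh (hSC h hhD)

/-- increasing sequences of points in the block -/
theorem exists_seq (hG : Good M b β) {a' b' : B} (ha' : a' ∈ cover M b) (hb' : b' ∈ cover M b)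
    (hlt : clt M a' b') (N : ℕ) :
    ∃ γ : ℕ → B, (∀ i ≤ N, γ i ∈ cover M b ∧ clt M a' (γ i) ∧ clt M (γ i) b') ∧
      ∀ i j, i < j → j ≤ N → clt M (γ i) (γ j) := by
  have hMc := hG.val.conv
  have hMp := hG.val.prime
  have dense := fun {x y : B} (hx : x ∈ cover M b) (hy : y ∈ cover M b) (h : clt M x y) =>
    block_dense hG.val hG.not_normal hx hy h
  induction N with
  | zero =>
    obtain ⟨c, hc, h1, h2⟩ := dense ha' hb' hlt
    refine ⟨fun _ => c, fun _ _ => ⟨hc, h1, h2⟩, ?_⟩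
    intro i j hij hj
    omega
  | succ N ih =>
    obtain ⟨γ, hγ, hγlt⟩ := ih
    obtain ⟨hN1, hN2, hN3⟩ := hγ N le_rfl
    obtain ⟨c, hc, h1, h2⟩ := dense hN1 hb' hN3
    refine ⟨fun i => if i ≤ N then γ i else c, ?_, ?_⟩
    · intro i hi
      by_cases h : i ≤ N
      · simp only [if_pos h]
        exact hγ i h
      · simp only [if_neg h]
        exact ⟨hc, hN2.trans hMp h1, h2⟩
    · intro i j hij hj
      by_cases h : j ≤ N
      · have hi : i ≤ N := by omega
        simp only [if_pos h, if_pos hi]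
        exact hγlt i j hij h
      · have hi : i ≤ N := by omega
        simp only [if_neg h, if_pos hi]
        rcases Nat.lt_or_ge i N with h3 | h3
        · exact (hγlt i N h3 le_rfl).trans hMp h1
        · have : i = N := by omega
          rw [this]
          exact h1

/-- moving finitely many points simultaneously -/
theorem Nice.move_many {a' b' : B} (hN : Nice M b β a' b') {N : ℕ} {γ : ℕ → B}
    (hγ : ∀ i ≤ N, γ i ∈ cover M b ∧ clt M a' (γ i) ∧ clt M (γ i) b')
    (hγlt : ∀ i j, i < j → j ≤ N → clt M (γ i) (γ j)) (R : Finset (ℕ × ℕ)) :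
    (∀ p ∈ R, p.1 ≤ N ∧ p.2 ≤ N) → (∀ p ∈ R, ∀ q ∈ R, (p.1 < q.1 ↔ p.2 < q.2)) →
    ∃ x : B, (∀ p ∈ R, ceq M (γ p.1 * x) (γ p.2)) ∧ ceq M (a' * x) a' ∧ ceq M (b' * x) b' ∧
      ∀ i ≤ N, ceq M (γ i * star x) (γ i) := by
  have hG := hN.good
  have hMc := hG.val.conv
  have hMp := hG.val.prime
  have hH := isConv_cover M b
  induction R using Finset.induction_on_max_value (fun p : ℕ × ℕ => p.1) with
  | empty =>
    intro _ _
    refine ⟨1, by simp, ?_, ?_, ?_⟩
    · rw [mul_one]; exact ceq_refl _ _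
    · rw [mul_one]; exact ceq_refl _ _
    · intro i _
      rw [star_one', mul_one]; exact ceq_refl _ _
  | insert p s hps hmax ih =>
    intro hR hord
    obtain ⟨x, hx, hxa, hxb, hxs⟩ := ih (fun q hq => hR q (Finset.mem_insert_of_mem hq))
      (fun q hq q' hq' => hord q (Finset.mem_insert_of_mem hq) q' (Finset.mem_insert_of_mem hq'))
    have hpm : p ∈ insert p s := Finset.mem_insert_self p s
    obtain ⟨hp1, hp2⟩ := hR p hpm
    have hlt : ∀ q ∈ s, q.1 < p.1 ∧ q.2 < p.2 := by
      intro q hq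
      have hqm : q ∈ insert p s := Finset.mem_insert_of_mem hq
      have h1 := hmax q hq
      rcases Nat.lt_or_ge q.1 p.1 with h2 | h2
      · exact ⟨h2, (hord q hqm p hpm).mp h2⟩
      · exfalso
        have h3 : q.1 = p.1 := le_antisymm h1 h2
        have h4 : ¬ q.2 < p.2 := fun h => by
          have := (hord q hqm p hpm).mpr h
          omega
        have h5 : ¬ p.2 < q.2 := fun h => by
          have := (hord p hpm q hqm).mpr h
          omega
        apply hps
        have : q = p := Prod.ext h3 (by omega)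
        rw [← this]
        exact hq
    obtain ⟨hγ1, hγ2, hγ3⟩ := hγ p.1 hp1
    obtain ⟨hδ1, hδ2, hδ3⟩ := hγ p.2 hp2
    set α := γ p.1 * x with hα
    have haα : clt M a' α := by
      have := (clt_mul_right x).mpr hγ2
      exact cle.trans_clt hMc (hxa.symm.le hMc) this
    have hαb : clt M α b' := by
      have := (clt_mul_right x).mpr hγ3
      exact clt.trans_cle hMc this (hxb.le hMc)
    -- `α` lies in the block
    have hαH' : ∃ α' ∈ cover M b, ceq M α' α := by
      -- `α ≤ μ b'` and `a' ≤ μ' α`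
      have h1 := haα.le hMp
      have h2 := hαb.le hMp
      rw [cle_iff hMc] at h1 h2
      obtain ⟨μ, hμ, h1⟩ := h1
      obtain ⟨ν, hν, h2⟩ := h2
      refine ⟨μ * α, ?_, ceq_mul_left_mem hμ⟩
      apply hH.between h1 (z := μ * (ν * b'))
      · exact mul_le_mul_right h2 μ
      · exact hN.a_mem
      · exact mul_mem (le_cover M b hμ) (mul_mem (le_cover M b hν) hN.b_mem)
    obtain ⟨α', hα'H, hα'⟩ := hαH'
    -- the points to be fixed
    let F : List B := a' :: b' :: (s.toList.map (fun q => γ q.2))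
    let K : List B := (List.range (N + 1)).map γ
    have haβ : cle M a' β := (hN.lt.le hMp).trans hMc hN.le
    have hF : ∀ f ∈ F, f ∈ cover M b ∧ cle M 1 f ∧ cle M f β := by
      intro f hf
      simp only [F, List.mem_cons, List.mem_map, Finset.mem_toList] at hf
      rcases hf with rfl | rfl | ⟨q, hq, rfl⟩
      · exact ⟨hN.a_mem, hN.one_le, haβ⟩
      · exact ⟨hN.b_mem, hN.one_le.trans hMc (hN.lt.le hMp), hN.le⟩
      · obtain ⟨h1, h2, h3⟩ := hγ q.2 (hR q (Finset.mem_insert_of_mem hq)).2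
        exact ⟨h1, hN.one_le.trans hMc (h2.le hMp), (h3.le hMp).trans hMc hN.le⟩
    have hK : ∀ g ∈ K, g ∈ cover M b ∧ cle M a' g ∧ cle M g b' := by
      intro g hg
      simp only [K, List.mem_map, List.mem_range] at hg
      obtain ⟨i, hi, rfl⟩ := hg
      obtain ⟨h1, h2, h3⟩ := hγ i (by omega)
      exact ⟨h1, h2.le hMp, h3.le hMp⟩
    -- points of `s` stay below
    have hbelow : ∀ q ∈ s, clt M (γ q.2) α ∧ clt M (γ q.2) (γ p.2) := by
      intro q hq
      obtain ⟨h1, h2⟩ := hlt q hq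
      refine ⟨?_, hγlt _ _ h2 hp2⟩
      have h3 := (clt_mul_right x).mpr (hγlt _ _ h1 hp1)
      exact cle.trans_clt hMc ((hx q hq).symm.le hMc) h3
    have hsep : ∀ u v : B, clt M a' u → clt M v b' → (∀ q ∈ s, clt M (γ q.2) u) →
        ∀ f ∈ F, ¬ (cle M u f ∧ cle M f v) := by
      intro u v hu hv huq f hf
      simp only [F, List.mem_cons, List.mem_map, Finset.mem_toList] at hf
      rintro ⟨h1, h2⟩
      rcases hf with rfl | rfl | ⟨q, hq, rfl⟩
      · exact hu h1
      · exact hv h2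
      · exact huq q hq h1
    -- the correcting element
    obtain ⟨t, htF, htK, htα⟩ : ∃ t : B, (∀ f ∈ F, t ∈ cj M f) ∧ (∀ g ∈ K, t ∈ stP (cj M g)) ∧
        ceq M (α * t) (γ p.2) := by
      rcases cle_total hMp α (γ p.2) with h1 | h1
      · by_cases h2 : ceq M α (γ p.2)
        · refine ⟨1, fun f _ => one_mem _, fun g _ => one_mem _, ?_⟩
          rwa [mul_one]
        · have h3 : clt M α' (γ p.2) :=
            cle.trans_clt hMc (hα'.le hMc) (clt_of_cle_not_ceq hMc h1 h2)
          obtain ⟨t, ht1, ht2, ht3⟩ := hN.move hF hK hα'H hδ1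
            ((haα.le hMp).trans hMc (hα'.symm.le hMc)) (hδ3.le hMp) h3
            (hsep α' (γ p.2) (haα.trans_cle hMc (hα'.symm.le hMc)) hδ3
              (fun q hq => (hbelow q hq).1.trans_cle hMc (hα'.symm.le hMc)))
          exact ⟨t, ht1, ht2, ((ceq_mul_right t).mpr hα'.symm).trans ht3⟩
      · by_cases h2 : ceq M α (γ p.2)
        · refine ⟨1, fun f _ => one_mem _, fun g _ => one_mem _, ?_⟩
          rwa [mul_one]
        · have h3 : clt M (γ p.2) α' :=
            clt.trans_cle hMc (clt_of_cle_not_ceq hMc h1 (fun h => h2 h.symm))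
              (hα'.symm.le hMc)
          obtain ⟨t, ht1, ht2, ht3⟩ := hN.move hF hK hδ1 hα'H (hδ2.le hMp)
            ((hα'.le hMc).trans hMc (hαb.le hMp)) h3
            (hsep (γ p.2) α' hδ2 (cle.trans_clt hMc (hα'.le hMc) hαb)
              (fun q hq => (hbelow q hq).2))
          refine ⟨t⁻¹, fun f hf => inv_mem (ht1 f hf), fun g hg => inv_mem (ht2 g hg), ?_⟩
          have h4 : ceq M (γ p.2 * t) α := ht3.trans hα'
          have h5 := (ceq_mul_right t⁻¹).mpr h4
          rw [mul_inv_cancel_right] at h5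
          exact h5.symm
    have hfixF : ∀ f ∈ F, ceq M (f * t) f := fun f hf => mem_cj.mp (htF f hf)
    refine ⟨x * t, ?_, ?_, ?_, ?_⟩
    · intro q hq
      rcases Finset.mem_insert.mp hq with rfl | hq
      · rw [← mul_assoc]
        exact htα
      · rw [← mul_assoc]
        exact ((ceq_mul_right t).mpr (hx q hq)).trans (hfixF _ (by
          simp only [F, List.mem_cons, List.mem_map, Finset.mem_toList]
          exact Or.inr (Or.inr ⟨q, hq, rfl⟩)))
    · rw [← mul_assoc]
      exact ((ceq_mul_right t).mpr hxa).trans (hfixF _ (by simp [F]))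
    · rw [← mul_assoc]
      exact ((ceq_mul_right t).mpr hxb).trans (hfixF _ (by simp [F]))
    · intro i hi
      rw [MGroup.star_mul, ← mul_assoc]
      have h1 : t ∈ stP (cj M (γ i)) := htK _ (by
        simp only [K, List.mem_map, List.mem_range]
        exact ⟨i, by omega, rfl⟩)
      rw [mem_stP, mem_cj] at h1
      exact ((ceq_mul_right (star t)).mpr (hxs i hi)).trans h1

end Holland

/-- a group which is not normal-valued simulates every finite piece of every m-group -/
theorem msim_of_not_NV {A B : Type} [MGroup A] [MGroup B] (hB : ¬ NV B) {Q : Subgroup A}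
    (hQ : IsPrimeC Q) (T : Finset A) :
    ∃ M : Subgroup B, IsPrimeC M ∧ MSim Q (T : Set A) M := by
  classical
  obtain ⟨M, b, β, hG⟩ := exists_good hB
  obtain ⟨a', b', hN⟩ := exists_nice hG
  have hMc := hG.val.conv
  have hMp := hG.val.prime
  obtain ⟨γ, hγ, hγlt⟩ := exists_seq hG hN.a_mem hN.b_mem hN.lt T.card
  refine ⟨M, hMp, ?_⟩
  -- rank of an element
  let rk : A → ℕ := fun g => (T.filter (fun h => clt Q h g)).card
  have hrk : ∀ g, rk g ≤ T.card := fun g => Finset.card_filter_le _ _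
  have hrklt : ∀ g ∈ T, ∀ h, clt Q g h → rk g < rk h := by
    intro g hg h hgh
    apply Finset.card_lt_card
    rw [Finset.ssubset_iff_of_subset]
    · exact ⟨g, Finset.mem_filter.mpr ⟨hg, hgh⟩, fun h' =>
        clt_irrefl hQ.conv g (Finset.mem_filter.mp h').2⟩
    · intro k hk
      rw [Finset.mem_filter] at hk ⊢
      exact ⟨hk.1, hk.2.trans hQ hgh⟩
  have hrkle : ∀ g h, cle Q g h → rk g ≤ rk h := by
    intro g h hgh
    apply Finset.card_le_card
    intro k hk
    rw [Finset.mem_filter] at hk ⊢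
    exact ⟨hk.1, hk.2.trans_cle hQ.conv hgh⟩
  have hrkiff : ∀ g ∈ T, ∀ h ∈ T, (rk g < rk h ↔ clt Q g h) := by
    intro g hg h hh
    constructor
    · intro hlt hcon
      have := hrkle h g hcon
      omega
    · exact hrklt g hg h
  have hγle : ∀ i j, i ≤ T.card → j ≤ T.card → (i ≤ j ↔ cle M (γ i) (γ j)) := by
    intro i j hi hj
    constructor
    · intro hij
      rcases Nat.lt_or_ge i j with h | h
      · exact (hγlt i j h hj).le hMp
      · have : i = j := by omega
        rw [this]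
        exact cle_refl hMc _
    · intro h
      by_contra hcon
      exact hγlt j i (by omega) hi h
  refine ⟨fun g => γ (rk g), ?_, ?_⟩
  · intro g hg h hh
    rw [← hγle _ _ (hrk g) (hrk h)]
    constructor
    · exact hrkle g h
    · intro hle
      by_contra hcon
      have := hrklt h hh g hcon
      omega
  · -- the moving elements
    have main : ∀ x : A, ∃ y : B, (∀ g ∈ T, g * x ∈ T → ceq M (γ (rk g) * y) (γ (rk (g * x)))) ∧
        ∀ i ≤ T.card, ceq M (γ i * star y) (γ i) := by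
      intro x
      let R : Finset (ℕ × ℕ) := (T.filter (fun g => g * x ∈ T)).image
        (fun g => (rk g, rk (g * x)))
      have hR : ∀ p, p ∈ R ↔ ∃ g ∈ T, g * x ∈ T ∧ p = (rk g, rk (g * x)) := by
        intro p
        simp only [R, Finset.mem_image, Finset.mem_filter]
        constructor
        · rintro ⟨g, ⟨h1, h2⟩, rfl⟩
          exact ⟨g, h1, h2, rfl⟩
        · rintro ⟨g, h1, h2, rfl⟩
          exact ⟨g, ⟨h1, h2⟩, rfl⟩
      obtain ⟨y, hy, -, -, hys⟩ := hN.move_many hγ hγlt R (by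
        intro p hp
        obtain ⟨g, -, -, rfl⟩ := (hR p).mp hp
        exact ⟨hrk g, hrk _⟩) (by
        intro p hp q hq
        obtain ⟨g, hg, hgx, rfl⟩ := (hR p).mp hp
        obtain ⟨h, hh, hhx, rfl⟩ := (hR q).mp hq
        simp only
        rw [hrkiff g hg h hh, hrkiff _ hgx _ hhx, clt_mul_right])
      exact ⟨y, fun g hg hgx => hy _ ((hR _).mpr ⟨g, hg, hgx, rfl⟩), hys⟩
    intro x
    obtain ⟨y, hy, hys⟩ := main x
    obtain ⟨z, hz, hzs⟩ := main (star x)
    refine ⟨y * star z, ?_⟩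
    intro g hg
    constructor
    · intro hgx
      rw [← mul_assoc]
      exact ((ceq_mul_right (star z)).mpr (hy g hg hgx)).trans (hzs _ (hrk _))
    · intro hgx
      rw [MGroup.star_mul, MGroup.star_star, ← mul_assoc]
      exact ((ceq_mul_right z).mpr (hys _ (hrk g))).trans (hz g hg hgx)

/-- an m-group which is not normal-valued violates every law that fails in some m-group -/
theorem fails_of_not_NV {A : Type} [MGroup A] {s t : MTerm} {v : ℕ → A}
    (h : s.eval v ≠ t.eval v) (B : Type) [MGroup B] (hB : ¬ NV B) :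
    ∃ w : ℕ → B, s.eval w ≠ t.eval w := by
  obtain ⟨Q, hQ, T, hT⟩ := fails_of_msim s t v h
  obtain ⟨M, hM, hsim⟩ := msim_of_not_NV hB hQ T
  exact hT B M hM hsim

end Pool.Agent.Hhelper12.MG
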