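import Mathlib

/-!
# Basic facts on (noncommutative) lattice-ordered groups
-/

set_option autoImplicit false
set_option linter.unusedSectionVars false
set_option linter.unnecessarySimpa false
set_option linter.unusedVariables false

namespace Pool.Agent.Hhelper12.MG

open scoped commutatorElement

section LG

variable {G : Type*} [Group G] [Lattice G] [MulLeftMono G] [MulRightMono G]

theorem mabs_conj (g x : G) : |g * x * g⁻¹|ₘ = g * |x|ₘ * g⁻¹ := by
  simp only [mabs, mul_sup, sup_mul, mul_inv_rev, inv_inv, mul_assoc]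

theorem sup_one_conj (g x : G) : g * x * g⁻¹ ⊔ 1 = g * (x ⊔ 1) * g⁻¹ := by
  simp only [mul_sup, sup_mul, mul_one, mul_inv_cancel]

theorem mabs_mul_le_nc (x y : G) : |x * y|ₘ ≤ |x|ₘ * |y|ₘ * |x|ₘ := by
  rw [mabs_le']
  have h1 : x * y ≤ |x|ₘ * |y|ₘ := mul_le_mul' (le_mabs_self x) (le_mabs_self y)
  constructor
  · exact h1.trans (le_mul_of_one_le_right' (one_le_mabs x))
  · rw [mul_inv_rev]
    have h2 : y⁻¹ * x⁻¹ ≤ |y|ₘ * |x|ₘ := mul_le_mul' (inv_le_mabs y) (inv_le_mabs x)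
    calc y⁻¹ * x⁻¹ ≤ |y|ₘ * |x|ₘ := h2
      _ ≤ |x|ₘ * (|y|ₘ * |x|ₘ) := le_mul_of_one_le_left' (one_le_mabs x)
      _ = _ := by rw [mul_assoc]

theorem inf_mul_le_nc {a b c : G} (ha : 1 ≤ a) (_hb : 1 ≤ b) (hc : 1 ≤ c) :
    (a * b) ⊓ c ≤ (a ⊓ c) * (b ⊓ c) := by
  rw [mul_inf, inf_mul, inf_mul]
  refine le_inf (le_inf inf_le_left ?_) (le_inf ?_ ?_)
  · exact inf_le_right.trans (le_mul_of_one_le_right' _hb)
  · exact inf_le_right.trans (le_mul_of_one_le_left' ha)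
  · exact inf_le_right.trans (le_mul_of_one_le_right' hc)

theorem mabs_eq_one {x : G} (h : |x|ₘ = 1) : x = 1 := by
  apply le_antisymm
  · rw [← h]; exact le_mabs_self x
  · rw [← inv_le_one', ← h]
    exact inv_le_mabs x

theorem sup_one_le_mabs (x : G) : x ⊔ 1 ≤ |x|ₘ := sup_le (le_mabs_self x) (one_le_mabs x)

theorem mabs_sup_one (x : G) : |x ⊔ 1|ₘ = x ⊔ 1 := mabs_of_one_le le_sup_right

/-- `x` is the quotient of its positive part by its negative part -/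
theorem pos_div_neg (x : G) : (x ⊔ 1) * (x⁻¹ ⊔ 1)⁻¹ = x := by
  have := oneLePart_div_leOnePart x
  rwa [oneLePart_def, leOnePart_def, div_eq_mul_inv] at this

theorem pos_inf_neg (x : G) : (x ⊔ 1) ⊓ (x⁻¹ ⊔ 1) = 1 := by
  have := oneLePart_inf_leOnePart_eq_one x
  rwa [oneLePart_def, leOnePart_def] at this

/-- disjoint elements -/
def Orth (x y : G) : Prop := |x|ₘ ⊓ |y|ₘ = 1

theorem Orth.symm {x y : G} (h : Orth x y) : Orth y x := by
  unfold Orth at *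
  rwa [inf_comm]

theorem orth_of_le {x y x' y' : G} (h : Orth x y) (hx : |x'|ₘ ≤ |x|ₘ) (hy : |y'|ₘ ≤ |y|ₘ) :
    Orth x' y' := by
  unfold Orth at *
  apply le_antisymm
  · exact (inf_le_inf hx hy).trans h.le
  · exact le_inf (one_le_mabs _) (one_le_mabs _)

theorem orth_one (x : G) : Orth 1 x := by
  unfold Orth
  rw [mabs_one]
  exact inf_of_le_left (one_le_mabs x)

theorem Orth.mul {x y z : G} (hx : Orth x z) (hy : Orth y z) : Orth (x * y) z := by
  unfold Orth at *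
  apply le_antisymm
  · calc |x * y|ₘ ⊓ |z|ₘ ≤ (|x|ₘ * |y|ₘ * |x|ₘ) ⊓ |z|ₘ := inf_le_inf_right _ (mabs_mul_le_nc x y)
      _ ≤ ((|x|ₘ * |y|ₘ) ⊓ |z|ₘ) * (|x|ₘ ⊓ |z|ₘ) :=
        inf_mul_le_nc (one_le_mul (one_le_mabs x) (one_le_mabs y)) (one_le_mabs x)
          (one_le_mabs z)
      _ ≤ ((|x|ₘ ⊓ |z|ₘ) * (|y|ₘ ⊓ |z|ₘ)) * (|x|ₘ ⊓ |z|ₘ) :=
        mul_le_mul_left (inf_mul_le_nc (one_le_mabs x) (one_le_mabs y) (one_le_mabs z)) _
      _ = 1 := by rw [hx, hy]; simp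
  · exact le_inf (one_le_mabs _) (one_le_mabs _)

theorem Orth.inv {x z : G} (hx : Orth x z) : Orth x⁻¹ z := by
  unfold Orth at *
  rwa [mabs_inv]

/-- the polar of an element as a subgroup -/
def polar (z : G) : Subgroup G where
  carrier := {x | Orth x z}
  one_mem' := orth_one z
  mul_mem' := fun hx hy => Orth.mul hx hy
  inv_mem' := fun hx => Orth.inv hx

theorem mem_polar {x z : G} : x ∈ polar z ↔ Orth x z := Iff.rfl

theorem Orth.pow {x z : G} (hx : Orth x z) (n : ℕ) : Orth (x ^ n) z :=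
  mem_polar.mp (pow_mem (mem_polar.mpr hx) n)

theorem Orth.zpow {x z : G} (hx : Orth x z) (n : ℤ) : Orth (x ^ n) z :=
  mem_polar.mp (zpow_mem (mem_polar.mpr hx) n)

theorem orth_conj {x y : G} (g : G) (h : Orth x y) : Orth (g * x * g⁻¹) (g * y * g⁻¹) := by
  unfold Orth at *
  rw [mabs_conj, mabs_conj, ← inf_mul, ← mul_inf, h]
  simp

/-- disjoint positive elements commute -/
theorem mul_comm_of_inf_eq_one {x y : G} (h : x ⊓ y = 1) : x * y = y * x := by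
  have key : ∀ x y : G, x ⊓ y = 1 → x * y = x ⊔ y := by
    intro x y h
    have h1 : x * (x ⊓ y)⁻¹ * y = x * y := by rw [h]; simp
    have h2 : x * (x ⊓ y)⁻¹ * y = y ⊔ x := by
      rw [inv_inf, mul_sup, sup_mul, mul_inv_cancel, one_mul, inv_mul_cancel_right]
    rw [← h1, h2, sup_comm]
  rw [key x y h, key y x (by rwa [inf_comm]), sup_comm]

theorem Orth.commute {x y : G} (h : Orth x y) : x * y = y * x := by
  have hx1 : Orth (x ⊔ 1) y := orth_of_le h (by rw [mabs_sup_one]; exact sup_one_le_mabs x) le_rfl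
  have hx2 : Orth (x⁻¹ ⊔ 1) y :=
    orth_of_le h (by rw [mabs_sup_one, ← mabs_inv x]; exact sup_one_le_mabs x⁻¹) le_rfl
  have key : ∀ u : G, 1 ≤ u → Orth u y → Commute u y := by
    intro u hu huy
    have h1 : Orth u (y ⊔ 1) :=
      orth_of_le huy le_rfl (by rw [mabs_sup_one]; exact sup_one_le_mabs y)
    have h2 : Orth u (y⁻¹ ⊔ 1) :=
      orth_of_le huy le_rfl (by rw [mabs_sup_one, ← mabs_inv y]; exact sup_one_le_mabs y⁻¹)
    have c1 : Commute u (y ⊔ 1) := by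
      apply mul_comm_of_inf_eq_one
      unfold Orth at h1
      rwa [mabs_sup_one, mabs_of_one_le hu] at h1
    have c2 : Commute u (y⁻¹ ⊔ 1) := by
      apply mul_comm_of_inf_eq_one
      unfold Orth at h2
      rwa [mabs_sup_one, mabs_of_one_le hu] at h2
    have := c1.mul_right c2.inv_right
    rwa [pos_div_neg] at this
  have c1 := key _ le_sup_right hx1
  have c2 := key _ le_sup_right hx2
  have := c1.mul_left c2.inv_left
  rw [pos_div_neg] at this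
  exact this

/-- Riesz decomposition -/
theorem riesz {x a b : G} (hx : 1 ≤ x) (ha : 1 ≤ a) (hb : 1 ≤ b) (h : x ≤ a * b) :
    ∃ y z, x = y * z ∧ 1 ≤ y ∧ y ≤ a ∧ 1 ≤ z ∧ z ≤ b := by
  refine ⟨x ⊓ a, (x ⊓ a)⁻¹ * x, by simp, le_inf hx ha, inf_le_right, ?_, ?_⟩
  · rw [le_inv_mul_iff_mul_le, mul_one]
    exact inf_le_left
  · rw [inv_inf, sup_mul, inv_mul_cancel]
    exact sup_le hb (by rwa [inv_mul_le_iff_le_mul])

theorem riesz_list {x : G} (l : List G) (hx : 1 ≤ x) (hl : ∀ a ∈ l, 1 ≤ a) (h : x ≤ l.prod) :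
    ∃ l' : List G, x = l'.prod ∧ List.Forall₂ (fun y a => 1 ≤ y ∧ y ≤ a) l' l := by
  induction l generalizing x with
  | nil =>
    refine ⟨[], ?_, List.Forall₂.nil⟩
    simp only [List.prod_nil] at h ⊢
    exact le_antisymm h hx
  | cons a l ih =>
    rw [List.prod_cons] at h
    have ha : 1 ≤ a := hl a (by simp)
    have hl' : ∀ b ∈ l, 1 ≤ b := fun b hb => hl b (by simp [hb])
    have hp : 1 ≤ l.prod := by
      have : ∀ l : List G, (∀ b ∈ l, 1 ≤ b) → 1 ≤ l.prod := by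
        intro l
        induction l with
        | nil => intro _; simp
        | cons c l ih =>
          intro h
          rw [List.prod_cons]
          exact one_le_mul (h c (by simp)) (ih (fun b hb => h b (by simp [hb])))
      exact this l hl'
    obtain ⟨y, z, rfl, h1, h2, h3, h4⟩ := riesz hx ha hp h
    obtain ⟨l', rfl, hf⟩ := ih h3 hl' h4
    exact ⟨y :: l', by simp, List.Forall₂.cons ⟨h1, h2⟩ hf⟩

theorem one_le_list_prod (l : List G) (h : ∀ b ∈ l, 1 ≤ b) : 1 ≤ l.prod := by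
  induction l with
  | nil => simp
  | cons c l ih =>
    rw [List.prod_cons]
    exact one_le_mul (h c (by simp)) (ih (fun b hb => h b (by simp [hb])))

/-! ### Powers -/

theorem pow_pos_part (x : G) (n : ℕ) : x ^ n = (x ⊔ 1) ^ n * ((x⁻¹ ⊔ 1) ^ n)⁻¹ := by
  have hc : Commute (x ⊔ 1) (x⁻¹ ⊔ 1)⁻¹ := by
    have : Commute (x ⊔ 1) (x⁻¹ ⊔ 1) := mul_comm_of_inf_eq_one (pos_inf_neg x)
    exact this.inv_right
  rw [← inv_pow, ← hc.mul_pow, pos_div_neg]

theorem le_mul_inv_sup {u v : G} (hu : 1 ≤ u) (hv : 1 ≤ v) (h : u ⊓ v = 1) :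
    |u * v⁻¹|ₘ = u * v := by
  have hc : u * v = v * u := mul_comm_of_inf_eq_one h
  have h1 : u * v = u ⊔ v := by
    have h1 : u * (u ⊓ v)⁻¹ * v = u * v := by rw [h]; simp
    have h2 : u * (u ⊓ v)⁻¹ * v = v ⊔ u := by
      rw [inv_inf, mul_sup, sup_mul, mul_inv_cancel, one_mul, inv_mul_cancel_right]
    rw [← h1, h2, sup_comm]
  have h2 : u * v⁻¹ ⊔ 1 = u := by
    have : u * v⁻¹ ⊔ 1 = (u ⊔ v) * v⁻¹ := by rw [sup_mul, mul_inv_cancel]
    rw [this, ← h1]; simp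
  have h3 : (u * v⁻¹)⁻¹ ⊔ 1 = v := by
    have : (u * v⁻¹)⁻¹ ⊔ 1 = (v ⊔ u) * u⁻¹ := by
      rw [sup_mul, mul_inv_cancel, mul_inv_rev, inv_inv]
    rw [this, sup_comm, ← h1, hc]; simp
  have h4 := oneLePart_mul_leOnePart (u * v⁻¹)
  rw [oneLePart_def, leOnePart_def, h2, h3] at h4
  exact h4.symm

theorem inf_pow_eq_one {u v : G} (hu : 1 ≤ u) (hv : 1 ≤ v) (h : u ⊓ v = 1) (m n : ℕ) :
    u ^ m ⊓ v ^ n = 1 := by
  have h0 : Orth u v := by
    unfold Orth
    rwa [mabs_of_one_le hu, mabs_of_one_le hv]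
  have h1 : Orth (u ^ m) (v ^ n) := ((h0.pow m).symm.pow n).symm
  unfold Orth at h1
  rwa [mabs_of_one_le (one_le_pow_of_one_le' hu m), mabs_of_one_le (one_le_pow_of_one_le' hv n)]
    at h1

theorem mabs_le_mabs_pow (x : G) {n : ℕ} (hn : n ≠ 0) : |x|ₘ ≤ |x ^ n|ₘ := by
  have hu : (1 : G) ≤ x ⊔ 1 := le_sup_right
  have hv : (1 : G) ≤ x⁻¹ ⊔ 1 := le_sup_right
  have h1 : |x ^ n|ₘ = (x ⊔ 1) ^ n * (x⁻¹ ⊔ 1) ^ n := by
    rw [pow_pos_part]
    exact le_mul_inv_sup (one_le_pow_of_one_le' hu n) (one_le_pow_of_one_le' hv n)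
      (inf_pow_eq_one hu hv (pos_inf_neg x) n n)
  have h2 : |x|ₘ = (x ⊔ 1) * (x⁻¹ ⊔ 1) := by
    have := oneLePart_mul_leOnePart x
    rw [oneLePart_def, leOnePart_def] at this
    exact this.symm
  rw [h1, h2]
  exact mul_le_mul' (le_self_pow hu hn) (le_self_pow hv hn)

end LG

end Pool.Agent.Hhelper12.MG
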