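import Pool.Agent.Hhelper12.MG.Pre

/-!
# Normal-valued lattice-ordered groups and the laws `x ^ q * y ^ q = y ^ q * x ^ q`
-/

set_option autoImplicit false
set_option linter.unusedSectionVars false
set_option linter.unnecessarySimpa false
set_option linter.unusedVariables false

namespace Pool.Agent.Hhelper12.MG

open scoped commutatorElement

section NV

variable {G : Type*} [Group G] [Lattice G]

variable (G) in
/-- the normal-valued law -/
def NV : Prop := ∀ x y : G, 1 ≤ x → 1 ≤ y → x * y ≤ y ^ 2 * x ^ 2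

variable (G) in
/-- the law that `q`-th powers commute -/
def Lq (q : ℕ) : Prop := ∀ x y : G, x ^ q * y ^ q = y ^ q * x ^ q

variable [MulLeftMono G] [MulRightMono G]

theorem one_le_conj {x : G} (hx : 1 ≤ x) (g : G) : 1 ≤ g * x * g⁻¹ := by
  rw [← mul_inv_cancel g]
  exact mul_le_mul_left (le_mul_of_one_le_right' hx) _

theorem one_le_conj' {x : G} (hx : 1 ≤ x) (g : G) : 1 ≤ g⁻¹ * x * g := by
  have := one_le_conj hx g⁻¹
  rwa [inv_inv] at this

/-- the archimedean property of values in normal-valued groups -/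
theorem NV.arch (hNV : NV G) {P : Subgroup G} {f : G} (hP : IsVal P f) {b : G}
    (hb : b ∈ cover P f) (hbP : b ∉ P) (hb1 : 1 ≤ b) {g : G} (hg : g ∈ cover P f) :
    ∃ m : ℕ, cle P g (b ^ m) := by
  obtain ⟨-, hcov⟩ := hP.not_mem_of hb hbP
  rw [← hcov] at hg
  obtain ⟨l, hl, hle⟩ := mem_convGen_list hg
  have hl' : ∀ x ∈ l, (x ∈ P ∧ 1 ≤ x) ∨ x = b := by
    intro x hx
    obtain ⟨s, hs | hs, rfl⟩ := hl x hx
    · exact Or.inl ⟨hP.conv.mabs_mem hs, one_le_mabs s⟩
    · right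
      rw [Set.mem_singleton_iff.mp hs, mabs_of_one_le hb1]
  have key : ∀ l : List G, (∀ x ∈ l, (x ∈ P ∧ 1 ≤ x) ∨ x = b) → ∀ m0 : ℕ,
      ∃ m : ℕ, cle P (b ^ m0 * l.prod) (b ^ m) := by
    intro l
    induction l with
    | nil =>
      intro _ m0
      exact ⟨m0, by rw [List.prod_nil, mul_one]; exact cle_refl hP.conv _⟩
    | cons a l ih =>
      intro hl m0
      rw [List.prod_cons, ← mul_assoc]
      have ihl := ih (fun x hx => hl x (by simp [hx]))
      rcases hl a (by simp) with ⟨haP, ha1⟩ | rfl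
      · obtain ⟨m, hm⟩ := ihl (2 * m0)
        refine ⟨m, cle.trans hP.conv ?_ hm⟩
        rw [cle_mul_right, cle_iff hP.conv]
        refine ⟨a ^ 2, P.pow_mem haP 2, ?_⟩
        have := hNV (b ^ m0) a (one_le_pow_of_one_le' hb1 m0) ha1
        rwa [← pow_mul, mul_comm m0 2] at this
      · rw [← pow_succ]
        exact ihl (m0 + 1)
  obtain ⟨m, hm⟩ := key l hl' 0
  rw [pow_zero, one_mul] at hm
  exact ⟨m, (cle_of_le hP.conv ((le_mabs_self g).trans hle)).trans hP.conv hm⟩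

theorem NV.conj_mem (hNV : NV G) {P : Subgroup G} {f : G} (hP : IsVal P f) {g : G}
    (hg : g ∈ cover P f) (hg1 : 1 ≤ g) {p : G} (hp : p ∈ P) (hp1 : 1 ≤ p) :
    g * p * g⁻¹ ∈ P ∧ g⁻¹ * p * g ∈ P := by
  have hpc : p ∈ cover P f := le_cover P f hp
  constructor
  · by_contra hcon
    have hb1 : 1 ≤ g * p * g⁻¹ := one_le_conj hp1 g
    have hbc : g * p * g⁻¹ ∈ cover P f :=
      (cover P f).mul_mem ((cover P f).mul_mem hg hpc) ((cover P f).inv_mem hg)
    obtain ⟨m, hm⟩ := hNV.arch hP hbc hcon hb1 ((cover P f).pow_mem hg 2)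
    have h1 : (g * p * g⁻¹) ^ m = g * p ^ m * g⁻¹ := by
      rw [← MulAut.conj_apply, ← MulAut.conj_apply, map_pow]
    rw [h1] at hm
    have h2 : cle P (g ^ 3) (g * p ^ m) := by
      have := (cle_mul_right g).mpr hm
      rwa [inv_mul_cancel_right, ← pow_succ] at this
    have h3 : cle P (g * p ^ m) (g ^ 2) := by
      rw [cle_iff hP.conv]
      exact ⟨(p ^ m) ^ 2, P.pow_mem (P.pow_mem hp m) 2,
        hNV g (p ^ m) hg1 (one_le_pow_of_one_le' hp1 m)⟩
    have h4 : cle P (g ^ 3) (g ^ 2) := h2.trans hP.conv h3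
    have h5 : cle P g 1 := by
      have := (cle_mul_right (g ^ 2)⁻¹).mpr h4
      rwa [mul_inv_cancel, show g ^ 3 * (g ^ 2)⁻¹ = g by group] at this
    have h6 : g ∈ P := by
      rw [← ceq_one]
      exact cle.antisymm hP.conv h5 (cle_of_le hP.conv hg1)
    exact hcon (P.mul_mem (P.mul_mem h6 hp) (P.inv_mem h6))
  · by_contra hcon
    have hb1 : 1 ≤ g⁻¹ * p * g := one_le_conj' hp1 g
    have hbc : g⁻¹ * p * g ∈ cover P f :=
      (cover P f).mul_mem ((cover P f).mul_mem ((cover P f).inv_mem hg) hpc) hg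
    obtain ⟨m, hm⟩ := hNV.arch hP hbc hcon hb1 hg
    have h1 : (g⁻¹ * p * g) ^ m = g⁻¹ * p ^ m * g := by
      have := (map_pow (MulAut.conj g⁻¹) p m).symm
      simpa [MulAut.conj_apply] using this
    rw [h1] at hm
    have h2 : cle P 1 (g⁻¹ * p ^ m) := by
      have := (cle_mul_right g⁻¹).mpr hm
      rwa [mul_inv_cancel, mul_inv_cancel_right] at this
    have h3 : cle P 1 g⁻¹ := by
      have h4 : cle P ((p ^ m)⁻¹) (g⁻¹) := by
        have := (cle_mul_right (p ^ m)⁻¹).mpr h2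
        rwa [one_mul, mul_inv_cancel_right] at this
      exact ((ceq_one.mpr (P.inv_mem (P.pow_mem hp m))).symm.le hP.conv).trans hP.conv h4
    have h5 : cle P g 1 := by
      have := (cle_mul_right g).mpr h3
      rwa [inv_mul_cancel, one_mul] at this
    have h6 : g ∈ P := by
      rw [← ceq_one]
      exact cle.antisymm hP.conv h5 (cle_of_le hP.conv hg1)
    exact hcon (P.mul_mem (P.mul_mem (P.inv_mem h6) hp) h6)

/-- values are normal in their covers -/
theorem NV.cover_le_normalizer (hNV : NV G) {P : Subgroup G} {f : G} (hP : IsVal P f) :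
    cover P f ≤ Subgroup.normalizer (P : Set G) := by
  have key : ∀ g ∈ cover P f, 1 ≤ g → g ∈ Subgroup.normalizer (P : Set G) := by
    intro g hg hg1
    rw [Subgroup.mem_normalizer_iff]
    intro x
    constructor
    · intro hx
      have h1 := (hNV.conj_mem hP hg hg1 (hP.conv.pos_mem hx) le_sup_right).1
      have h2 := (hNV.conj_mem hP hg hg1 (hP.conv.neg_mem hx) le_sup_right).1
      rw [← sup_one_conj] at h1 h2
      apply mem_of_pos_neg h1
      rwa [show (g * x * g⁻¹)⁻¹ = g * x⁻¹ * g⁻¹ by group]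
    · intro hx
      set y := g * x * g⁻¹ with hy
      have h1 := (hNV.conj_mem hP hg hg1 (hP.conv.pos_mem hx) le_sup_right).2
      have h2 := (hNV.conj_mem hP hg hg1 (hP.conv.neg_mem hx) le_sup_right).2
      have h3 : x = (g⁻¹ * (y ⊔ 1) * g) * (g⁻¹ * (y⁻¹ ⊔ 1) * g)⁻¹ := by
        have : (g⁻¹ * (y ⊔ 1) * g) * (g⁻¹ * (y⁻¹ ⊔ 1) * g)⁻¹
            = g⁻¹ * ((y ⊔ 1) * (y⁻¹ ⊔ 1)⁻¹) * g := by group
        rw [this, pos_div_neg, hy]
        group
      rw [h3]
      exact P.mul_mem h1 (P.inv_mem h2)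
  intro g hg
  rw [← pos_div_neg g]
  have hc := isConv_cover P f
  exact mul_mem (key _ (hc.pos_mem hg) le_sup_right)
    (inv_mem (key _ (hc.neg_mem hg) le_sup_right))

theorem one_lt_of_not_mem {P : Subgroup G} {g : G} (h : g ⊔ 1 ∉ P) : clt P 1 g := by
  unfold clt cle
  rwa [inv_one, mul_one]

theorem clt_one_iff {P : Subgroup G} {g : G} : clt P 1 g ↔ g ⊔ 1 ∉ P := by
  unfold clt cle
  rw [inv_one, mul_one]

theorem cle_one_iff {P : Subgroup G} {g : G} : cle P g 1 ↔ g ⊔ 1 ∈ P := by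
  unfold cle
  rw [inv_one, mul_one]

theorem mem_of_cle_one {P : Subgroup G} (hP : IsConv P) {g : G} (hg : 1 ≤ g) (h : cle P g 1) :
    g ∈ P := by
  rw [cle_one_iff, sup_of_le_left hg] at h
  exact h

/-- an identity valid in normal-valued groups -/
theorem NV.ident (hNV : NV G) {u v : G} (hu : 1 ≤ u) (hv : 1 ≤ v) :
    (u * (v ^ 2)⁻¹ ⊔ 1) ⊓ ((u ^ 2)⁻¹ * v ⊔ 1) = 1 := by
  by_contra hne
  obtain ⟨Q, hQ, hnm⟩ := exists_prime_not_mem hne
  have h1 : u * (v ^ 2)⁻¹ ⊔ 1 ∉ Q := fun h =>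
    hnm (hQ.conv.mem_of_le (le_inf le_sup_right le_sup_right) inf_le_left h)
  have h2 : (u ^ 2)⁻¹ * v ⊔ 1 ∉ Q := fun h =>
    hnm (hQ.conv.mem_of_le (le_inf le_sup_right le_sup_right) inf_le_right h)
  have h3 : clt Q (v ^ 2) u := by
    have := (clt_mul_right (v ^ 2)).mpr (one_lt_of_not_mem h1)
    rwa [one_mul, inv_mul_cancel_right] at this
  have h4 : clt Q 1 ((u ^ 2)⁻¹ * v) := one_lt_of_not_mem h2
  have huQ : u ∉ Q := by
    intro hu'
    apply h3
    exact ((ceq_one.mpr hu').le hQ.conv).trans hQ.conv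
      (cle_of_le hQ.conv (one_le_pow_of_one_le' hv 2))
  obtain ⟨M, hQM, hM⟩ := exists_isVal hQ.conv huQ
  have hN := hNV.cover_le_normalizer hM
  have h5 : cle M (v ^ 2) u := cle_mono hQM (h3.le hQ)
  have h6 : cle M 1 ((u ^ 2)⁻¹ * v) := cle_mono hQM (h4.le hQ)
  have hun : u ^ 2 ∈ Subgroup.normalizer (M : Set G) :=
    Subgroup.pow_mem _ (hN (mem_cover M u)) 2
  have h7 : cle M (u ^ 2) v := by
    have := (cle_mul_left hun).mpr h6
    rwa [mul_one, mul_inv_cancel_left] at this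
  have h8 : cle M v (v ^ 2) := cle_of_le hM.conv (by
    rw [pow_two]; exact le_mul_of_one_le_left' hv)
  have h9 : cle M (u ^ 2) u := (h7.trans hM.conv h8).trans hM.conv h5
  have h10 : cle M u 1 := by
    have := (cle_mul_right u⁻¹).mpr h9
    rwa [mul_inv_cancel, show u ^ 2 * u⁻¹ = u by group] at this
  exact hM.not_mem (mem_of_cle_one hM.conv hu h10)

/-! ### The laws `Lq` -/

theorem IsConv.root_closed {P : Subgroup G} (hP : IsConv P) {x : G} {n : ℕ} (hn : n ≠ 0)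
    (h : x ^ n ∈ P) : x ∈ P := hP _ h _ (mabs_le_mabs_pow x hn)

theorem Lq.pow_mem_normalizer {q : ℕ} (hL : Lq G q) (hq : q ≠ 0) {P : Subgroup G}
    (hP : IsConv P) (g : G) : g ^ q ∈ Subgroup.normalizer (P : Set G) := by
  rw [Subgroup.mem_normalizer_iff]
  have key : ∀ h x : G, x ∈ P → h * x ^ q = x ^ q * h → h * x * h⁻¹ ∈ P := by
    intro h x hx hc
    apply hP.root_closed hq
    have h1 : (h * x * h⁻¹) ^ q = h * x ^ q * h⁻¹ := by
      rw [← MulAut.conj_apply, ← MulAut.conj_apply, map_pow]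
    rw [h1, hc, mul_inv_cancel_right]
    exact P.pow_mem hx q
  intro x
  constructor
  · intro hx
    exact key _ _ hx (hL g x)
  · intro hx
    have h1 := key (g ^ q)⁻¹ _ hx (by
      rw [← inv_pow]; exact hL _ _)
    rwa [inv_inv, show (g ^ q)⁻¹ * (g ^ q * x * (g ^ q)⁻¹) * g ^ q = x by group] at h1

theorem ceq_of_pow {P : Subgroup G} (hP : IsPrimeC P) {u v : G}
    (hu : u ∈ Subgroup.normalizer (P : Set G)) (hv : v ∈ Subgroup.normalizer (P : Set G))
    {n : ℕ} (hn : n ≠ 0) (h : ceq P (u ^ n) (v ^ n)) : ceq P u v := by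
  by_contra hcon
  rcases cle_total hP u v with h1 | h1
  · have := clt_pow hP hu (clt_of_cle_not_ceq hP.conv h1 hcon) n hn
    exact this.not_ceq hP.conv h
  · have := clt_pow hP hv (clt_of_cle_not_ceq hP.conv h1 (fun h' => hcon h'.symm)) n hn
    exact this.not_ceq hP.conv h.symm

theorem Lq.comm_mod {q : ℕ} (hL : Lq G q) (hq : q ≠ 0) {P : Subgroup G} (hP : IsPrimeC P)
    {x y : G} (hx : x ∈ Subgroup.normalizer (P : Set G))
    (hy : y ∈ Subgroup.normalizer (P : Set G)) : ceq P (x * y) (y * x) := by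
  have hpow : ∀ g z : G, (g * z * g⁻¹) ^ q = g * z ^ q * g⁻¹ := by
    intro g z
    rw [← MulAut.conj_apply, ← MulAut.conj_apply, map_pow]
  have hyq := Subgroup.pow_mem _ hy q
  have h1 : ceq P (y ^ q * x * (y ^ q)⁻¹) x := by
    apply ceq_of_pow hP (mul_mem (mul_mem hyq hx) (inv_mem hyq)) hx hq
    rw [hpow, hL y x, mul_inv_cancel_right]
    exact ceq_refl P _
  have h2 : ceq P (y ^ q * x) (x * y ^ q) := by
    have := (ceq_mul_right (y ^ q)).mpr h1
    rwa [inv_mul_cancel_right] at this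
  have h3 : ceq P (x * y ^ q * x⁻¹) (y ^ q) := by
    have := (ceq_mul_right x⁻¹).mpr h2.symm
    rwa [mul_inv_cancel_right] at this
  have h4 : ceq P (x * y * x⁻¹) y := by
    apply ceq_of_pow hP (mul_mem (mul_mem hx hy) (inv_mem hx)) hy hq
    rw [hpow]
    exact h3
  have := (ceq_mul_right x).mpr h4
  rwa [inv_mul_cancel_right] at this

theorem Lq.commutator_mem {q : ℕ} (hL : Lq G q) (hq : q ≠ 0) {P : Subgroup G} (hP : IsPrimeC P)
    {x y : G} (hx : x ∈ Subgroup.normalizer (P : Set G))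
    (hy : y ∈ Subgroup.normalizer (P : Set G)) : ⁅x, y⁆ ∈ P := by
  have := hL.comm_mod hq hP hx hy
  unfold ceq at this
  rwa [mul_inv_rev, ← mul_assoc, ← commutatorElement_def] at this

theorem Lq.zpow_not_mem {p e : ℕ} (hp : p.Prime) (hL : Lq G (p ^ e)) {P : Subgroup G}
    (hP : IsConv P) {g : G} (hg : g ∉ Subgroup.normalizer (P : Set G)) {n : ℤ} (hn : n ≠ 0)
    (hnp : |n| < p) : g ^ n ∉ Subgroup.normalizer (P : Set G) := by
  intro hcon
  apply hg
  have h1 : g ^ (p ^ e) ∈ Subgroup.normalizer (P : Set G) :=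
    hL.pow_mem_normalizer (pow_ne_zero e hp.ne_zero) hP g
  have hcop : IsCoprime n ((p ^ e : ℕ) : ℤ) := by
    rw [Int.isCoprime_iff_gcd_eq_one, Int.gcd_eq_natAbs, Int.natAbs_natCast]
    apply Nat.Coprime.pow_right
    rw [Nat.coprime_comm, hp.coprime_iff_not_dvd]
    intro hdvd
    have h2 := Nat.le_of_dvd (Int.natAbs_pos.mpr hn) hdvd
    have h3 : (n.natAbs : ℤ) < p := by rwa [Int.natCast_natAbs]
    omega
  obtain ⟨a, b, hab⟩ := hcop
  have h2 : g = (g ^ n) ^ a * (g ^ (p ^ e)) ^ b := by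
    rw [← zpow_natCast g (p ^ e), ← zpow_mul, ← zpow_mul, ← zpow_add, mul_comm n a,
      mul_comm _ b, hab, zpow_one]
  rw [h2]
  exact mul_mem (Subgroup.zpow_mem _ hcon a) (Subgroup.zpow_mem _ h1 b)

theorem Lq.cj_eq_of_le {q : ℕ} (hL : Lq G q) (hq : q ≠ 0) {P : Subgroup G}
    (hP : IsConv P) {g : G} (h : cj P g ≤ P) : cj P g = P := by
  apply le_antisymm h
  have h1 : ∀ k : ℕ, cj P (g ^ (k + 1)) ≤ cj P g := by
    intro k
    induction k with
    | zero => simp
    | succ k ih =>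
      rw [pow_succ, ← cj_cj]
      exact (cj_mono (ih.trans h) g)
  obtain ⟨k, rfl⟩ := Nat.exists_eq_succ_of_ne_zero hq
  have h2 := h1 k
  rwa [mem_normalizer_iff_cj.mp (hL.pow_mem_normalizer hq hP g)] at h2

theorem Lq.cj_not_le {p e : ℕ} (hp : p.Prime) (hL : Lq G (p ^ e)) {P : Subgroup G}
    (hP : IsConv P) {g : G} (hg : g ∉ Subgroup.normalizer (P : Set G)) {n : ℤ} (hn : n ≠ 0)
    (hnp : |n| < p) : ¬ cj P (g ^ n) ≤ P := by
  intro h
  exact hL.zpow_not_mem hp hP hg hn hnp (mem_normalizer_iff_cj.mpr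
    (hL.cj_eq_of_le (pow_ne_zero e hp.ne_zero) hP h))

end NV

end Pool.Agent.Hhelper12.MG
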