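import Pool.Agent.Hhelper12.MG.Conv

/-!
# The preorder of right cosets of a prime, and conjugate primes
-/

set_option autoImplicit false
set_option linter.unusedSectionVars false
set_option linter.unnecessarySimpa false
set_option linter.unusedVariables false

namespace Pool.Agent.Hhelper12.MG

open scoped commutatorElement

section Pre

variable {G : Type*} [Group G] [Lattice G]

/-- `P g ≤ P h` -/
def cle (P : Subgroup G) (g h : G) : Prop := (g * h⁻¹) ⊔ 1 ∈ P

/-- `P g = P h` -/
def ceq (P : Subgroup G) (g h : G) : Prop := g * h⁻¹ ∈ P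

/-- `P g < P h` -/
def clt (P : Subgroup G) (g h : G) : Prop := ¬ cle P h g

theorem ceq_refl (P : Subgroup G) (g : G) : ceq P g g := by
  unfold ceq; rw [mul_inv_cancel]; exact P.one_mem

theorem ceq.symm {P : Subgroup G} {g h : G} (H : ceq P g h) : ceq P h g := by
  unfold ceq at *
  have := P.inv_mem H
  rwa [mul_inv_rev, inv_inv] at this

theorem ceq.trans {P : Subgroup G} {g h k : G} (H : ceq P g h) (H' : ceq P h k) : ceq P g k := by
  unfold ceq at *
  have := P.mul_mem H H'
  rwa [← mul_assoc, inv_mul_cancel_right] at this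

theorem ceq_mul_right {P : Subgroup G} {g h : G} (k : G) : ceq P (g * k) (h * k) ↔ ceq P g h := by
  unfold ceq
  rw [mul_inv_rev, mul_assoc g, mul_inv_cancel_left]

theorem ceq_mul_left_mem {P : Subgroup G} {g p : G} (hp : p ∈ P) : ceq P (p * g) g := by
  unfold ceq
  rwa [mul_inv_cancel_right]

theorem ceq_one {P : Subgroup G} {g : G} : ceq P g 1 ↔ g ∈ P := by
  unfold ceq; rw [inv_one, mul_one]

theorem ceq_mono {P P' : Subgroup G} (h : P ≤ P') {x y : G} (hxy : ceq P x y) : ceq P' x y :=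
  h hxy

theorem cle_mono {P P' : Subgroup G} (h : P ≤ P') {x y : G} (hxy : cle P x y) : cle P' x y :=
  h hxy

theorem cle_mul_right {P : Subgroup G} {g h : G} (k : G) : cle P (g * k) (h * k) ↔ cle P g h := by
  unfold cle
  rw [mul_inv_rev, mul_assoc g, mul_inv_cancel_left]

theorem clt_mul_right {P : Subgroup G} {g h : G} (k : G) : clt P (g * k) (h * k) ↔ clt P g h := by
  unfold clt
  rw [cle_mul_right]

variable [MulLeftMono G] [MulRightMono G]

theorem cle_iff {P : Subgroup G} (hP : IsConv P) {g h : G} :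
    cle P g h ↔ ∃ p ∈ P, g ≤ p * h := by
  constructor
  · intro H
    exact ⟨_, H, by rw [← mul_inv_le_iff_le_mul]; exact le_sup_left⟩
  · rintro ⟨p, hp, H⟩
    rw [← mul_inv_le_iff_le_mul] at H
    exact hP.mem_of_le le_sup_right (sup_le_sup_right H 1) (hP.pos_mem hp)

theorem cle_of_ceq {P : Subgroup G} (hP : IsConv P) {g h : G} (H : ceq P g h) : cle P g h :=
  hP.pos_mem H

theorem cle_refl {P : Subgroup G} (hP : IsConv P) (g : G) : cle P g g :=
  cle_of_ceq hP (ceq_refl P g)

theorem cle_of_le {P : Subgroup G} (hP : IsConv P) {g h : G} (H : g ≤ h) : cle P g h := by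
  rw [cle_iff hP]
  exact ⟨1, P.one_mem, by rwa [one_mul]⟩

theorem cle.trans {P : Subgroup G} (hP : IsConv P) {g h k : G} (H : cle P g h)
    (H' : cle P h k) : cle P g k := by
  rw [cle_iff hP] at *
  obtain ⟨p, hp, h1⟩ := H
  obtain ⟨q, hq, h2⟩ := H'
  exact ⟨p * q, P.mul_mem hp hq, h1.trans (by rw [mul_assoc]; exact mul_le_mul_right h2 p)⟩

theorem cle.antisymm {P : Subgroup G} (hP : IsConv P) {g h : G} (H : cle P g h)
    (H' : cle P h g) : ceq P g h := by
  unfold ceq
  unfold cle at H H'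
  apply mem_of_pos_neg H
  rwa [mul_inv_rev, inv_inv]

theorem cle_total {P : Subgroup G} (hP : IsPrimeC P) (g h : G) : cle P g h ∨ cle P h g := by
  have := hP.prime _ _ (pos_inf_neg (g * h⁻¹))
  rwa [mul_inv_rev, inv_inv] at this

theorem clt.le {P : Subgroup G} (hP : IsPrimeC P) {g h : G} (H : clt P g h) : cle P g h :=
  (cle_total hP g h).resolve_right H

theorem clt.not_ceq {P : Subgroup G} (hP : IsConv P) {g h : G} (H : clt P g h) : ¬ ceq P g h :=
  fun h' => H (cle_of_ceq hP h'.symm)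

theorem clt_of_cle_not_ceq {P : Subgroup G} (hP : IsConv P) {g h : G} (H : cle P g h)
    (H' : ¬ ceq P g h) : clt P g h := fun h' => H' (cle.antisymm hP H h')

theorem clt.trans_cle {P : Subgroup G} (hP : IsConv P) {g h k : G} (H : clt P g h)
    (H' : cle P h k) : clt P g k := fun h' => H (H'.trans hP h')

theorem cle.trans_clt {P : Subgroup G} (hP : IsConv P) {g h k : G} (H : cle P g h)
    (H' : clt P h k) : clt P g k := fun h' => H' (h'.trans hP H)

theorem clt.trans {P : Subgroup G} (hP : IsPrimeC P) {g h k : G} (H : clt P g h)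
    (H' : clt P h k) : clt P g k := H.trans_cle hP.conv (H'.le hP)

theorem clt_irrefl {P : Subgroup G} (hP : IsConv P) (g : G) : ¬ clt P g g :=
  fun h => h (cle_refl hP g)

theorem not_cle {P : Subgroup G} {g h : G} : ¬ cle P g h ↔ clt P h g := Iff.rfl

theorem not_clt {P : Subgroup G} {g h : G} : ¬ clt P g h ↔ cle P h g := not_not

theorem ceq.le {P : Subgroup G} (hP : IsConv P) {g h : G} (H : ceq P g h) : cle P g h :=
  cle_of_ceq hP H

theorem ceq_iff {P : Subgroup G} (hP : IsConv P) {g h : G} :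
    ceq P g h ↔ cle P g h ∧ cle P h g :=
  ⟨fun H => ⟨H.le hP, H.symm.le hP⟩, fun H => cle.antisymm hP H.1 H.2⟩

theorem cle_congr {P : Subgroup G} (hP : IsConv P) {g g' h h' : G} (Hg : ceq P g g')
    (Hh : ceq P h h') : cle P g h ↔ cle P g' h' :=
  ⟨fun H => ((Hg.symm.le hP).trans hP H).trans hP (Hh.le hP),
    fun H => ((Hg.le hP).trans hP H).trans hP (Hh.symm.le hP)⟩

theorem clt_congr {P : Subgroup G} (hP : IsConv P) {g g' h h' : G} (Hg : ceq P g g')
    (Hh : ceq P h h') : clt P g h ↔ clt P g' h' := by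
  unfold clt
  rw [cle_congr hP Hh Hg]

theorem ceq_sup_of_cle {P : Subgroup G} (hP : IsConv P) {x y : G} (H : cle P x y) :
    ceq P (x ⊔ y) y := by
  rw [ceq_iff hP]
  refine ⟨?_, cle_of_le hP le_sup_right⟩
  rw [cle_iff hP]
  refine ⟨(x * y⁻¹) ⊔ 1, H, sup_le ?_ ?_⟩
  · rw [← mul_inv_le_iff_le_mul]; exact le_sup_left
  · exact le_mul_of_one_le_left' le_sup_right

theorem ceq_inf_of_cle {P : Subgroup G} (hP : IsConv P) {x y : G} (H : cle P x y) :
    ceq P (x ⊓ y) x := by
  rw [ceq_iff hP]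
  refine ⟨cle_of_le hP inf_le_left, ?_⟩
  rw [cle_iff hP]
  refine ⟨(x * y⁻¹) ⊔ 1, H, ?_⟩
  rw [mul_inf]
  refine le_inf (le_mul_of_one_le_left' le_sup_right) ?_
  rw [← mul_inv_le_iff_le_mul]; exact le_sup_left

theorem ceq_sup_of_cle' {P : Subgroup G} (hP : IsConv P) {x y : G} (H : cle P y x) :
    ceq P (x ⊔ y) x := by
  rw [sup_comm]; exact ceq_sup_of_cle hP H

theorem ceq_inf_of_cle' {P : Subgroup G} (hP : IsConv P) {x y : G} (H : cle P y x) :
    ceq P (x ⊓ y) y := by
  rw [inf_comm]; exact ceq_inf_of_cle hP H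

theorem ceq_mul_sup_or {P : Subgroup G} (hP : IsPrimeC P) (k x y : G) :
    (cle P (k * x) (k * y) ∧ ceq P (k * (x ⊔ y)) (k * y)) ∨
    (cle P (k * y) (k * x) ∧ ceq P (k * (x ⊔ y)) (k * x)) := by
  rw [mul_sup]
  rcases cle_total hP (k * x) (k * y) with h | h
  · exact Or.inl ⟨h, ceq_sup_of_cle hP.conv h⟩
  · exact Or.inr ⟨h, ceq_sup_of_cle' hP.conv h⟩

theorem ceq_mul_inf_or {P : Subgroup G} (hP : IsPrimeC P) (k x y : G) :
    (cle P (k * x) (k * y) ∧ ceq P (k * (x ⊓ y)) (k * x)) ∨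
    (cle P (k * y) (k * x) ∧ ceq P (k * (x ⊓ y)) (k * y)) := by
  rw [mul_inf]
  rcases cle_total hP (k * x) (k * y) with h | h
  · exact Or.inl ⟨h, ceq_inf_of_cle hP.conv h⟩
  · exact Or.inr ⟨h, ceq_inf_of_cle' hP.conv h⟩

/-! ### conjugates -/

/-- the conjugate `g⁻¹ P g` -/
def cj (P : Subgroup G) (g : G) : Subgroup G := P.comap (MulAut.conj g).toMonoidHom

theorem mem_cj {P : Subgroup G} {g x : G} : x ∈ cj P g ↔ g * x * g⁻¹ ∈ P := by
  unfold cj
  rw [Subgroup.mem_comap]
  simp

theorem cj_cj (P : Subgroup G) (g h : G) : cj (cj P g) h = cj P (g * h) := by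
  ext x
  rw [mem_cj, mem_cj, mem_cj]
  simp only [mul_inv_rev, mul_assoc]

theorem cj_one (P : Subgroup G) : cj P 1 = P := by
  ext x
  rw [mem_cj]; simp

theorem cj_mono {P Q : Subgroup G} (h : P ≤ Q) (g : G) : cj P g ≤ cj Q g := by
  intro x hx
  rw [mem_cj] at *
  exact h hx

theorem cj_le_cj {P Q : Subgroup G} {g : G} : cj P g ≤ cj Q g ↔ P ≤ Q := by
  constructor
  · intro h
    have := cj_mono h g⁻¹
    rwa [cj_cj, cj_cj, mul_inv_cancel, cj_one, cj_one] at this
  · intro h
    exact cj_mono h g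

theorem cj_inj {P Q : Subgroup G} {g : G} : cj P g = cj Q g ↔ P = Q := by
  constructor
  · intro h
    exact le_antisymm (cj_le_cj.mp h.le) (cj_le_cj.mp h.ge)
  · rintro rfl; rfl

theorem conj_mem_cj {P : Subgroup G} {g x : G} (hx : x ∈ P) : g⁻¹ * x * g ∈ cj P g := by
  rw [mem_cj]
  have : g * (g⁻¹ * x * g) * g⁻¹ = x := by group
  rwa [this]

theorem conj_mem_cj_iff {P : Subgroup G} {g x : G} : g⁻¹ * x * g ∈ cj P g ↔ x ∈ P := by
  rw [mem_cj]
  have : g * (g⁻¹ * x * g) * g⁻¹ = x := by group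
  rw [this]

theorem mem_normalizer_iff_cj {P : Subgroup G} {g : G} :
    g ∈ Subgroup.normalizer (P : Set G) ↔ cj P g = P := by
  rw [Subgroup.mem_normalizer_iff]
  constructor
  · intro h
    ext x
    rw [mem_cj, h x]
  · intro h x
    rw [← mem_cj, h]

theorem cj_of_mem {P : Subgroup G} {g : G} (hg : g ∈ P) : cj P g = P :=
  mem_normalizer_iff_cj.mp (Subgroup.le_normalizer hg)

/-- conjugates depend only on the right coset -/
theorem cj_congr {P : Subgroup G} {g h : G} (H : ceq P g h) : cj P g = cj P h := by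
  have h1 : g = (g * h⁻¹) * h := by group
  rw [h1, ← cj_cj, cj_of_mem H]

theorem IsConv.cj {P : Subgroup G} (hP : IsConv P) (g : G) : IsConv (cj P g) := by
  intro x hx y hy
  rw [mem_cj] at *
  apply hP _ hx
  rw [mabs_conj, mabs_conj]
  exact mul_le_mul_left (mul_le_mul_right hy _) _

theorem IsPrimeC.cj {P : Subgroup G} (hP : IsPrimeC P) (g : G) : IsPrimeC (cj P g) := by
  refine ⟨hP.conv.cj g, ?_⟩
  intro x y hxy
  rw [mem_cj, mem_cj]
  apply hP.prime
  rw [← inf_mul, ← mul_inf, hxy]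
  simp

theorem IsVal.cj {P : Subgroup G} {f : G} (hP : IsVal P f) (g : G) :
    IsVal (cj P g) (g⁻¹ * f * g) := by
  refine ⟨hP.conv.cj g, ?_, ?_⟩
  · rw [conj_mem_cj_iff]; exact hP.not_mem
  · intro D hD hlt
    have h1 : P < MG.cj D g⁻¹ := by
      rw [lt_iff_le_and_ne] at hlt ⊢
      constructor
      · have := cj_mono hlt.1 g⁻¹
        rwa [cj_cj, mul_inv_cancel, cj_one] at this
      · rintro h
        apply hlt.2
        rw [h, cj_cj, inv_mul_cancel, cj_one]
    have h2 := hP.max _ (hD.cj _) h1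
    rw [mem_cj, inv_inv] at h2
    exact h2

theorem cover_cj {P : Subgroup G} {f : G} (g : G) :
    cover (cj P g) (g⁻¹ * f * g) = cj (cover P f) g := by
  apply le_antisymm
  · apply convGen_le ((isConv_cover P f).cj g)
    rintro x (hx | hx)
    · exact cj_mono (le_cover P f) g hx
    · rw [Set.mem_singleton_iff.mp hx]
      exact conj_mem_cj (mem_cover P f)
  · have h1 : cover P f ≤ cj (cover (cj P g) (g⁻¹ * f * g)) g⁻¹ := by
      apply convGen_le ((isConv_cover _ _).cj _)
      rintro x (hx | hx)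
      · show x ∈ cj _ _
        rw [mem_cj, inv_inv]
        exact le_cover _ _ (conj_mem_cj hx)
      · rw [Set.mem_singleton_iff.mp hx]
        show f ∈ cj _ _
        rw [mem_cj, inv_inv]
        exact mem_cover _ _
    have := cj_mono h1 g
    rwa [cj_cj, inv_mul_cancel, cj_one] at this

theorem cle_mul_left {P : Subgroup G} {k g h : G}
    (hk : k ∈ Subgroup.normalizer (P : Set G)) : cle P (k * g) (k * h) ↔ cle P g h := by
  unfold cle
  have : k * g * (k * h)⁻¹ ⊔ 1 = k * (g * h⁻¹ ⊔ 1) * k⁻¹ := by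
    rw [← sup_one_conj]
    congr 1
    group
  rw [this, ← Subgroup.mem_normalizer_iff.mp hk]

theorem clt_mul_left {P : Subgroup G} {k g h : G}
    (hk : k ∈ Subgroup.normalizer (P : Set G)) : clt P (k * g) (k * h) ↔ clt P g h := by
  unfold clt
  rw [cle_mul_left hk]

theorem ceq_mul_left {P : Subgroup G} {k g h : G}
    (hk : k ∈ Subgroup.normalizer (P : Set G)) : ceq P (k * g) (k * h) ↔ ceq P g h := by
  unfold ceq
  have : k * g * (k * h)⁻¹ = k * (g * h⁻¹) * k⁻¹ := by group
  rw [this, ← Subgroup.mem_normalizer_iff.mp hk]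

/-- comparison from a different base point -/
theorem cle_cj {P : Subgroup G} (k g h : G) : cle (cj P k) g h ↔ cle P (k * g) (k * h) := by
  unfold cle
  rw [mem_cj]
  have : k * g * (k * h)⁻¹ ⊔ 1 = k * (g * h⁻¹ ⊔ 1) * k⁻¹ := by
    rw [← sup_one_conj]
    congr 1
    group
  rw [this]

theorem ceq_cj {P : Subgroup G} (k g h : G) : ceq (cj P k) g h ↔ ceq P (k * g) (k * h) := by
  unfold ceq
  rw [mem_cj]
  have : k * g * (k * h)⁻¹ = k * (g * h⁻¹) * k⁻¹ := by group
  rw [this]

theorem clt_cj {P : Subgroup G} (k g h : G) : clt (cj P k) g h ↔ clt P (k * g) (k * h) := by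
  unfold clt
  rw [cle_cj]

/-- powers: monotonicity from the base point -/
theorem clt_pow {P : Subgroup G} (hP : IsPrimeC P) {u v : G}
    (hu : u ∈ Subgroup.normalizer (P : Set G)) (h : clt P u v) :
    ∀ n : ℕ, n ≠ 0 → clt P (u ^ n) (v ^ n) := by
  intro n hn
  induction n with
  | zero => exact absurd rfl hn
  | succ n ih =>
    by_cases h0 : n = 0
    · subst h0; simpa using h
    · have ih := ih h0
      rw [pow_succ', pow_succ']
      have h1 : clt P (u * u ^ n) (u * v ^ n) := (clt_mul_left hu).mpr ih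
      exact h1.trans hP ((clt_mul_right _).mpr h)

end Pre

end Pool.Agent.Hhelper12.MG
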