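import Pool.Agent.Hhelper12.MG.Theta

/-!
# Rich systems
-/

set_option autoImplicit false
set_option linter.unusedSectionVars false
set_option linter.unnecessarySimpa false
set_option linter.unusedVariables false

namespace Pool.Agent.Hhelper12.MG

open scoped commutatorElement

section RS

variable {G : Type*} [Group G] [Lattice G]

/-- wreath-like systems of depth `m` and width `r` inside the subgroup `C` at the prime `Q` -/
def RS (r : ℕ) : ℕ → Subgroup G → Subgroup G → Prop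
  | 0, _, _ => True
  | m + 1, C, Q => ∃ a ∈ C, ∃ L : Subgroup G, L ≤ C ∧
      (∀ l₁ ∈ L, ∀ l₂ ∈ L, ∀ n : ℤ, 0 < n → n < r → clt Q l₁ (l₂ * a ^ n)) ∧
      (∀ l ∈ L, ∀ l' ∈ L, ∀ n : ℤ, n ≠ 0 → |n| < r → ceq Q (l * a ^ n * l') (l * a ^ n)) ∧
      RS r m L Q

theorem RS_zero (r : ℕ) (C Q : Subgroup G) : RS r 0 C Q := trivial

variable [MulLeftMono G] [MulRightMono G]

/-- prime separation: an element outside `P` and inside finitely many convex subgroups -/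
theorem separation {P : Subgroup G} (hP : IsPrimeC P) {F : G} (hF : F ∉ P) (hF1 : 1 ≤ F)
    (l : List (Subgroup G)) (hl : ∀ D ∈ l, IsConv D ∧ ¬ D ≤ P) :
    ∃ h : G, 1 ≤ h ∧ h ≤ F ∧ h ∉ P ∧ ∀ D ∈ l, h ∈ D := by
  induction l with
  | nil => exact ⟨F, hF1, le_rfl, hF, by simp⟩
  | cons D l ih =>
    obtain ⟨h, h1, hF, hP', hD⟩ := ih (fun D' hD' => hl D' (by simp [hD']))
    obtain ⟨hDc, hDP⟩ := hl D (by simp)
    obtain ⟨z, hzD, hzP⟩ := SetLike.not_le_iff_exists.mp hDP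
    have hz' : |z|ₘ ∉ P := fun h' => hzP (hP.conv.mabs_mem_iff.mp h')
    refine ⟨h ⊓ |z|ₘ, le_inf h1 (one_le_mabs z), inf_le_left.trans hF, ?_, ?_⟩
    · intro hcon
      rcases hP.inf_mem hcon with h' | h'
      · exact hP' h'
      · exact hz' h'
    · intro D' hD'
      rcases List.mem_cons.mp hD' with rfl | hD'
      · exact hDc.mem_of_le (le_inf h1 (one_le_mabs z)) inf_le_right (hDc.mabs_mem hzD)
      · exact (hl D' (by simp [hD'])).1.mem_of_le (le_inf h1 (one_le_mabs z)) inf_le_left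
          (hD D' hD')

/-- finite upper bounds in a convex subgroup -/
theorem exists_upper {P : Subgroup G} (hP : IsConv P) (l : List G) (hl : ∀ x ∈ l, x ∈ P) :
    ∃ w ∈ P, 1 ≤ w ∧ ∀ x ∈ l, x ≤ w := by
  induction l with
  | nil => exact ⟨1, P.one_mem, le_rfl, by simp⟩
  | cons x l ih =>
    obtain ⟨w, hw, hw1, hwl⟩ := ih (fun y hy => hl y (by simp [hy]))
    refine ⟨x ⊔ w, hP.sup_mem (hl x (by simp)) hw, hw1.trans le_sup_right, ?_⟩
    intro y hy
    rcases List.mem_cons.mp hy with rfl | hy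
    · exact le_sup_left
    · exact (hwl y hy).trans le_sup_right

/-- the nonzero integers of absolute value less than `r` as a list -/
def nzList (r : ℕ) : List ℤ :=
  ((List.range r).map (fun k : ℕ => (k : ℤ)) ++
    (List.range r).map (fun k : ℕ => -(k : ℤ))).filter
    (fun n => n ≠ 0)

theorem mem_nzList {r : ℕ} {n : ℤ} : n ∈ nzList r ↔ n ≠ 0 ∧ |n| < r := by
  unfold nzList
  simp only [List.mem_filter, List.mem_append, List.mem_map, List.mem_range, decide_eq_true_eq]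
  constructor
  · rintro ⟨⟨k, hk, rfl⟩ | ⟨k, hk, rfl⟩, h0⟩
    · exact ⟨h0, by rw [Nat.abs_cast]; exact_mod_cast hk⟩
    · exact ⟨h0, by rw [abs_neg, Nat.abs_cast]; exact_mod_cast hk⟩
  · rintro ⟨h0, hn⟩
    refine ⟨?_, h0⟩
    rcases le_total 0 n with h | h
    · left
      refine ⟨n.toNat, ?_, ?_⟩
      · rw [abs_of_nonneg h] at hn; omega
      · omega
    · right
      refine ⟨(-n).toNat, ?_, ?_⟩
      · rw [abs_of_nonpos h] at hn; omega
      · omega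

theorem orth_aux {h k u v : G} (hu : 1 ≤ u) (hv : 1 ≤ v) (h1 : u ≤ h * k⁻¹ ⊔ 1)
    (h2 : v ≤ k * h⁻¹ ⊔ 1) : Orth u v := by
  unfold Orth
  rw [mabs_of_one_le hu, mabs_of_one_le hv]
  apply le_antisymm _ (le_inf hu hv)
  refine (inf_le_inf h1 h2).trans ?_
  have := pos_inf_neg (h * k⁻¹)
  rw [mul_inv_rev, inv_inv] at this
  exact this.le

/-- orthogonality of conjugates propagates to generated subgroups -/
theorem orth_conj_convGen {h g : G} (ho : Orth h (g * h * g⁻¹)) {l l' : G}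
    (hl : l ∈ convGen {h}) (hl' : l' ∈ convGen {h}) : Orth l (g * l' * g⁻¹) := by
  have h1 : Orth l (g * h * g⁻¹) :=
    orth_convGen (by rintro s hs; rw [Set.mem_singleton_iff.mp hs]; exact ho) hl
  have h2 : Orth h (g⁻¹ * l * g) := by
    have := orth_conj g⁻¹ h1
    rw [inv_inv, show g⁻¹ * (g * h * g⁻¹) * g = h by group] at this
    exact this.symm
  have h3 : Orth l' (g⁻¹ * l * g) :=
    orth_convGen (by rintro s hs; rw [Set.mem_singleton_iff.mp hs]; exact h2) hl'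
  have := orth_conj g h3
  rw [show g * (g⁻¹ * l * g) * g⁻¹ = l by group] at this
  exact this.symm

/-- the two conditions of a rich system from orthogonality of conjugates -/
theorem rs_fixed {Q L : Subgroup G} (hQ : IsPrimeC Q) {z : G} (hz : z ∈ L) (hzQ : z ∉ Q)
    {g : G} (ho : ∀ l ∈ L, ∀ l' ∈ L, Orth l (g * l' * g⁻¹)) {l l' : G} (hl : l ∈ L)
    (hl' : l' ∈ L) : ceq Q (l * g * l') (l * g) := by
  have h1 : g * l' * g⁻¹ ∈ Q := (ho z hz l' hl').mem_of_not_mem hQ hzQ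
  have h2 := (ho l hl l' hl').commute
  unfold ceq
  have h3 : l * g * l' * (l * g)⁻¹ = g * l' * g⁻¹ := by
    rw [show l * g * l' * (l * g)⁻¹ = (l * (g * l' * g⁻¹)) * l⁻¹ by group, h2,
      mul_inv_cancel_right]
  rw [h3]
  exact h1

theorem rs_lt {Q L : Subgroup G} (hQ : IsPrimeC Q) {z : G} (hz : z ∈ L) (hL : IsConv L)
    (hzQ : z ∉ Q) {l₁ l₂ g : G} (hl₁ : l₁ ∈ L) (hl₂ : l₂ ∈ L) (hg : cle Q l₂ g)
    (hfix : ∀ l ∈ L, ceq Q (g * l) g) : clt Q l₁ g := by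
  intro hcon
  have hz1 : |z|ₘ ∉ Q := fun h => hzQ (hQ.conv.mabs_mem_iff.mp h)
  have hzL : |z|ₘ ∈ L := hL.mabs_mem hz
  have hm : l₂⁻¹ * |z|ₘ * l₁ ∈ L := L.mul_mem (L.mul_mem (L.inv_mem hl₂) hzL) hl₁
  have h1 := (cle_mul_right (l₂⁻¹ * |z|ₘ * l₁)).mpr hg
  rw [show l₂ * (l₂⁻¹ * |z|ₘ * l₁) = |z|ₘ * l₁ by group] at h1
  have h2 := h1.trans hQ.conv ((hfix _ hm).le hQ.conv)
  have h3 := h2.trans hQ.conv hcon
  have h4 : cle Q |z|ₘ 1 := by
    have := (cle_mul_right l₁⁻¹).mpr h3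
    rwa [mul_inv_cancel_right, mul_inv_cancel] at this
  exact hz1 (mem_of_cle_one hQ.conv (one_le_mabs z) h4)

theorem one_le_zpow_of {a : G} (ha : 1 ≤ a) {n : ℤ} (hn : 0 ≤ n) : 1 ≤ a ^ n := by
  obtain ⟨k, rfl⟩ := Int.eq_ofNat_of_zero_le hn
  rw [zpow_natCast]
  exact one_le_pow_of_one_le' ha k

theorem exists_pos_not_normalizer {N C : Subgroup G} (hC : IsConv C) {x : G} (hx : x ∈ C)
    (hxN : x ∉ N) : ∃ a ∈ C, 1 ≤ a ∧ a ∉ N := by
  by_cases h : x ⊔ 1 ∈ N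
  · refine ⟨x⁻¹ ⊔ 1, hC.neg_mem hx, le_sup_right, ?_⟩
    intro h'
    exact hxN (mem_of_pos_neg h h')
  · exact ⟨x ⊔ 1, hC.pos_mem hx, le_sup_right, h⟩

/-- the element `h'` -/
theorem exists_shrunk {p e : ℕ} (hp : p.Prime) (hNV : NV G) (hL : Lq G (p ^ e)) {r : ℕ}
    (hr : r ≤ p) {P : Subgroup G} {f : G} (hP : IsVal P f) {F : G} (hF : F ∈ cover P f)
    (hFP : F ∉ P) (hF1 : 1 ≤ F) {a : G} (ha : a ∉ Subgroup.normalizer (P : Set G)) :
    ∃ h' : G, 1 ≤ h' ∧ h' ≤ F ∧ h' ∉ P ∧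
      ∀ n : ℤ, n ≠ 0 → |n| < r → Orth h' (a ^ n * h' * (a ^ n)⁻¹) := by
  obtain ⟨h, h1, hhF, hhP, hh⟩ := separation hP.prime hFP hF1
    ((nzList r).map (fun n => cj P (a ^ n))) (by
      intro D hD
      obtain ⟨n, hn, rfl⟩ := List.mem_map.mp hD
      rw [mem_nzList] at hn
      exact ⟨hP.conv.cj _, hL.cj_not_le hp hP.conv ha hn.1 (lt_of_lt_of_le hn.2 (by
        exact_mod_cast hr))⟩)
  have hh' : ∀ n : ℤ, n ≠ 0 → |n| < r → a ^ n * h * (a ^ n)⁻¹ ∈ P := by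
    intro n hn hnr
    rw [← mem_cj]
    exact hh _ (List.mem_map.mpr ⟨n, mem_nzList.mpr ⟨hn, hnr⟩, rfl⟩)
  obtain ⟨w, hw, hw1, hwl⟩ := exists_upper hP.conv
    ((nzList r).map (fun n => a ^ n * h * (a ^ n)⁻¹)) (by
      intro x hx
      obtain ⟨n, hn, rfl⟩ := List.mem_map.mp hx
      rw [mem_nzList] at hn
      exact hh' n hn.1 hn.2)
  have hwn : ∀ n : ℤ, n ≠ 0 → |n| < r → a ^ n * h * (a ^ n)⁻¹ ≤ w := by
    intro n hn hnr
    exact hwl _ (List.mem_map.mpr ⟨n, mem_nzList.mpr ⟨hn, hnr⟩, rfl⟩)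
  have hhc : h ∈ cover P f := (isConv_cover P f).mem_of_le h1 hhF hF
  refine ⟨h * w⁻¹ ⊔ 1, le_sup_right, ?_, ?_, ?_⟩
  · refine sup_le ?_ (h1.trans hhF)
    refine le_trans ?_ hhF
    rw [mul_inv_le_iff_le_mul]
    exact le_mul_of_one_le_right' hw1
  · intro hcon
    apply hhP
    apply mem_of_cle_one hP.conv h1
    have h2 : ceq P h (h * w⁻¹) := by
      have hnorm := hNV.cover_le_normalizer hP hhc
      have := (ceq_mul_left hnorm).mpr (ceq_one.mpr (P.inv_mem hw)).symm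
      rwa [mul_one] at this
    exact (h2.le hP.conv).trans hP.conv (cle_one_iff.mpr hcon)
  · intro n hn hnr
    set k := a ^ n * h * (a ^ n)⁻¹ with hk
    apply orth_aux (h := h) (k := k) le_sup_right
    · exact one_le_conj le_sup_right _
    · apply sup_le_sup_right
      apply mul_le_mul_right
      rw [inv_le_inv_iff]
      exact hwn n hn hnr
    · rw [← sup_one_conj]
      apply sup_le_sup_right
      have h3 : a ^ n * (h * w⁻¹) * (a ^ n)⁻¹ = k * (a ^ n * w * (a ^ n)⁻¹)⁻¹ := by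
        rw [hk]; group
      rw [h3]
      apply mul_le_mul_right
      rw [inv_le_inv_iff]
      have h4 := hwn (-n) (neg_ne_zero.mpr hn) (by rwa [abs_neg])
      have h5 : a ^ n * (a ^ (-n) * h * (a ^ (-n))⁻¹) * (a ^ n)⁻¹ = h := by
        rw [zpow_neg]; group
      rw [← h5]
      exact mul_le_mul_left (mul_le_mul_right h4 _) _

/-- nontrivial iterated commutator sets produce rich systems -/
theorem exists_RS {p e : ℕ} (hp : p.Prime) (hNV : NV G) (hL : Lq G (p ^ e)) {r : ℕ}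
    (hr : r ≤ p) (m : ℕ) : ∀ C : Subgroup G, IsConv C → (∃ t ∈ ThN m (C : Set G), t ≠ 1) →
    ∃ Q : Subgroup G, IsPrimeC Q ∧ (∃ z ∈ C, z ∉ Q) ∧ RS r (m + 1) C Q := by
  induction m with
  | zero =>
    rintro C hC ⟨t, ht, ht1⟩
    have ht' : t ∈ C := ht
    have hne : |t|ₘ ≠ 1 := fun h => ht1 (mabs_eq_one h)
    obtain ⟨Q, hQ, htQ⟩ := exists_prime_not_mem hne
    refine ⟨Q, hQ, ⟨|t|ₘ, hC.mabs_mem ht', htQ⟩, |t|ₘ, hC.mabs_mem ht', ⊥, bot_le, ?_, ?_,
      trivial⟩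
    · intro l₁ h1 l₂ h2 n hn _
      rw [Subgroup.mem_bot] at h1 h2
      subst h1 h2
      rw [one_mul]
      intro hcon
      apply htQ
      have h3 : |t|ₘ ≤ |t|ₘ ^ n := by
        obtain ⟨k, rfl⟩ := Int.eq_ofNat_of_zero_le hn.le
        rw [zpow_natCast]
        exact le_self_pow (one_le_mabs t) (by omega)
      have h4 := mem_of_cle_one hQ.conv (one_le_zpow_of (one_le_mabs t) hn.le) hcon
      exact hQ.conv.mem_of_le (one_le_mabs t) h3 h4
    · intro l h1 l' h2 n _ _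
      rw [Subgroup.mem_bot] at h1 h2
      subst h1 h2
      rw [mul_one]
      exact ceq_refl _ _
  | succ m ih =>
    rintro C hC ⟨t, ht, ht1⟩
    rw [ThN_succ'] at ht
    obtain ⟨Q, hQ, htQ⟩ := exists_prime_not_mem ht1
    obtain ⟨s0, hs0, P, hQP, hP, htP⟩ := leaf hQ ht htQ
    obtain ⟨s, hs, s', hs', x, y, hxs, hys, rfl⟩ := hs0
    have hxC : x ∈ C := hC s hs x hxs
    have hyC : y ∈ C := hC s' hs' y hys
    have hcC : ⁅x, y⁆ ∈ C := by
      rw [commutatorElement_def]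
      exact C.mul_mem (C.mul_mem (C.mul_mem hxC hyC) (C.inv_mem hxC)) (C.inv_mem hyC)
    have hq0 : p ^ e ≠ 0 := pow_ne_zero e hp.ne_zero
    obtain ⟨a, haC, ha1, haN⟩ : ∃ a ∈ C, 1 ≤ a ∧ a ∉ Subgroup.normalizer (P : Set G) := by
      by_cases hxN : x ∈ Subgroup.normalizer (P : Set G)
      · by_cases hyN : y ∈ Subgroup.normalizer (P : Set G)
        · exact absurd (hL.commutator_mem hq0 hP.prime hxN hyN) hP.not_mem
        · exact exists_pos_not_normalizer hC hyC hyN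
      · exact exists_pos_not_normalizer hC hxC hxN
    have hFc : |⁅x, y⁆|ₘ ∈ cover P ⁅x, y⁆ := (isConv_cover _ _).mabs_mem (mem_cover _ _)
    have hFP : |⁅x, y⁆|ₘ ∉ P := fun h => hP.not_mem (hP.conv.mabs_mem_iff.mp h)
    obtain ⟨h', h1', hF', hP', ho⟩ := exists_shrunk hp hNV hL hr hP hFc hFP (one_le_mabs _) haN
    have hh'C : h' ∈ C := hC.mem_of_le h1' hF' (hC.mabs_mem hcC)
    have hh'c : h' ∈ cover P ⁅x, y⁆ := (isConv_cover _ _).mem_of_le h1' hF' hFc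
    have hLC : convGen {h'} ≤ C := by
      apply convGen_le hC
      intro z hz
      rw [Set.mem_singleton_iff.mp hz]
      exact hh'C
    have htm : t ∈ ThN m (cover P ⁅x, y⁆ : Set G) := ThN_mono Set.inter_subset_right m htP
    obtain ⟨t', ht', ht'Q⟩ := hNV.transfer' hP hQ hQP hh'c hP' h1' htm htQ
    obtain ⟨Q1, hQ1, ⟨z, hz, hzQ⟩, hRS⟩ := ih (convGen {h'}) (isConv_convGen _)
      ⟨t', ht', fun h => ht'Q (h ▸ Q.one_mem)⟩
    have hfix : ∀ l ∈ convGen {h'}, ∀ l' ∈ convGen {h'}, ∀ n : ℤ, n ≠ 0 → |n| < r →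
        ceq Q1 (l * a ^ n * l') (l * a ^ n) := by
      intro l hl l' hl' n hn hnr
      exact rs_fixed hQ1 hz hzQ
        (fun u hu v hv => orth_conj_convGen (ho n hn hnr) hu hv) hl hl'
    refine ⟨Q1, hQ1, ⟨z, hLC hz, hzQ⟩, a, haC, convGen {h'}, hLC, ?_, hfix, hRS⟩
    intro l₁ hl₁ l₂ hl₂ n hn hnr
    apply rs_lt hQ1 hz (isConv_convGen _) hzQ hl₁ hl₂
    · apply cle_of_le hQ1.conv
      exact le_mul_of_one_le_right' (one_le_zpow_of ha1 hn.le)
    · intro l hl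
      exact hfix l₂ hl₂ l hl n hn.ne' (by rwa [abs_of_pos hn])

end RS

end Pool.Agent.Hhelper12.MG
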