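import Pool.Agent.Hhelper12.MG.Terms

/-!
# Rich groups violate every law violated in the corresponding class
-/

set_option autoImplicit false
set_option linter.unusedSectionVars false
set_option linter.unnecessarySimpa false
set_option linter.unusedVariables false

namespace Pool.Agent.Hhelper12.MG

open scoped commutatorElement
open MGroup

/-- the conclusion: every rich group of the given kind violates the law `(s, t)` -/
def RichFails (s t : MTerm) (m : ℕ) (b : Bool) (p e : ℕ) : Prop :=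
  ∀ (B : Type) [MGroup B], NV B → Lq B (p ^ e) → (∃ t ∈ ThN m (baseS B b), t ≠ 1) →
    ∃ w : ℕ → B, s.eval w ≠ t.eval w

theorem fails_even {A : Type} [MGroup A] {m : ℕ}
    (hA : ∀ t ∈ ThN (m + 1) (baseS A false), t = 1) {s t : MTerm} {v : ℕ → A}
    (h : s.eval v ≠ t.eval v) :
    ∃ r0 : ℕ, ∀ p : ℕ, p.Prime → Odd p → r0 ≤ p → ∀ e : ℕ, RichFails s t m true p e := by
  obtain ⟨Q, hQ, T, hT⟩ := fails_of_msim s t v h
  obtain ⟨r, hr⟩ := DS_of_ThN hQ (m + 1) (baseS A false) (baseS_conj false) hA T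
    (fun g _ => Subgroup.mem_sup_right (subset_convGen _ trivial))
  refine ⟨r, ?_⟩
  intro p hp hp2 hrp e B _ hNV hL hB
  obtain ⟨Q', hQ', L, hfix, hRS⟩ := exists_RS_star hp hp2 hNV hL hrp hB
  exact hT B Q' hQ' (msim_of_sim (sim_of_RS hQ hQ' (m + 1) _ L (hr r le_rfl) hRS) hfix)

theorem fails_odd {A : Type} [MGroup A] {m : ℕ}
    (hA : ∀ t ∈ ThN m (baseS A true), t = 1) {s t : MTerm} {v : ℕ → A}
    (h : s.eval v ≠ t.eval v) :
    ∃ r0 : ℕ, ∀ p : ℕ, p.Prime → Odd p → r0 ≤ p → ∀ e : ℕ, RichFails s t m false p e := by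
  obtain ⟨Q, hQ, T, hT⟩ := fails_of_msim s t v h
  obtain ⟨r1, hr1⟩ := DSI_of_odd hQ m hA T
  refine ⟨8 * (max r1 1), ?_⟩
  intro p hp hp2 hrp e B _ hNV hL hB
  have hD := hr1 (max r1 1) (le_max_left _ _)
  by_cases h2 : ∃ t ∈ ThN m (Sodd B), t ≠ 1
  · obtain ⟨Q', hQ', L, hfix, hRS⟩ := exists_RS_star hp hp2 hNV hL
      (by omega : max r1 1 ≤ p) h2
    exact hT B Q' hQ' (msim_of_sim (sim_of_RS hQ hQ' (m + 1) _ L hD.toDS hRS) hfix)
  · push Not at h2
    obtain ⟨Q', hQ', hR⟩ := exists_RSI hp hp2 hNV hL (le_max_right r1 1) hrp hB h2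
    exact hT B Q' hQ' (msim_of_RSI hQ hQ' hD hR)

theorem fails_NV {A : Type} [MGroup A] (hA : NV A) {s t : MTerm} {v : ℕ → A}
    (h : s.eval v ≠ t.eval v) :
    ∃ m r0 : ℕ, ∀ p : ℕ, p.Prime → Odd p → r0 ≤ p → ∀ e : ℕ, RichFails s t m true p e := by
  obtain ⟨Q, hQ, T, hT⟩ := fails_of_msim s t v h
  obtain ⟨r, hr⟩ := DS_of_NV hA hQ (T.card + 1) T (Nat.le_succ _)
  refine ⟨T.card, r, ?_⟩
  intro p hp hp2 hrp e B _ hNV hL hB
  obtain ⟨Q', hQ', L, hfix, hRS⟩ := exists_RS_star hp hp2 hNV hL hrp hB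
  exact hT B Q' hQ' (msim_of_sim (sim_of_RS hQ hQ' (T.card + 1) _ L (hr r le_rfl) hRS) hfix)

end Pool.Agent.Hhelper12.MG
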