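import Pool.Agent.Hhelper12.MG.RS
import Pool.Agent.Hhelper12.MG.Defs

/-!
# Simulation of finite pieces of one group in another one
-/

set_option autoImplicit false
set_option linter.unusedSectionVars false
set_option linter.unnecessarySimpa false
set_option linter.unusedVariables false

namespace Pool.Agent.Hhelper12.MG

open scoped commutatorElement

section Pr

variable {B : Type*} [Monoid B]

/-- ordered finite products -/
def pr (f : ℕ → B) : ℕ → B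
  | 0 => 1
  | n + 1 => pr f n * f n

theorem pr_mem {S : Type*} [SetLike S B] [SubmonoidClass S B] {f : ℕ → B} {L : S}
    (h : ∀ k, f k ∈ L) (n : ℕ) : pr f n ∈ L := by
  induction n with
  | zero => exact one_mem L
  | succ n ih => exact mul_mem ih (h n)

theorem map_pr {C : Type*} [Monoid C] (φ : B →* C) (f : ℕ → B) (n : ℕ) :
    φ (pr f n) = pr (fun k => φ (f k)) n := by
  induction n with
  | zero => exact map_one φ
  | succ n ih => rw [pr, pr, map_mul, ih]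

end Pr

section Sim

variable {A : Type*} [Group A] [Lattice A]
variable {B : Type*} [Group B] [Lattice B]

/-- displacement systems of depth `m` and width `r` on the finite set `T` at the prime `Q` -/
def DS (r : ℕ) (Q : Subgroup A) : ℕ → Set A → Prop
  | 0, T => ∀ g ∈ T, ∀ h ∈ T, ceq Q g h
  | m + 1, T => ∃ (c : A → ℤ) (τ : ℤ → A),
      (∀ g ∈ T, 0 ≤ c g ∧ c g < r) ∧
      (∀ g ∈ T, ∀ h ∈ T, c g < c h → clt Q g h) ∧
      (∀ g ∈ T, ∀ h ∈ T, ∀ x, g * x ∈ T → h * x ∈ T → c (g * x) - c g = c (h * x) - c h) ∧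
      DS r Q m {k | ∃ g ∈ T, k = g * (τ (c g))⁻¹}

/-- simulation of the action of `A` on the cosets `Q g`, `g ∈ T`, inside the subgroup `L` of
`B` acting on the cosets of `Q'` -/
def Sim (Q : Subgroup A) (T : Set A) (Q' L : Subgroup B) : Prop :=
  ∃ Φ : A → B, (∀ g ∈ T, Φ g ∈ L) ∧
    (∀ g ∈ T, ∀ h ∈ T, (cle Q g h ↔ cle Q' (Φ g) (Φ h))) ∧
    ∀ x : A, ∃ y ∈ L, ∀ g ∈ T, g * x ∈ T → ceq Q' (Φ g * y) (Φ (g * x))

/-- the block part of a simulating element -/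
theorem pr_act {Q' L : Subgroup B} {a : B} {r : ℕ}
    (hfix : ∀ l ∈ L, ∀ l' ∈ L, ∀ n : ℤ, n ≠ 0 → |n| < r →
      ceq Q' (l * a ^ n * l') (l * a ^ n))
    {y : ℕ → B} (hy : ∀ k, y k ∈ L) {l : B} (hl : l ∈ L) {c : ℕ} (hc : c < r) (n : ℕ)
    (hn : n ≤ r) :
    ceq Q' (l * a ^ (c : ℤ) * pr (fun k => a ^ (-(k : ℤ)) * y k * a ^ (k : ℤ)) n)
      (if c < n then l * y c * a ^ (c : ℤ) else l * a ^ (c : ℤ)) := by
  have hfix' : ∀ l ∈ L, ∀ k : ℕ, k < r → k ≠ c →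
      ceq Q' (l * a ^ (c : ℤ) * (a ^ (-(k : ℤ)) * y k * a ^ (k : ℤ))) (l * a ^ (c : ℤ)) := by
    intro l hl k hk hkc
    have h1 := hfix l hl (y k) (hy k) ((c : ℤ) - k) (by omega) (by
      rw [abs_lt]; constructor <;> omega)
    have h2 := (ceq_mul_right (a ^ (k : ℤ))).mpr h1
    rw [show l * a ^ ((c : ℤ) - k) * a ^ (k : ℤ) = l * a ^ (c : ℤ) by
      rw [mul_assoc, ← zpow_add]; congr 2; ring] at h2
    rw [show l * a ^ (c : ℤ) * (a ^ (-(k : ℤ)) * y k * a ^ (k : ℤ)) =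
      l * a ^ ((c : ℤ) - k) * y k * a ^ (k : ℤ) by
        rw [sub_eq_add_neg, zpow_add]; group]
    exact h2
  induction n with
  | zero => simp [pr]; exact ceq_refl _ _
  | succ n ih =>
    have ih := ih (by omega)
    rw [pr, ← mul_assoc]
    refine ((ceq_mul_right _).mpr ih).trans ?_
    rcases lt_trichotomy c n with h | h | h
    · rw [if_pos h, if_pos (by omega)]
      exact hfix' (l * y c) (L.mul_mem hl (hy c)) n (by omega) (by omega)
    · subst h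
      rw [if_neg (by omega), if_pos (by omega)]
      have : l * a ^ (c : ℤ) * (a ^ (-(c : ℤ)) * y c * a ^ (c : ℤ)) =
        l * y c * a ^ (c : ℤ) := by group
      rw [this]
      exact ceq_refl _ _
    · rw [if_neg (by omega), if_neg (by omega)]
      exact hfix' l hl n (by omega) (by omega)

theorem order_step {Q : Subgroup A} {T : Set A} {c : A → ℤ} {τ : ℤ → A} {r : ℕ}
    {Q' L : Subgroup B} {a : B} [MulLeftMono A] [MulRightMono A] [MulLeftMono B]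
    [MulRightMono B] (hQ : IsPrimeC Q) (hQ' : IsPrimeC Q')
    (hc : ∀ g ∈ T, 0 ≤ c g ∧ c g < r) (hlt : ∀ g ∈ T, ∀ h ∈ T, c g < c h → clt Q g h)
    (hlt' : ∀ l₁ ∈ L, ∀ l₂ ∈ L, ∀ n : ℤ, 0 < n → n < r → clt Q' l₁ (l₂ * a ^ n))
    {Φ : A → B} (hΦ : ∀ g ∈ {k | ∃ g ∈ T, k = g * (τ (c g))⁻¹}, Φ g ∈ L)
    (hΦo : ∀ g ∈ {k | ∃ g ∈ T, k = g * (τ (c g))⁻¹},
      ∀ h ∈ {k | ∃ g ∈ T, k = g * (τ (c g))⁻¹}, (cle Q g h ↔ cle Q' (Φ g) (Φ h)))
    {g h : A} (hg : g ∈ T) (hh : h ∈ T) :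
    cle Q g h ↔ cle Q' (Φ (g * (τ (c g))⁻¹) * a ^ (c g)) (Φ (h * (τ (c h))⁻¹) * a ^ (c h)) := by
  have key : ∀ g ∈ T, ∀ h ∈ T, c g < c h →
      clt Q' (Φ (g * (τ (c g))⁻¹) * a ^ (c g)) (Φ (h * (τ (c h))⁻¹) * a ^ (c h)) := by
    intro g hg h hh hgh
    have h1 := hlt' _ (hΦ _ ⟨g, hg, rfl⟩) _ (hΦ _ ⟨h, hh, rfl⟩) (c h - c g) (by omega)
      (by have := hc g hg; have := hc h hh; omega)
    have h2 := (clt_mul_right (a ^ (c g))).mpr h1
    rwa [mul_assoc, ← zpow_add, sub_add_cancel] at h2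
  rcases lt_trichotomy (c g) (c h) with h1 | h1 | h1
  · constructor
    · intro _
      exact (key g hg h hh h1).le hQ'
    · intro _
      exact (hlt g hg h hh h1).le hQ
  · rw [← cle_mul_right (P := Q) (τ (c g))⁻¹]
    rw [h1, cle_mul_right (a ^ (c h))]
    exact hΦo _ ⟨g, hg, by rw [h1]⟩ _ ⟨h, hh, rfl⟩
  · constructor
    · intro h2
      exact absurd h2 (hlt h hh g hg h1)
    · intro h2
      exact absurd h2 (key h hh g hg h1)

/-- the main simulation statement -/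
theorem sim_of_RS [MulLeftMono A] [MulRightMono A] [MulLeftMono B] [MulRightMono B]
    {Q : Subgroup A} (hQ : IsPrimeC Q) {Q' : Subgroup B} (hQ' : IsPrimeC Q') {r : ℕ} (m : ℕ) :
    ∀ (T : Set A) (L : Subgroup B), DS r Q m T → RS r m L Q' → Sim Q T Q' L := by
  induction m with
  | zero =>
    intro T L hD _
    refine ⟨fun _ => 1, fun _ _ => L.one_mem, ?_, ?_⟩
    · intro g hg h hh
      exact ⟨fun _ => cle_refl hQ'.conv 1, fun _ => (hD g hg h hh).le hQ.conv⟩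
    · intro x
      refine ⟨1, L.one_mem, fun g _ _ => ?_⟩
      rw [mul_one]
      exact ceq_refl _ _
  | succ m ih =>
    rintro T L ⟨c, τ, hc, hlt, hdis, hDS⟩ ⟨a, ha, L', hL', hlt', hfix, hRS⟩
    obtain ⟨Φ, hΦ, hΦo, hΦa⟩ := ih _ L' hDS hRS
    choose Y hYL hY using hΦa
    refine ⟨fun g => Φ (g * (τ (c g))⁻¹) * a ^ (c g), ?_, ?_, ?_⟩
    · intro g hg
      exact L.mul_mem (hL' (hΦ _ ⟨g, hg, rfl⟩)) (L.zpow_mem ha _)
    · intro g hg h hh
      exact order_step hQ hQ' hc hlt hlt' hΦ hΦo hg hh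
    · intro x
      obtain ⟨n, hn⟩ : ∃ n : ℤ, ∀ g ∈ T, g * x ∈ T → c (g * x) - c g = n := by
        by_cases h : ∃ g ∈ T, g * x ∈ T
        · obtain ⟨g0, h1, h2⟩ := h
          exact ⟨c (g0 * x) - c g0, fun g hg hgx => hdis g hg g0 h1 x hgx h2⟩
        · exact ⟨0, fun g hg hgx => absurd ⟨g, hg, hgx⟩ h⟩
      refine ⟨pr (fun k : ℕ => a ^ (-(k : ℤ)) * Y (τ k * x * (τ (k + n))⁻¹) * a ^ (k : ℤ)) r *
        a ^ n, ?_, ?_⟩
      · apply L.mul_mem _ (L.zpow_mem ha _)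
        apply pr_mem
        intro k
        exact L.mul_mem (L.mul_mem (L.zpow_mem ha _) (hL' (hYL _))) (L.zpow_mem ha _)
      · intro g hg hgx
        have hcg := hc g hg
        obtain ⟨k, hk⟩ := Int.eq_ofNat_of_zero_le hcg.1
        have hkr : k < r := by have := hcg.2; rw [hk] at this; exact_mod_cast this
        have h1 := pr_act hfix (y := fun k : ℕ => Y (τ k * x * (τ (k + n))⁻¹))
          (fun _ => hYL _) (hΦ _ ⟨g, hg, rfl⟩) hkr r le_rfl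
        rw [if_pos hkr] at h1
        have h2 := (ceq_mul_right (a ^ n)).mpr h1
        have hcgx : c (g * x) = k + n := by
          have := hn g hg hgx
          omega
        have h3 : g * x * (τ (c (g * x)))⁻¹ ∈ {k | ∃ g ∈ T, k = g * (τ (c g))⁻¹} :=
          ⟨g * x, hgx, rfl⟩
        have h4 := hY (τ k * x * (τ (k + n))⁻¹) (g * (τ (c g))⁻¹) ⟨g, hg, rfl⟩ (by
          rw [hk, show g * (τ ↑k)⁻¹ * (τ ↑k * x * (τ (↑k + n))⁻¹) = g * x * (τ (k + n))⁻¹ by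
            group]
          rw [hcgx] at h3
          exact h3)
        rw [hk, show g * (τ ↑k)⁻¹ * (τ ↑k * x * (τ (↑k + n))⁻¹) = g * x * (τ (k + n))⁻¹ by
            group] at h4
        have h5 := (ceq_mul_right (a ^ ((k : ℤ) + n))).mpr h4
        simp only
        rw [hk, hcgx]
        rw [hk] at h2
        rw [← mul_assoc]
        refine h2.trans ?_
        rw [mul_assoc _ (a ^ (k : ℤ)), ← zpow_add]
        exact h5

end Sim

/-! ### m-groups -/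

section MSim

instance instMulLeftMonoMG {G : Type} [MGroup G] : MulLeftMono G :=
  ⟨fun c a b h => MGroup.mul_left_mono c a b h⟩

instance instMulRightMonoMG {G : Type} [MGroup G] : MulRightMono G :=
  ⟨fun c a b h => MGroup.mul_right_mono c a b h⟩

open MGroup

theorem star_one' {G : Type} [MGroup G] : star (1 : G) = 1 := by
  have h := star_mul (1 : G) 1
  rw [mul_one] at h
  exact (left_eq_mul.mp h)

/-- the operation `star` as a group automorphism -/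
def starHom (G : Type) [MGroup G] : G →* G where
  toFun := star
  map_one' := star_one'
  map_mul' := star_mul

theorem star_inv' {G : Type} [MGroup G] (x : G) : star x⁻¹ = (star x)⁻¹ := map_inv (starHom G) x

theorem star_zpow' {G : Type} [MGroup G] (x : G) (n : ℤ) : star (x ^ n) = (star x) ^ n :=
  map_zpow (starHom G) x n

theorem star_pow' {G : Type} [MGroup G] (x : G) (n : ℕ) : star (x ^ n) = (star x) ^ n :=
  map_pow (starHom G) x n

theorem star_pr {G : Type} [MGroup G] (f : ℕ → G) (n : ℕ) :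
    star (pr f n) = pr (fun k => star (f k)) n := map_pr (starHom G) f n

variable {A B : Type} [MGroup A] [MGroup B]

/-- simulation of m-groups -/
def MSim (Q : Subgroup A) (T : Set A) (Q' : Subgroup B) : Prop :=
  ∃ Φ : A → B, (∀ g ∈ T, ∀ h ∈ T, (cle Q g h ↔ cle Q' (Φ g) (Φ h))) ∧
    ∀ x : A, ∃ b : B, ∀ g ∈ T, (g * x ∈ T → ceq Q' (Φ g * b) (Φ (g * x))) ∧
      (g * star x ∈ T → ceq Q' (Φ g * star b) (Φ (g * star x)))

theorem msim_of_sim {Q : Subgroup A} {T : Set A} {Q' L : Subgroup B} (h : Sim Q T Q' L)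
    (hfix : ∀ l ∈ L, ∀ l' ∈ L, ceq Q' (l * star l') l) : MSim Q T Q' := by
  obtain ⟨Φ, hΦ, hΦo, hΦa⟩ := h
  refine ⟨Φ, hΦo, ?_⟩
  intro x
  obtain ⟨y, hyL, hy⟩ := hΦa x
  obtain ⟨y', hyL', hy'⟩ := hΦa (star x)
  refine ⟨y * star y', ?_⟩
  intro g hg
  constructor
  · intro hgx
    rw [← mul_assoc]
    exact (hfix _ (L.mul_mem (hΦ g hg) hyL) y' hyL').trans (hy g hg hgx)
  · intro hgx
    rw [MGroup.star_mul, MGroup.star_star, ← mul_assoc]
    exact ((ceq_mul_right y').mpr (hfix _ (hΦ g hg) y hyL)).trans (hy' g hg hgx)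

/-- displacement systems whose top level is compatible with `star` -/
def DSI (r : ℕ) (Q : Subgroup A) (m : ℕ) (T : Set A) : Prop :=
  ∃ (c : A → ℤ) (τ : ℤ → A),
      (∀ g ∈ T, 0 ≤ c g ∧ c g < r) ∧
      (∀ g ∈ T, ∀ h ∈ T, c g < c h → clt Q g h) ∧
      (∀ g ∈ T, ∀ h ∈ T, ∀ x, g * x ∈ T → h * x ∈ T → c (g * x) - c g = c (h * x) - c h) ∧
      (∀ g ∈ T, ∀ h ∈ T, ∀ x, g * x ∈ T → h * star x ∈ T →
        c (g * x) - c g = - (c (h * star x) - c h)) ∧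
      DS r Q m {k | ∃ g ∈ T, k = g * (τ (c g))⁻¹}

theorem DSI.toDS {r : ℕ} {Q : Subgroup A} {m : ℕ} {T : Set A} (h : DSI r Q m T) :
    DS r Q (m + 1) T := by
  obtain ⟨c, τ, h1, h2, h3, _, h5⟩ := h
  exact ⟨c, τ, h1, h2, h3, h5⟩

/-- rich systems of odd type -/
def RSI (r : ℕ) (m : ℕ) (Q : Subgroup B) : Prop :=
  ∃ a : B, star a = a⁻¹ ∧ ∃ L : Subgroup B,
      (∀ l₁ ∈ L, ∀ l₂ ∈ L, ∀ n : ℤ, 0 < n → n < r → clt Q l₁ (l₂ * a ^ n)) ∧
      (∀ l ∈ L, ∀ l' ∈ L, ∀ n : ℤ, n ≠ 0 → |n| < r → ceq Q (l * a ^ n * l') (l * a ^ n)) ∧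
      (∀ l ∈ L, ∀ l' ∈ L, ∀ n : ℤ, |n| < 2 * r →
        ceq Q (l * a ^ n * star l') (l * a ^ n)) ∧
      RS r m L Q

theorem pr_star_act {Q' L : Subgroup B} {a : B} {r : ℕ}
    (hfix : ∀ l ∈ L, ∀ l' ∈ L, ∀ n : ℤ, |n| < 2 * r →
      ceq Q' (l * a ^ n * star l') (l * a ^ n))
    {y : ℕ → B} (hy : ∀ k, y k ∈ L) {l : B} (hl : l ∈ L) {c : ℕ} (hc : c < r) (n : ℕ)
    (hn : n ≤ r) :
    ceq Q' (l * a ^ (c : ℤ) * pr (fun k => a ^ (k : ℤ) * star (y k) * a ^ (-(k : ℤ))) n)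
      (l * a ^ (c : ℤ)) := by
  induction n with
  | zero => simp [pr]; exact ceq_refl _ _
  | succ n ih =>
    have ih := ih (by omega)
    rw [pr, ← mul_assoc]
    refine ((ceq_mul_right _).mpr ih).trans ?_
    have h1 := hfix l hl (y n) (hy n) ((c : ℤ) + n) (by rw [abs_lt]; constructor <;> omega)
    have h2 := (ceq_mul_right (a ^ (-(n : ℤ)))).mpr h1
    rw [show l * a ^ ((c : ℤ) + n) * a ^ (-(n : ℤ)) = l * a ^ (c : ℤ) by
      rw [mul_assoc, ← zpow_add]; congr 2; ring] at h2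
    rw [show l * a ^ (c : ℤ) * (a ^ (n : ℤ) * star (y n) * a ^ (-(n : ℤ))) =
      l * a ^ ((c : ℤ) + n) * star (y n) * a ^ (-(n : ℤ)) by
        rw [zpow_add]; group]
    exact h2

/-- the action part of the simulation of odd type, for one element -/
theorem odd_act {Q : Subgroup A} {Q' L' : Subgroup B} {a : B} {r : ℕ} {T : Set A} {c : A → ℤ}
    {τ : ℤ → A} {Φ : A → B}
    (hfix : ∀ l ∈ L', ∀ l' ∈ L', ∀ n : ℤ, n ≠ 0 → |n| < r →
      ceq Q' (l * a ^ n * l') (l * a ^ n))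
    (hfix' : ∀ l ∈ L', ∀ l' ∈ L', ∀ n : ℤ, |n| < 2 * r →
      ceq Q' (l * a ^ n * star l') (l * a ^ n))
    (hc : ∀ g ∈ T, 0 ≤ c g ∧ c g < r)
    (hΦ : ∀ g ∈ {k | ∃ g ∈ T, k = g * (τ (c g))⁻¹}, Φ g ∈ L')
    {Y : A → B} (hYL : ∀ x, Y x ∈ L')
    (hY : ∀ x, ∀ g ∈ {k | ∃ g ∈ T, k = g * (τ (c g))⁻¹},
      g * x ∈ {k | ∃ g ∈ T, k = g * (τ (c g))⁻¹} → ceq Q' (Φ g * Y x) (Φ (g * x)))
    {x : A} {n : ℤ} (hn : ∀ g ∈ T, g * x ∈ T → c (g * x) - c g = n)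
    {Z : ℕ → B} (hZ : ∀ k, Z k ∈ L') {g : A} (hg : g ∈ T) (hgx : g * x ∈ T) :
    ceq Q' (Φ (g * (τ (c g))⁻¹) * a ^ (c g) *
      (pr (fun k : ℕ => a ^ (-(k : ℤ)) * Y (τ k * x * (τ (k + n))⁻¹) * a ^ (k : ℤ)) r *
        pr (fun k : ℕ => a ^ (k : ℤ) * star (Z k) * a ^ (-(k : ℤ))) r * a ^ n))
      (Φ (g * x * (τ (c (g * x)))⁻¹) * a ^ (c (g * x))) ∧
    ceq Q' (Φ (g * (τ (c g))⁻¹) * a ^ (c g) *
      (pr (fun k : ℕ => a ^ (k : ℤ) * star (Z k) * a ^ (-(k : ℤ))) r *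
      pr (fun k : ℕ => a ^ (-(k : ℤ)) * Y (τ k * x * (τ (k + n))⁻¹) * a ^ (k : ℤ)) r * a ^ n))
      (Φ (g * x * (τ (c (g * x)))⁻¹) * a ^ (c (g * x))) := by
  have hcg := hc g hg
  obtain ⟨k, hk⟩ := Int.eq_ofNat_of_zero_le hcg.1
  have hkr : k < r := by have := hcg.2; rw [hk] at this; exact_mod_cast this
  have hΦg := hΦ _ ⟨g, hg, rfl⟩
  have h1 := pr_act hfix (y := fun k : ℕ => Y (τ k * x * (τ (k + n))⁻¹))
    (fun _ => hYL _) hΦg hkr r le_rfl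
  rw [if_pos hkr] at h1
  have hcgx : c (g * x) = k + n := by
    have := hn g hg hgx
    omega
  have h3 : g * x * (τ (c (g * x)))⁻¹ ∈ {k | ∃ g ∈ T, k = g * (τ (c g))⁻¹} :=
    ⟨g * x, hgx, rfl⟩
  have h4 := hY (τ k * x * (τ (k + n))⁻¹) (g * (τ (c g))⁻¹) ⟨g, hg, rfl⟩ (by
    rw [hk, show g * (τ ↑k)⁻¹ * (τ ↑k * x * (τ (↑k + n))⁻¹) = g * x * (τ (k + n))⁻¹ by
      group]
    rw [hcgx] at h3
    exact h3)
  rw [hk, show g * (τ ↑k)⁻¹ * (τ ↑k * x * (τ (↑k + n))⁻¹) = g * x * (τ (k + n))⁻¹ by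
      group] at h4
  have h5 := (ceq_mul_right (a ^ ((k : ℤ) + n))).mpr h4
  rw [hk] at h1 hΦg
  rw [hk, hcgx]
  have h6 : Φ (g * (τ ↑k)⁻¹) * Y (τ k * x * (τ (k + n))⁻¹) ∈ L' :=
    L'.mul_mem hΦg (hYL _)
  constructor
  · rw [← mul_assoc, ← mul_assoc]
    have h7 := (ceq_mul_right (pr (fun k : ℕ => a ^ (k : ℤ) * star (Z k) * a ^ (-(k : ℤ))) r)).mpr h1
    have h8 := pr_star_act hfix' hZ h6 hkr r le_rfl
    refine ((ceq_mul_right (a ^ n)).mpr (h7.trans h8)).trans ?_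
    rw [mul_assoc _ (a ^ (k : ℤ)), ← zpow_add]
    exact h5
  · rw [← mul_assoc, ← mul_assoc]
    have h8 := pr_star_act hfix' hZ hΦg hkr r le_rfl
    have h9 := (ceq_mul_right (pr (fun k : ℕ => a ^ (-(k : ℤ)) * Y (τ k * x * (τ (k + n))⁻¹) *
      a ^ (k : ℤ)) r)).mpr h8
    refine ((ceq_mul_right (a ^ n)).mpr (h9.trans h1)).trans ?_
    rw [mul_assoc _ (a ^ (k : ℤ)), ← zpow_add]
    exact h5

/-- simulation of odd type -/
theorem msim_of_RSI {Q : Subgroup A} (hQ : IsPrimeC Q) {Q' : Subgroup B} (hQ' : IsPrimeC Q')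
    {r m : ℕ} {T : Set A} (hD : DSI r Q m T) (hR : RSI r m Q') : MSim Q T Q' := by
  obtain ⟨c, τ, hc, hlt, hdis, hdis', hDS⟩ := hD
  obtain ⟨a, ha, L', hlt', hfix, hfix', hRS⟩ := hR
  obtain ⟨Φ, hΦ, hΦo, hΦa⟩ := sim_of_RS hQ hQ' m _ L' hDS hRS
  choose Y hYL hY using hΦa
  refine ⟨fun g => Φ (g * (τ (c g))⁻¹) * a ^ (c g), ?_, ?_⟩
  · intro g hg h hh
    exact order_step hQ hQ' hc hlt hlt' hΦ hΦo hg hh
  · intro x
    obtain ⟨n, hn, hn'⟩ : ∃ n : ℤ, (∀ g ∈ T, g * x ∈ T → c (g * x) - c g = n) ∧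
        (∀ g ∈ T, g * star x ∈ T → c (g * star x) - c g = -n) := by
      by_cases h : ∃ g ∈ T, g * x ∈ T
      · obtain ⟨g0, h1, h2⟩ := h
        refine ⟨c (g0 * x) - c g0, fun g hg hgx => hdis g hg g0 h1 x hgx h2, ?_⟩
        intro g hg hgx
        have := hdis' g0 h1 g hg x h2 hgx
        omega
      · by_cases h' : ∃ g ∈ T, g * star x ∈ T
        · obtain ⟨g0, h1, h2⟩ := h'
          refine ⟨-(c (g0 * star x) - c g0), fun g hg hgx => absurd ⟨g, hg, hgx⟩ h, ?_⟩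
          intro g hg hgx
          have := hdis g hg g0 h1 _ hgx h2
          omega
        · exact ⟨0, fun g hg hgx => absurd ⟨g, hg, hgx⟩ h,
            fun g hg hgx => absurd ⟨g, hg, hgx⟩ h'⟩
    refine ⟨pr (fun k : ℕ => a ^ (-(k : ℤ)) * Y (τ k * x * (τ (k + n))⁻¹) * a ^ (k : ℤ)) r *
      pr (fun k : ℕ => a ^ (k : ℤ) * star (Y (τ k * star x * (τ (k + -n))⁻¹)) *
        a ^ (-(k : ℤ))) r * a ^ n, ?_⟩
    intro g hg
    constructor
    · intro hgx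
      exact (odd_act (Q := Q) hfix hfix' hc hΦ hYL hY hn
        (Z := fun k => Y (τ k * star x * (τ (k + -n))⁻¹)) (fun _ => hYL _) hg hgx).1
    · intro hgx
      have h1 := (odd_act (Q := Q) hfix hfix' hc hΦ hYL hY hn'
        (Z := fun k => Y (τ k * x * (τ (k + n))⁻¹)) (fun _ => hYL _) hg hgx).2
      have h2 : star (pr (fun k : ℕ => a ^ (-(k : ℤ)) * Y (τ k * x * (τ (k + n))⁻¹) *
          a ^ (k : ℤ)) r * pr (fun k : ℕ => a ^ (k : ℤ) *
          star (Y (τ k * star x * (τ (k + -n))⁻¹)) * a ^ (-(k : ℤ))) r * a ^ n) =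
          pr (fun k : ℕ => a ^ (k : ℤ) * star (Y (τ k * x * (τ (k + n))⁻¹)) *
          a ^ (-(k : ℤ))) r * pr (fun k : ℕ => a ^ (-(k : ℤ)) *
          Y (τ k * star x * (τ (k + -n))⁻¹) * a ^ (k : ℤ)) r * a ^ (-n) := by
        rw [MGroup.star_mul, MGroup.star_mul, star_pr, star_pr, star_zpow', ha, inv_zpow, ← zpow_neg]
        congr 2
        · congr 1
          funext k
          rw [MGroup.star_mul, MGroup.star_mul, star_zpow', star_zpow', ha, inv_zpow, inv_zpow, ← zpow_neg,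
            ← zpow_neg, neg_neg]
        · congr 1
          funext k
          rw [MGroup.star_mul, MGroup.star_mul, star_zpow', star_zpow', ha, inv_zpow, inv_zpow, ← zpow_neg,
            ← zpow_neg, neg_neg, MGroup.star_star]
      rw [h2]
      exact h1

end MSim

end Pool.Agent.Hhelper12.MG
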