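import Pool.Agent.Hhelper12.MG.NV

/-!
# Iterated solid commutator sets
-/

set_option autoImplicit false
set_option linter.unusedSectionVars false
set_option linter.unnecessarySimpa false
set_option linter.unusedVariables false

namespace Pool.Agent.Hhelper12.MG

open scoped commutatorElement

section Theta

variable {G : Type*} [Group G] [Lattice G]

/-- commutators of elements dominated by `S` -/
def Theta (S : Set G) : Set G :=
  {c | ∃ s ∈ S, ∃ s' ∈ S, ∃ a b : G, |a|ₘ ≤ |s|ₘ ∧ |b|ₘ ≤ |s'|ₘ ∧ c = ⁅a, b⁆}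

/-- iterates of `Theta` -/
def ThN : ℕ → Set G → Set G
  | 0, S => S
  | n + 1, S => Theta (ThN n S)

theorem ThN_zero (S : Set G) : ThN 0 S = S := rfl

theorem ThN_succ (n : ℕ) (S : Set G) : ThN (n + 1) S = Theta (ThN n S) := rfl

theorem ThN_succ' (n : ℕ) (S : Set G) : ThN (n + 1) S = ThN n (Theta S) := by
  induction n with
  | zero => rfl
  | succ n ih => rw [ThN_succ, ih, ThN_succ]

theorem Theta_mono {S T : Set G} (h : S ⊆ T) : Theta S ⊆ Theta T := by
  rintro c ⟨s, hs, s', hs', a, b, ha, hb, rfl⟩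
  exact ⟨s, h hs, s', h hs', a, b, ha, hb, rfl⟩

theorem ThN_mono {S T : Set G} (h : S ⊆ T) (n : ℕ) : ThN n S ⊆ ThN n T := by
  induction n with
  | zero => exact h
  | succ n ih => exact Theta_mono ih

theorem ThN_finite {S : Set G} {n : ℕ} {t : G} (ht : t ∈ ThN n S) :
    ∃ l : List G, (∀ x ∈ l, x ∈ S) ∧ t ∈ ThN n {x | x ∈ l} := by
  induction n generalizing t with
  | zero =>
    refine ⟨[t], ?_, by simp [ThN_zero]⟩
    intro x hx
    rw [List.mem_singleton] at hx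
    subst hx
    exact ht
  | succ n ih =>
    obtain ⟨s, hs, s', hs', a, b, ha, hb, rfl⟩ := ht
    obtain ⟨l, hl, hsl⟩ := ih hs
    obtain ⟨l', hl', hsl'⟩ := ih hs'
    refine ⟨l ++ l', ?_, s, ?_, s', ?_, a, b, ha, hb, rfl⟩
    · intro x hx
      rcases List.mem_append.mp hx with hx | hx
      · exact hl x hx
      · exact hl' x hx
    · exact ThN_mono (fun x hx => List.mem_append_left _ hx) n hsl
    · exact ThN_mono (fun x hx => List.mem_append_right _ hx) n hsl'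

theorem Theta_dom {S T : Set G} (h : ∀ s ∈ S, ∃ t ∈ T, |s|ₘ ≤ |t|ₘ) : Theta S ⊆ Theta T := by
  rintro c ⟨s, hs, s', hs', a, b, ha, hb, rfl⟩
  obtain ⟨t, ht, hst⟩ := h s hs
  obtain ⟨t', ht', hst'⟩ := h s' hs'
  exact ⟨t, ht, t', ht', a, b, ha.trans hst, hb.trans hst', rfl⟩

theorem ThN_dom {S T : Set G} (h : ∀ s ∈ S, ∃ t ∈ T, |s|ₘ ≤ |t|ₘ) {n : ℕ} (hn : n ≠ 0) :
    ThN n S ⊆ ThN n T := by
  obtain ⟨n, rfl⟩ := Nat.exists_eq_succ_of_ne_zero hn
  rw [Nat.succ_eq_add_one, ThN_succ', ThN_succ']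
  exact ThN_mono (Theta_dom h) n

/-- images under homomorphisms preserving domination -/
theorem ThN_map {H : Type*} [Group H] [Lattice H] (φ : G →* H)
    (hφ : ∀ x y : G, |x|ₘ ≤ |y|ₘ → |φ x|ₘ ≤ |φ y|ₘ) {S : Set G} {n : ℕ} {t : G}
    (ht : t ∈ ThN n S) : φ t ∈ ThN n (φ '' S) := by
  induction n generalizing t with
  | zero => exact ⟨t, ht, rfl⟩
  | succ n ih =>
    obtain ⟨s, hs, s', hs', a, b, ha, hb, rfl⟩ := ht
    exact ⟨φ s, ih hs, φ s', ih hs', φ a, φ b, hφ _ _ ha, hφ _ _ hb, map_commutatorElement φ a b⟩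

variable [MulLeftMono G] [MulRightMono G]

theorem ThN_subset_conv {S : Set G} {C : Subgroup G} (hC : IsConv C) (h : S ⊆ C) (n : ℕ) :
    ThN n S ⊆ C := by
  induction n with
  | zero => exact h
  | succ n ih =>
    rintro c ⟨s, hs, s', hs', a, b, ha, hb, rfl⟩
    have h1 : a ∈ C := hC s (ih hs) a ha
    have h2 : b ∈ C := hC s' (ih hs') b hb
    show _ ∈ C
    rw [commutatorElement_def]
    exact C.mul_mem (C.mul_mem (C.mul_mem h1 h2) (C.inv_mem h1)) (C.inv_mem h2)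

theorem ThN_conj {S : Set G} {n : ℕ} {t : G} (g : G) (ht : t ∈ ThN n S) :
    g * t * g⁻¹ ∈ ThN n ((fun x => g * x * g⁻¹) '' S) := by
  have := ThN_map (MulAut.conj g).toMonoidHom (by
    intro x y hxy
    simp only [MulEquiv.toMonoidHom_eq_coe, MonoidHom.coe_coe, MulAut.conj_apply]
    rw [mabs_conj, mabs_conj]
    exact mul_le_mul_left (mul_le_mul_right hxy _) _) ht
  have h2 : (⇑(MulAut.conj g).toMonoidHom '' S) = ((fun x => g * x * g⁻¹) '' S) := by
    apply Set.image_congr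
    intro a _
    simp
  rw [h2] at this
  simpa using this

theorem ThN_conj_inv {S : Set G} (hS : ∀ g : G, ∀ s ∈ S, g * s * g⁻¹ ∈ S) (n : ℕ) (g : G) {t : G}
    (ht : t ∈ ThN n S) : g * t * g⁻¹ ∈ ThN n S := by
  refine ThN_mono ?_ n (ThN_conj g ht)
  rintro _ ⟨s, hs, rfl⟩
  exact hS g s hs

theorem ThN_cj {C : Subgroup G} {n : ℕ} {t : G} (g : G) (ht : t ∈ ThN n (C : Set G)) :
    g⁻¹ * t * g ∈ ThN n (cj C g : Set G) := by
  have := ThN_conj g⁻¹ ht
  rw [inv_inv] at this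
  refine ThN_mono ?_ n this
  rintro _ ⟨s, hs, rfl⟩
  exact conj_mem_cj hs

/-! ### The leaf lemma -/

theorem exists_dominating {Q : Subgroup G} (hQ : IsPrimeC Q) (l : List G)
    (h : ∃ s ∈ l, s ∉ Q) : ∃ s0 ∈ l, s0 ∉ Q ∧ ∀ s ∈ l, s ∈ convGen ((Q : Set G) ∪ {s0}) := by
  induction l with
  | nil => simp at h
  | cons a l ih =>
    by_cases hl : ∃ s ∈ l, s ∉ Q
    · obtain ⟨s0, hs0, hs0Q, hs0m⟩ := ih hl
      have c1 : Q ≤ convGen ((Q : Set G) ∪ {a}) := fun x hx => subset_convGen _ (Or.inl hx)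
      have c2 : Q ≤ convGen ((Q : Set G) ∪ {s0}) := fun x hx => subset_convGen _ (Or.inl hx)
      rcases hQ.chain (isConv_convGen _) (isConv_convGen _) c1 c2 with h1 | h1
      · refine ⟨s0, by simp [hs0], hs0Q, ?_⟩
        intro s hs
        rcases List.mem_cons.mp hs with rfl | hs
        · exact h1 (subset_convGen _ (Or.inr rfl))
        · exact hs0m s hs
      · refine ⟨a, by simp, ?_, ?_⟩
        · intro haQ
          have : convGen ((Q : Set G) ∪ {a}) ≤ Q := by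
            apply convGen_le hQ.conv
            rintro x (hx | hx)
            · exact hx
            · rw [Set.mem_singleton_iff.mp hx]; exact haQ
          exact hs0Q (this (h1 (subset_convGen _ (Or.inr rfl))))
        · intro s hs
          rcases List.mem_cons.mp hs with rfl | hs
          · exact subset_convGen _ (Or.inr rfl)
          · exact h1 (hs0m s hs)
    · push Not at hl
      obtain ⟨s, hs, hsQ⟩ := h
      have hsa : s = a := by
        rcases List.mem_cons.mp hs with h1 | h1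
        · exact h1
        · exact absurd (hl s h1) hsQ
      subst hsa
      refine ⟨s, by simp, hsQ, ?_⟩
      intro x hx
      rcases List.mem_cons.mp hx with rfl | hx
      · exact subset_convGen _ (Or.inr rfl)
      · exact subset_convGen _ (Or.inl (hl x hx))

theorem leaf {Q : Subgroup G} (hQ : IsPrimeC Q) {S : Set G} {n : ℕ} {t : G}
    (ht : t ∈ ThN n S) (htQ : t ∉ Q) :
    ∃ s0 ∈ S, ∃ P : Subgroup G, Q ≤ P ∧ IsVal P s0 ∧ t ∈ ThN n (S ∩ cover P s0) := by
  obtain ⟨l, hl, htl⟩ := ThN_finite ht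
  have h1 : ∃ s ∈ l, s ∉ Q := by
    by_contra hcon
    push Not at hcon
    exact htQ (ThN_subset_conv hQ.conv (fun x hx => hcon x hx) n htl)
  obtain ⟨s0, hs0, hs0Q, hs0m⟩ := exists_dominating hQ l h1
  obtain ⟨P, hQP, hP⟩ := exists_isVal hQ.conv hs0Q
  refine ⟨s0, hl s0 hs0, P, hQP, hP, ThN_mono ?_ n htl⟩
  intro x hx
  refine ⟨hl x hx, ?_⟩
  refine (convGen_mono ?_ : convGen ((Q : Set G) ∪ {s0}) ≤ cover P s0) (hs0m x hx)
  exact Set.union_subset_union_left _ hQP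

/-! ### Truncation and transfer -/

/-- truncation of `a` by `z` -/
def tr (a z : G) : G := (a ⊓ |z|ₘ) ⊔ (|z|ₘ)⁻¹

theorem mabs_tr_le (a z : G) : |tr a z|ₘ ≤ |z|ₘ := by
  unfold tr
  rw [mabs_le']
  constructor
  · refine sup_le inf_le_right ?_
    exact (inv_le_one'.mpr (one_le_mabs z)).trans (one_le_mabs z)
  · rw [inv_sup, inv_inv]
    exact inf_le_right

theorem tr_of_le {a z : G} (h : |a|ₘ ≤ |z|ₘ) : tr a z = a := by
  unfold tr
  rw [inf_of_le_left ((le_mabs_self a).trans h)]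
  apply sup_of_le_left
  rw [inv_le']
  exact (inv_le_mabs a).trans h

/-- `x` and `y` act in the same way on the cosets `Q g`, `g ∈ C` -/
def Agree (Q C : Subgroup G) (x y : G) : Prop := ∀ g ∈ C, ceq Q (g * x) (g * y)

theorem Agree.refl (Q C : Subgroup G) (x : G) : Agree Q C x x := fun _ _ => ceq_refl _ _

theorem Agree.mul {Q C : Subgroup G} {x x' y y' : G} (hx : Agree Q C x x')
    (hy : Agree Q C y y') (hx' : x' ∈ C) : Agree Q C (x * y) (x' * y') := by
  intro g hg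
  rw [← mul_assoc, ← mul_assoc]
  exact ((ceq_mul_right y).mpr (hx g hg)).trans (hy (g * x') (C.mul_mem hg hx'))

theorem Agree.inv {Q C : Subgroup G} {x x' : G} (hx : Agree Q C x x') (hxC : x ∈ C) :
    Agree Q C x⁻¹ x'⁻¹ := by
  intro g hg
  have h1 := hx (g * x⁻¹) (C.mul_mem hg (C.inv_mem hxC))
  rw [inv_mul_cancel_right] at h1
  have h2 := (ceq_mul_right x'⁻¹).mpr h1
  rw [mul_inv_cancel_right] at h2
  exact h2.symm

theorem ceq_sup_congr {Q : Subgroup G} (hQ : IsPrimeC Q) {x x' y y' : G} (hx : ceq Q x x')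
    (hy : ceq Q y y') : ceq Q (x ⊔ y) (x' ⊔ y') := by
  rcases cle_total hQ x y with h | h
  · have h' := (cle_congr hQ.conv hx hy).mp h
    exact ((ceq_sup_of_cle hQ.conv h).trans hy).trans (ceq_sup_of_cle hQ.conv h').symm
  · have h' := (cle_congr hQ.conv hy hx).mp h
    exact ((ceq_sup_of_cle' hQ.conv h).trans hx).trans (ceq_sup_of_cle' hQ.conv h').symm

theorem ceq_inf_congr {Q : Subgroup G} (hQ : IsPrimeC Q) {x x' y y' : G} (hx : ceq Q x x')
    (hy : ceq Q y y') : ceq Q (x ⊓ y) (x' ⊓ y') := by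
  rcases cle_total hQ x y with h | h
  · have h' := (cle_congr hQ.conv hx hy).mp h
    exact ((ceq_inf_of_cle hQ.conv h).trans hx).trans (ceq_inf_of_cle hQ.conv h').symm
  · have h' := (cle_congr hQ.conv hy hx).mp h
    exact ((ceq_inf_of_cle' hQ.conv h).trans hy).trans (ceq_inf_of_cle' hQ.conv h').symm

theorem Agree.sup {Q C : Subgroup G} (hQ : IsPrimeC Q) {x x' y y' : G} (hx : Agree Q C x x')
    (hy : Agree Q C y y') : Agree Q C (x ⊔ y) (x' ⊔ y') := by
  intro g hg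
  rw [mul_sup, mul_sup]
  exact ceq_sup_congr hQ (hx g hg) (hy g hg)

theorem Agree.inf {Q C : Subgroup G} (hQ : IsPrimeC Q) {x x' y y' : G} (hx : Agree Q C x x')
    (hy : Agree Q C y y') : Agree Q C (x ⊓ y) (x' ⊓ y') := by
  intro g hg
  rw [mul_inf, mul_inf]
  exact ceq_inf_congr hQ (hx g hg) (hy g hg)

theorem Agree.mabs {Q C : Subgroup G} (hQ : IsPrimeC Q) {x x' : G} (hx : Agree Q C x x')
    (hxC : x ∈ C) : Agree Q C |x|ₘ |x'|ₘ := by
  unfold _root_.mabs
  exact hx.sup hQ (hx.inv hxC)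

theorem Agree.tr {Q C : Subgroup G} (hQ : IsPrimeC Q) (hC : IsConv C) {a z z' : G}
    (hz : Agree Q C z z') (hzC : z ∈ C) : Agree Q C (tr a z) (tr a z') := by
  unfold MG.tr
  have h1 := hz.mabs hQ hzC
  exact ((Agree.refl Q C a).inf hQ h1).sup hQ (h1.inv (hC.mabs_mem hzC))

theorem Agree.commutator {Q C : Subgroup G} {a a' b b' : G} (ha : Agree Q C a a')
    (hb : Agree Q C b b') (haC : a ∈ C) (haC' : a' ∈ C) (hbC : b ∈ C) (hbC' : b' ∈ C) :
    Agree Q C ⁅a, b⁆ ⁅a', b'⁆ := by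
  rw [commutatorElement_def, commutatorElement_def]
  exact ((ha.mul hb haC').mul (ha.inv haC) (C.mul_mem haC' hbC')).mul (hb.inv hbC)
    (C.mul_mem (C.mul_mem haC' hbC') (C.inv_mem haC'))

theorem clt_mono {P P' : Subgroup G} (h : P ≤ P') {x y : G} (hxy : clt P' x y) : clt P x y :=
  fun h' => hxy (cle_mono h h')

/-- truncation by powers of `h` does not change the action -/
theorem NV.agree_trunc (hNV : NV G) {P Q : Subgroup G} {f : G} (hP : IsVal P f) (hQ : IsPrimeC Q)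
    (hQP : Q ≤ P) {h : G} (hh : h ∈ cover P f) (hhP : h ∉ P) (hh1 : 1 ≤ h) {u : G}
    (hu : u ∈ cover P f) : ∃ N : ℕ, Agree Q (cover P f) u (u ⊓ h ^ N) := by
  obtain ⟨m, hm⟩ := hNV.arch hP hh hhP hh1 hu
  refine ⟨m + 1, ?_⟩
  have h1 : clt P 1 h := by
    apply one_lt_of_not_mem
    rwa [sup_of_le_left hh1]
  have h2 : clt P u (h ^ (m + 1)) := by
    have := (clt_mul_right (h ^ m)).mpr h1
    rw [one_mul, ← pow_succ'] at this
    exact hm.trans_clt hP.conv this
  intro g hg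
  have h3 : clt P (g * u) (g * h ^ (m + 1)) :=
    (clt_mul_left (hNV.cover_le_normalizer hP hg)).mpr h2
  have h4 : cle Q (g * u) (g * h ^ (m + 1)) := (clt_mono hQP h3).le hQ
  rw [mul_inf]
  exact (ceq_inf_of_cle hQ.conv h4).symm

theorem NV.transfer (hNV : NV G) {P Q : Subgroup G} {f : G} (hP : IsVal P f) (hQ : IsPrimeC Q)
    (hQP : Q ≤ P) {h : G} (hh : h ∈ cover P f) (hhP : h ∉ P) (hh1 : 1 ≤ h) {j : ℕ} {s : G}
    (hs : s ∈ ThN j (cover P f : Set G)) :
    ∃ s' ∈ ThN j (convGen {h} : Set G), Agree Q (cover P f) s s' := by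
  have hC := isConv_cover P f
  have hle : convGen {h} ≤ cover P f := by
    apply convGen_le hC
    rintro x hx
    rw [Set.mem_singleton_iff.mp hx]
    exact hh
  induction j generalizing s with
  | zero =>
    have hs' : s ∈ cover P f := hs
    obtain ⟨N, hN⟩ := hNV.agree_trunc hP hQ hQP hh hhP hh1 (hC.pos_mem hs')
    obtain ⟨N', hN'⟩ := hNV.agree_trunc hP hQ hQP hh hhP hh1 (hC.neg_mem hs')
    have hu : (s ⊔ 1) ⊓ h ^ N ∈ convGen {h} := by
      apply mem_convGen_of_le_pow (n := N)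
      rw [mabs_of_one_le (le_inf le_sup_right (one_le_pow_of_one_le' hh1 N))]
      exact inf_le_right
    have hv : (s⁻¹ ⊔ 1) ⊓ h ^ N' ∈ convGen {h} := by
      apply mem_convGen_of_le_pow (n := N')
      rw [mabs_of_one_le (le_inf le_sup_right (one_le_pow_of_one_le' hh1 N'))]
      exact inf_le_right
    refine ⟨((s ⊔ 1) ⊓ h ^ N) * ((s⁻¹ ⊔ 1) ⊓ h ^ N')⁻¹, ?_, ?_⟩
    · exact (convGen {h}).mul_mem hu ((convGen {h}).inv_mem hv)
    · have := hN.mul (hN'.inv (hC.neg_mem hs')) (hle hu)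
      rwa [pos_div_neg] at this
  | succ j ih =>
    obtain ⟨s1, hs1, s2, hs2, a, b, ha, hb, rfl⟩ := hs
    obtain ⟨s1', hs1', h1⟩ := ih hs1
    obtain ⟨s2', hs2', h2⟩ := ih hs2
    have m1 : s1 ∈ cover P f := ThN_subset_conv hC le_rfl j hs1
    have m2 : s2 ∈ cover P f := ThN_subset_conv hC le_rfl j hs2
    have m1' : s1' ∈ convGen {h} := ThN_subset_conv (isConv_convGen _) le_rfl j hs1'
    have m2' : s2' ∈ convGen {h} := ThN_subset_conv (isConv_convGen _) le_rfl j hs2'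
    refine ⟨⁅tr a s1', tr b s2'⁆, ⟨s1', hs1', s2', hs2', _, _, mabs_tr_le _ _, mabs_tr_le _ _,
      rfl⟩, ?_⟩
    have ga : Agree Q (cover P f) a (tr a s1') := by
      have := h1.tr (a := a) hQ hC m1
      rwa [tr_of_le ha] at this
    have gb : Agree Q (cover P f) b (tr b s2') := by
      have := h2.tr (a := b) hQ hC m2
      rwa [tr_of_le hb] at this
    have ma : a ∈ cover P f := hC _ m1 _ ha
    have mb : b ∈ cover P f := hC _ m2 _ hb
    have ma' : tr a s1' ∈ cover P f := hC _ (hle m1') _ (mabs_tr_le _ _)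
    have mb' : tr b s2' ∈ cover P f := hC _ (hle m2') _ (mabs_tr_le _ _)
    exact ga.commutator gb ma ma' mb mb'

theorem NV.transfer' (hNV : NV G) {P Q : Subgroup G} {f : G} (hP : IsVal P f) (hQ : IsPrimeC Q)
    (hQP : Q ≤ P) {h : G} (hh : h ∈ cover P f) (hhP : h ∉ P) (hh1 : 1 ≤ h) {j : ℕ} {s : G}
    (hs : s ∈ ThN j (cover P f : Set G)) (hsQ : s ∉ Q) :
    ∃ s' ∈ ThN j (convGen {h} : Set G), s' ∉ Q := by
  obtain ⟨s', hs', hag⟩ := hNV.transfer hP hQ hQP hh hhP hh1 hs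
  refine ⟨s', hs', ?_⟩
  intro h'
  apply hsQ
  have := hag 1 (one_mem _)
  rw [one_mul, one_mul] at this
  rw [← ceq_one]
  exact this.trans (ceq_one.mpr h')

end Theta

end Pool.Agent.Hhelper12.MG
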